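import Pool.Agent.Run7.h409.Dig.Cert

/-!
# The certificate (data)
-/

set_option autoImplicit false
set_option linter.all false

namespace Run7.h409.Dig.D12

open Run7.h409.Dig

def par : Par := ⟨12, 134438, [0, 551091, 0, 183697, 0, 110218, 0, 78727, 0, 61232, 0, 50099, 0]⟩

def L0 : Leaf :=
  ⟨[(-102, 7), (-133, 119), (-342, -249), (-497, -338), (421, -1376), (1316, -477), (2097, 1703),
    (-2819, 1687), (779, -2347), (259, 1733), (-503, -591), (56, 259), (-118, -65)],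
  [(0, 0), (0, 0), (0, 0), (0, 0), (0, 0), (0, 0), (0, 0), (0, 0), (0, 0), (0, 0), (0, 0), (0,
    0)],
  [(-320, -96), (411, 78), (-12, -203), (577, 1227), (197, 1), (-845, 1241), (82, 345), (-448,
    125), (276, -167), (-76, 269), (341, 312), (-19, 66), (4, 32)],
  [⟨3, 527713, [(0, 2132)], [(53, 0, 149)]⟩,
  ⟨1, 150466, [], [(49, 1, 569), (48, 1, 1543)]⟩,
  ⟨1, 191068, [], [(8, 3, 118)]⟩,
  ⟨6836, 141863, [], []⟩,
  ⟨1, 139072, [], [(41, 4, 123)]⟩,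
  ⟨2944, 142755, [], []⟩,
  ⟨1, 153998, [], [(33, 2, 95)]⟩,
  ⟨2424, 143848, [], []⟩,
  ⟨1368, 151751, [], []⟩,
  ⟨1098, 144334, [], []⟩,
  ⟨150, 172857, [], []⟩,
  ⟨121, 139684, [], []⟩]⟩


def L1 : Leaf :=
  ⟨[(-94, -74), (-98, 28), (-131, -387), (-76, -333), (875, -630), (433, 205), (1940, 902),
    (-2468, 2676), (-862, -2801), (1207, 723), (-522, 76), (-185, -86), (51, -179)],
  [(0, 0), (0, 0), (0, 0), (0, 0), (0, 0), (0, 0), (0, 0), (0, 0), (0, 0), (0, 0), (0, 0), (0,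
    0)],
  [(-205, 33), (-553, -9), (288, 293), (-515, 635), (1961, 2182), (950, -2649), (-2570, 194),
    (-47, 53), (-519, -488), (426, -404), (51, 68), (191, 65), (-50, 51)],
  [⟨1, 476969, [], [(56, 2, 1115)]⟩,
  ⟨1, 164236, [], [(51, 0, 2), (50, 0, 1689)]⟩,
  ⟨1, 153556, [], [(10, 5, 140)]⟩,
  ⟨1, 121196, [], [(46, 1, 554)]⟩,
  ⟨1, 198503, [], [(43, 6, 59)]⟩,
  ⟨3305, 144060, [], []⟩,
  ⟨1, 163437, [], [(35, 4, 86)]⟩,
  ⟨3048, 144368, [], []⟩,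
  ⟨57, 154558, [], []⟩,
  ⟨852, 142986, [], []⟩,
  ⟨396, 182000, [], []⟩,
  ⟨170, 143491, [], []⟩]⟩


def L2 : Leaf :=
  ⟨[(407, 332), (-501, 923), (-1732, 169), (-489, -2660), (1916, 432), (-814, -647), (1884, 306),
    (-977, 570), (664, -187), (-296, 327), (154, 58), (-118, 59), (13, 69)],
  [(0, 0), (0, 0), (0, 0), (0, 0), (0, 0), (0, 0), (0, 0), (0, 0), (0, 0), (0, 0), (0, 0), (0,
    0)],
  [(479, 317), (-114, -244), (-1188, -160), (-2259, 1169), (1333, 1273), (63, -1878), (475, 537),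
    (1122, -1570), (-563, 250), (252, -86), (-439, -12), (-2, -109), (28, -40)],
  [⟨1, 482727, [], [(57, 3, 726)]⟩,
  ⟨1, 118150, [], [(4, 1, 413)]⟩,
  ⟨1, 167909, [], [(11, 6, 1731)]⟩,
  ⟨1, 129200, [], [(47, 2, 1554)]⟩,
  ⟨1, 166726, [], [(44, 7, 5)]⟩,
  ⟨4445, 138309, [], []⟩,
  ⟨1, 138983, [], [(36, 0, 162)]⟩,
  ⟨3776, 138316, [], []⟩,
  ⟨594, 166408, [], []⟩,
  ⟨2148, 138453, [], []⟩,
  ⟨412, 171539, [], []⟩,
  ⟨288, 137776, [], []⟩]⟩


def L3 : Leaf :=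
  ⟨[(-19, -53), (-91, -38), (45, -26), (-152, -64), (-515, 95), (-13, -2136), (2775, 925), (-1078,
    1012), (920, 424), (-1392, 877), (-108, -564), (-394, -39), (119, -298)],
  [(31, -3), (-48, 36), (25, -56), (-4, 32), (21, -10), (-18, 15), (22, 8), (-23, -3), (14, 29),
    (-42, -45), (57, 18), (-31, 8)],
  [(-166, -49), (221, -277), (-45, 1124), (558, 899), (537, 526), (179, -2070), (-2509, -236),
    (827, 277), (-491, -993), (846, 1415), (664, 6), (-9, 78), (-12, -12)],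
  [⟨1, 479471, [], [(57, 3, 638)]⟩,
  ⟨1, 120287, [], [(4, 1, 419)]⟩,
  ⟨1, 178395, [(6, 237)], [(11, 6, 1182)]⟩,
  ⟨1, 125072, [], [(47, 2, 1784)]⟩,
  ⟨1, 182356, [], [(43, 42, 6)]⟩,
  ⟨10218, 147854, [], []⟩,
  ⟨1, 141803, [], [(37, 0, 191), (5, 0, 437)]⟩,
  ⟨373, 143723, [], []⟩,
  ⟨74, 141863, [], []⟩,
  ⟨1118, 146008, [], []⟩,
  ⟨178, 177777, [], []⟩,
  ⟨206, 144765, [], []⟩]⟩


def L4 : Leaf :=
  ⟨[(98, -134), (-255, -40), (453, -229), (-882, 198), (774, -1411), (611, 257), (1919, 206),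
    (-1100, 2799), (-1032, -1600), (810, 968), (-1126, 188), (-407, -556), (200, -401)],
  [(0, 0), (0, 0), (0, 0), (0, 0), (0, 0), (0, 0), (0, 0), (0, 0), (0, 0), (0, 0), (0, 0), (0,
    0)],
  [(1450, -354), (99, -2175), (-164, 338), (55, -613), (-103, 1414), (940, -1256), (-2714, 25),
    (-348, 1434), (-318, 83), (59, -95), (-29, -5), (101, 17), (-32, 61)],
  [⟨1, 472621, [], [(60, 6, 793)]⟩,
  ⟨1, 157162, [], [(55, 7, 1175)]⟩,
  ⟨1, 158824, [(9, 164)], [(14, 9, 450)]⟩,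
  ⟨1, 106244, [(5, 153)], [(5, 3, 365)]⟩,
  ⟨1, 121949, [], [(47, 10, 527)]⟩,
  ⟨1, 104387, [(0, 226)], [(42, 0, 882)]⟩,
  ⟨1, 166463, [], [(39, 37, 171), (37, 8, 112)]⟩,
  ⟨1785, 173930, [], []⟩,
  ⟨1, 199352, [], [(31, 1, 17)]⟩,
  ⟨1244, 171669, [], []⟩,
  ⟨54, 187144, [], []⟩,
  ⟨758, 170066, [], []⟩]⟩


def L5 : Leaf :=
  ⟨[(-59, -160), (-195, 2), (-45, -451), (-82, -531), (1278, -356), (-18, 316), (2028, 415),
    (-1796, 2708), (-964, -1968), (684, 417), (-44, 10), (-469, 359), (-144, -480)],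
  [(0, 0), (0, 0), (0, 0), (0, 0), (0, 0), (0, 0), (0, 0), (0, 0), (0, 0), (0, 0), (0, 0), (0,
    0)],
  [(85, 402), (-215, -599), (-970, 1239), (506, 629), (772, 210), (342, -2349), (-2296, 4), (871,
    -60), (-1274, -1230), (198, 239), (-278, -1055), (-71, -306), (-88, -196)],
  [⟨1, 468082, [], [(61, 7, 783)]⟩,
  ⟨1, 146768, [], [(56, 8, 946)]⟩,
  ⟨1, 213669, [], [(15, 10, 1319)]⟩,
  ⟨1, 102156, [], [(6, 4, 413)]⟩,
  ⟨1, 125521, [], [(48, 11, 206)]⟩,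
  ⟨1, 109612, [], [(3, 1, 312)]⟩,
  ⟨1, 129646, [], [(40, 5, 460)]⟩,
  ⟨1, 151170, [], [(35, 0, 460)]⟩,
  ⟨2294, 128980, [], [(30, 2, 9)]⟩,
  ⟨3825, 141300, [], []⟩,
  ⟨120, 168401, [], []⟩,
  ⟨794, 143152, [], []⟩]⟩


def L6 : Leaf :=
  ⟨[(-112, -141), (41, -1), (339, -83), (-602, 694), (-685, -866), (305, -1622), (2854, 586),
    (-1523, 1871), (730, -962), (-777, 1559), (-188, -1043), (-159, 537), (-93, -417)],
  [(0, 0), (0, 0), (0, 0), (0, 0), (0, 0), (0, 0), (0, 0), (0, 0), (0, 0), (0, 0), (0, 0), (0,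
    0)],
  [(120, -8), (-5, -813), (-1089, 529), (18, 1173), (1285, 1448), (724, -1777), (-2458, 670),
    (452, 432), (-2079, -316), (-378, 842), (-1173, -543), (-354, 412), (-336, -272)],
  [⟨1, 475656, [], [(61, 7, 885)]⟩,
  ⟨1, 108327, [], [(56, 8, 1279)]⟩,
  ⟨1, 209756, [(10, 265)], [(15, 10, 544), (13, 10, 67)]⟩,
  ⟨1, 100859, [], [(6, 4, 498)]⟩,
  ⟨1, 121821, [], [(48, 11, 147)]⟩,
  ⟨1, 109081, [], [(3, 1, 184)]⟩,
  ⟨1, 124703, [], [(40, 5, 197)]⟩,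
  ⟨1, 170230, [], [(34, 0, 321)]⟩,
  ⟨1, 129445, [], [(32, 2, 72)]⟩,
  ⟨1977, 139633, [], []⟩,
  ⟨2264, 170381, [], []⟩,
  ⟨545, 136119, [], []⟩]⟩


def L7 : Leaf :=
  ⟨[(-234, 8), (-376, -111), (-200, -840), (335, -592), (1317, -680), (857, 1184), (433, 888),
    (-1728, 1158), (443, -2049), (660, 2051), (-1431, -641), (358, -62), (-223, -138)],
  [(0, 0), (0, 0), (0, 0), (0, 0), (0, 0), (0, 0), (0, 0), (0, 0), (0, 0), (0, 0), (0, 0), (0,
    0)],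
  [(1, 145), (-587, 22), (-196, 1713), (381, 104), (401, 1091), (1077, -1634), (-2182, 225), (785,
    1300), (172, -50), (307, 199), (-265, 671), (890, 612), (-60, -109)],
  [⟨1, 474868, [], [(60, 6, 752)]⟩,
  ⟨1, 138618, [], [(55, 7, 855)]⟩,
  ⟨1, 211491, [], [(14, 9, 1403)]⟩,
  ⟨1, 106605, [], [(5, 3, 341)]⟩,
  ⟨1, 130831, [], [(47, 10, 234)]⟩,
  ⟨1, 127727, [], [(43, 2, 267), (42, 2, 72)]⟩,
  ⟨1, 146510, [], [(39, 4, 331)]⟩,
  ⟨9658, 137616, [], []⟩,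
  ⟨1, 115985, [], [(1, 0, 98)]⟩,
  ⟨4702, 134139, [], []⟩,
  ⟨1011, 167876, [], []⟩,
  ⟨691, 136329, [], []⟩]⟩


def L8 : Leaf :=
  ⟨[(-243, -261), (158, -564), (872, -79), (-75, 580), (-52, -188), (294, -766), (2171, 1397),
    (-2196, 1842), (-17, -947), (-1198, 680), (-103, -1439), (257, 81), (120, -235)],
  [(-3, 2), (-2, -10), (13, 1), (-3, 8), (0, 1), (-6, 3), (0, -6), (1, 0), (6, -6), (6, 12), (-10,
    2), (0, -4)],
  [(-116, -303), (-697, -878), (-1408, 222), (-694, 710), (913, 1209), (606, -1673), (-1336, 904),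
    (1280, 113), (-854, -193), (282, 227), (-1074, 23), (124, 661), (-192, -121)],
  [⟨1, 462632, [], [(60, 6, 731)]⟩,
  ⟨1, 138386, [], [(55, 7, 816)]⟩,
  ⟨1, 214204, [], [(14, 9, 1285)]⟩,
  ⟨1, 112326, [], [(5, 3, 303)]⟩,
  ⟨1, 135540, [], [(47, 10, 320)]⟩,
  ⟨1, 130592, [], [(43, 2, 29), (42, 2, 499)]⟩,
  ⟨1, 144309, [], [(39, 4, 125), (37, 4, 283)]⟩,
  ⟨10212, 137403, [], []⟩,
  ⟨1, 132194, [], [(32, 0, 118)]⟩,
  ⟨4152, 137075, [], []⟩,
  ⟨1078, 169579, [], []⟩,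
  ⟨632, 137165, [], []⟩]⟩


def L9 : Leaf :=
  ⟨[(140, 618), (-1180, -449), (661, 201), (-1923, -1168), (2895, -1509), (136, 2098), (-379, 68),
    (-546, -175), (605, -57), (-423, 139), (237, -19), (-67, -7), (1, 119)],
  [(0, 0), (0, 0), (0, 0), (0, 0), (0, 0), (0, 0), (0, 0), (0, 0), (0, 0), (0, 0), (0, 0), (0,
    0)],
  [(296, 145), (-757, -932), (-1759, 538), (-1451, 1206), (1015, 837), (-871, -2514), (-1448,
    613), (251, -1514), (-1512, 96), (583, -32), (-534, 105), (204, 108), (-166, 81)],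
  [⟨1, 476767, [], [(60, 6, 843)]⟩,
  ⟨1, 123405, [], [(55, 7, 1269)]⟩,
  ⟨1, 202857, [(9, 276)], [(14, 9, 381), (12, 9, 80)]⟩,
  ⟨1, 115756, [], [(5, 3, 467)]⟩,
  ⟨1, 171477, [], [(47, 10, 101), (45, 10, 37)]⟩,
  ⟨1, 117152, [], [(44, 2, 394)]⟩,
  ⟨1, 126187, [], [(39, 0, 177)]⟩,
  ⟨5521, 136569, [], []⟩,
  ⟨1, 129939, [], [(31, 1, 119)]⟩,
  ⟨1279, 143715, [], []⟩,
  ⟨1928, 175399, [], []⟩,
  ⟨965, 136394, [], []⟩]⟩


def L10 : Leaf :=
  ⟨[(-30, -136), (-89, -114), (517, -278), (24, 206), (627, 193), (-106, 487), (-54, 1382),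
    (-2659, -1013), (2176, -1569), (-385, 1402), (227, -571), (-321, 450), (38, -305)],
  [(0, 0), (0, 0), (0, 0), (0, 0), (0, 0), (0, 0), (0, 0), (0, 0), (0, 0), (0, 0), (0, 0), (0,
    0)],
  [(260, 850), (-154, 330), (-387, 1981), (104, 1319), (903, 975), (-1032, -1856), (-2142, 1863),
    (1126, 160), (-773, 427), (1250, 524), (18, -113), (111, -45), (-163, 44)],
  [⟨1, 481063, [], [(60, 6, 779)]⟩,
  ⟨1, 104767, [], [(55, 7, 1259)]⟩,
  ⟨1, 229012, [], [(14, 9, 1016)]⟩,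
  ⟨1, 109737, [], [(5, 3, 416)]⟩,
  ⟨1, 152217, [], [(47, 10, 95)]⟩,
  ⟨1, 130408, [], [(44, 2, 363)]⟩,
  ⟨1, 131554, [], [(4, 0, 619)]⟩,
  ⟨3123, 133638, [], []⟩,
  ⟨1, 151658, [], [(31, 1, 136)]⟩,
  ⟨1734, 139827, [], []⟩,
  ⟨567, 170563, [], []⟩,
  ⟨1496, 136914, [], []⟩]⟩


def L11 : Leaf :=
  ⟨[(-197, 771), (-1291, -1063), (1013, 77), (-1580, -1097), (2654, -1168), (281, 1686), (-282,
    400), (-500, -442), (875, 97), (-149, 595), (-359, 274), (-193, -152), (-87, -1)],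
  [(0, 0), (0, 0), (0, 0), (0, 0), (0, 0), (0, 0), (0, 0), (0, 0), (0, 0), (0, 0), (0, 0), (0,
    0)],
  [(-176, -53), (-1350, -350), (-1297, 2716), (1836, -158), (-1163, -756), (424, 28), (-628,
    -325), (476, 841), (-118, 406), (290, 1114), (-468, 666), (323, 889), (-208, -86)],
  [⟨1, 501389, [], [(61, 7, 731)]⟩,
  ⟨1, 119458, [], [(56, 8, 1059)]⟩,
  ⟨1, 205954, [], [(15, 10, 937)]⟩,
  ⟨1, 101882, [], [(6, 4, 262)]⟩,
  ⟨1, 123815, [], [(48, 11, 172)]⟩,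
  ⟨1, 159875, [], [(45, 3, 119)]⟩,
  ⟨1, 121463, [], [(40, 5, 622)]⟩,
  ⟨1, 179018, [], [(36, 0, 508)]⟩,
  ⟨1, 103430, [], [(2, 1, 457)]⟩,
  ⟨6271, 138638, [], []⟩,
  ⟨1741, 160716, [], []⟩,
  ⟨619, 135607, [], []⟩]⟩


def L12 : Leaf :=
  ⟨[(71, 758), (-1435, -426), (694, -291), (-1550, -734), (2371, -1446), (17, 1855), (-446, -501),
    (176, -431), (1036, 383), (-516, 735), (-142, -44), (-142, 7), (-24, 60)],
  [(0, 0), (0, 0), (0, 0), (0, 0), (0, 0), (0, 0), (0, 0), (0, 0), (0, 0), (0, 0), (0, 0), (0,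
    0)],
  [(-3, 13), (0, -8), (35, 62), (1505, 331), (1472, 250), (1224, -643), (-916, -56), (-230, 337),
    (-733, 976), (1928, -314), (-1076, -1878), (1140, 983), (1582, -1723)],
  [⟨1, 511172, [], [(61, 7, 715)]⟩,
  ⟨1, 124442, [], [(56, 8, 1454)]⟩,
  ⟨1, 180555, [], [(15, 10, 444)]⟩,
  ⟨1, 108699, [], [(6, 4, 287)]⟩,
  ⟨1, 115156, [], [(48, 11, 227)]⟩,
  ⟨1, 162725, [], [(45, 3, 23)]⟩,
  ⟨1, 111124, [], [(40, 5, 628)]⟩,
  ⟨1, 123607, [], [(37, 0, 938)]⟩,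
  ⟨1, 97845, [], [(2, 1, 562)]⟩,
  ⟨1110, 142448, [], []⟩,
  ⟨206, 148098, [], []⟩,
  ⟨415, 137923, [], []⟩]⟩


def L13 : Leaf :=
  ⟨[(-210, 725), (-1040, -817), (272, -170), (-123, -1500), (1525, 638), (-162, -388), (1156,
    1419), (-1829, -64), (1068, -1007), (730, 1304), (-1331, 595), (-121, -793), (52, 58)],
  [(-32, 353), (-364, 87), (-241, 148), (-352, -92), (-303, 44), (-271, -167), (-312, -63), (-191,
    -240), (-319, -173), (-75, -273), (-206, -312), (218, -279)],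
  [(2481, 223), (575, -2854), (-1180, 878), (1101, -279), (-295, 529), (749, 83), (-573, -196),
    (309, -522), (-212, -561), (-25, -1078), (-630, -826), (166, -572), (0, 1)],
  [⟨1, 511950, [], [(62, 8, 731)]⟩,
  ⟨1, 125843, [], [(57, 9, 1063)]⟩,
  ⟨1, 183936, [], [(16, 11, 328)]⟩,
  ⟨1, 102779, [], [(7, 5, 256)]⟩,
  ⟨1, 121767, [], [(49, 12, 133)]⟩,
  ⟨1, 162523, [], [(46, 4, 7)]⟩,
  ⟨1, 120104, [], [(41, 6, 462)]⟩,
  ⟨1, 159955, [], [(37, 0, 648)]⟩,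
  ⟨1, 119155, [], [(34, 2, 469)]⟩,
  ⟨12416, 143384, [], []⟩,
  ⟨1, 115967, [], [(25, 1, 98)]⟩,
  ⟨70, 137689, [], []⟩]⟩


def L14 : Leaf :=
  ⟨[(-2, -5), (-506, -135), (535, -452), (-380, -115), (1164, -69), (-877, 147), (1510, -219),
    (-1054, 848), (1459, -810), (-193, 2403), (-1988, 23), (-379, -1516), (710, -104)],
  [(45, 11), (-6, 41), (26, 34), (-27, 39), (2, 43), (-32, 25), (-11, 39), (-41, 14), (-27, 39),
    (-41, -11), (-37, 20), (-26, -38)],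
  [(1049, 785), (511, 60), (696, 1209), (316, -582), (71, 1345), (1131, -1768), (-2262, -416),
    (855, 1180), (1393, -69), (1072, -477), (321, -453), (391, -442), (-1, 3)],
  [⟨1, 518298, [], [(62, 8, 770)]⟩,
  ⟨1, 141236, [], [(57, 9, 1181)]⟩,
  ⟨1, 176168, [], [(16, 11, 581)]⟩,
  ⟨1, 106942, [], [(7, 5, 253)]⟩,
  ⟨1, 128838, [], [(49, 12, 179)]⟩,
  ⟨1, 160087, [], [(46, 4, 1), (43, 4, 55)]⟩,
  ⟨1, 121915, [], [(41, 6, 519)]⟩,
  ⟨2204, 135402, [], [(38, 0, 724)]⟩,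
  ⟨1, 127813, [], [(34, 2, 257)]⟩,
  ⟨7251, 138061, [], []⟩,
  ⟨1, 117649, [], [(25, 1, 53)]⟩,
  ⟨83, 132744, [], []⟩]⟩


def L15 : Leaf :=
  ⟨[(-578, -173), (296, -715), (236, -78), (-100, -767), (2697, -346), (-628, 3243), (-1142,
    -999), (-130, 619), (5, -914), (-69, 1012), (-298, -621), (-313, 273), (30, -518)],
  [(-32, 9), (19, -66), (32, 40), (4, 0), (-23, 25), (7, -20), (-20, 9), (23, -25), (0, 4), (43,
    29), (-65, 23), (7, -32)],
  [(895, 508), (-477, -118), (85, 1101), (-133, 59), (1087, 1911), (1528, -1955), (-1877, -269),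
    (334, 817), (441, 317), (508, -3), (431, 123), (1076, -419), (242, 8)],
  [⟨1, 505068, [], [(61, 7, 827)]⟩,
  ⟨1, 137509, [], [(56, 8, 768), (55, 8, 275)]⟩,
  ⟨1, 212768, [], [(15, 10, 1361)]⟩,
  ⟨1, 113612, [], [(6, 4, 293)]⟩,
  ⟨1, 135519, [], [(48, 11, 168)]⟩,
  ⟨1, 160508, [], [(45, 3, 116)]⟩,
  ⟨1, 128255, [], [(40, 5, 439)]⟩,
  ⟨7298, 138775, [], []⟩,
  ⟨1, 125614, [], [(33, 1, 156)]⟩,
  ⟨443, 131970, [], []⟩,
  ⟨1, 119770, [], [(25, 0, 87)]⟩,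
  ⟨1866, 140737, [], []⟩]⟩


def L16 : Leaf :=
  ⟨[(-313, 759), (-1442, -1587), (2262, -411), (-791, 859), (295, -234), (-456, -650), (1580, 71),
    (-383, 719), (202, 331), (-456, 109), (-36, 85), (-135, -69), (-56, 18)],
  [(43, -16), (46, 123), (-146, 96), (-171, -44), (-111, -204), (100, -206), (209, -92), (200,
    118), (38, 172), (-101, 142), (-121, -50), (17, -42)],
  [(1478, 173), (752, -1587), (131, 196), (469, 47), (1860, 189), (383, -2290), (-704, 738),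
    (1279, -434), (-6, 80), (417, 2), (-195, 204), (-66, -19), (9, -24)],
  [⟨1, 495851, [], [(58, 4, 576)]⟩,
  ⟨1, 147004, [], [(53, 5, 835)]⟩,
  ⟨1, 213946, [], [(12, 7, 218), (10, 7, 499)]⟩,
  ⟨1, 109780, [], [(50, 1, 1598)]⟩,
  ⟨1, 133237, [], [(45, 8, 884)]⟩,
  ⟨1, 140918, [], [(41, 0, 432), (40, 0, 58)]⟩,
  ⟨1, 144793, [], [(37, 2, 320)]⟩,
  ⟨6228, 139347, [], []⟩,
  ⟨1973, 190475, [], []⟩,
  ⟨2567, 139221, [], []⟩,
  ⟨455, 163224, [], []⟩,
  ⟨349, 139128, [], []⟩]⟩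


def L17 : Leaf :=
  ⟨[(34, -290), (367, 92), (703, 622), (-2020, 1029), (444, -2688), (1136, 1489), (-311, -257),
    (-296, 798), (-130, -744), (-119, 431), (101, -500), (-72, 241), (75, -149)],
  [(-6, 0), (-3, -11), (5, -8), (10, -6), (12, 2), (10, 7), (4, 12), (-1, 12), (-9, 8), (-9, 3),
    (-9, -6), (2, -5)],
  [(1370, 302), (903, -1868), (126, -863), (-110, -56), (2319, 775), (1051, -2367), (-291, 638),
    (1219, -837), (-701, 34), (517, -178), (-274, 19), (60, -103), (-16, -18)],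
  [⟨1, 580209, [], [(59, 5, 734)]⟩,
  ⟨1, 130464, [], [(54, 6, 1124)]⟩,
  ⟨1, 252823, [], [(13, 8, 125), (11, 8, 312)]⟩,
  ⟨1, 111606, [], [(51, 2, 1246)]⟩,
  ⟨1, 135399, [], [(46, 9, 282)]⟩,
  ⟨1, 132170, [], [(43, 1, 245), (40, 1, 110)]⟩,
  ⟨1, 130165, [], [(38, 3, 559)]⟩,
  ⟨6065, 142140, [], []⟩,
  ⟨56, 144557, [], [(30, 0, 96)]⟩,
  ⟨1139, 142823, [], []⟩,
  ⟨1586, 186070, [], []⟩,
  ⟨329, 140765, [], []⟩]⟩


def L18 : Leaf :=
  ⟨[(287, 486), (-1147, -276), (1118, 230), (-2185, -177), (1757, -1629), (182, 1199), (-201,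
    317), (-1014, -821), (1415, -543), (285, 608), (-127, 573), (-212, -74), (-105, 37)],
  [(0, 0), (0, 0), (0, 0), (0, 0), (0, 0), (0, 0), (0, 0), (0, 0), (0, 0), (0, 0), (0, 0), (0,
    0)],
  [(688, 731), (1520, -912), (-1019, 1444), (2683, 1557), (791, -708), (360, 256), (-510, 464),
    (1260, 986), (727, -594), (566, -83), (-177, -503), (144, -112), (28, 75)],
  [⟨1, 538954, [], [(59, 5, 745)]⟩,
  ⟨1, 148571, [], [(54, 6, 1058)]⟩,
  ⟨1, 246361, [], [(13, 8, 61), (11, 8, 348)]⟩,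
  ⟨1, 114441, [], [(51, 2, 1478)]⟩,
  ⟨1, 127952, [], [(46, 9, 349)]⟩,
  ⟨1, 147423, [], [(43, 1, 128), (40, 1, 59)]⟩,
  ⟨1, 125655, [], [(38, 3, 475)]⟩,
  ⟨5113, 134189, [], []⟩,
  ⟨1, 148740, [], [(31, 0, 113)]⟩,
  ⟨2946, 137297, [], []⟩,
  ⟨355, 181505, [], []⟩,
  ⟨634, 135749, [], []⟩]⟩


def L19 : Leaf :=
  ⟨[(18, -77), (-205, -12), (280, -118), (-722, 99), (543, -938), (20, 207), (1067, -423), (-561,
    1078), (807, -1422), (1099, 2276), (-1796, 535), (-509, -670), (147, -351)],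
  [(0, 0), (0, 0), (0, 0), (0, 0), (0, 0), (0, 0), (0, 0), (0, 0), (0, 0), (0, 0), (0, 0), (0,
    0)],
  [(37, 36), (161, -767), (-755, 2018), (966, 1430), (451, 899), (204, -1117), (-1437, 630),
    (1593, 137), (-1025, -306), (990, 2288), (370, 689), (144, 275), (-49, -7)],
  [⟨1, 481899, [], [(58, 4, 634)]⟩,
  ⟨1, 148556, [], [(53, 5, 1106)]⟩,
  ⟨1, 230012, [], [(12, 7, 501), (11, 10, 1)]⟩,
  ⟨1, 136560, [], [(50, 3, 472)]⟩,
  ⟨1, 138850, [], [(45, 8, 792)]⟩,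
  ⟨1, 121137, [], [(41, 0, 741)]⟩,
  ⟨1, 131467, [], [(38, 2, 716), (6, 2, 522)]⟩,
  ⟨282, 135112, [], []⟩,
  ⟨315, 147017, [], []⟩,
  ⟨2197, 138292, [], []⟩,
  ⟨317, 172653, [], []⟩,
  ⟨300, 142650, [], []⟩]⟩


def L20 : Leaf :=
  ⟨[(-77, -14), (-91, -36), (142, 26), (-646, 71), (159, -798), (153, -534), (1824, 225), (-1309,
    1499), (494, -1493), (401, 1526), (-808, -178), (-127, -54), (-9, -198)],
  [(-1, 0), (1, -2), (1, 0), (0, 0), (0, 1), (0, 0), (0, 0), (1, 0), (0, 0), (1, 1), (-1, 2), (-1,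
    -1)],
  [(69, 86), (-52, -500), (-870, 629), (1559, 988), (1655, 1175), (918, -670), (-1861, 967),
    (1050, 490), (-963, -1059), (1222, 1193), (1679, -448), (1082, 542), (39, 227)],
  [⟨1, 499278, [], [(58, 4, 553)]⟩,
  ⟨1, 146441, [], [(53, 5, 1640)]⟩,
  ⟨1834, 218045, [], [(12, 7, 433)]⟩,
  ⟨1, 145731, [], [(47, 3, 223)]⟩,
  ⟨1, 141376, [], [(45, 8, 280)]⟩,
  ⟨1, 113944, [], [(1, 0, 613)]⟩,
  ⟨1, 133171, [], [(38, 2, 373), (6, 2, 1473)]⟩,
  ⟨128, 124239, [], []⟩,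
  ⟨89, 126256, [], []⟩,
  ⟨1406, 133362, [], []⟩,
  ⟨415, 174379, [], []⟩,
  ⟨284, 134167, [], []⟩]⟩


def L21 : Leaf :=
  ⟨[(112, 397), (-755, -535), (1304, 831), (-3083, 156), (1390, -3004), (1427, 879), (422, 780),
    (-675, 317), (200, -49), (-114, 77), (-52, 129), (-71, -13), (-37, -7)],
  [(8, 5), (-8, 5), (-8, 0), (2, -7), (-3, 2), (-1, -2), (-2, -2), (3, -2), (-7, 1), (1, -8), (7,
    -7), (3, 9)],
  [(-73, 237), (48, -331), (499, 895), (911, 739), (1121, 699), (-329, -2241), (-2729, 1214),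
    (1834, 856), (421, -1030), (1006, 698), (463, 114), (-48, 11), (-86, 25)],
  [⟨1, 513129, [], [(58, 4, 1038)]⟩,
  ⟨1, 150163, [], [(53, 0, 1), (52, 0, 1792)]⟩,
  ⟨1, 233794, [], [(11, 10, 16)]⟩,
  ⟨1, 136655, [], [(47, 3, 339)]⟩,
  ⟨1, 140469, [], [(45, 8, 167)]⟩,
  ⟨1, 141445, [], [(42, 1, 381)]⟩,
  ⟨1, 134510, [], [(6, 2, 635)]⟩,
  ⟨1821, 150172, [], []⟩,
  ⟨68, 126274, [], []⟩,
  ⟨441, 147696, [], []⟩,
  ⟨193, 169109, [], []⟩,
  ⟨178, 149626, [], []⟩]⟩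


def L22 : Leaf :=
  ⟨[(-23, -66), (-103, 65), (182, -254), (-584, 257), (557, -1147), (352, 339), (1350, 221),
    (-1427, 1592), (451, -1541), (18, 1764), (-1187, -645), (186, -553), (233, -10)],
  [(0, 0), (0, 0), (1, 0), (-1, 0), (1, 0), (-1, 0), (1, 0), (-1, 0), (1, 0), (0, 0), (0, 0), (0,
    0)],
  [(-173, -7), (516, -757), (940, 1159), (1652, 1050), (1088, 852), (329, -1664), (-2331, 566),
    (1956, 339), (681, -1482), (1754, 1204), (1058, -411), (20, -341), (-59, -61)],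
  [⟨1, 493198, [], [(58, 4, 632)]⟩,
  ⟨1, 112387, [], [(5, 0, 688)]⟩,
  ⟨1, 189881, [], [(12, 7, 343)]⟩,
  ⟨1, 135714, [], [(47, 3, 369)]⟩,
  ⟨1, 135074, [], [(45, 8, 400)]⟩,
  ⟨1, 138883, [], [(42, 1, 1253)]⟩,
  ⟨1, 126489, [], [(38, 2, 29), (6, 2, 1460)]⟩,
  ⟨334, 135985, [], []⟩,
  ⟨136, 107741, [], []⟩,
  ⟨651, 135578, [], []⟩,
  ⟨223, 160764, [], []⟩,
  ⟨166, 134990, [], []⟩]⟩


def L23 : Leaf :=
  ⟨[(-16, -12), (-169, 35), (-16, -250), (-78, 64), (-137, 126), (-813, -832), (1060, -491),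
    (-231, -728), (2443, 240), (-742, 1447), (543, 267), (-1205, 830), (-206, -643)],
  [(113, -145), (292, 392), (-561, 172), (0, -496), (498, 123), (-335, 566), (-438, -491), (465,
    -217), (95, 487), (-583, -61), (211, -441), (139, 121)],
  [(103, -91), (-228, -264), (1081, 91), (-353, 72), (482, 2520), (616, -135), (-716, 927), (183,
    -790), (-1334, -861), (-353, -22), (-173, 643), (103, 224), (-99, 42)],
  [⟨1, 508287, [], [(55, 54, 351)]⟩,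
  ⟨1, 113507, [(2, 722)], [(51, 2, 1063)]⟩,
  ⟨1, 158247, [(4, 675)], [(9, 4, 1107)]⟩,
  ⟨1, 131205, [], [(45, 0, 1780)]⟩,
  ⟨1, 136509, [], [(40, 5, 23)]⟩,
  ⟨3585, 150294, [], []⟩,
  ⟨1, 158884, [], [(34, 3, 115)]⟩,
  ⟨4027, 151219, [], []⟩,
  ⟨83, 150474, [], []⟩,
  ⟨1854, 150760, [], []⟩,
  ⟨65, 166620, [], []⟩,
  ⟨208, 146656, [], []⟩]⟩


def L24 : Leaf :=
  ⟨[(173, 655), (-1291, -74), (126, -209), (-1322, -1067), (1639, -916), (-198, -80), (1618, -12),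
    (-504, 807), (440, -18), (-224, 336), (52, 198), (-179, 39), (-36, 64)],
  [(-52, 72), (-164, -230), (461, -121), (-113, 574), (-502, -406), (604, -327), (123, 675),
    (-631, -138), (377, -448), (194, 435), (-282, 15), (24, -85)],
  [(-6, -153), (109, -355), (445, 701), (1083, -28), (-571, 1862), (1183, 1278), (-601, 1138),
    (970, 354), (-1322, -264), (501, 1297), (169, 200), (372, 486), (-226, -99)],
  [⟨1, 496613, [], [(57, 56, 213)]⟩,
  ⟨1, 121063, [(4, 822)], [(53, 4, 1822)]⟩,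
  ⟨1, 150475, [(6, 806)], [(11, 6, 432)]⟩,
  ⟨1, 109078, [], [(3, 2, 507)]⟩,
  ⟨1, 120430, [], [(44, 7, 327)]⟩,
  ⟨1, 127935, [], [(40, 0, 370)]⟩,
  ⟨1, 131952, [], [(36, 1, 303)]⟩,
  ⟨7999, 141491, [], []⟩,
  ⟨128, 170359, [], []⟩,
  ⟨3288, 143521, [], []⟩,
  ⟨589, 165822, [], []⟩,
  ⟨453, 140346, [], []⟩]⟩


def L25 : Leaf :=
  ⟨[(259, 426), (-929, -62), (352, 68), (-1085, -680), (1095, -310), (-526, -330), (1294, 112),
    (-647, 291), (571, 62), (-288, 131), (59, 112), (-44, 6), (-21, 22)],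
  [(-75, -5), (2, -61), (95, -353), (673, 521), (-919, 525), (-159, -1041), (1029, 227), (-585,
    884), (-477, -707), (361, -72), (61, 4), (-1, 74)],
  [(-119, -47), (-481, 30), (-515, 611), (294, 521), (-584, 1861), (-63, 348), (-2366, 956),
    (-377, 617), (-2002, -99), (237, 421), (-240, -965), (446, 493), (-140, -42)],
  [⟨3948, 505754, [], [(57, 56, 221)]⟩,
  ⟨1, 126354, [], [(53, 4, 3483)]⟩,
  ⟨1, 136803, [(6, 676)], [(11, 6, 209), (9, 6, 55)]⟩,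
  ⟨1, 113321, [], [(3, 2, 513)]⟩,
  ⟨1, 114517, [], [(44, 7, 121)]⟩,
  ⟨1, 149649, [], [(41, 0, 70), (38, 0, 216)]⟩,
  ⟨1, 111385, [], [(36, 1, 337)]⟩,
  ⟨4058, 139388, [], []⟩,
  ⟨548, 158584, [], []⟩,
  ⟨768, 137519, [], []⟩,
  ⟨179, 165222, [], []⟩,
  ⟨177, 135152, [], []⟩]⟩


def L26 : Leaf :=
  ⟨[(-69, 460), (-854, -509), (538, -86), (-889, -650), (1429, -448), (-418, 186), (1304, -102),
    (-470, 983), (64, -146), (-233, 307), (-121, -57), (-42, -47), (-6, 38)],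
  [(-78, 92), (-213, -278), (439, -205), (53, 368), (-138, -80), (114, 5), (-46, 104), (-10,
    -159), (306, 211), (-379, 302), (-154, -315), (117, -29)],
  [(1977, -357), (-279, -818), (175, -68), (-1257, -889), (603, -322), (-570, -2096), (1310, 36),
    (1698, -2513), (4, -6), (21, 14), (-30, 43), (-4, -4), (-2, -2)],
  [⟨1, 524190, [], [(57, 56, 319)]⟩,
  ⟨1, 129433, [], [(53, 4, 2147)]⟩,
  ⟨1, 162069, [(6, 305)], [(11, 6, 547)]⟩,
  ⟨1, 113865, [], [(3, 2, 405)]⟩,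
  ⟨1, 133300, [], [(44, 7, 268)]⟩,
  ⟨1, 172857, [], [(40, 0, 1163)]⟩,
  ⟨1, 128945, [], [(37, 1, 448), (5, 1, 1007)]⟩,
  ⟨127, 133218, [], []⟩,
  ⟨132, 149487, [], []⟩,
  ⟨746, 141394, [], []⟩,
  ⟨115, 172374, [], []⟩,
  ⟨143, 138287, [], []⟩]⟩


def L27 : Leaf :=
  ⟨[(332, 484), (-1211, 119), (346, -312), (-1102, -581), (1225, -538), (-694, -261), (1802,
    -329), (-460, 1017), (241, -36), (-208, 266), (-125, 76), (-43, -49), (5, 19)],
  [(-118, -91), (331, -167), (150, 313), (-176, 302), (-339, -155), (107, -264), (275, 75), (-82,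
    363), (-347, -43), (-158, -309), (334, -162), (1, 149)],
  [(-16, 2), (-47, 31), (-25, 88), (39, 540), (1821, 1992), (330, -829), (-621, 1020), (1440,
    -1170), (-462, 46), (1982, 643), (1551, 743), (1619, 832), (-483, 134)],
  [⟨1, 503432, [], [(57, 56, 428)]⟩,
  ⟨1, 133553, [], [(53, 4, 2194)]⟩,
  ⟨1, 143056, [(6, 208)], [(11, 6, 369)]⟩,
  ⟨1, 111179, [], [(3, 2, 223)]⟩,
  ⟨1, 126516, [], [(44, 7, 384)]⟩,
  ⟨1, 154203, [], [(41, 0, 1012)]⟩,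
  ⟨1, 121369, [], [(5, 1, 1316)]⟩,
  ⟨1337, 143119, [], []⟩,
  ⟨113, 120486, [], []⟩,
  ⟨626, 140554, [], []⟩,
  ⟨129, 155589, [], []⟩,
  ⟨116, 136178, [], []⟩]⟩


def L28 : Leaf :=
  ⟨[(74, 386), (-159, -282), (316, 921), (-972, -444), (252, 595), (-1184, -906), (797, 111),
    (-850, -522), (577, -175), (-264, -551), (696, -87), (256, 54), (155, 334)],
  [(-22, -58), (256, -65), (-31, 346), (-31, -171), (211, 417), (-543, 291), (-449, -421), (311,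
    -349), (-74, 157), (59, -342), (231, 129), (-36, 50)],
  [(253, 134), (43, 293), (377, 361), (-382, 246), (637, -114), (-27, -247), (2191, 71), (1159,
    -728), (1876, 723), (34, -22), (837, 2082), (872, -1023), (-869, 22)],
  [⟨1, 501872, [], [(56, 55, 381)]⟩,
  ⟨1, 142864, [], [(52, 3, 2363)]⟩,
  ⟨1, 172970, [(5, 306)], [(10, 5, 503), (8, 5, 167)]⟩,
  ⟨1, 113447, [], [(48, 2, 444), (45, 2, 273)]⟩,
  ⟨1, 117204, [], [(43, 6, 358)]⟩,
  ⟨5291, 137645, [], []⟩,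
  ⟨1, 122209, [], [(35, 1, 533)]⟩,
  ⟨5111, 138392, [], []⟩,
  ⟨1, 142028, [], [(27, 0, 96)]⟩,
  ⟨3292, 139554, [], []⟩,
  ⟨1123, 167086, [], []⟩,
  ⟨1793, 142406, [], []⟩]⟩


def L29 : Leaf :=
  ⟨[(186, 516), (-990, -105), (264, 82), (-1071, -801), (1150, -115), (-865, -301), (1011, -217),
    (-531, -278), (1141, -176), (126, 478), (52, 441), (-160, 141), (-130, 52)],
  [(179, -116), (103, 490), (-443, -73), (-127, 5), (-178, -584), (570, -34), (29, 234), (-47,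
    -96), (562, 236), (-692, 688), (-280, -711), (274, -2)],
  [(17, -38), (42, 19), (302, 66), (1268, -1091), (476, -381), (2107, -786), (259, 390), (2481,
    800), (-216, -820), (7, 871), (-63, -506), (561, -335), (-235, -1160)],
  [⟨1, 499482, [], [(56, 55, 385)]⟩,
  ⟨1, 147254, [], [(52, 3, 2592)]⟩,
  ⟨1, 157213, [(5, 396)], [(10, 5, 200), (8, 5, 51)]⟩,
  ⟨1, 114375, [], [(48, 2, 596)]⟩,
  ⟨1, 115436, [], [(43, 6, 336)]⟩,
  ⟨1383, 151678, [], []⟩,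
  ⟨1, 118643, [], [(35, 1, 608)]⟩,
  ⟨11159, 137086, [], []⟩,
  ⟨1, 122555, [], [(28, 0, 143)]⟩,
  ⟨2933, 137326, [], []⟩,
  ⟨258, 177326, [], []⟩,
  ⟨422, 139658, [], []⟩]⟩


def L30 : Leaf :=
  ⟨[(11, 207), (-151, -366), (524, 854), (-1392, -269), (567, -253), (-720, -498), (967, 9),
    (-888, -183), (1008, -606), (225, 501), (45, 250), (-100, 96), (-50, 29)],
  [(39, -23), (-58, 4), (236, -180), (108, 518), (-516, -74), (103, -286), (88, 39), (-8, -134),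
    (402, 137), (-361, 439), (-224, -362), (147, -48)],
  [(-67, 4), (-59, -342), (1033, -263), (858, 1426), (2656, 518), (-331, 295), (1098, 1313),
    (-286, -6), (940, 289), (15, -558), (1711, 1332), (627, -971), (-252, -78)],
  [⟨1, 523189, [], [(56, 55, 354)]⟩,
  ⟨1, 137107, [], [(52, 3, 1880)]⟩,
  ⟨1, 155262, [], [(10, 5, 797)]⟩,
  ⟨1, 115772, [], [(48, 2, 670)]⟩,
  ⟨1, 113482, [], [(43, 6, 376)]⟩,
  ⟨1, 164655, [], [(39, 0, 1266)]⟩,
  ⟨1, 117770, [], [(36, 1, 422), (4, 1, 971)]⟩,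
  ⟨326, 134869, [], []⟩,
  ⟨145, 151269, [], []⟩,
  ⟨459, 144984, [], []⟩,
  ⟨172, 184565, [], []⟩,
  ⟨211, 145321, [], []⟩]⟩


def L31 : Leaf :=
  ⟨[(488, 584), (-1654, 195), (664, -814), (-934, -104), (1005, -683), (-546, -107), (1602, -323),
    (-439, 950), (143, -27), (-145, 133), (-84, 89), (-23, -8), (0, 1)],
  [(-41, 93), (-233, -155), (193, -286), (298, 127), (-81, 249), (-146, -20), (-88, -118), (179,
    -191), (255, 201), (-158, 306), (-248, -130), (62, -81)],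
  [(-147, -43), (932, -348), (-680, 1660), (1805, 1911), (-438, -708), (504, 1347), (832, -941),
    (520, 421), (1408, 638), (1063, 1823), (802, 169), (138, -155), (0, -48)],
  [⟨1, 512923, [], [(56, 55, 465)]⟩,
  ⟨1, 146785, [], [(52, 3, 2153)]⟩,
  ⟨1, 157096, [], [(10, 5, 402)]⟩,
  ⟨1, 116884, [], [(48, 2, 466)]⟩,
  ⟨1, 118223, [], [(43, 6, 445)]⟩,
  ⟨1, 142089, [], [(40, 0, 1056)]⟩,
  ⟨1, 120421, [], [(4, 1, 1278)]⟩,
  ⟨1233, 147170, [], []⟩,
  ⟨126, 120978, [], []⟩,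
  ⟨455, 142279, [], []⟩,
  ⟨186, 165032, [], []⟩,
  ⟨101, 138439, [], []⟩]⟩


def L32 : Leaf :=
  ⟨[(-138, 275), (71, -445), (113, 948), (-782, -276), (-746, 148), (-211, -2280), (2127, 761),
    (-1217, 243), (1078, -628), (213, 718), (-118, 400), (-251, 11), (-73, 39)],
  [(48, -3), (-17, 78), (-31, -7), (-34, 9), (-8, -24), (-19, 0), (0, -19), (-24, -7), (8, -34),
    (-7, -31), (78, -18), (-3, 48)],
  [(37, 32), (-163, -556), (530, 1869), (1066, 654), (284, 982), (-204, -570), (-371, 652), (1121,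
    -1399), (-1588, 455), (1704, 2285), (558, 562), (183, 149), (-67, -33)],
  [⟨1, 490502, [], [(56, 55, 854)]⟩,
  ⟨1, 167446, [], [(51, 3, 1308)]⟩,
  ⟨1, 228457, [], [(10, 5, 597)]⟩,
  ⟨6957, 143609, [], []⟩,
  ⟨1, 123795, [], [(43, 6, 603)]⟩,
  ⟨1, 123794, [], [(39, 0, 714)]⟩,
  ⟨1, 131642, [], [(36, 4, 207), (4, 2, 825)]⟩,
  ⟨88, 134145, [], []⟩,
  ⟨228, 133802, [], []⟩,
  ⟨1826, 143149, [], []⟩,
  ⟨393, 179094, [], []⟩,
  ⟨274, 142354, [], []⟩]⟩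


def L33 : Leaf :=
  ⟨[(-129, 259), (40, -517), (141, 1306), (-1929, -1304), (1881, -885), (-304, 641), (487, -205),
    (-71, 96), (620, 267), (-414, 509), (-210, -48), (-109, -131), (0, 16)],
  [(-185, 192), (-202, -160), (-112, 29), (-120, -133), (-146, -35), (-88, -171), (-169, -92),
    (-32, -146), (-130, -123), (31, -112), (-155, -206), (196, -181)],
  [(-54, -32), (5, -398), (630, -138), (1003, 85), (2380, 934), (96, -1912), (-1757, 1180), (844,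
    -512), (-137, -610), (1596, -466), (922, -8), (1053, -473), (-632, -342)],
  [⟨1, 491162, [], [(56, 55, 714)]⟩,
  ⟨1, 150274, [], [(51, 3, 1588)]⟩,
  ⟨1044, 220656, [], [(10, 5, 435), (9, 8, 21)]⟩,
  ⟨2928, 135764, [], []⟩,
  ⟨1, 131304, [], [(43, 6, 226)]⟩,
  ⟨1, 119086, [], [(1, 0, 650)]⟩,
  ⟨1, 131019, [], [(4, 2, 1856)]⟩,
  ⟨86, 145163, [], []⟩,
  ⟨56, 135080, [], []⟩,
  ⟨1862, 137739, [], []⟩,
  ⟨1585, 183548, [], []⟩,
  ⟨368, 137977, [], []⟩]⟩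


def L34 : Leaf :=
  ⟨[(20, 41), (-101, -199), (141, 270), (-479, -571), (703, -74), (393, -454), (1029, 1827),
    (-2187, -177), (1179, -598), (-756, 844), (-356, -621), (171, -362), (243, 72)],
  [(-269, 174), (-192, -234), (-196, 16), (-99, -265), (-173, -84), (-22, -260), (-206, -159),
    (24, -191), (-168, -227), (120, -156), (-92, -288), (292, -131)],
  [(60, -218), (574, 328), (141, 31), (1, 3152), (2150, -9), (-1409, -785), (345, 40), (101,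
    -262), (1311, 605), (673, 917), (1097, 785), (69, -314), (77, -229)],
  [⟨1, 520380, [], [(56, 55, 758)]⟩,
  ⟨1, 161132, [], [(51, 3, 1556)]⟩,
  ⟨1, 246198, [], [(10, 5, 369)]⟩,
  ⟨4279, 138125, [], []⟩,
  ⟨1, 154608, [], [(43, 6, 227)]⟩,
  ⟨1, 123612, [], [(1, 0, 608)]⟩,
  ⟨1, 142485, [], [(35, 2, 230), (4, 2, 1637)]⟩,
  ⟨116, 133196, [], []⟩,
  ⟨91, 126499, [], []⟩,
  ⟨1310, 135383, [], []⟩,
  ⟨1294, 179712, [], []⟩,
  ⟨451, 134326, [], []⟩]⟩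


def L35 : Leaf :=
  ⟨[(161, 321), (-475, -288), (643, 659), (-2175, -413), (1763, -1815), (239, 1255), (279, -136),
    (-213, 291), (526, 165), (-733, 607), (-291, -480), (79, -243), (194, 78)],
  [(-495, 225), (-391, -341), (-389, -108), (-204, -452), (-296, -293), (-81, -529), (-337, -416),
    (-17, -417), (-197, -455), (182, -360), (11, -519), (499, -215)],
  [(312, -363), (281, 448), (713, 852), (522, 1647), (476, 45), (-175, 637), (1427, -1714),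
    (-1383, -406), (2088, 1777), (1519, -325), (458, 6), (-19, -358), (-64, -224)],
  [⟨1, 532049, [], [(56, 55, 819)]⟩,
  ⟨1, 134812, [], [(51, 3, 1486)]⟩,
  ⟨1, 187610, [], [(10, 5, 211)]⟩,
  ⟨7180, 143076, [], []⟩,
  ⟨1, 144966, [], [(43, 6, 357)]⟩,
  ⟨1, 125108, [], [(40, 0, 519), (38, 0, 187)]⟩,
  ⟨1, 137737, [], [(36, 4, 311), (35, 2, 528), (34, 4, 212)]⟩,
  ⟨802, 142355, [], []⟩,
  ⟨135, 138737, [], []⟩,
  ⟨1873, 143647, [], []⟩,
  ⟨1190, 181614, [], []⟩,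
  ⟨821, 143436, [], []⟩]⟩


def L36 : Leaf :=
  ⟨[(40, 93), (-142, 323), (-426, 223), (-798, -614), (602, -799), (72, 2), (624, -104), (-518,
    110), (1486, -725), (-31, 2180), (-1235, -798), (607, -32), (-289, 145)],
  [(-155, 142), (-253, 142), (-494, 7), (-300, -396), (-50, -357), (98, -166), (-181, 80), (-351,
    -96), (-355, -346), (69, -489), (171, -228), (153, -137)],
  [(-71, -57), (271, -257), (594, 222), (638, 596), (1541, 1905), (549, -1311), (-1322, 809),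
    (846, -1002), (-625, -628), (1191, 52), (1187, 643), (1567, -917), (-747, -503)],
  [⟨1, 499363, [], [(56, 55, 659)]⟩,
  ⟨1, 150489, [], [(51, 3, 1193)]⟩,
  ⟨1, 264051, [], [(10, 5, 469), (9, 8, 189)]⟩,
  ⟨164, 136569, [], []⟩,
  ⟨1, 131667, [], [(43, 6, 603)]⟩,
  ⟨1, 142630, [], [(39, 0, 1441)]⟩,
  ⟨1, 119094, [], [(2, 1, 909)]⟩,
  ⟨4138, 146012, [], []⟩,
  ⟨2171, 166706, [], []⟩,
  ⟨350, 141729, [], []⟩,
  ⟨1603, 180546, [], []⟩,
  ⟨591, 146542, [], []⟩]⟩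


def L37 : Leaf :=
  ⟨[(109, 75), (257, -5), (3, 1026), (-1132, -159), (-839, -243), (308, -2389), (2062, 1606),
    (-1767, -52), (1205, -730), (154, 772), (-332, 147), (-26, -120), (-9, 91)],
  [(-334, 182), (-225, -179), (-318, 145), (-230, -340), (-321, -135), (-134, -436), (-356, -286),
    (-7, -349), (-231, -339), (252, -243), (-83, -275), (293, -243)],
  [(42, -276), (562, 508), (114, -140), (-132, 2516), (976, -221), (-1553, 872), (1804, -159),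
    (62, -1740), (-181, 161), (623, 1766), (1737, 486), (407, -523), (-125, -358)],
  [⟨1, 502783, [], [(58, 57, 1176)]⟩,
  ⟨1, 163947, [], [(53, 0, 357), (52, 0, 956)]⟩,
  ⟨1682, 208529, [], [(12, 7, 157)]⟩,
  ⟨4616, 135732, [], []⟩,
  ⟨1, 134968, [], [(45, 8, 185)]⟩,
  ⟨1, 136333, [], [(2, 1, 414)]⟩,
  ⟨1, 119676, [], [(4, 3, 755)]⟩,
  ⟨3089, 137344, [], []⟩,
  ⟨98, 147840, [], []⟩,
  ⟨661, 141215, [], []⟩,
  ⟨730, 175909, [], []⟩,
  ⟨783, 141534, [], []⟩]⟩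


def L38 : Leaf :=
  ⟨[(-75, -105), (76, 30), (-70, 326), (-824, -156), (252, -878), (321, -583), (1397, 571),
    (-1462, 203), (2028, -763), (-631, 2286), (-751, -603), (-237, 43), (-27, -375)],
  [(-247, 302), (-449, -77), (-349, -31), (-254, -375), (-177, -200), (-103, -305), (-354, -153),
    (-184, -310), (-239, -374), (133, -315), (-6, -367), (306, -194)],
  [(132, -235), (359, 21), (352, 1132), (1256, 1567), (77, 1104), (375, 32), (-363, -397), (1313,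
    -1407), (-944, 499), (3339, 2057), (809, -1381), (28, 443), (48, -507)],
  [⟨1, 526056, [], [(58, 57, 896)]⟩,
  ⟨1, 130209, [], [(5, 0, 695)]⟩,
  ⟨1, 237228, [], [(12, 7, 537)]⟩,
  ⟨2023, 138242, [], []⟩,
  ⟨1, 140114, [], [(45, 8, 335)]⟩,
  ⟨1, 140565, [], [(2, 1, 710)]⟩,
  ⟨1, 120453, [], [(37, 3, 53), (4, 3, 825)]⟩,
  ⟨3511, 140218, [], []⟩,
  ⟨533, 151582, [], []⟩,
  ⟨969, 139587, [], []⟩,
  ⟨1175, 173552, [], []⟩,
  ⟨1014, 140054, [], []⟩]⟩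


def L39 : Leaf :=
  ⟨[(70, -257), (359, 176), (76, 608), (-967, 204), (73, -606), (-207, -116), (306, 56), (-1033,
    -1072), (2611, -332), (-958, 1853), (37, -705), (-261, 564), (-107, -376)],
  [(-558, 277), (-466, -402), (-436, -114), (-247, -536), (-354, -329), (-82, -636), (-394, -506),
    (15, -483), (-207, -553), (226, -390), (42, -614), (590, -202)],
  [(377, -312), (160, 456), (650, 808), (121, 1760), (715, 273), (-501, 499), (1784, -1249),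
    (-1169, -1013), (1394, 2037), (1833, -2), (445, -150), (178, -219), (8, -359)],
  [⟨1, 535725, [], [(57, 56, 833)]⟩,
  ⟨1, 163889, [], [(52, 4, 1404)]⟩,
  ⟨1, 210018, [], [(11, 6, 199)]⟩,
  ⟨6115, 142307, [], []⟩,
  ⟨1, 155358, [], [(44, 7, 361)]⟩,
  ⟨1, 137283, [], [(41, 0, 837)]⟩,
  ⟨1, 135467, [], [(3, 2, 491)]⟩,
  ⟨4972, 142533, [], []⟩,
  ⟨78, 139507, [], []⟩,
  ⟨2211, 142900, [], []⟩,
  ⟨772, 173112, [], []⟩,
  ⟨1265, 143213, [], []⟩]⟩


def L40 : Leaf :=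
  ⟨[(-28, -19), (-38, -303), (395, -633), (1539, 342), (80, 2375), (-2638, -179), (1366, -1032),
    (-1387, 1120), (210, -1413), (-409, 194), (766, -717), (-100, 498), (132, -172)],
  [(-47, -15), (13, -50), (39, -30), (38, 15), (31, -2), (20, 20), (20, 20), (-3, 31), (15, 38),
    (-31, 38), (-50, 12), (-14, -48)],
  [(-76, 0), (130, -94), (-923, 111), (591, 1894), (-243, -79), (-899, 1701), (106, -662), (-515,
    28), (801, 56), (645, 1203), (844, 864), (37, 515), (-118, 20)],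
  [⟨1, 528530, [(0, 1487)], [(56, 0, 117)]⟩,
  ⟨1, 147793, [], [(52, 4, 1149)]⟩,
  ⟨1, 230742, [], [(11, 6, 381)]⟩,
  ⟨183, 136059, [], []⟩,
  ⟨1, 142036, [], [(44, 7, 396)]⟩,
  ⟨18973, 146813, [], []⟩,
  ⟨1, 132026, [], [(37, 2, 206)]⟩,
  ⟨3669, 147238, [], []⟩,
  ⟨1, 145755, [], [(28, 1, 10)]⟩,
  ⟨58, 144198, [], []⟩,
  ⟨429, 177121, [], []⟩,
  ⟨96, 145402, [], []⟩]⟩


def L41 : Leaf :=
  ⟨[(-5, -207), (451, -21), (271, 625), (-642, 450), (-213, -53), (-881, -252), (783, -581),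
    (-1224, 409), (986, -2144), (1324, 1440), (-576, 394), (-197, 92), (-76, -148)],
  [(-227, 375), (-568, -12), (-481, 19), (-551, -287), (-506, -246), (-414, -496), (-480, -433),
    (-226, -515), (-265, -562), (38, -479), (10, -568), (384, -212)],
  [(-143, -95), (459, -217), (318, 346), (1375, 269), (1197, 198), (816, -1089), (-2000, 467),
    (1098, 835), (-579, -1170), (613, 192), (615, -1774), (-65, -605), (-169, -348)],
  [⟨1, 517267, [], [(58, 1, 527)]⟩,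
  ⟨1, 145735, [], [(53, 5, 914)]⟩,
  ⟨1, 186367, [], [(12, 7, 328)]⟩,
  ⟨1, 126134, [], [(49, 0, 181), (48, 0, 449)]⟩,
  ⟨1, 155232, [], [(45, 8, 120)]⟩,
  ⟨19590, 137614, [], []⟩,
  ⟨1, 130499, [], [(38, 3, 316)]⟩,
  ⟨12509, 138067, [], []⟩,
  ⟨1, 140020, [], [(29, 2, 88)]⟩,
  ⟨291, 137313, [], []⟩,
  ⟨1260, 154597, [], []⟩,
  ⟨540, 137473, [], []⟩]⟩


def L42 : Leaf :=
  ⟨[(72, 125), (-309, -214), (109, 241), (-256, -1089), (1210, 1222), (-2036, -854), (2590,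
    -1122), (421, 2204), (-1291, 866), (-962, -676), (63, -594), (286, -155), (99, 38)],
  [(-197, 249), (-357, -133), (-212, 22), (-311, -205), (-264, -144), (-184, -312), (-280, -229),
    (-102, -283), (-155, -339), (54, -206), (-77, -373), (276, -157)],
  [(-99, -134), (386, -36), (285, 582), (492, 964), (868, 1003), (590, -2113), (-2888, -35),
    (1555, 1319), (609, -856), (658, 124), (107, -614), (252, -143), (-63, -244)],
  [⟨1, 523269, [], [(59, 2, 999)]⟩,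
  ⟨1, 159371, [], [(53, 0, 1897)]⟩,
  ⟨2871, 217503, [], []⟩,
  ⟨1, 141739, [], [(51, 1, 170)]⟩,
  ⟨1, 136283, [], [(46, 9, 138)]⟩,
  ⟨7948, 150699, [], []⟩,
  ⟨1, 128711, [], [(39, 4, 112)]⟩,
  ⟨3894, 150878, [], []⟩,
  ⟨1, 138362, [], [(30, 3, 35)]⟩,
  ⟨142, 146931, [], []⟩,
  ⟨494, 164280, [], []⟩,
  ⟨318, 148210, [], []⟩]⟩


def L43 : Leaf :=
  ⟨[(-196, 502), (-925, -845), (860, -373), (8, -628), (1430, 948), (-1456, -58), (1632, -301),
    (-557, 1581), (-981, -254), (-38, -658), (282, 7), (-5, 50), (-56, 29)],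
  [(-117, 299), (-442, 86), (-527, 35), (-460, -435), (-224, -355), (-9, -325), (-318, -67),
    (-309, -283), (-347, -530), (128, -512), (163, -420), (315, -62)],
  [(-69, 277), (9, 27), (1, 1527), (1056, 1160), (846, 1109), (-182, -1172), (-1943, 1268), (1971,
    -49), (101, -769), (1873, 594), (894, -387), (378, 184), (-149, 105)],
  [⟨1, 533610, [], [(60, 3, 560)]⟩,
  ⟨1, 139474, [], [(7, 1, 553)]⟩,
  ⟨1, 223305, [], [(14, 9, 226)]⟩,
  ⟨1, 138317, [], [(52, 2, 96), (49, 2, 165)]⟩,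
  ⟨1, 143054, [], [(47, 10, 344)]⟩,
  ⟨24351, 136944, [], []⟩,
  ⟨1, 129621, [], [(5, 0, 282)]⟩,
  ⟨10184, 137100, [], []⟩,
  ⟨1, 145072, [], [(31, 4, 76)]⟩,
  ⟨75, 134363, [], []⟩,
  ⟨977, 171162, [], []⟩,
  ⟨433, 136238, [], []⟩]⟩


def L44 : Leaf :=
  ⟨[(-67, 92), (-164, -78), (-229, -749), (1307, -173), (322, 1138), (-1090, 202), (1028, -385),
    (-1055, 1376), (-201, -992), (-835, 190), (845, -1336), (210, 830), (-70, -116)],
  [(-197, 264), (-351, 378), (-823, 101), (-752, -291), (-398, -555), (-211, -340), (-388, -98),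
    (-650, -211), (-504, -629), (-153, -815), (254, -449), (192, -268)],
  [(16, -116), (397, 77), (299, 533), (230, 1211), (892, 1965), (1112, -969), (-1969, -396),
    (1080, 520), (366, -723), (1421, 605), (942, -481), (582, 153), (138, -490)],
  [⟨1, 528077, [], [(60, 3, 502)]⟩,
  ⟨1, 157153, [], [(7, 1, 430)]⟩,
  ⟨1, 230868, [], [(14, 9, 135)]⟩,
  ⟨1, 137210, [], [(49, 2, 172)]⟩,
  ⟨1, 152082, [], [(47, 10, 264)]⟩,
  ⟨22081, 139784, [], []⟩,
  ⟨1, 139184, [], [(40, 0, 806)]⟩,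
  ⟨13508, 139624, [], []⟩,
  ⟨1, 147655, [], [(31, 4, 44)]⟩,
  ⟨1048, 138628, [], []⟩,
  ⟨1264, 160906, [], []⟩,
  ⟨484, 139536, [], []⟩]⟩


def L45 : Leaf :=
  ⟨[(-267, -129), (674, -34), (-322, 863), (-713, 21), (-341, -861), (359, -113), (-11, -85),
    (-766, -339), (1716, -1237), (78, 1814), (168, -814), (59, 1284), (-642, -362)],
  [(-581, 672), (-896, -335), (-634, 85), (-544, -661), (-616, -328), (-349, -852), (-722, -572),
    (-144, -683), (-484, -706), (258, -585), (-73, -954), (807, -371)],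
  [(-674, 1102), (110, 982), (-531, 334), (26, 344), (106, 821), (803, 221), (-826, 118), (512,
    -176), (-916, -967), (1420, 1647), (2426, -621), (167, -127), (-71, 268)],
  [⟨1, 545631, [], [(57, 56, 663)]⟩,
  ⟨1, 167962, [], [(52, 4, 1203)]⟩,
  ⟨1, 240292, [], [(11, 6, 140)]⟩,
  ⟨1017, 141510, [], []⟩,
  ⟨1, 145045, [], [(44, 7, 216)]⟩,
  ⟨14705, 146935, [], []⟩,
  ⟨1, 126864, [], [(37, 2, 620)]⟩,
  ⟨117, 141955, [], []⟩,
  ⟨1, 128018, [], [(29, 1, 439)]⟩,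
  ⟨1311, 147645, [], [(24, 0, 170), (22, 0, 476)]⟩,
  ⟨51, 152034, [], []⟩,
  ⟨2480, 147052, [], []⟩]⟩


def L46 : Leaf :=
  ⟨[(-154, 2), (296, 199), (-716, 449), (-337, -670), (208, -247), (-193, 1), (84, -739), (337,
    54), (930, -319), (-208, 1360), (-236, -944), (591, 828), (-609, 32)],
  [(-733, 530), (-820, -335), (-957, 81), (-954, -809), (-854, -677), (-276, -1097), (-687, -574),
    (-366, -630), (-840, -963), (-6, -1076), (-1, -1224), (870, -510)],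
  [(308, 592), (729, 873), (402, 65), (-237, 645), (728, 493), (751, 398), (115, -115), (-571,
    470), (-231, -1017), (-292, 247), (2639, -767), (340, -1231), (405, 481)],
  [⟨1, 521570, [], [(57, 56, 436)]⟩,
  ⟨1, 158887, [], [(52, 4, 1061)]⟩,
  ⟨1, 267697, [], [(11, 6, 28)]⟩,
  ⟨2280, 143980, [], []⟩,
  ⟨1, 150223, [], [(44, 7, 161)]⟩,
  ⟨18628, 145198, [], []⟩,
  ⟨1, 133301, [], [(37, 2, 599)]⟩,
  ⟨100, 142271, [], []⟩,
  ⟨1, 131300, [], [(29, 1, 393)]⟩,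
  ⟨2, 155653, [], [(23, 0, 746)]⟩,
  ⟨5902, 150658, [], []⟩,
  ⟨2938, 145170, [], []⟩]⟩


def L47 : Leaf :=
  ⟨[(-114, 337), (-247, -408), (203, 791), (-1346, -687), (645, -395), (-554, -714), (1223, -213),
    (-343, -56), (1179, -185), (45, 904), (-276, 233), (-150, -42), (9, 56)],
  [(-130, -89), (186, -307), (381, 109), (117, 398), (-366, 245), (-251, -270), (207, -305), (399,
    187), (-55, 412), (-360, 166), (-230, -275), (115, -108)],
  [(92, 42), (58, -145), (509, 536), (2204, -779), (773, 202), (507, 32), (-982, 907), (820,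
    -584), (-882, -873), (2286, 542), (1475, -1395), (271, 383), (-326, 79)],
  [⟨1, 528517, [], [(55, 54, 295)]⟩,
  ⟨1, 121004, [], [(51, 2, 975), (48, 2, 758)]⟩,
  ⟨1, 193595, [], [(9, 4, 1127)]⟩,
  ⟨2274, 139925, [], []⟩,
  ⟨1, 134990, [], [(42, 5, 337)]⟩,
  ⟨1, 163155, [], [(38, 0, 1233)]⟩,
  ⟨1, 138837, [], [(3, 1, 1658)]⟩,
  ⟨86, 132959, [], []⟩,
  ⟨693, 126287, [], []⟩,
  ⟨951, 136095, [], []⟩,
  ⟨205, 168066, [], []⟩,
  ⟨316, 135408, [], []⟩]⟩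


def L48 : Leaf :=
  ⟨[(151, 292), (-468, -163), (560, 490), (-1349, -25), (264, -315), (-921, -1003), (1598, -268),
    (-653, 27), (1375, -382), (91, 1045), (-364, 297), (-203, -105), (-21, 15)],
  [(-158, -73), (210, -341), (396, 166), (45, 433), (-432, 130), (-113, -328), (290, -190), (262,
    367), (-301, 315), (-414, -111), (43, -398), (169, 39)],
  [(-68, -74), (231, -279), (986, 297), (287, 1386), (1924, 1803), (-398, -1109), (-235, 1071),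
    (1060, -1646), (271, 391), (1878, 587), (1015, 645), (647, -617), (-235, -193)],
  [⟨1, 523275, [], [(55, 54, 403)]⟩,
  ⟨1, 132729, [], [(51, 2, 1750), (48, 2, 1)]⟩,
  ⟨1, 149209, [], [(9, 4, 859)]⟩,
  ⟨1366, 145329, [], []⟩,
  ⟨1, 132064, [], [(42, 5, 412)]⟩,
  ⟨1, 158285, [], [(39, 0, 1249)]⟩,
  ⟨1, 128451, [], [(34, 1, 216), (3, 1, 1196)]⟩,
  ⟨514, 142545, [], []⟩,
  ⟨56, 142990, [], []⟩,
  ⟨740, 142478, [], []⟩,
  ⟨186, 176629, [], []⟩,
  ⟨270, 141342, [], []⟩]⟩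


def L49 : Leaf :=
  ⟨[(-46, -2), (-61, 154), (-347, 186), (-771, -640), (809, -692), (-263, 3), (1088, -627), (-27,
    652), (1002, -40), (-583, 1340), (-191, -483), (-225, 486), (-240, -330)],
  [(-144, 29), (-66, -452), (734, -25), (-57, 743), (-489, -66), (-30, -207), (-27, -207), (453,
    -196), (257, 699), (-713, 176), (-60, -453), (147, -11)],
  [(-77, -80), (265, -348), (489, 248), (1940, 132), (740, 542), (726, -70), (-1343, 47), (1070,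
    -458), (-326, -1668), (1582, 440), (1037, -1340), (-245, -95), (-221, -80)],
  [⟨1, 529334, [], [(55, 54, 198)]⟩,
  ⟨1, 134176, [], [(51, 2, 1791), (48, 2, 23)]⟩,
  ⟨1, 175783, [], [(9, 4, 1031)]⟩,
  ⟨1156, 134188, [], []⟩,
  ⟨1, 148622, [], [(42, 5, 379)]⟩,
  ⟨26428, 135618, [], []⟩,
  ⟨1, 132965, [], [(1, 0, 479)]⟩,
  ⟨1916, 135774, [], []⟩,
  ⟨233, 148672, [], []⟩,
  ⟨1219, 135925, [], []⟩,
  ⟨886, 178134, [], []⟩,
  ⟨273, 135594, [], []⟩]⟩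


def L50 : Leaf :=
  ⟨[(13, -321), (739, -168), (362, 1009), (-699, 166), (256, 400), (-995, 82), (119, 12), (-1232,
    -662), (1108, -787), (-264, 255), (577, -315), (-8, 382), (26, -54)],
  [(-225, 54), (-19, -330), (333, 337), (-672, 540), (-751, -684), (266, -498), (-49, -167), (249,
    -89), (-220, 464), (-886, -360), (272, -957), (446, 58)],
  [(-338, 56), (410, 58), (-922, 489), (1099, 2321), (-407, -42), (-665, 1702), (43, -853), (-105,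
    190), (1095, 199), (1171, 1178), (901, 541), (55, 261), (-206, 31)],
  [⟨1, 526029, [], [(55, 54, 203)]⟩,
  ⟨1, 143849, [], [(51, 2, 1775)]⟩,
  ⟨1, 182828, [], [(9, 4, 730)]⟩,
  ⟨132, 130546, [], []⟩,
  ⟨1, 149168, [], [(42, 5, 386)]⟩,
  ⟨28401, 135675, [], []⟩,
  ⟨1, 137640, [], [(35, 0, 270)]⟩,
  ⟨4786, 135391, [], []⟩,
  ⟨523, 162234, [], []⟩,
  ⟨544, 135629, [], []⟩,
  ⟨880, 164469, [], []⟩,
  ⟨564, 135841, [], []⟩]⟩


def L51 : Leaf :=
  ⟨[(-37, 17), (-154, 3), (-290, -324), (-26, -645), (1141, -798), (1357, 865), (89, 2360),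
    (-3161, -398), (2006, -1829), (-674, 1970), (-280, -1318), (232, 468), (-136, -183)],
  [(0, 0), (0, 1), (-1, 1), (-1, 0), (-1, 0), (0, -1), (0, -1), (0, -1), (0, -1), (1, 0), (0, 1),
    (0, 0)],
  [(76, -58), (229, -80), (24, 170), (131, 707), (-243, 816), (235, 119), (-979, -222), (205, 10),
    (-794, -985), (-134, 832), (245, -264), (-257, 328), (73, -109)],
  [⟨1, 509945, [(0, 2228)], [(54, 0, 126)]⟩,
  ⟨1, 114963, [(3, 531)], [(50, 3, 489), (49, 3, 1449)]⟩,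
  ⟨1, 106199, [], [(10, 4, 256)]⟩,
  ⟨1, 161808, [], [(45, 1, 394)]⟩,
  ⟨1, 158909, [], [(42, 5, 24)]⟩,
  ⟨2454, 147955, [], []⟩,
  ⟨1, 156424, [], [(34, 2, 73)]⟩,
  ⟨1275, 169725, [], []⟩,
  ⟨17, 178520, [], []⟩,
  ⟨500, 165042, [], []⟩,
  ⟨144, 174981, [], []⟩,
  ⟨100, 156592, [], []⟩]⟩


def L52 : Leaf :=
  ⟨[(-335, 439), (-144, -1086), (816, 1576), (-2795, -859), (1612, -1942), (664, 295), (962, 337),
    (-269, 511), (264, 233), (-243, 289), (-110, 177), (-198, -42), (-79, 24)],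
  [(0, 0), (0, 0), (0, 0), (0, 0), (0, 0), (0, 0), (0, 0), (0, 0), (0, 0), (0, 0), (0, 0), (0,
    0)],
  [(379, -859), (-2315, -424), (356, 2683), (-434, -884), (-1340, 1360), (17, 23), (324, 914),
    (1773, -1045), (431, -496), (770, -296), (294, 372), (-61, 115), (-38, -5)],
  [⟨1, 465796, [], [(57, 2, 767)]⟩,
  ⟨1, 140956, [], [(52, 5, 1209)]⟩,
  ⟨1, 131569, [], [(12, 6, 457)]⟩,
  ⟨1, 157094, [], [(48, 3, 16), (47, 3, 208)]⟩,
  ⟨1, 112886, [], [(45, 1, 257), (44, 7, 219), (8, 1, 111), (7, 1, 251)]⟩,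
  ⟨1, 111114, [], [(39, 0, 1102)]⟩,
  ⟨1475, 146705, [], []⟩,
  ⟨3364, 149102, [], []⟩,
  ⟨179, 182318, [], []⟩,
  ⟨1687, 153039, [], []⟩,
  ⟨288, 164993, [], []⟩,
  ⟨296, 147123, [], []⟩]⟩


def L53 : Leaf :=
  ⟨[(64, 176), (-863, -305), (1285, -808), (-648, 899), (1320, -1339), (496, 2616), (-1833, -24),
    (-462, -741), (503, -540), (-61, 201), (124, -136), (0, -39), (76, 50)],
  [(-271, 71), (34, -356), (-73, 0), (162, -178), (-56, -20), (117, -28), (-114, -38), (57, -15),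
    (-146, -191), (73, 7), (-3, -358), (264, 94)],
  [(284, -125), (-880, -765), (-611, 2057), (2018, -614), (-822, 1109), (1972, 1609), (428, -388),
    (222, -727), (-1366, -936), (-437, -408), (-491, -759), (338, -428), (148, 50)],
  [⟨1, 472485, [], [(58, 3, 712)]⟩,
  ⟨1, 138239, [], [(53, 6, 1193)]⟩,
  ⟨1, 115822, [], [(13, 7, 488)]⟩,
  ⟨1, 150164, [], [(48, 4, 1419)]⟩,
  ⟨1, 107207, [], [(46, 2, 307), (43, 2, 166), (9, 2, 42), (8, 2, 83)]⟩,
  ⟨1, 117267, [], [(39, 1, 586)]⟩,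
  ⟨1, 110551, [], [(37, 0, 93)]⟩,
  ⟨1548, 141286, [], []⟩,
  ⟨1436, 170189, [], []⟩,
  ⟨1121, 123708, [], []⟩,
  ⟨205, 161363, [], []⟩,
  ⟨381, 137713, [], []⟩]⟩


def L54 : Leaf :=
  ⟨[(123, 191), (-398, -166), (570, 375), (-1713, -184), (1610, -1749), (510, 1691), (-425, -198),
    (-21, 407), (-316, -11), (-274, -228), (208, -237), (101, 34), (26, 74)],
  [(-161, 158), (-230, -68), (-305, -30), (-222, -258), (-245, -205), (-108, -304), (-136, -292),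
    (31, -318), (-23, -340), (196, -236), (116, -210), (225, -1)],
  [(82, 228), (-331, -501), (1420, 1537), (-284, -1085), (-2576, 2340), (572, 834), (-538, 330),
    (687, -149), (689, -470), (2172, -1406), (354, -341), (-47, 219), (-21, 108)],
  [⟨1, 485647, [], [(58, 3, 525)]⟩,
  ⟨1, 143993, [], [(53, 6, 1449)]⟩,
  ⟨1, 144211, [], [(13, 7, 511)]⟩,
  ⟨1, 152523, [], [(48, 4, 1199)]⟩,
  ⟨1, 126608, [], [(46, 2, 331), (43, 2, 112), (9, 2, 74), (8, 2, 269)]⟩,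
  ⟨1, 168478, [], [(39, 1, 377)]⟩,
  ⟨1, 119678, [], [(5, 0, 824)]⟩,
  ⟨123, 140385, [], []⟩,
  ⟨467, 169609, [], []⟩,
  ⟨266, 140640, [], []⟩,
  ⟨179, 170642, [], []⟩,
  ⟨265, 142694, [], []⟩]⟩


def L55 : Leaf :=
  ⟨[(-90, 3), (-240, 30), (-216, -438), (-18, -639), (1157, -631), (1047, 740), (221, 1975),
    (-2775, -264), (1834, -1783), (-364, 1987), (-494, -1097), (276, 428), (-210, -185)],
  [(0, 0), (0, 0), (0, 0), (0, 0), (0, 0), (0, 0), (0, 0), (0, 0), (0, 0), (0, 0), (0, 0), (0,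
    0)],
  [(-660, 304), (-846, -72), (-655, 38), (-735, -568), (895, 1846), (3162, -2097), (-1508, -1046),
    (499, 1010), (-565, -110), (74, 237), (-12, -224), (26, -8), (5, 34)],
  [⟨1, 474594, [], [(58, 3, 1065)]⟩,
  ⟨1, 116791, [], [(52, 0, 1710)]⟩,
  ⟨1, 147315, [], [(13, 7, 243)]⟩,
  ⟨1, 141835, [], [(48, 4, 733)]⟩,
  ⟨1, 143729, [], [(45, 8, 24), (44, 2, 113)]⟩,
  ⟨709, 147458, [], []⟩,
  ⟨1, 165914, [], [(37, 1, 153)]⟩,
  ⟨2666, 151001, [], []⟩,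
  ⟨113, 179594, [], []⟩,
  ⟨1109, 150632, [], []⟩,
  ⟨303, 184441, [], []⟩,
  ⟨232, 150793, [], []⟩]⟩


def L56 : Leaf :=
  ⟨[(-75, -47), (-194, 15), (-126, -251), (-344, -420), (519, -889), (1223, -475), (1574, 1988),
    (-2336, 756), (1046, -925), (-1043, 1165), (191, -1209), (74, 767), (-299, -308)],
  [(0, 0), (0, 0), (0, 0), (0, 0), (0, 0), (0, 0), (0, 0), (0, 0), (0, 0), (0, 0), (0, 0), (0,
    0)],
  [(38, 4), (41, -55), (63, 601), (166, -341), (-115, 693), (2088, -2122), (-1515, -1793), (1118,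
    480), (-697, -837), (-932, 2159), (81, 1190), (-60, 152), (-427, -249)],
  [⟨1, 484219, [], [(59, 4, 770)]⟩,
  ⟨1, 115463, [], [(7, 1, 583)]⟩,
  ⟨1, 137565, [], [(8, 0, 483)]⟩,
  ⟨1, 134454, [], [(49, 5, 2398)]⟩,
  ⟨1, 151656, [], [(45, 3, 128)]⟩,
  ⟨368, 133791, [], []⟩,
  ⟨1, 180483, [], [(38, 2, 152), (36, 2, 2)]⟩,
  ⟨3709, 138627, [], []⟩,
  ⟨128, 154530, [], []⟩,
  ⟨2487, 138441, [], []⟩,
  ⟨264, 167881, [], []⟩,
  ⟨290, 136770, [], []⟩]⟩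


def L57 : Leaf :=
  ⟨[(-57, -83), (-177, -47), (-18, -278), (-249, -458), (780, -776), (1334, -13), (884, 2320),
    (-2460, 48), (1317, -665), (-1233, 918), (441, -1030), (-193, 710), (-189, -391)],
  [(0, 0), (0, 0), (0, 0), (0, 0), (0, 0), (0, 0), (0, 0), (0, 0), (0, 0), (0, 0), (0, 0), (0,
    0)],
  [(44, -30), (-56, -25), (907, 489), (-347, -822), (-1098, 2748), (1317, 158), (-1307, 227),
    (1880, -78), (518, -2236), (237, -1001), (-415, -280), (-209, 352), (-391, 211)],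
  [⟨1, 490004, [], [(59, 4, 772)]⟩,
  ⟨1, 110052, [], [(7, 1, 707)]⟩,
  ⟨1, 158998, [], [(14, 0, 693)]⟩,
  ⟨1, 119024, [], [(49, 5, 1999)]⟩,
  ⟨1, 165644, [], [(45, 3, 65)]⟩,
  ⟨412, 132803, [], []⟩,
  ⟨1, 172243, [], [(38, 2, 200), (36, 2, 26)]⟩,
  ⟨4505, 137928, [], []⟩,
  ⟨156, 157899, [], []⟩,
  ⟨3075, 138265, [], []⟩,
  ⟨141, 164457, [], []⟩,
  ⟨330, 137424, [], []⟩]⟩


def L58 : Leaf :=
  ⟨[(-453, 209), (201, -1367), (1703, 1578), (-2656, 597), (942, -2114), (644, 1142), (-256, -35),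
    (-218, 260), (-138, -337), (71, 0), (95, -71), (27, 95), (36, 48)],
  [(-113, 389), (-641, 458), (-1051, 226), (-1267, -302), (-1039, -814), (-568, -1146), (-38,
    -1043), (288, -735), (259, -318), (72, -116), (-154, -101), (-62, -222)],
  [(-14, -111), (-820, 107), (-1595, 637), (140, 1794), (2170, 838), (1232, -1383), (-1382, -516),
    (1606, 331), (-391, -736), (-56, 843), (-21, -588), (132, 35), (14, 6)],
  [⟨10, 435885, [], [(58, 3, 1015)]⟩,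
  ⟨10, 151135, [(0, 1383)], [(52, 0, 832)]⟩,
  ⟨10, 216236, [(7, 385)], [(14, 7, 250), (11, 10, 201)]⟩,
  ⟨10, 305043, [], [(48, 4, 160)]⟩,
  ⟨10, 205627, [], [(44, 2, 139)]⟩,
  ⟨88, 278471, [], []⟩,
  ⟨10, 201900, [], [(38, 1, 133)]⟩,
  ⟨17, 276244, [], []⟩,
  ⟨10, 252852, [], [(28, 27, 65)]⟩,
  ⟨298, 282026, [], []⟩,
  ⟨10, 273654, [], [(20, 19, 13)]⟩,
  ⟨81, 279377, [], []⟩]⟩


def L59 : Leaf :=
  ⟨[(-73, 0), (-192, -12), (-112, -392), (190, -531), (957, 44), (106, 225), (1146, 1249), (-2629,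
    981), (621, -2226), (338, 1260), (-398, -613), (179, 223), (-88, -124)],
  [(19, -3), (6, 42), (-39, 9), (-12, -11), (-11, -5), (-11, -10), (-7, -13), (-2, -11), (-8,
    -14), (18, -36), (39, 15), (-8, 17)],
  [(-46, -56), (131, -11), (-419, 446), (-159, -144), (793, 68), (1808, -2768), (-1493, -895),
    (1448, 627), (-1134, -344), (-567, 2676), (49, 470), (-250, 51), (-84, -85)],
  [⟨1, 485386, [], [(59, 4, 738)]⟩,
  ⟨1, 125260, [], [(54, 7, 5), (7, 1, 709)]⟩,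
  ⟨1, 120822, [], [(8, 0, 412)]⟩,
  ⟨1, 135212, [], [(49, 5, 2337)]⟩,
  ⟨1, 138443, [], [(45, 3, 179)]⟩,
  ⟨231, 123865, [], []⟩,
  ⟨1, 121364, [], [(6, 2, 700)]⟩,
  ⟨957, 135130, [], []⟩,
  ⟨263, 143352, [], []⟩,
  ⟨689, 132893, [], []⟩,
  ⟨246, 177331, [], []⟩,
  ⟨163, 132291, [], []⟩]⟩


def L60 : Leaf :=
  ⟨[(-70, -5), (-207, -19), (-80, -398), (176, -490), (843, -27), (397, 125), (895, 1666), (-2705,
    327), (1165, -1771), (-178, 1292), (-175, -751), (82, 330), (-85, -174)],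
  [(43, 2), (-39, 81), (-41, -54), (3, 9), (5, -24), (-18, 19), (10, -24), (-20, 14), (10, -1),
    (-66, -17), (60, -67), (18, 39)],
  [(7, 270), (-199, 275), (-261, -198), (-2309, -1551), (-987, 1421), (963, -1166), (-413, 1325),
    (3032, 748), (482, -586), (95, 149), (-481, -182), (64, -106), (-15, 71)],
  [⟨1, 481870, [], [(59, 4, 719)]⟩,
  ⟨1, 105038, [], [(54, 7, 672), (7, 1, 353)]⟩,
  ⟨1, 124192, [], [(14, 0, 645)]⟩,
  ⟨1, 126815, [], [(49, 5, 2105)]⟩,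
  ⟨1, 145029, [], [(45, 3, 141)]⟩,
  ⟨188, 127904, [], []⟩,
  ⟨1, 118555, [], [(6, 2, 508)]⟩,
  ⟨1330, 137882, [], []⟩,
  ⟨168, 147841, [], []⟩,
  ⟨1147, 136472, [], []⟩,
  ⟨249, 176012, [], []⟩,
  ⟨259, 135071, [], []⟩]⟩


def L61 : Leaf :=
  ⟨[(-17, 120), (-237, -82), (-347, 595), (-1509, -2178), (3653, -763), (-554, 2625), (-585,
    -537), (-60, 62), (160, 48), (-192, 51), (16, 59), (-58, -23), (-22, 24)],
  [(0, 1), (-1, 0), (1, 0), (0, 0), (0, 0), (0, 0), (0, 0), (0, 0), (0, 0), (1, 0), (-1, 0), (0,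
    -1)],
  [(-67, 48), (64, -271), (93, -104), (515, -326), (246, 242), (470, -104), (-494, 405), (485,
    83), (-503, -471), (262, 202), (146, -337), (-49, 31), (-51, 20)],
  [⟨1, 514527, [(0, 2025)], [(54, 0, 116)]⟩,
  ⟨1, 131736, [(3, 10)], [(50, 3, 920), (49, 3, 2319)]⟩,
  ⟨1, 137921, [], [(10, 4, 925)]⟩,
  ⟨1, 111602, [], [(44, 1, 108)]⟩,
  ⟨1, 117436, [], [(42, 5, 46)]⟩,
  ⟨1119, 151061, [], []⟩,
  ⟨1, 129879, [], [(34, 2, 59)]⟩,
  ⟨999, 149270, [], []⟩,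
  ⟨443, 161476, [], []⟩,
  ⟨360, 145855, [], []⟩,
  ⟨123, 179550, [], []⟩,
  ⟨74, 151140, [], []⟩]⟩


def L62 : Leaf :=
  ⟨[(20, -109), (-139, -79), (93, -145), (-94, -107), (-194, -7), (194, -1678), (2624, 1178),
    (-1701, 1392), (497, -690), (-411, 701), (276, -55), (-768, 497), (-145, -596)],
  [(0, 0), (0, 0), (0, 0), (0, 0), (0, 0), (0, 0), (0, 0), (0, 0), (0, 0), (0, 0), (0, 0), (0,
    0)],
  [(583, 327), (-483, -272), (-470, 1906), (-163, 332), (-480, 1542), (606, -1128), (-1749, 265),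
    (2051, 298), (699, -2108), (90, -939), (-353, -278), (-148, 75), (-201, 94)],
  [⟨1, 450415, [], [(59, 4, 677)]⟩,
  ⟨1, 142707, [], [(54, 7, 1357)]⟩,
  ⟨1, 165324, [], [(14, 8, 364)]⟩,
  ⟨1, 107827, [], [(5, 3, 307)]⟩,
  ⟨1, 128638, [], [(46, 9, 493)]⟩,
  ⟨1, 121888, [], [(41, 0, 1607)]⟩,
  ⟨6141, 128824, [], []⟩,
  ⟨1403, 142937, [], []⟩,
  ⟨1, 179293, [], [(30, 1, 28)]⟩,
  ⟨1615, 141052, [], []⟩,
  ⟨127, 163603, [], []⟩,
  ⟨1108, 140514, [], []⟩]⟩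


def L63 : Leaf :=
  ⟨[(363, 278), (-888, -31), (1491, -542), (-1352, 2007), (-607, -2633), (2134, 693), (-313,
    1396), (-1413, 526), (-653, -1114), (161, -562), (518, -278), (172, 148), (142, 52)],
  [(0, 0), (0, 0), (0, 0), (0, 0), (0, 0), (0, 0), (0, 0), (0, 0), (0, 0), (0, 0), (0, 0), (0,
    0)],
  [(-23, 616), (222, 284), (-587, 124), (-1129, 487), (1168, 1342), (1059, -2969), (-2443, -416),
    (648, 306), (-575, -80), (872, 787), (-31, -114), (83, 201), (-160, -185)],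
  [⟨1, 451456, [], [(61, 6, 1116)]⟩,
  ⟨1, 112863, [], [(55, 0, 2213)]⟩,
  ⟨1, 187999, [], [(17, 10, 422)]⟩,
  ⟨1, 99257, [], [(7, 5, 198)]⟩,
  ⟨1, 119797, [], [(48, 11, 79)]⟩,
  ⟨1, 126114, [], [(42, 2, 197)]⟩,
  ⟨1, 116957, [], [(40, 4, 85)]⟩,
  ⟨635, 159929, [], []⟩,
  ⟨1, 124208, [], [(32, 1, 113)]⟩,
  ⟨1241, 161212, [], []⟩,
  ⟨460, 184785, [], []⟩,
  ⟨997, 159681, [], []⟩]⟩


def L64 : Leaf :=
  ⟨[(-89, -224), (-134, -6), (237, -514), (-46, 202), (659, -575), (324, 773), (-35, 608), (-1486,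
    -482), (2048, -1158), (-421, 2096), (-155, -896), (-145, 942), (-459, -504)],
  [(130, 225), (-329, 310), (-418, 25), (-503, -336), (-127, -570), (176, -617), (546, -337),
    (583, -33), (460, 393), (90, 409), (-209, 401), (-252, -64)],
  [(401, 408), (-317, -831), (-975, 473), (-306, -532), (-63, 2267), (3643, 269), (-169, -446),
    (1198, 1989), (598, 401), (-147, 1032), (-880, 459), (-637, 219), (-572, -240)],
  [⟨1, 480145, [], [(62, 7, 685)]⟩,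
  ⟨1, 120282, [], [(10, 1, 846)]⟩,
  ⟨1, 145719, [], [(17, 11, 90)]⟩,
  ⟨1, 104141, [], [(8, 6, 554)]⟩,
  ⟨1, 128327, [], [(49, 12, 111)]⟩,
  ⟨1, 125949, [], [(43, 3, 851)]⟩,
  ⟨1, 147406, [(0, 272)], [(41, 0, 79)]⟩,
  ⟨2807, 151524, [], []⟩,
  ⟨1, 128890, [], [(33, 2, 339), (31, 2, 83)]⟩,
  ⟨3686, 150409, [], []⟩,
  ⟨1650, 155969, [], []⟩,
  ⟨2404, 149526, [], []⟩]⟩


def L65 : Leaf :=
  ⟨[(-396, 912), (-1314, -1688), (2241, 73), (-1393, 787), (413, -706), (-471, -292), (1040,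
    -276), (-246, 279), (461, -17), (-80, 38), (279, 268), (-165, 86), (-8, 171)],
  [(227, 71), (-6, 471), (-406, 338), (-658, -5), (-526, -487), (-131, -745), (385, -651), (663,
    -271), (618, 227), (262, 459), (-160, 443), (-237, -13)],
  [(1453, -1179), (-402, -1727), (1758, 783), (719, -1052), (95, 3178), (2838, 1240), (272, 53),
    (-166, -181), (-757, 31), (361, -441), (5, -243), (238, -60), (-81, 150)],
  [⟨1, 486331, [], [(63, 8, 701)]⟩,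
  ⟨1, 116229, [], [(11, 2, 978)]⟩,
  ⟨1, 161332, [], [(18, 12, 5)]⟩,
  ⟨1, 113146, [], [(9, 7, 742)]⟩,
  ⟨1, 146078, [(0, 320)], [(51, 0, 6), (50, 0, 68), (49, 0, 378), (48, 13, 230)]⟩,
  ⟨1, 179917, [], [(44, 4, 110)]⟩,
  ⟨1, 125464, [], [(6, 1, 152)]⟩,
  ⟨119, 127711, [], []⟩,
  ⟨1, 137004, [], [(34, 3, 244), (32, 3, 94)]⟩,
  ⟨3277, 155947, [], []⟩,
  ⟨1375, 151597, [], []⟩,
  ⟨2087, 154698, [], []⟩]⟩


def L66 : Leaf :=
  ⟨[(187, 694), (-1087, -548), (1504, 291), (-2256, 704), (820, -2122), (610, 881), (48, 271),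
    (-958, 121), (246, -881), (197, -175), (566, 105), (-78, 224), (131, 129)],
  [(198, 51), (21, 371), (-246, 285), (-492, 95), (-433, -260), (-254, -475), (114, -526), (344,
    -369), (499, -44), (315, 206), (81, 362), (-176, 104)],
  [(1898, -684), (-595, -2196), (545, 2967), (2865, 367), (753, 1592), (1736, 304), (-465, 299),
    (325, -381), (-837, -480), (348, -450), (-46, -182), (258, 73), (-89, 215)],
  [⟨1, 483225, [], [(63, 8, 761)]⟩,
  ⟨1, 118595, [], [(11, 2, 1023)]⟩,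
  ⟨1, 138467, [], [(18, 12, 178)]⟩,
  ⟨1, 100797, [], [(9, 7, 538)]⟩,
  ⟨1, 120126, [], [(13, 0, 188)]⟩,
  ⟨1, 137442, [], [(44, 4, 397)]⟩,
  ⟨1, 111092, [], [(6, 1, 172)]⟩,
  ⟨113, 122875, [], []⟩,
  ⟨1, 124301, [], [(34, 3, 289), (32, 3, 33)]⟩,
  ⟨4640, 135154, [], []⟩,
  ⟨234, 146622, [], []⟩,
  ⟨3531, 135207, [], []⟩]⟩


def L67 : Leaf :=
  ⟨[(320, 154), (-635, 183), (665, -221), (-1513, 446), (1397, -2471), (1653, 2665), (-2002, 737),
    (-759, -857), (432, -651), (13, 191), (78, -210), (85, -39), (134, 46)],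
  [(0, 0), (0, 0), (0, 0), (0, 0), (0, 0), (0, 0), (0, 0), (0, 0), (0, 0), (0, 0), (0, 0), (0,
    0)],
  [(-152, -97), (-58, 142), (157, 430), (1331, 742), (728, -693), (-673, -1043), (-2332, 688),
    (1094, 1784), (-215, -1800), (-986, 1122), (1091, -760), (-392, -287), (665, 2)],
  [⟨1, 456615, [], [(61, 6, 1115)]⟩,
  ⟨1, 108136, [], [(55, 0, 2339)]⟩,
  ⟨1, 185321, [], [(17, 10, 559)]⟩,
  ⟨1, 98370, [], [(7, 5, 178)]⟩,
  ⟨1, 115744, [], [(48, 11, 53)]⟩,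
  ⟨1, 134323, [], [(42, 2, 200)]⟩,
  ⟨1, 113690, [], [(40, 4, 71)]⟩,
  ⟨703, 167300, [], []⟩,
  ⟨1, 106207, [], [(3, 1, 105)]⟩,
  ⟨123, 153136, [], []⟩,
  ⟨741, 187355, [], []⟩,
  ⟨822, 160926, [], []⟩]⟩


def L68 : Leaf :=
  ⟨[(110, 129), (-280, -183), (259, 217), (-114, -495), (326, 943), (-763, -916), (824, 989),
    (-1806, -1052), (2189, -785), (4, 1485), (-771, 356), (-328, -744), (338, 55)],
  [(341, 186), (-443, 508), (-296, 12), (-635, -179), (-99, -411), (-263, -524), (365, -458),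
    (182, -382), (659, -44), (287, 73), (328, 588), (-372, 111)],
  [(759, 805), (-203, 1125), (1114, 2755), (376, 720), (652, 2121), (308, -1775), (-2914, 820),
    (633, 791), (-240, -751), (212, -211), (-115, 535), (542, 125), (-84, -101)],
  [⟨1, 463467, [], [(62, 7, 745)]⟩,
  ⟨1, 109791, [], [(10, 1, 923)]⟩,
  ⟨1, 150864, [], [(17, 11, 123)]⟩,
  ⟨1, 100882, [], [(8, 6, 597)]⟩,
  ⟨1, 128572, [], [(49, 12, 85)]⟩,
  ⟨1, 142638, [], [(43, 3, 740)]⟩,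
  ⟨1, 132522, [], [(41, 0, 449)]⟩,
  ⟨2435, 135890, [], []⟩,
  ⟨1, 116246, [], [(4, 2, 231)]⟩,
  ⟨197, 133956, [], []⟩,
  ⟨4135, 147347, [], []⟩,
  ⟨1222, 136279, [], []⟩]⟩


def L69 : Leaf :=
  ⟨[(25, -337), (408, -54), (621, 491), (-990, 860), (-500, -848), (413, -847), (1352, 1090),
    (-1894, 255), (1433, -793), (-1088, 1214), (314, -1133), (-87, 603), (-57, -358)],
  [(288, 90), (-154, 473), (-231, 147), (-527, 68), (-300, -316), (-265, -418), (160, -468), (217,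
    -377), (528, -58), (259, 89), (261, 423), (-259, 155)],
  [(1076, 375), (544, -16), (348, 1579), (38, 1730), (1061, 982), (-2326, -813), (-1526, 3114),
    (468, -167), (-575, 1074), (2024, -488), (43, -401), (601, 31), (-258, -53)],
  [⟨1, 488251, [], [(62, 7, 769)]⟩,
  ⟨1, 111767, [], [(10, 1, 999)]⟩,
  ⟨1, 181066, [], [(17, 11, 124)]⟩,
  ⟨1, 106558, [], [(8, 6, 589)]⟩,
  ⟨1, 146592, [], [(49, 12, 202)]⟩,
  ⟨1, 166972, [], [(43, 3, 498)]⟩,
  ⟨1, 131858, [], [(5, 0, 187)]⟩,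
  ⟨756, 132380, [], []⟩,
  ⟨1, 126666, [], [(4, 2, 299)]⟩,
  ⟨543, 133464, [], []⟩,
  ⟨4979, 142354, [], []⟩,
  ⟨2371, 135041, [], []⟩]⟩


def L70 : Leaf :=
  ⟨[(-63, 10), (-105, 212), (-538, 173), (-798, -827), (957, -943), (562, 449), (-47, 656), (-994,
    -1053), (2166, -268), (-904, 1207), (818, -706), (-264, 1420), (-620, -378)],
  [(65, 33), (-38, 189), (-244, 65), (-241, -136), (-89, -323), (180, -288), (323, -107), (293,
    163), (75, 266), (-121, 222), (-193, -8), (-16, -71)],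
  [(1, 9), (90, -52), (-19, 447), (1930, 793), (877, 334), (596, -74), (-1225, 259), (-133, 496),
    (-704, 617), (1707, 63), (-569, -1819), (1252, 1419), (2215, -1568)],
  [⟨1, 480266, [], [(60, 5, 632)]⟩,
  ⟨1, 134030, [], [(55, 8, 1529)]⟩,
  ⟨1, 180132, [], [(15, 9, 363)]⟩,
  ⟨1, 104850, [], [(6, 4, 276)]⟩,
  ⟨1, 131268, [], [(47, 10, 344)]⟩,
  ⟨139, 133140, [], []⟩,
  ⟨1, 127693, [], [(39, 3, 276)]⟩,
  ⟨1, 133231, [], [(35, 0, 867)]⟩,
  ⟨1, 114042, [], [(2, 1, 270)]⟩,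
  ⟨7484, 140937, [], []⟩,
  ⟨2219, 149685, [], []⟩,
  ⟨385, 132246, [], []⟩]⟩


def L71 : Leaf :=
  ⟨[(-55, -26), (-137, 100), (-112, 180), (-999, -323), (624, -1136), (644, 216), (70, 901),
    (-1280, -1267), (2566, -428), (-789, 1507), (691, -363), (-730, 1271), (-476, -633)],
  [(36, 38), (-27, 35), (20, 44), (-32, 41), (-6, 55), (-44, 27), (-26, 44), (-55, 7), (-40, 33),
    (-44, -19), (-35, 27), (-38, -35)],
  [(-5, 15), (16, -16), (40, 92), (1519, 621), (1618, 662), (1592, -471), (-606, -355), (-205,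
    -59), (-1299, 501), (1877, -14), (-854, -2133), (815, 1271), (2002, -1336)],
  [⟨1, 495533, [], [(60, 5, 748)]⟩,
  ⟨1, 131422, [], [(55, 8, 1660)]⟩,
  ⟨1, 156399, [], [(15, 9, 323)]⟩,
  ⟨1, 101274, [], [(6, 4, 308)]⟩,
  ⟨1, 121524, [], [(47, 10, 268)]⟩,
  ⟨83, 130721, [], []⟩,
  ⟨1, 122769, [], [(39, 3, 342)]⟩,
  ⟨1, 147574, [], [(36, 0, 1038)]⟩,
  ⟨1, 107835, [], [(2, 1, 223)]⟩,
  ⟨1493, 136239, [], []⟩,
  ⟨570, 144336, [], []⟩,
  ⟨435, 131529, [], []⟩]⟩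


def L72 : Leaf :=
  ⟨[(-128, 44), (323, -829), (840, 863), (-191, -29), (45, 1212), (-824, -736), (260, 811), (-964,
    -1020), (1251, 534), (-1555, 720), (-627, -1744), (1447, -506), (137, 677)],
  [(75, 456), (-394, 235), (-200, 282), (-457, 62), (-313, 215), (-385, -66), (-376, 105), (-333,
    -182), (-461, -15), (-228, -260), (-416, -193), (28, -461)],
  [(-6, -6), (640, 649), (185, 1085), (1534, 1253), (957, -503), (-305, -544), (-1478, 1019),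
    (1307, 318), (-842, -1276), (994, 1087), (695, -1317), (794, 520), (1401, -1100)],
  [⟨1, 452410, [], [(61, 6, 666)]⟩,
  ⟨1, 133349, [], [(56, 9, 1196)]⟩,
  ⟨1, 148935, [], [(16, 10, 231)]⟩,
  ⟨1, 105249, [], [(7, 5, 279)]⟩,
  ⟨1, 122861, [], [(48, 11, 184)]⟩,
  ⟨77, 139978, [], []⟩,
  ⟨1, 115874, [], [(40, 4, 275)]⟩,
  ⟨1, 158896, [], [(36, 0, 891)]⟩,
  ⟨1, 116170, [], [(33, 2, 369)]⟩,
  ⟨13034, 146420, [], []⟩,
  ⟨1, 121870, [], [(24, 1, 164)]⟩,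
  ⟨153, 142023, [], []⟩]⟩


def L73 : Leaf :=
  ⟨[(-257, 128), (-3, -831), (522, 173), (567, -407), (202, 1327), (-205, -604), (2, 1419), (-970,
    -1327), (1482, 864), (-1579, 892), (-853, -1219), (813, -786), (279, 371)],
  [(22, 532), (-504, 54), (-104, 269), (-431, -79), (-196, 256), (-292, -133), (-255, 195), (-248,
    -206), (-402, 174), (-162, -239), (-504, 61), (-98, -523)],
  [(-3, -4), (694, 633), (483, 1206), (921, 1176), (847, 321), (-65, -1401), (-2171, 560), (1713,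
    631), (-162, -1338), (1231, 1026), (926, -477), (652, 596), (702, -844)],
  [⟨1, 490809, [], [(61, 6, 664)]⟩,
  ⟨1, 129646, [], [(56, 9, 1336)]⟩,
  ⟨1, 153262, [], [(16, 10, 255)]⟩,
  ⟨1, 106122, [], [(7, 5, 246)]⟩,
  ⟨1, 128417, [], [(48, 11, 192)]⟩,
  ⟨90, 128197, [], []⟩,
  ⟨1, 124695, [], [(40, 4, 280), (38, 4, 26)]⟩,
  ⟨5427, 136692, [], [(37, 0, 809)]⟩,
  ⟨1, 123570, [], [(33, 2, 210)]⟩,
  ⟨9267, 136799, [], []⟩,
  ⟨1, 125141, [], [(24, 1, 106)]⟩,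
  ⟨121, 130508, [], []⟩]⟩


def L74 : Leaf :=
  ⟨[(-217, -288), (345, -373), (708, 349), (-904, 782), (-622, -1370), (1746, -1216), (1584,
    2634), (-2376, 313), (1058, -138), (-1761, 493), (564, -1055), (-348, 239), (227, -369)],
  [(-19, -8), (17, -27), (17, 2), (11, -2), (7, 10), (8, -5), (6, 8), (10, -6), (9, 7), (16, 5),
    (4, 32), (-21, -1)],
  [(-440, 504), (334, 66), (128, -530), (-1445, 279), (451, 2926), (1983, -1457), (-1856, -783),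
    (282, -268), (-1030, -455), (779, 658), (453, 59), (618, 800), (7, 170)],
  [⟨1, 476849, [], [(61, 6, 1145)]⟩,
  ⟨1, 129255, [], [(55, 0, 1974)]⟩,
  ⟨1, 159645, [], [(17, 10, 21), (16, 10, 178)]⟩,
  ⟨1, 106360, [], [(7, 5, 198)]⟩,
  ⟨1, 139247, [], [(48, 11, 112)]⟩,
  ⟨1789, 160040, [], []⟩,
  ⟨1, 126204, [], [(40, 4, 93)]⟩,
  ⟨2647, 158001, [], []⟩,
  ⟨1, 124297, [], [(33, 2, 47)]⟩,
  ⟨76, 146123, [], []⟩,
  ⟨1, 125244, [], [(25, 1, 69)]⟩,
  ⟨795, 155110, [], []⟩]⟩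


def L75 : Leaf :=
  ⟨[(-791, -608), (903, -1228), (1294, 356), (-41, 1210), (-555, -313), (351, -278), (953, 799),
    (-1156, 595), (1022, -248), (-1630, 1459), (-79, -1613), (-140, 577), (-133, -719)],
  [(13, 861), (-860, 287), (-450, 543), (-879, 41), (-702, 390), (-786, -175), (-800, 85), (-654,
    -467), (-868, -141), (-385, -591), (-822, -383), (111, -854)],
  [(383, 148), (1346, 430), (-237, 325), (456, 1654), (1609, 790), (968, -1047), (-1554, -175),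
    (698, 379), (-859, -968), (1023, 894), (563, -1476), (580, 356), (1588, -1282)],
  [⟨1, 482954, [], [(62, 7, 650)]⟩,
  ⟨1, 120452, [], [(10, 1, 575)]⟩,
  ⟨1, 153861, [], [(17, 11, 230)]⟩,
  ⟨1, 102750, [], [(8, 6, 311)]⟩,
  ⟨1, 134987, [], [(49, 12, 115)]⟩,
  ⟨67, 134422, [], []⟩,
  ⟨1, 128236, [], [(41, 5, 171)]⟩,
  ⟨1827, 137850, [], [(37, 0, 303), (35, 0, 334)]⟩,
  ⟨1, 126902, [], [(34, 3, 410)]⟩,
  ⟨4756, 137750, [], []⟩,
  ⟨1, 129152, [], [(26, 2, 389)]⟩,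
  ⟨6166, 138509, [], []⟩]⟩


def L76 : Leaf :=
  ⟨[(-428, -280), (48, -683), (853, -445), (381, 395), (640, 262), (-533, 630), (329, 4), (-316,
    -15), (1311, 905), (-2750, 1176), (359, -2289), (269, 797), (-171, -494)],
  [(-224, 686), (-733, 60), (-521, 274), (-699, -184), (-617, 105), (-528, -263), (-584, -78),
    (-452, -433), (-682, -239), (-278, -519), (-574, -461), (199, -694)],
  [(149, 102), (310, 415), (-41, 60), (939, 978), (1865, 1331), (1571, -775), (-1935, -308), (546,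
    1721), (-409, -1427), (289, 991), (1193, -1192), (757, -11), (1969, -748)],
  [⟨1, 453404, [], [(62, 7, 712)]⟩,
  ⟨1, 130973, [], [(10, 1, 638)]⟩,
  ⟨1, 124785, [], [(17, 11, 308)]⟩,
  ⟨1, 95566, [], [(8, 6, 316)]⟩,
  ⟨1, 110379, [], [(49, 12, 262)]⟩,
  ⟨69, 148506, [], []⟩,
  ⟨1, 115189, [], [(41, 5, 457), (39, 5, 7)]⟩,
  ⟨1, 151905, [], [(38, 0, 695)]⟩,
  ⟨1, 118427, [], [(34, 3, 236)]⟩,
  ⟨4654, 156389, [], []⟩,
  ⟨1, 130871, [], [(26, 2, 130)]⟩,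
  ⟨2474, 156820, [], []⟩]⟩


def L77 : Leaf :=
  ⟨[(7, 111), (-61, 177), (-663, 155), (-59, -920), (266, 231), (-68, -659), (282, 252), (421,
    -1245), (1855, 1774), (-2115, 891), (218, -1113), (96, 405), (-128, -80)],
  [(0, 0), (0, 0), (0, 0), (0, 0), (0, 0), (0, 0), (0, 0), (0, 0), (0, 0), (0, 0), (0, 0), (0,
    0)],
  [(-35, -6), (232, 74), (-739, -279), (1634, 669), (1233, -1717), (953, -388), (-235, -735),
    (312, 1082), (-259, -1427), (-961, 1074), (1776, -1730), (-461, -1625), (-148, -463)],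
  [⟨1, 523103, [], [(59, 4, 647)]⟩,
  ⟨1, 137000, [], [(54, 7, 1327)]⟩,
  ⟨1, 137227, [], [(14, 8, 474)]⟩,
  ⟨1, 102281, [], [(5, 3, 606)]⟩,
  ⟨1, 109127, [], [(46, 9, 434)]⟩,
  ⟨1, 113449, [], [(42, 1, 832)]⟩,
  ⟨1, 102984, [], [(39, 2, 557), (6, 2, 165)]⟩,
  ⟨1, 120052, [], [(32, 0, 229)]⟩,
  ⟨4473, 158216, [], []⟩,
  ⟨448, 134631, [], []⟩,
  ⟨454, 178514, [], []⟩,
  ⟨175, 138405, [], []⟩]⟩


def L78 : Leaf :=
  ⟨[(-321, 892), (-1446, -1501), (2270, -113), (-1697, 1180), (73, -1657), (388, -346), (1395,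
    -278), (196, 1072), (139, 481), (-702, 403), (-75, -206), (-160, 8), (-16, 53)],
  [(0, 0), (0, 0), (0, 0), (0, 0), (0, 0), (0, 0), (0, 0), (0, 0), (0, 0), (0, 0), (0, 0), (0,
    0)],
  [(-101, 171), (223, -696), (-475, 1100), (1685, 887), (545, 664), (1294, 103), (-1010, 69),
    (1025, 504), (-1069, -1534), (154, 1656), (2190, -1241), (656, -1182), (145, -443)],
  [⟨1, 612901, [], [(59, 4, 768)]⟩,
  ⟨1, 153603, [], [(54, 7, 1341)]⟩,
  ⟨1, 139753, [], [(14, 8, 380)]⟩,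
  ⟨1, 103270, [], [(5, 3, 292)]⟩,
  ⟨1, 120432, [], [(46, 9, 317)]⟩,
  ⟨1, 120948, [], [(42, 1, 304)]⟩,
  ⟨1, 114492, [], [(6, 2, 1071)]⟩,
  ⟨1, 97209, [], [(33, 0, 553)]⟩,
  ⟨1, 206465, [], [(29, 28, 163)]⟩,
  ⟨151, 165601, [], []⟩,
  ⟨454, 171205, [], []⟩,
  ⟨576, 171840, [], []⟩]⟩


def L79 : Leaf :=
  ⟨[(-5, 304), (-551, -937), (2354, 660), (-2525, 2267), (-946, -2605), (1003, -371), (676, -97),
    (94, 472), (113, 105), (-114, 151), (-42, 61), (-43, -10), (-23, 6)],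
  [(-47, -88), (79, -100), (74, -80), (121, -27), (103, -39), (107, 11), (108, -4), (101, 46),
    (119, 34), (69, 84), (73, 105), (-52, 85)],
  [(-22, 9), (53, -33), (-93, -74), (860, 506), (97, 676), (670, 160), (-546, 229), (1260, -621),
    (-2315, -1765), (-234, 2552), (2256, -540), (499, -234), (-88, -112)],
  [⟨1, 462463, [], [(60, 5, 1126)]⟩,
  ⟨1, 124500, [], [(54, 0, 2362)]⟩,
  ⟨1, 161109, [], [(16, 9, 488)]⟩,
  ⟨1, 110564, [], [(6, 4, 133)]⟩,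
  ⟨1, 128517, [], [(47, 10, 66)]⟩,
  ⟨1, 110517, [], [(2, 1, 104)]⟩,
  ⟨1, 114104, [], [(40, 3, 36), (7, 3, 270)]⟩,
  ⟨99, 147393, [], []⟩,
  ⟨89, 175214, [], []⟩,
  ⟨204, 149517, [], []⟩,
  ⟨127, 188843, [], []⟩,
  ⟨103, 154552, [], []⟩]⟩


def L80 : Leaf :=
  ⟨[(171, 15), (134, 21), (372, 885), (-1264, 312), (-582, -238), (-508, -1837), (2158, 592),
    (-1844, 411), (1303, -1303), (158, 1075), (-200, -97), (34, -6), (37, 88)],
  [(0, 0), (0, 0), (0, 0), (0, 0), (0, 0), (0, 0), (0, 0), (0, 0), (0, 0), (0, 0), (0, 0), (0,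
    0)],
  [(-34, -13), (135, -110), (143, -52), (2697, 1328), (1404, -245), (736, -295), (-1443, 14),
    (1257, 967), (-221, -2001), (1116, 1253), (2795, -2067), (-99, -80), (-146, -67)],
  [⟨1, 505323, [], [(60, 5, 746)]⟩,
  ⟨1, 108218, [], [(8, 0, 783)]⟩,
  ⟨1, 164692, [], [(15, 9, 469)]⟩,
  ⟨1, 107150, [], [(6, 4, 253)]⟩,
  ⟨1, 134861, [], [(47, 10, 242)]⟩,
  ⟨1, 119316, [], [(2, 1, 477)]⟩,
  ⟨1, 119671, [], [(40, 3, 222), (7, 3, 1092)]⟩,
  ⟨153, 126694, [], []⟩,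
  ⟨442, 157947, [], []⟩,
  ⟨895, 137084, [], []⟩,
  ⟨226, 172391, [], []⟩,
  ⟨198, 133057, [], []⟩]⟩


def L81 : Leaf :=
  ⟨[(89, 100), (-206, -117), (285, 424), (-898, -336), (408, -95), (-300, -866), (1128, 770),
    (-1256, -786), (2393, 10), (-976, 1897), (-930, -499), (45, -569), (217, 65)],
  [(-199, 292), (-358, -146), (-256, 27), (-252, -241), (-272, -58), (-172, -258), (-278, -139),
    (-91, -263), (-270, -220), (-4, -257), (-189, -337), (265, -234)],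
  [(31, 98), (111, -275), (-790, 103), (513, 928), (1736, 2356), (1502, -684), (-1936, 620),
    (1066, 748), (-863, -671), (1168, 1032), (1802, -1114), (1281, 107), (225, 269)],
  [⟨1, 479111, [], [(59, 4, 680)]⟩,
  ⟨1, 145554, [], [(54, 7, 1668)]⟩,
  ⟨1, 157277, [], [(14, 8, 299)]⟩,
  ⟨1, 105970, [], [(5, 3, 219)]⟩,
  ⟨1, 140241, [], [(46, 9, 377), (44, 9, 3)]⟩,
  ⟨1, 102813, [], [(43, 0, 898)]⟩,
  ⟨1, 126705, [], [(6, 2, 888)]⟩,
  ⟨74, 156407, [], []⟩,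
  ⟨75, 160635, [], []⟩,
  ⟨797, 162522, [], []⟩,
  ⟨232, 191952, [], []⟩,
  ⟨270, 160640, [], []⟩]⟩


def L82 : Leaf :=
  ⟨[(-85, 16), (-296, 49), (-117, -563), (170, -250), (842, -152), (-599, 975), (-41, -1342),
    (1060, 383), (288, 775), (-1126, 412), (515, -882), (4, 888), (-362, -251)],
  [(51, -173), (479, 284), (-412, 604), (-522, -22), (-589, -370), (0, -838), (677, -494), (646,
    258), (325, 409), (-246, 689), (-511, -220), (110, -143)],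
  [(335, 335), (243, 275), (691, 93), (-837, 337), (1360, 1915), (933, -155), (506, 1150), (-219,
    211), (-184, 2228), (827, -125), (-720, 58), (11, 7), (-7, -51)],
  [⟨1, 484783, [], [(58, 3, 352)]⟩,
  ⟨1, 146970, [], [(53, 6, 1245)]⟩,
  ⟨1, 209765, [], [(14, 7, 549), (13, 7, 75), (11, 7, 416)]⟩,
  ⟨1, 121710, [], [(50, 2, 1735), (47, 2, 230)]⟩,
  ⟨1, 130816, [], [(45, 8, 831), (43, 8, 18)]⟩,
  ⟨1, 128126, [], [(41, 0, 189), (40, 0, 301)]⟩,
  ⟨1, 144880, [], [(35, 1, 186)]⟩,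
  ⟨4772, 137698, [], []⟩,
  ⟨740, 175046, [], []⟩,
  ⟨2369, 137307, [], []⟩,
  ⟨155, 164297, [], []⟩,
  ⟨265, 134903, [], []⟩]⟩


def L83 : Leaf :=
  ⟨[(-31, 28), (-87, 58), (-232, -118), (-88, -436), (878, -508), (651, 1507), (-2084, 416), (272,
    -2426), (2058, 1046), (-1262, 997), (25, -673), (-53, 294), (-66, -190)],
  [(-3, 72), (-129, 147), (-366, 63), (-448, -211), (-332, -505), (-29, -648), (301, -575), (515,
    -317), (495, -1), (305, 212), (55, 188), (-27, 66)],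
  [(-24, -9), (61, 5), (-37, -12), (-153, -307), (709, 974), (1341, -2132), (-2453, -310), (780,
    1692), (538, -661), (411, -215), (-127, -583), (86, -138), (21, -62)],
  [⟨1, 468190, [], [(59, 4, 1013)]⟩,
  ⟨1, 128352, [(0, 1209)], [(53, 0, 1134)]⟩,
  ⟨1, 168289, [(8, 906)], [(15, 8, 168), (12, 8, 202)]⟩,
  ⟨1, 123113, [(3, 460)], [(51, 3, 145), (48, 3, 1)]⟩,
  ⟨1, 130168, [], [(46, 9, 216)]⟩,
  ⟨1, 119125, [], [(40, 1, 39)]⟩,
  ⟨1, 123769, [], [(38, 2, 24), (36, 2, 6)]⟩,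
  ⟨211, 163661, [], []⟩,
  ⟨98, 186059, [], []⟩,
  ⟨129, 158798, [], []⟩,
  ⟨34, 167492, [], []⟩,
  ⟨64, 155654, [], []⟩]⟩


def L84 : Leaf :=
  ⟨[(16, -109), (133, 30), (230, 453), (-1175, -193), (1035, -864), (219, 734), (-379, 677),
    (-927, -1222), (1741, 227), (-1098, 545), (522, -238), (-458, 125), (141, -146)],
  [(127, -132), (291, 282), (-70, 480), (-552, 359), (-712, -198), (-378, -699), (240, -757),
    (662, -328), (610, 249), (159, 459), (-233, 332), (-149, -106)],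
  [(33, -7), (71, -16), (-96, -88), (-372, -254), (-1100, -1084), (973, -929), (-919, -3371),
    (-666, 430), (1400, -1190), (462, -365), (418, -1668), (-1454, 17), (523, -208)],
  [⟨1, 495534, [], [(60, 5, 551)]⟩,
  ⟨1, 120286, [], [(8, 1, 891)]⟩,
  ⟨1, 186904, [], [(16, 9, 445), (13, 9, 417)]⟩,
  ⟨1, 126813, [], [(52, 4, 1830)]⟩,
  ⟨1, 146382, [], [(47, 10, 376)]⟩,
  ⟨1, 112653, [], [(2, 0, 242)]⟩,
  ⟨1, 141541, [], [(39, 3, 80), (37, 3, 202)]⟩,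
  ⟨5043, 138841, [], []⟩,
  ⟨653, 169902, [], []⟩,
  ⟨908, 141316, [], []⟩,
  ⟨170, 173467, [], []⟩,
  ⟨177, 136720, [], []⟩]⟩


def L85 : Leaf :=
  ⟨[(-43, 49), (-244, -55), (517, -434), (-378, 593), (507, -617), (-31, 752), (-321, 236), (-924,
    -940), (2048, -282), (-1082, 1607), (-168, -885), (-41, -12), (157, -14)],
  [(122, 75), (-104, 272), (-298, 116), (-434, -82), (-284, -385), (-58, -516), (278, -438), (424,
    -222), (427, 116), (217, 234), (-26, 290), (-143, 14)],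
  [(-2, -29), (22, -78), (225, 216), (1339, 1338), (1143, 350), (1169, -271), (-454, 211), (1543,
    856), (-290, -579), (1232, 2242), (2040, -805), (-253, 526), (102, -164)],
  [⟨1, 509237, [], [(60, 5, 533)]⟩,
  ⟨1, 124200, [], [(8, 1, 777)]⟩,
  ⟨1, 171540, [], [(16, 9, 1104)]⟩,
  ⟨1, 125629, [], [(52, 4, 886), (49, 4, 9)]⟩,
  ⟨1, 144738, [], [(47, 10, 47), (45, 10, 396)]⟩,
  ⟨1, 128228, [], [(44, 0, 1721)]⟩,
  ⟨1, 126020, [], [(39, 3, 286)]⟩,
  ⟨4748, 143973, [], []⟩,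
  ⟨203, 167448, [], []⟩,
  ⟨431, 146278, [], []⟩,
  ⟨82, 173899, [], []⟩,
  ⟨78, 141692, [], []⟩]⟩


def L86 : Leaf :=
  ⟨[(-21, -2), (-37, -11), (46, -135), (162, -45), (310, 420), (-757, 175), (85, -504), (306,
    -206), (265, 944), (-1457, -667), (1480, -765), (-168, 1015), (-203, -219)],
  [(62, -32), (167, 207), (-238, 409), (-632, 80), (-603, -567), (68, -892), (692, -566), (810,
    168), (297, 563), (-199, 430), (-265, -18), (-9, -68)],
  [(21, 3), (206, 61), (628, 255), (1785, 337), (-462, -1274), (-371, -318), (-449, -653), (1856,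
    -312), (668, -2579), (910, 544), (1716, -1199), (-673, 471), (77, -81)],
  [⟨1, 483970, [], [(58, 3, 403)]⟩,
  ⟨1, 138738, [], [(53, 6, 1553)]⟩,
  ⟨1, 194170, [], [(14, 7, 823)]⟩,
  ⟨1, 117870, [], [(50, 2, 1064), (47, 2, 181)]⟩,
  ⟨1, 137326, [], [(45, 8, 314)]⟩,
  ⟨1, 138332, [], [(41, 0, 651)]⟩,
  ⟨1, 127616, [], [(5, 1, 1160)]⟩,
  ⟨336, 134917, [], []⟩,
  ⟨951, 161636, [], []⟩,
  ⟨518, 135908, [], []⟩,
  ⟨115, 172938, [], []⟩,
  ⟨84, 131739, [], []⟩]⟩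


def L87 : Leaf :=
  ⟨[(4, 14), (43, 11), (-1, -12), (6, 120), (311, 28), (-627, 503), (110, -380), (-495, 3), (448,
    65), (-1639, -515), (2281, -1713), (192, 2210), (-630, -337)],
  [(4, 6), (4, -3), (-4, 7), (5, 2), (-4, 3), (3, 2), (-2, 3), (4, 2), (-5, 2), (4, 7), (-4, -2),
    (-3, 6)],
  [(43, 13), (-47, -226), (-734, 431), (1206, 1363), (1553, 1559), (884, -828), (-1691, 1013),
    (1488, 535), (-814, -533), (1727, 1302), (1559, -1010), (944, 446), (-24, 217)],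
  [⟨1, 521087, [], [(58, 3, 677)]⟩,
  ⟨1, 144203, [], [(53, 6, 1321)]⟩,
  ⟨1, 167490, [], [(14, 7, 430)]⟩,
  ⟨1, 113864, [], [(50, 2, 276), (47, 2, 52)]⟩,
  ⟨1, 128375, [], [(45, 8, 326)]⟩,
  ⟨1, 135532, [], [(42, 0, 1427)]⟩,
  ⟨1, 115632, [], [(5, 1, 879)]⟩,
  ⟨459, 141449, [], []⟩,
  ⟨191, 152866, [], []⟩,
  ⟨358, 138734, [], []⟩,
  ⟨102, 172273, [], []⟩,
  ⟨115, 140296, [], []⟩]⟩


def L88 : Leaf :=
  ⟨[(-45, 268), (-94, -405), (404, 1116), (-2125, -580), (1416, -1541), (41, 979), (-1, -576),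
    (112, 30), (709, -291), (192, 859), (-336, 182), (-236, -5), (-23, -45)],
  [(-134, 50), (-14, -166), (14, 9), (46, -69), (15, 22), (54, -32), (-7, 62), (26, 4), (-44, 71),
    (15, 9), (-156, 57), (-10, -143)],
  [(-53, -146), (944, 120), (-993, 1291), (535, 1720), (-322, 472), (304, -468), (-1403, -428),
    (1365, 973), (62, -771), (531, 3097), (1442, 465), (379, -277), (6, -142)],
  [⟨1, 521004, [], [(55, 54, 753)]⟩,
  ⟨1, 124690, [], [(50, 3, 1363)]⟩,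
  ⟨1, 133815, [], [(10, 4, 488)]⟩,
  ⟨3561, 140366, [], []⟩,
  ⟨1, 127734, [], [(42, 5, 374)]⟩,
  ⟨1, 135887, [], [(38, 0, 1303)]⟩,
  ⟨1, 101319, [], [(2, 1, 1018)]⟩,
  ⟨1866, 139424, [], []⟩,
  ⟨1360, 161423, [], []⟩,
  ⟨161, 127242, [], []⟩,
  ⟨554, 175016, [], []⟩,
  ⟨191, 139413, [], []⟩]⟩


def L89 : Leaf :=
  ⟨[(-404, 286), (-151, -1418), (1894, 803), (-1517, 769), (750, -877), (-131, 918), (-209, 93),
    (-816, -28), (249, -792), (261, 107), (144, 24), (-65, 98), (-4, 16)],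
  [(-313, 242), (-431, 13), (-554, -27), (-430, -424), (-277, -395), (-134, -404), (-359, -229),
    (-315, -365), (-306, -520), (109, -544), (118, -415), (311, -245)],
  [(23, 107), (-222, 185), (164, 151), (953, 1011), (2247, 38), (505, 361), (-94, 168), (-434,
    1151), (838, -1140), (-375, 373), (3354, -604), (-52, -1373), (322, 786)],
  [⟨1, 480860, [], [(56, 55, 730)]⟩,
  ⟨1, 145342, [], [(51, 4, 1493)]⟩,
  ⟨1, 116260, [], [(11, 5, 872)]⟩,
  ⟨684, 135315, [], []⟩,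
  ⟨1, 130965, [], [(43, 6, 209)]⟩,
  ⟨1, 116807, [], [(1, 0, 753)]⟩,
  ⟨1, 97045, [], [(3, 2, 950)]⟩,
  ⟨2091, 144580, [], []⟩,
  ⟨2444, 159674, [], []⟩,
  ⟨494, 140629, [], []⟩,
  ⟨1996, 185507, [], []⟩,
  ⟨674, 144880, [], []⟩]⟩


def L90 : Leaf :=
  ⟨[(206, 262), (-409, -160), (487, 565), (-1942, -437), (1782, -1648), (124, 1510), (-47, -397),
    (53, 185), (455, 241), (-716, 600), (-342, -513), (112, -274), (238, 68)],
  [(-502, 312), (-543, -239), (-544, -97), (-403, -482), (-459, -367), (-273, -655), (-460, -540),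
    (-119, -576), (-247, -578), (160, -529), (33, -592), (506, -306)],
  [(-41, 190), (-148, 344), (267, 154), (1492, 638), (1911, -1053), (-374, 1034), (1688, 177),
    (-1433, -362), (890, 1192), (1226, -1390), (1104, -1378), (140, -601), (464, 525)],
  [⟨1, 539052, [], [(56, 55, 795)]⟩,
  ⟨1, 146950, [], [(51, 4, 1371)]⟩,
  ⟨1, 132213, [], [(12, 5, 388), (11, 5, 34)]⟩,
  ⟨5448, 147667, [], []⟩,
  ⟨1, 148396, [], [(43, 6, 303)]⟩,
  ⟨1, 112151, [], [(40, 0, 583)]⟩,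
  ⟨1, 115762, [], [(3, 2, 752)]⟩,
  ⟨3624, 145033, [], []⟩,
  ⟨600, 150751, [], []⟩,
  ⟨2304, 146879, [], []⟩,
  ⟨1823, 183033, [], []⟩,
  ⟨967, 147284, [], []⟩]⟩


def L91 : Leaf :=
  ⟨[(124, 88), (-61, 16), (-61, 562), (-1027, -728), (849, -435), (-2, -381), (1139, 749), (-1107,
    54), (1218, -219), (-610, 1468), (-1182, -664), (472, -746), (250, 234)],
  [(-165, 424), (-546, 113), (-713, 195), (-749, -529), (-387, -428), (-70, -459), (-461, -14),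
    (-472, -329), (-620, -677), (103, -733), (46, -559), (401, -215)],
  [(108, -112), (127, -47), (-170, 919), (934, 1695), (263, 767), (253, -69), (-661, -418), (1480,
    322), (89, -816), (924, 2007), (1795, -952), (-291, -389), (421, -164)],
  [⟨1, 542947, [], [(56, 55, 636)]⟩,
  ⟨1, 135729, [], [(51, 4, 1091)]⟩,
  ⟨1, 134057, [], [(12, 5, 183), (11, 5, 638)]⟩,
  ⟨911, 132962, [], []⟩,
  ⟨1, 139830, [], [(43, 6, 240)]⟩,
  ⟨24485, 136338, [], []⟩,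
  ⟨1, 111481, [], [(36, 2, 340)]⟩,
  ⟨1, 181741, [], [(31, 0, 66), (29, 0, 220)]⟩,
  ⟨1, 129485, [], [(27, 1, 18)]⟩,
  ⟨2481, 135144, [], []⟩,
  ⟨1009, 149427, [], []⟩,
  ⟨612, 135986, [], []⟩]⟩


def L92 : Leaf :=
  ⟨[(166, -79), (207, -10), (288, 769), (-1066, 108), (11, -321), (-597, -643), (1334, -116),
    (-1113, 410), (995, -1283), (726, 1383), (-884, 397), (-348, -477), (283, -136)],
  [(-160, 369), (-470, 285), (-838, 208), (-864, -437), (-424, -544), (-140, -433), (-453, -42),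
    (-624, -296), (-615, -748), (20, -863), (175, -520), (326, -237)],
  [(144, -214), (489, 412), (-617, 1869), (1263, 2026), (-577, -1134), (-48, 1156), (1267, -1301),
    (-125, 481), (786, 502), (856, 415), (1482, -591), (430, -295), (26, -218)],
  [⟨1, 549390, [], [(57, 56, 622)]⟩,
  ⟨1, 115724, [], [(52, 5, 1232)]⟩,
  ⟨1, 130440, [], [(13, 6, 547), (12, 6, 337)]⟩,
  ⟨152, 126784, [], []⟩,
  ⟨1, 132685, [], [(44, 7, 232)]⟩,
  ⟨22374, 136913, [], []⟩,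
  ⟨1, 108875, [], [(37, 3, 337)]⟩,
  ⟨1, 120533, [], [(1, 0, 248)]⟩,
  ⟨1, 125090, [], [(28, 2, 115)]⟩,
  ⟨97, 130819, [], []⟩,
  ⟨884, 143889, [], []⟩,
  ⟨495, 135842, [], []⟩]⟩


def L93 : Leaf :=
  ⟨[(57, -57), (135, -292), (619, 643), (-816, 316), (23, 119), (-1114, -483), (1256, -734),
    (-662, 925), (-14, -1341), (1140, 307), (6, 875), (-720, 77), (91, -352)],
  [(-144, 390), (-484, 411), (-893, 288), (-913, -321), (-550, -518), (-276, -410), (-490, -66),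
    (-708, -264), (-693, -676), (-137, -928), (154, -616), (286, -302)],
  [(-58, -477), (835, 900), (1028, 573), (925, 1956), (753, -1117), (-1376, 386), (1574, -424),
    (-223, -734), (669, 456), (1079, -505), (851, -1327), (-86, -519), (21, -112)],
  [⟨1, 533461, [], [(57, 56, 568)]⟩,
  ⟨1, 112423, [], [(52, 5, 1210)]⟩,
  ⟨1, 132095, [], [(13, 6, 651), (12, 6, 114)]⟩,
  ⟨177, 127132, [], []⟩,
  ⟨1, 131076, [], [(44, 7, 200)]⟩,
  ⟨20456, 139280, [], []⟩,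
  ⟨1, 109042, [], [(37, 3, 312)]⟩,
  ⟨1, 153989, [], [(31, 0, 772)]⟩,
  ⟨1, 124590, [], [(28, 2, 141)]⟩,
  ⟨56, 133280, [], []⟩,
  ⟨1801, 153917, [], []⟩,
  ⟨470, 136760, [], []⟩]⟩


def L94 : Leaf :=
  ⟨[(-420, -620), (1901, -221), (-893, 2065), (-450, -1118), (218, 614), (-254, -30), (-679, 109),
    (-191, -811), (414, -364), (293, 182), (206, -105), (67, 433), (-207, -135)],
  [(-542, 671), (-875, -291), (-609, 127), (-604, -553), (-675, -221), (-471, -761), (-753, -484),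
    (-209, -679), (-542, -614), (138, -606), (-275, -880), (681, -530)],
  [(-612, 1728), (1292, 634), (-1063, 56), (1103, 1433), (493, -575), (-5, 831), (337, -179),
    (-194, 205), (297, -123), (1486, 199), (1488, -1218), (98, -37), (34, 132)],
  [⟨1, 513940, [], [(56, 55, 657)]⟩,
  ⟨1, 136036, [], [(51, 4, 1071)]⟩,
  ⟨1, 134191, [], [(12, 5, 670)]⟩,
  ⟨139, 139263, [], []⟩,
  ⟨1, 141844, [], [(43, 6, 194)]⟩,
  ⟨19529, 147960, [], []⟩,
  ⟨1, 110510, [], [(36, 2, 307)]⟩,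
  ⟨102, 139967, [], []⟩,
  ⟨1, 114682, [], [(28, 1, 376)]⟩,
  ⟨1472, 148463, [], [(21, 0, 572)]⟩,
  ⟨59, 143869, [], []⟩,
  ⟨1771, 146891, [], []⟩]⟩


def L95 : Leaf :=
  ⟨[(-255, 64), (189, -589), (222, 545), (-380, -654), (839, 109), (127, 60), (358, 1007), (-1134,
    -82), (629, -363), (-403, 858), (-805, -613), (448, -548), (166, 200)],
  [(-721, 318), (-563, -260), (-900, 119), (-971, -591), (-935, -666), (-300, -1050), (-517,
    -590), (-294, -468), (-814, -770), (-242, -1008), (-112, -1200), (778, -607)],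
  [(-386, 1312), (932, 148), (-1206, 220), (1230, 1605), (407, -38), (124, 1129), (-48, -229),
    (-390, -42), (-56, -244), (1477, 484), (1683, -432), (542, 188), (25, 202)],
  [⟨1, 502714, [], [(56, 55, 400)]⟩,
  ⟨1, 134946, [], [(51, 4, 1067)]⟩,
  ⟨1, 135807, [], [(12, 5, 475), (11, 5, 15)]⟩,
  ⟨169, 136509, [], []⟩,
  ⟨1, 140390, [], [(43, 6, 203)]⟩,
  ⟨24693, 142756, [], []⟩,
  ⟨1, 111465, [], [(36, 2, 349)]⟩,
  ⟨91, 136083, [], []⟩,
  ⟨1, 114488, [], [(28, 1, 291)]⟩,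
  ⟨1, 175605, [], [(22, 0, 465)]⟩,
  ⟨5634, 158047, [], []⟩,
  ⟨2007, 142663, [], []⟩]⟩


def L96 : Leaf :=
  ⟨[(-46, -90), (-134, -61), (135, -343), (-289, -284), (1253, -677), (57, 648), (1879, 214),
    (-1652, 3134), (-1627, -2235), (1110, 100), (-293, 272), (-405, -95), (90, -297)],
  [(0, 0), (0, 0), (0, 0), (0, 0), (0, 0), (0, 0), (0, 0), (0, 0), (0, 0), (0, 0), (0, 0), (0,
    0)],
  [(-43, -61), (112, -293), (486, 123), (132, -125), (735, 2293), (1594, -75), (-180, 1799),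
    (2114, 112), (-627, -421), (710, -85), (-575, -365), (0, 330), (-214, 162)],
  [⟨1, 535986, [(2, 1046)], [(57, 2, 408)]⟩,
  ⟨1, 108962, [], [(6, 3, 1058)]⟩,
  ⟨1, 91611, [], [(13, 7, 530)]⟩,
  ⟨1, 146152, [], [(49, 4, 649), (48, 4, 279)]⟩,
  ⟨1, 109060, [], [(45, 8, 146)]⟩,
  ⟨1, 118538, [], [(41, 0, 94), (40, 0, 283)]⟩,
  ⟨1, 122503, [], [(37, 1, 74), (35, 5, 31)]⟩,
  ⟨5107, 143742, [], []⟩,
  ⟨113, 173261, [], []⟩,
  ⟨1324, 143731, [], []⟩,
  ⟨772, 178201, [], []⟩,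
  ⟨230, 136188, [], []⟩]⟩


def L97 : Leaf :=
  ⟨[(104, 477), (-1037, -477), (938, 278), (-2257, -640), (2437, -2115), (732, 1872), (-200, 364),
    (-613, 103), (284, -131), (-116, 54), (29, 165), (-94, -11), (-48, 13)],
  [(0, 0), (0, 0), (0, 0), (0, 0), (0, 0), (0, 0), (0, 0), (0, 0), (0, 0), (0, 0), (0, 0), (0,
    0)],
  [(21, -66), (71, -111), (-143, -28), (-29, -291), (-181, -176), (997, -619), (1393, 186), (2586,
    -1610), (-427, -495), (1762, 158), (-1415, -1111), (-394, 1413), (230, -513)],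
  [⟨1, 501811, [(2, 287)], [(57, 2, 2043)]⟩,
  ⟨1, 111240, [], [(6, 3, 818)]⟩,
  ⟨1, 94000, [], [(13, 7, 455)]⟩,
  ⟨1, 158468, [], [(49, 4, 1), (48, 4, 888)]⟩,
  ⟨1, 217521, [], [(45, 8, 15)]⟩,
  ⟨1, 125173, [], [(39, 0, 170)]⟩,
  ⟨1, 107963, [], [(37, 1, 210)]⟩,
  ⟨1685, 161233, [], []⟩,
  ⟨2512, 181499, [], []⟩,
  ⟨1101, 153403, [], []⟩,
  ⟨251, 155880, [], []⟩,
  ⟨329, 140713, [], []⟩]⟩


def L98 : Leaf :=
  ⟨[(-13, -46), (-78, -28), (24, -51), (-79, -119), (-357, 185), (-141, -1914), (2811, 860),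
    (-1404, 1465), (395, -334), (-709, 577), (101, -278), (-466, 161), (46, -331)],
  [(0, 0), (0, 0), (0, 0), (0, 0), (0, 0), (0, 0), (0, 0), (0, 0), (0, 0), (0, 0), (0, 0), (0,
    0)],
  [(161, 128), (-414, -886), (79, 1201), (-23, 1367), (871, 2512), (248, -244), (-314, 1915),
    (1204, -1087), (-1599, -219), (982, 685), (502, 552), (188, 289), (0, 79)],
  [⟨1, 523756, [], [(57, 2, 1695)]⟩,
  ⟨1, 108659, [], [(6, 3, 698)]⟩,
  ⟨1, 101790, [], [(13, 7, 454)]⟩,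
  ⟨1, 149522, [], [(49, 4, 566), (48, 4, 106)]⟩,
  ⟨1, 173370, [], [(45, 8, 171)]⟩,
  ⟨1, 154835, [], [(41, 0, 819)]⟩,
  ⟨1, 110235, [], [(38, 1, 373), (5, 1, 879)]⟩,
  ⟨101, 128797, [], []⟩,
  ⟨184, 151650, [], []⟩,
  ⟨883, 136828, [], []⟩,
  ⟨121, 163851, [], []⟩,
  ⟨302, 134687, [], []⟩]⟩


def L99 : Leaf :=
  ⟨[(208, 132), (-68, 111), (77, 1276), (-2696, -967), (1943, -1743), (-311, 832), (765, -722),
    (72, 493), (491, 183), (-407, 385), (-13, -69), (-23, 13), (-28, 54)],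
  [(5, -3), (2, 11), (-4, -4), (1, 5), (-2, -1), (-1, 0), (0, -1), (0, -2), (4, 3), (-2, -5), (10,
    6), (-4, 3)],
  [(-30, 29), (0, -109), (-26, -217), (1728, -79), (928, 448), (678, -152), (-1519, 440), (1416,
    1432), (-226, -1401), (1208, 873), (2825, -1666), (8, -450), (-159, -142)],
  [⟨1, 517297, [], [(57, 2, 1073)]⟩,
  ⟨1, 102345, [], [(6, 3, 580)]⟩,
  ⟨1, 105685, [], [(13, 7, 534)]⟩,
  ⟨1, 152642, [], [(48, 4, 686)]⟩,
  ⟨1, 193245, [], [(45, 8, 239)]⟩,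
  ⟨1, 140618, [], [(42, 0, 927)]⟩,
  ⟨1, 114264, [], [(38, 1, 43), (5, 1, 1223)]⟩,
  ⟨105, 133876, [], []⟩,
  ⟨61, 139113, [], []⟩,
  ⟨622, 138992, [], []⟩,
  ⟨91, 147229, [], []⟩,
  ⟨199, 139802, [], []⟩]⟩


def L100 : Leaf :=
  ⟨[(160, 257), (-133, 302), (-853, 892), (-1355, -1760), (1244, -236), (-713, -1045), (2340,
    -112), (-559, 1277), (40, -267), (17, 183), (13, 183), (-84, -17), (12, 82)],
  [(0, 0), (0, 0), (0, 0), (0, 0), (0, 0), (0, 0), (0, 0), (0, 0), (0, 0), (0, 0), (0, 0), (0,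
    0)],
  [(-8, -41), (-149, -22), (725, -265), (-1099, -1356), (-1184, 1800), (114, -443), (-1868, 611),
    (1219, 433), (773, -1128), (887, -573), (417, -74), (318, 238), (-100, 165)],
  [⟨1, 503596, [], [(58, 2, 551)]⟩,
  ⟨1, 112261, [(6, 110)], [(6, 3, 1193)]⟩,
  ⟨1, 125309, [], [(12, 1, 1437), (7, 1, 1)]⟩,
  ⟨1, 123589, [], [(48, 4, 2326)]⟩,
  ⟨1, 131849, [], [(43, 0, 123)]⟩,
  ⟨2737, 135312, [], []⟩,
  ⟨1, 151471, [], [(37, 5, 37)]⟩,
  ⟨2681, 135612, [], []⟩,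
  ⟨99, 141166, [], []⟩,
  ⟨1423, 135222, [], []⟩,
  ⟨173, 159799, [], []⟩,
  ⟨240, 132405, [], []⟩]⟩


def L101 : Leaf :=
  ⟨[(342, 50), (109, 900), (-1766, 764), (-660, -2543), (1411, 427), (-489, -1081), (1926, 711),
    (-1109, 521), (556, -116), (-339, 175), (124, 44), (-74, 17), (5, 38)],
  [(0, 0), (0, 0), (0, 0), (0, 0), (0, 0), (0, 0), (0, 0), (0, 0), (0, 0), (0, 0), (0, 0), (0,
    0)],
  [(-91, -10), (13, -337), (691, 134), (130, -63), (1016, 2030), (1828, -963), (-1498, 357), (381,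
    544), (-2176, -637), (-864, 1615), (457, 496), (192, 20), (-47, -58)],
  [⟨1, 498496, [], [(58, 2, 715)]⟩,
  ⟨1, 106752, [], [(6, 3, 554)]⟩,
  ⟨1, 130170, [(1, 258)], [(12, 1, 426), (7, 1, 13)]⟩,
  ⟨1, 129758, [], [(48, 4, 2577)]⟩,
  ⟨1, 152685, [], [(44, 0, 883), (9, 0, 1)]⟩,
  ⟨80, 134512, [], []⟩,
  ⟨1, 131778, [], [(35, 5, 3)]⟩,
  ⟨1080, 151653, [], []⟩,
  ⟨330, 167730, [], []⟩,
  ⟨674, 148352, [], []⟩,
  ⟨187, 156733, [], []⟩,
  ⟨157, 143176, [], []⟩]⟩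


def L102 : Leaf :=
  ⟨[(212, 492), (-737, -134), (753, 823), (-3052, 32), (1146, -3011), (948, 696), (609, -259),
    (64, 627), (133, -16), (-152, 121), (214, 55), (-74, 107), (40, 92)],
  [(0, 0), (0, 0), (0, 0), (0, 0), (0, 0), (0, 0), (0, 0), (0, 0), (0, 0), (0, 0), (0, 0), (0,
    0)],
  [(38, 171), (-12, 130), (-33, 1108), (130, -142), (-22, 1576), (2750, -1325), (-748, -1563),
    (1673, -138), (-386, -1572), (-574, 1004), (113, 532), (298, 108), (-295, -223)],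
  [⟨1, 505864, [], [(59, 3, 846)]⟩,
  ⟨1, 109566, [], [(7, 4, 571)]⟩,
  ⟨1, 138327, [], [(14, 2, 729)]⟩,
  ⟨1, 140421, [], [(49, 5, 1714)]⟩,
  ⟨1, 146348, [], [(46, 9, 5)]⟩,
  ⟨4684, 134253, [], []⟩,
  ⟨1, 133250, [], [(38, 1, 207)]⟩,
  ⟨3481, 136788, [], []⟩,
  ⟨1, 133612, [], [(30, 0, 33)]⟩,
  ⟨2384, 139035, [], []⟩,
  ⟨111, 154210, [], []⟩,
  ⟨716, 134984, [], []⟩]⟩


def L103 : Leaf :=
  ⟨[(-182, 682), (-1234, -908), (858, -67), (-1456, -1195), (2966, -1161), (177, 2117), (-370,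
    148), (-328, -56), (364, 130), (-251, 276), (-179, 109), (-136, -78), (-69, 2)],
  [(0, -2), (5, 2), (-2, 4), (-1, 0), (-1, 0), (-1, 1), (-1, -1), (-1, 0), (-1, 0), (-3, -3), (4,
    -4), (1, 2)],
  [(-499, 622), (-723, 658), (-768, 1221), (-362, 368), (1051, 1347), (2066, -1816), (-557, 233),
    (1999, -93), (-1459, -662), (57, 1425), (298, -210), (95, -31), (-11, 50)],
  [⟨1, 486561, [], [(59, 3, 759)]⟩,
  ⟨1, 109626, [], [(7, 4, 859)]⟩,
  ⟨1, 129454, [], [(14, 2, 728)]⟩,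
  ⟨1, 144082, [], [(49, 5, 1682)]⟩,
  ⟨1, 141286, [], [(46, 9, 18)]⟩,
  ⟨1464, 140467, [], []⟩,
  ⟨1, 128616, [], [(38, 1, 246)]⟩,
  ⟨5419, 138079, [], []⟩,
  ⟨1, 117537, [], [(31, 0, 65)]⟩,
  ⟨2534, 135918, [], []⟩,
  ⟨677, 167162, [], []⟩,
  ⟨380, 136228, [], []⟩]⟩


def L104 : Leaf :=
  ⟨[(-29, 255), (-208, -179), (-360, 530), (-449, -1297), (387, 611), (-488, -2035), (2823, 840),
    (-1116, 1429), (-297, -254), (-19, -124), (10, 162), (-74, 1), (-51, 5)],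
  [(1, 1), (-2, 0), (3, 0), (-6, -1), (9, -3), (-5, 4), (6, -2), (-8, 5), (3, -6), (-1, 2), (1,
    -2), (0, 1)],
  [(-54, -32), (-28, -142), (324, 12), (791, 261), (1140, 2670), (2706, -87), (-1029, 20), (1376,
    304), (-1349, -2092), (-606, 474), (489, -171), (559, 564), (-64, -304)],
  [⟨1, 524888, [], [(58, 2, 736)]⟩,
  ⟨1, 108728, [], [(6, 3, 640)]⟩,
  ⟨1, 152566, [], [(13, 1, 616)]⟩,
  ⟨1, 144898, [], [(48, 4, 1527)]⟩,
  ⟨1, 162557, [], [(45, 8, 43)]⟩,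
  ⟨6548, 136257, [], []⟩,
  ⟨1, 131973, [], [(38, 0, 67), (5, 0, 742)]⟩,
  ⟨510, 134346, [], []⟩,
  ⟨777, 145320, [], []⟩,
  ⟨1097, 134520, [], []⟩,
  ⟨171, 156779, [], []⟩,
  ⟨249, 134001, [], []⟩]⟩


def L105 : Leaf :=
  ⟨[(440, 344), (-767, 745), (-1033, 127), (-812, -2175), (1898, 527), (-1456, -640), (2035,
    -269), (-738, 560), (735, -57), (-213, 293), (27, 138), (-3, 15), (-12, 47)],
  [(0, 0), (0, 0), (0, 0), (0, 0), (0, 0), (0, 0), (0, 0), (0, 0), (0, 0), (0, 0), (0, 0), (0,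
    0)],
  [(-49, 61), (108, -136), (-111, 200), (558, -611), (394, 653), (1325, -265), (-32, 1519), (3394,
    -198), (31, -983), (1956, -1), (354, -1836), (-267, 256), (-8, 441)],
  [⟨1, 586528, [], [(55, 54, 911)]⟩,
  ⟨1, 110892, [], [(51, 0, 1403)]⟩,
  ⟨1, 117260, [], [(10, 4, 766)]⟩,
  ⟨1, 136105, [], [(46, 1, 593)]⟩,
  ⟨1, 148928, [], [(42, 5, 233)]⟩,
  ⟨7835, 146117, [], []⟩,
  ⟨1, 136463, [], [(34, 2, 130)]⟩,
  ⟨4535, 148753, [], []⟩,
  ⟨67, 176209, [], []⟩,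
  ⟨758, 145302, [], []⟩,
  ⟨377, 139135, [], []⟩,
  ⟨285, 145406, [], []⟩]⟩


def L106 : Leaf :=
  ⟨[(195, 319), (-603, -198), (886, 751), (-2728, -10), (1602, -2416), (489, 1341), (-71, -128),
    (-458, -60), (581, -388), (69, 190), (246, 200), (-113, 124), (-38, 61)],
  [(0, 0), (0, 0), (0, 0), (0, 0), (0, 0), (0, 0), (0, 0), (0, 0), (0, 0), (0, 0), (0, 0), (0,
    0)],
  [(-220, 170), (226, -539), (881, 263), (1064, -99), (657, 2064), (947, 672), (-905, 2544),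
    (1424, 855), (-888, -203), (1173, 129), (161, -676), (-93, 145), (-64, 102)],
  [⟨1292, 520551, [(1, 1332)], [(58, 1, 657)]⟩,
  ⟨1, 114161, [], [(7, 0, 1084)]⟩,
  ⟨1, 140602, [], [(14, 8, 221)]⟩,
  ⟨1, 103587, [], [(5, 2, 729)]⟩,
  ⟨1, 133666, [], [(46, 9, 201)]⟩,
  ⟨2638, 141156, [], []⟩,
  ⟨1, 131882, [], [(38, 3, 325)]⟩,
  ⟨4915, 139712, [], []⟩,
  ⟨518, 167564, [], []⟩,
  ⟨2562, 138553, [], []⟩,
  ⟨325, 166728, [], []⟩,
  ⟨347, 135558, [], []⟩]⟩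


def L107 : Leaf :=
  ⟨[(95, 463), (-948, -370), (875, 200), (-1472, -245), (1232, -392), (-1121, 114), (916, -587),
    (-429, 54), (605, -149), (-81, -115), (476, 176), (18, 210), (-53, 106)],
  [(272, 75), (-82, 278), (-146, 208), (-322, -74), (-280, -126), (-102, -612), (642, -415), (808,
    480), (-300, 981), (-735, 19), (-320, -549), (338, -191)],
  [(-33, 11), (-174, -49), (91, 40), (720, -1465), (800, 1079), (2217, -120), (11, 1922), (3012,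
    1348), (213, 351), (1450, 310), (175, -1358), (603, -255), (-105, -29)],
  [⟨2730, 548991, [], [(58, 1, 670)]⟩,
  ⟨1, 114159, [(0, 780)], [(4, 0, 839)]⟩,
  ⟨1, 150101, [], [(14, 8, 511)]⟩,
  ⟨1, 119868, [(5, 179)], [(51, 5, 640), (5, 2, 123)]⟩,
  ⟨1, 153444, [], [(46, 9, 349)]⟩,
  ⟨3715, 177774, [], []⟩,
  ⟨1, 145733, [], [(38, 3, 464)]⟩,
  ⟨4351, 177919, [], []⟩,
  ⟨62, 192308, [], []⟩,
  ⟨995, 176240, [], []⟩,
  ⟨68, 201275, [], []⟩,
  ⟨68, 175322, [], []⟩]⟩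


def L108 : Leaf :=
  ⟨[(-49, -101), (-193, 24), (70, -246), (-199, 18), (59, -74), (-486, -986), (2077, 19), (-1177,
    1172), (780, -1094), (37, 990), (436, -88), (-631, 962), (-393, -514)],
  [(0, 0), (0, 0), (0, 0), (0, 0), (0, 0), (0, 0), (0, 0), (0, 0), (0, 0), (0, 0), (0, 0), (0,
    0)],
  [(-217, 7), (-276, 43), (-505, 294), (480, 785), (1102, 1935), (2397, 284), (-790, 1513), (2104,
    2000), (-660, -695), (-160, 865), (-1000, -1419), (-699, 723), (451, -603)],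
  [⟨1, 517733, [], [(60, 2, 501)]⟩,
  ⟨1, 113068, [], [(8, 5, 1904)]⟩,
  ⟨1, 129486, [], [(15, 9, 446)]⟩,
  ⟨1, 97432, [], [(6, 3, 483)]⟩,
  ⟨1, 113532, [], [(47, 10, 453)]⟩,
  ⟨1, 116236, [], [(42, 0, 1270)]⟩,
  ⟨1, 146615, [], [(37, 7, 6)]⟩,
  ⟨2296, 144043, [], []⟩,
  ⟨1, 142916, [], [(31, 1, 59)]⟩,
  ⟨2202, 148711, [], []⟩,
  ⟨91, 172191, [], []⟩,
  ⟨1290, 147610, [], []⟩]⟩


def L109 : Leaf :=
  ⟨[(-17, -151), (25, 31), (349, -153), (-235, 469), (147, -170), (-488, 105), (639, -187), (-892,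
    284), (956, -663), (-709, 843), (540, -949), (-36, 906), (-242, -301)],
  [(235, 105), (-122, 441), (-383, 304), (-760, -194), (-152, -603), (0, -425), (163, -392), (371,
    -499), (777, 112), (237, 428), (-56, 454), (-257, 7)],
  [(1466, -185), (-163, -893), (1430, 2300), (1103, -67), (-94, 3244), (1889, 1247), (-179, 1103),
    (724, -23), (-484, -300), (367, -591), (-161, -153), (130, -18), (-57, 170)],
  [⟨143, 481264, [], [(61, 3, 645)]⟩,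
  ⟨1, 112882, [], [(9, 6, 2768)]⟩,
  ⟨1, 134037, [], [(16, 10, 317)]⟩,
  ⟨1, 103048, [], [(7, 4, 597)]⟩,
  ⟨1, 127102, [], [(48, 11, 131)]⟩,
  ⟨1, 131681, [], [(42, 1, 544)]⟩,
  ⟨1, 124025, [], [(40, 0, 200)]⟩,
  ⟨1645, 136645, [], []⟩,
  ⟨1, 121920, [], [(32, 2, 97)]⟩,
  ⟨1987, 136189, [], []⟩,
  ⟨866, 161664, [], []⟩,
  ⟨2279, 136548, [], []⟩]⟩


def L110 : Leaf :=
  ⟨[(-42, -184), (-268, -65), (258, -513), (139, -33), (633, 46), (-355, 190), (677, -50), (-486,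
    134), (1062, 241), (-1262, 571), (1069, -730), (-581, 1395), (-510, -704)],
  [(37, -149), (318, -44), (288, 271), (54, 484), (-329, 458), (-576, 145), (-531, -264), (-223,
    -517), (156, -461), (339, -204), (302, 111), (4, 154)],
  [(734, 576), (898, 481), (593, 841), (-1722, 1600), (97, 2851), (-1413, 51), (-506, 2640),
    (1443, -1163), (-421, -116), (1136, -377), (-189, 420), (495, 95), (-453, -2)],
  [⟨1, 483634, [], [(62, 4, 514)]⟩,
  ⟨1, 111603, [], [(10, 7, 2071)]⟩,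
  ⟨1, 146591, [], [(17, 11, 318)]⟩,
  ⟨1, 107207, [], [(8, 5, 498)]⟩,
  ⟨1, 137033, [], [(49, 12, 290)]⟩,
  ⟨1, 174738, [], [(43, 2, 270)]⟩,
  ⟨1, 126097, [], [(6, 1, 636)]⟩,
  ⟨391, 137478, [], []⟩,
  ⟨1, 153496, [], [(33, 0, 80), (31, 0, 106)]⟩,
  ⟨5135, 142079, [], []⟩,
  ⟨110, 142253, [], []⟩,
  ⟨3006, 141670, [], []⟩]⟩


def L111 : Leaf :=
  ⟨[(139, -263), (143, 169), (153, 4), (-172, 9), (524, 379), (-1050, -116), (1288, -259), (-1093,
    884), (538, -841), (-333, 700), (193, -281), (-494, 240), (103, -421)],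
  [(201, 125), (-163, 349), (-203, 127), (-424, 63), (-364, -207), (-340, -476), (124, -619),
    (445, -472), (669, 51), (325, 327), (2, 482), (-255, 50)],
  [(-210, 33), (201, -173), (293, 370), (1503, 381), (786, 1616), (1871, 1588), (667, 1878),
    (1655, 333), (-1750, -84), (690, 866), (-1062, -1671), (7, 1406), (1198, -565)],
  [⟨1, 484581, [], [(62, 4, 583)]⟩,
  ⟨1, 112015, [], [(10, 7, 2345)]⟩,
  ⟨1, 148436, [], [(17, 11, 281)]⟩,
  ⟨1, 105686, [], [(8, 5, 558)]⟩,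
  ⟨1, 140249, [], [(49, 12, 203)]⟩,
  ⟨1, 174387, [], [(43, 2, 434)]⟩,
  ⟨1, 128836, [], [(6, 1, 716)]⟩,
  ⟨88, 138969, [], []⟩,
  ⟨1, 117272, [], [(3, 0, 111)]⟩,
  ⟨755, 143430, [], []⟩,
  ⟨3612, 151545, [], []⟩,
  ⟨2099, 143144, [], []⟩]⟩


def L112 : Leaf :=
  ⟨[(-278, -149), (-49, -484), (601, -498), (328, 341), (559, 21), (-304, 663), (505, -110),
    (-791, 622), (1057, -608), (-896, 1945), (-940, -1352), (317, -2), (-53, -222)],
  [(70, 19), (-52, 227), (-326, 4), (-228, -237), (6, -435), (347, -263), (435, 12), (258, 350),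
    (-47, 325), (-267, 186), (-174, -155), (46, -56)],
  [(3, 14), (67, -16), (-45, 443), (2122, 986), (1671, 574), (1775, 445), (132, 979), (1242, 333),
    (-1514, -494), (541, 814), (-626, -1717), (147, 1413), (1767, -1001)],
  [⟨1, 520383, [], [(61, 3, 429)]⟩,
  ⟨1, 112036, [], [(9, 6, 1901)]⟩,
  ⟨1, 142218, [], [(16, 10, 401)]⟩,
  ⟨1, 104207, [], [(7, 4, 363)]⟩,
  ⟨1, 130408, [], [(48, 11, 287)]⟩,
  ⟨86, 135897, [], []⟩,
  ⟨1, 139917, [], [(40, 5, 789)]⟩,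
  ⟨1, 161597, [], [(36, 0, 697)]⟩,
  ⟨1, 111332, [], [(2, 1, 215)]⟩,
  ⟨6012, 142006, [], []⟩,
  ⟨1228, 151872, [], []⟩,
  ⟨576, 133516, [], []⟩]⟩


def L113 : Leaf :=
  ⟨[(-79, -43), (-142, 111), (-144, 167), (-1103, -315), (584, -1328), (630, 40), (584, 590),
    (-962, -556), (2038, -271), (-844, 1240), (861, -348), (-807, 1404), (-533, -690)],
  [(0, 0), (0, 0), (0, 0), (0, 0), (0, 0), (0, 0), (0, 0), (0, 0), (0, 0), (0, 0), (0, 0), (0,
    0)],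
  [(-13, 30), (2, -13), (55, 101), (2000, 797), (1930, 283), (1201, -478), (-694, 461), (1620,
    89), (-1407, -1580), (106, 1186), (408, -1546), (682, 460), (2000, -1098)],
  [⟨1, 518094, [], [(61, 3, 546)]⟩,
  ⟨1, 115492, [], [(9, 6, 1303)]⟩,
  ⟨1, 129999, [], [(16, 10, 506)]⟩,
  ⟨1, 100563, [], [(7, 4, 289)]⟩,
  ⟨1, 122957, [], [(48, 11, 287)]⟩,
  ⟨61, 144241, [], []⟩,
  ⟨1, 135915, [], [(40, 5, 864)]⟩,
  ⟨1, 142081, [], [(37, 0, 1245)]⟩,
  ⟨1, 105917, [], [(2, 1, 262)]⟩,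
  ⟨1765, 145512, [], []⟩,
  ⟨200, 148815, [], []⟩,
  ⟨614, 144225, [], []⟩]⟩


def L114 : Leaf :=
  ⟨[(-356, 822), (-1247, -1398), (1504, -216), (-743, -167), (1185, -179), (-328, 247), (609, 18),
    (-10, -19), (699, 625), (-546, 783), (-742, -42), (-41, -507), (12, 34)],
  [(128, 225), (-208, 274), (-263, 125), (-257, -99), (-72, 11), (-114, -12), (-108, 38), (-72,
    6), (-227, 155), (-285, -61), (-265, -219), (73, -248)],
  [(-2, 4), (1023, 505), (1090, 493), (1655, 232), (823, 121), (1237, -162), (-976, -2), (930,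
    590), (-867, -1564), (39, 1239), (1109, -1245), (-24, -366), (692, -730)],
  [⟨1, 482773, [], [(61, 3, 368)]⟩,
  ⟨1, 119546, [], [(9, 6, 1713)]⟩,
  ⟨1, 144449, [], [(16, 10, 421)]⟩,
  ⟨1, 107543, [], [(7, 4, 253)]⟩,
  ⟨1, 133644, [], [(48, 11, 190)]⟩,
  ⟨91, 132946, [], []⟩,
  ⟨1, 138836, [], [(40, 5, 655)]⟩,
  ⟨18403, 137447, [], []⟩,
  ⟨1, 129894, [], [(33, 1, 251)]⟩,
  ⟨11068, 137330, [], []⟩,
  ⟨1, 129568, [], [(24, 0, 75)]⟩,
  ⟨72, 133533, [], []⟩]⟩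


def L115 : Leaf :=
  ⟨[(-348, 60), (-83, -105), (-384, -225), (-234, -478), (782, -642), (-32, 521), (130, -291),
    (-112, -799), (2352, 177), (-1035, 1854), (482, -404), (-1143, 1266), (-373, -935)],
  [(-38, 99), (-93, -58), (-41, 59), (-69, -48), (-95, 27), (-47, -75), (-88, -6), (-20, -96),
    (-75, -38), (34, -64), (-95, -55), (70, -80)],
  [(198, -55), (1123, 221), (249, 641), (653, 1260), (1140, 1272), (1627, -371), (-718, 76),
    (1631, -181), (-876, -1953), (386, 977), (330, -828), (49, 730), (1008, -829)],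
  [⟨1, 482966, [], [(61, 3, 508)]⟩,
  ⟨1, 121803, [], [(9, 6, 1878)]⟩,
  ⟨1, 134303, [], [(16, 10, 565)]⟩,
  ⟨1, 106482, [], [(7, 4, 221)]⟩,
  ⟨1, 127543, [], [(48, 11, 231)]⟩,
  ⟨88, 132338, [], []⟩,
  ⟨1, 130446, [], [(40, 5, 631)]⟩,
  ⟨14766, 138261, [], []⟩,
  ⟨1, 125506, [], [(33, 1, 167)]⟩,
  ⟨1484, 136113, [], []⟩,
  ⟨1, 124847, [], [(25, 0, 100)]⟩,
  ⟨2008, 142370, [], []⟩]⟩


def L116 : Leaf :=
  ⟨[(130, -299), (-30, 52), (658, -544), (26, 983), (142, -584), (116, 839), (240, -244), (-466,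
    1078), (-155, -762), (12, 818), (-499, -244), (-319, -102), (73, -411)],
  [(42, -102), (298, 163), (-145, 430), (-435, 220), (-643, -297), (-88, -704), (422, -570), (706,
    57), (271, 405), (-85, 446), (-340, -5), (14, -110)],
  [(907, 252), (718, 186), (2314, 1249), (814, -26), (767, 2379), (436, 78), (-146, 1626), (1276,
    -1125), (-849, -378), (586, 81), (180, 192), (258, -181), (-224, 78)],
  [⟨1086, 505532, [], [(58, 57, 407)]⟩,
  ⟨1, 117331, [], [(6, 3, 2540)]⟩,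
  ⟨1, 161791, [], [(13, 7, 151)]⟩,
  ⟨1, 123206, [], [(50, 1, 951), (47, 1, 41)]⟩,
  ⟨1, 133835, [], [(45, 8, 377)]⟩,
  ⟨5286, 136574, [], []⟩,
  ⟨1, 134258, [], [(37, 2, 515)]⟩,
  ⟨5014, 135575, [], []⟩,
  ⟨1, 154113, [], [(29, 0, 91)]⟩,
  ⟨3138, 135711, [], []⟩,
  ⟨1196, 166998, [], []⟩,
  ⟨1697, 135584, [], []⟩]⟩


def L117 : Leaf :=
  ⟨[(79, 521), (-996, -333), (562, -81), (-806, -288), (499, -178), (-398, -678), (1070, 143),
    (-500, -158), (862, -19), (29, 304), (84, 374), (-152, 156), (-146, 38)],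
  [(216, -124), (182, 702), (-914, 71), (-177, -453), (-206, -509), (469, -604), (763, 55), (241,
    494), (218, 434), (-664, 632), (-400, -605), (237, -78)],
  [(620, 1172), (562, 949), (895, 1831), (-768, 742), (-340, 2514), (-63, -336), (-681, 1047),
    (907, -766), (-527, 686), (1469, 310), (162, -165), (-1, -35), (27, 19)],
  [⟨2106, 500841, [], [(58, 57, 331)]⟩,
  ⟨1, 123908, [], [(6, 3, 2532)]⟩,
  ⟨1, 144770, [], [(13, 7, 129)]⟩,
  ⟨1, 129101, [], [(50, 1, 971), (47, 1, 6)]⟩,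
  ⟨1, 121188, [], [(45, 8, 341)]⟩,
  ⟨242, 128868, [], []⟩,
  ⟨1, 123926, [], [(37, 2, 620)]⟩,
  ⟨11704, 137596, [], []⟩,
  ⟨1, 127193, [], [(30, 0, 145)]⟩,
  ⟨2674, 137306, [], []⟩,
  ⟨344, 168652, [], []⟩,
  ⟨391, 136074, [], []⟩]⟩


def L118 : Leaf :=
  ⟨[(2, 358), (-315, -412), (556, 663), (-1137, -5), (19, -186), (-724, -1031), (1539, -70),
    (-1101, 445), (763, -1274), (773, 634), (16, 547), (-299, 127), (-34, 22)],
  [(38, -171), (316, 134), (-81, 274), (-224, 150), (-272, -215), (115, -242), (260, -66), (159,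
    308), (-190, 191), (-284, 27), (-71, -336), (175, -5)],
  [(-69, 30), (161, 36), (821, 144), (2914, -1086), (347, -75), (1450, 518), (-269, 417), (1115,
    207), (-789, -621), (2018, 559), (971, -2411), (-27, 708), (12, -20)],
  [⟨1, 489992, [], [(58, 57, 528)]⟩,
  ⟨1, 107221, [], [(6, 3, 1188)]⟩,
  ⟨1, 110578, [], [(13, 7, 342)]⟩,
  ⟨1, 102269, [], [(50, 4, 998)]⟩,
  ⟨1, 109042, [], [(45, 8, 446)]⟩,
  ⟨1, 120075, [], [(41, 0, 646)]⟩,
  ⟨1, 113090, [], [(38, 2, 785), (5, 2, 789)]⟩,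
  ⟨114, 136946, [], []⟩,
  ⟨618, 148210, [], []⟩,
  ⟨1834, 145029, [], []⟩,
  ⟨447, 183225, [], []⟩,
  ⟨249, 142071, [], []⟩]⟩


def L119 : Leaf :=
  ⟨[(-74, -55), (-60, -29), (102, -4), (-675, -65), (527, -958), (320, 79), (1172, 197), (-1088,
    979), (977, -1195), (50, 2052), (-1196, -549), (69, -177), (-5, -182)],
  [(-69, -75), (181, -85), (46, 123), (24, 98), (-156, 45), (-9, -86), (31, -81), (139, 82), (-48,
    88), (-76, 108), (-154, -127), (85, -55)],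
  [(-325, -168), (1211, -539), (-445, 1370), (2853, 2054), (-62, -869), (149, 1291), (308, -1082),
    (213, 25), (938, -285), (1749, 1605), (1361, -190), (167, -343), (-49, -104)],
  [⟨1, 533609, [], [(58, 57, 684)]⟩,
  ⟨1, 112614, [], [(6, 3, 771)]⟩,
  ⟨1, 104553, [], [(13, 7, 436)]⟩,
  ⟨1, 101972, [], [(50, 4, 417)]⟩,
  ⟨1, 102465, [], [(45, 8, 337)]⟩,
  ⟨1, 113089, [], [(1, 0, 775)]⟩,
  ⟨1, 102796, [], [(38, 2, 518), (5, 2, 1589)]⟩,
  ⟨82, 130069, [], []⟩,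
  ⟨145, 139346, [], []⟩,
  ⟨1187, 141729, [], []⟩,
  ⟨137, 165961, [], []⟩,
  ⟨504, 139352, [], []⟩]⟩


def L120 : Leaf :=
  ⟨[(14, 523), (-1393, -677), (1611, -942), (-597, 893), (725, -868), (38, 590), (742, 211),
    (-880, 838), (-48, -483), (-182, 126), (-38, -103), (-48, -125), (55, 16)],
  [(154, -340), (526, 294), (-40, 256), (-176, 207), (-31, -367), (337, -43), (478, 147), (-32,
    487), (-60, 133), (-200, -76), (392, 27), (-126, 267)],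
  [(5, -2), (36, -65), (541, 241), (2355, 337), (1271, 674), (362, -380), (-1085, 513), (1369,
    -180), (-730, -1169), (2349, 839), (2048, -1642), (-319, 563), (-35, -201)],
  [⟨1, 499172, [], [(57, 56, 532)]⟩,
  ⟨1, 108498, [], [(5, 2, 993)]⟩,
  ⟨1, 102507, [], [(12, 6, 400)]⟩,
  ⟨1, 102432, [], [(46, 3, 396)]⟩,
  ⟨1, 117937, [], [(44, 7, 421)]⟩,
  ⟨1, 135870, [], [(41, 0, 1436)]⟩,
  ⟨1, 106527, [], [(37, 1, 59), (4, 1, 1568)]⟩,
  ⟨104, 126389, [], []⟩,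
  ⟨96, 109725, [], []⟩,
  ⟨1111, 136176, [], []⟩,
  ⟨137, 146844, [], []⟩,
  ⟨305, 132332, [], []⟩]⟩


def L121 : Leaf :=
  ⟨[(-86, 62), (-719, -498), (939, -105), (-1453, -638), (2100, -628), (-985, 266), (1694, -478),
    (-235, 600), (820, 486), (-379, 317), (80, 603), (-341, 54), (-224, 88)],
  [(215, -116), (126, 211), (139, 171), (-99, 342), (-422, 188), (-386, -433), (343, -501), (650,
    204), (-52, 761), (-640, 207), (-439, -475), (268, -245)],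
  [(-35, -126), (238, -495), (807, 522), (-21, 394), (744, 1667), (1575, -311), (811, 1572),
    (2482, -1211), (382, -557), (1994, -129), (-346, -516), (323, 312), (119, -181)],
  [⟨12, 660227, [], [(55, 54, 824)]⟩,
  ⟨1, 129290, [(0, 670)], [(51, 0, 1457)]⟩,
  ⟨1, 196016, [], [(10, 4, 772)]⟩,
  ⟨1, 150782, [(1, 430)], [(47, 1, 663)]⟩,
  ⟨1, 175924, [], [(42, 5, 449)]⟩,
  ⟨46, 252595, [], []⟩,
  ⟨1, 174719, [], [(34, 2, 292)]⟩,
  ⟨1323, 250069, [], []⟩,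
  ⟨38, 249207, [], [(26, 25, 92)]⟩,
  ⟨20, 252599, [], []⟩,
  ⟨288, 275670, [], []⟩,
  ⟨132, 254354, [], []⟩]⟩


def L122 : Leaf :=
  ⟨[(58, -52), (-229, -157), (444, -30), (-766, -143), (945, -742), (70, 147), (1552, 269),
    (-1214, 1577), (386, -1263), (241, 1841), (-1493, -207), (-211, -711), (276, -274)],
  [(35, -155), (288, 105), (-32, 255), (-206, 157), (-223, -174), (98, -181), (205, 10), (33,
    280), (-242, 95), (-234, -105), (59, -301), (151, 50)],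
  [(84, 8), (16, -114), (565, 409), (1644, -1257), (583, 429), (425, 285), (-585, 2415), (1513,
    -616), (-907, -368), (3513, 177), (1323, -1945), (371, 313), (-374, 200)],
  [⟨1, 567014, [], [(57, 56, 791)]⟩,
  ⟨1, 111485, [], [(5, 2, 830)]⟩,
  ⟨1, 105434, [], [(12, 6, 787)]⟩,
  ⟨1172, 138651, [], []⟩,
  ⟨1, 131842, [], [(44, 7, 426)]⟩,
  ⟨1, 125745, [], [(40, 0, 708)]⟩,
  ⟨1, 116234, [], [(37, 4, 264), (4, 3, 741)]⟩,
  ⟨85, 144163, [], []⟩,
  ⟨183, 149387, [], []⟩,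
  ⟨1107, 144532, [], []⟩,
  ⟨151, 177855, [], []⟩,
  ⟨419, 139352, [], []⟩]⟩


def L123 : Leaf :=
  ⟨[(-151, 320), (-8, -705), (403, 1450), (-2093, -1051), (1553, -816), (-544, 271), (617, -477),
    (114, -178), (1052, 348), (-331, 795), (-318, 134), (-178, -116), (-46, -17)],
  [(-61, -107), (242, -72), (94, 206), (-103, 205), (-260, -63), (17, -212), (197, -81), (140,
    229), (-163, 162), (-226, -25), (-8, -254), (121, 24)],
  [(-151, -305), (142, -283), (871, 772), (2141, 387), (209, 682), (-282, 79), (-980, 807), (1669,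
    -868), (-303, 403), (3599, 1600), (789, -1323), (236, 442), (118, -512)],
  [⟨1, 560255, [], [(57, 56, 705)]⟩,
  ⟨1, 108872, [], [(5, 2, 772)]⟩,
  ⟨1, 93574, [], [(12, 6, 630)]⟩,
  ⟨981, 135237, [], []⟩,
  ⟨1, 142023, [], [(44, 7, 332)]⟩,
  ⟨1, 117141, [], [(1, 0, 756)]⟩,
  ⟨1, 112001, [], [(4, 3, 1798)]⟩,
  ⟨57, 138743, [], []⟩,
  ⟨635, 167365, [], []⟩,
  ⟨766, 141539, [], []⟩,
  ⟨302, 173742, [], []⟩,
  ⟨1404, 142383, [], []⟩]⟩


def L124 : Leaf :=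
  ⟨[(151, -57), (127, 308), (-260, 592), (-1023, -422), (383, -497), (-176, -342), (442, 206),
    (-519, -1106), (2217, 562), (-1452, 1126), (456, -742), (-246, 608), (-100, -239)],
  [(-385, 105), (-40, -451), (-27, 26), (6, -131), (-285, 5), (-40, -326), (-148, -258), (199,
    -118), (-161, -84), (-19, -45), (-238, -426), (380, -160)],
  [(-125, -113), (344, -82), (228, -663), (2429, 1694), (2257, -1601), (-921, 832), (1077, -844),
    (-1132, -1102), (625, -598), (1157, -151), (1782, -460), (-129, -349), (-194, -146)],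
  [⟨1, 553686, [], [(57, 56, 682)]⟩,
  ⟨1, 107226, [], [(5, 2, 747)]⟩,
  ⟨1, 106096, [], [(12, 6, 473)]⟩,
  ⟨3127, 143091, [], []⟩,
  ⟨1, 155284, [], [(44, 7, 334)]⟩,
  ⟨1, 119255, [], [(1, 0, 770)]⟩,
  ⟨1, 115427, [], [(36, 3, 199), (4, 3, 1865)]⟩,
  ⟨72, 136990, [], []⟩,
  ⟨560, 163915, [], []⟩,
  ⟨1029, 139820, [], []⟩,
  ⟨361, 162157, [], []⟩,
  ⟨406, 138366, [], []⟩]⟩


def L125 : Leaf :=
  ⟨[(113, 303), (-411, -272), (319, 447), (-1117, -563), (769, -473), (-3, -653), (1523, 963),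
    (-1380, 105), (1384, -214), (-768, 1363), (-825, -483), (62, -622), (325, 95)],
  [(-582, 114), (-239, -526), (-195, -69), (-267, -206), (-612, -335), (-202, -840), (-91, -754),
    (260, -345), (-158, -319), (-33, -385), (99, -780), (651, -118)],
  [(-196, 137), (-235, 213), (349, 101), (1298, 1798), (2356, -140), (-1261, 807), (1384, 1130),
    (-842, -878), (831, 921), (1922, -644), (1676, -91), (197, -107), (28, 437)],
  [⟨1, 537119, [], [(57, 56, 670)]⟩,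
  ⟨1, 117210, [], [(5, 2, 1007)]⟩,
  ⟨1, 123004, [], [(12, 6, 442)]⟩,
  ⟨5288, 157821, [], []⟩,
  ⟨1, 160603, [], [(44, 7, 488)]⟩,
  ⟨1, 116646, [], [(41, 0, 622), (39, 0, 195)]⟩,
  ⟨1, 123845, [], [(37, 4, 475), (36, 3, 504), (35, 4, 11)]⟩,
  ⟨1397, 157062, [], []⟩,
  ⟨183, 159025, [], []⟩,
  ⟨2370, 155782, [], []⟩,
  ⟨891, 185848, [], []⟩,
  ⟨727, 155441, [], []⟩]⟩


def L126 : Leaf :=
  ⟨[(-301, 92), (-429, -264), (113, -360), (-825, -765), (1816, -679), (-824, 59), (2354, -286),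
    (-933, 1162), (1118, 59), (-877, 816), (-88, -38), (-126, -190), (48, 169)],
  [(-117, -78), (127, -167), (130, -83), (426, 89), (-19, 670), (-806, 87), (-74, -982), (1030,
    38), (-2, 982), (-848, 64), (-41, -567), (208, 15)],
  [(155, 184), (-229, -167), (793, 106), (111, -315), (788, 2355), (878, 438), (71, 1773), (2244,
    -803), (684, -901), (1606, -214), (91, -91), (-58, 433), (60, 182)],
  [⟨719, 670056, [], [(55, 54, 756)]⟩,
  ⟨1, 136932, [(0, 1087)], [(51, 0, 910)]⟩,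
  ⟨1, 193633, [(10, 855)], [(10, 4, 675)]⟩,
  ⟨41, 222880, [], []⟩,
  ⟨1, 190252, [], [(42, 5, 405)]⟩,
  ⟨4929, 227486, [], []⟩,
  ⟨1, 166077, [], [(34, 1, 92), (2, 1, 219)]⟩,
  ⟨35, 225116, [], []⟩,
  ⟨652, 264649, [], []⟩,
  ⟨53, 225348, [], []⟩,
  ⟨1, 209916, [], [(17, 16, 7)]⟩,
  ⟨216, 227514, [], []⟩]⟩


def L127 : Leaf :=
  ⟨[(27, 105), (-21, -164), (214, 698), (-1230, -282), (456, -587), (-303, -512), (1255, 83),
    (-876, 259), (1192, -722), (160, 1450), (-831, 62), (-150, -346), (109, -44)],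
  [(-187, 81), (67, -18), (-255, 424), (-575, 81), (-661, -274), (-94, -562), (-18, -208), (-59,
    132), (-549, -132), (-352, -473), (28, -717), (436, -121)],
  [(-56, -140), (87, 46), (526, 645), (2615, -300), (-77, -528), (1169, 1596), (-413, -1119),
    (-658, 521), (847, -1170), (1055, -672), (772, -1427), (-187, -131), (67, -271)],
  [⟨1, 526222, [], [(58, 57, 467)]⟩,
  ⟨1, 128762, [], [(6, 3, 605)]⟩,
  ⟨1, 139950, [], [(13, 7, 348)]⟩,
  ⟨3917, 134739, [], []⟩,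
  ⟨1, 165515, [], [(45, 8, 299)]⟩,
  ⟨27688, 135290, [], []⟩,
  ⟨1, 123631, [], [(4, 0, 1117)]⟩,
  ⟨1053, 132393, [], [(33, 1, 251), (31, 1, 133)]⟩,
  ⟨1, 172935, [], [(29, 2, 47)]⟩,
  ⟨80, 135223, [], []⟩,
  ⟨496, 156889, [], []⟩,
  ⟨366, 134584, [], []⟩]⟩


def L128 : Leaf :=
  ⟨[(-155, -63), (718, -312), (-57, 1407), (-971, -471), (-70, 212), (-433, -966), (453, 423),
    (-689, -972), (1479, -309), (103, 892), (-264, 169), (-87, -48), (-25, 40)],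
  [(-212, 60), (43, 64), (-398, 501), (-836, 56), (-838, -495), (-87, -775), (39, -249), (-214,
    197), (-765, -279), (-425, -771), (185, -900), (530, -127)],
  [(-106, -429), (954, 693), (1266, 618), (1567, 1467), (-192, -843), (-670, 1176), (1147, -1781),
    (-397, -111), (2015, 174), (930, -705), (498, -730), (-25, -215), (-18, -97)],
  [⟨1, 536592, [], [(58, 57, 394)]⟩,
  ⟨1, 132289, [], [(6, 3, 883)]⟩,
  ⟨1, 142861, [], [(13, 7, 414)]⟩,
  ⟨237, 133563, [], []⟩,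
  ⟨1, 149244, [], [(45, 8, 344)]⟩,
  ⟨30186, 140723, [], []⟩,
  ⟨1, 123019, [], [(38, 0, 372)]⟩,
  ⟨1846, 138071, [], [(33, 1, 471)]⟩,
  ⟨1, 133232, [], [(29, 2, 64)]⟩,
  ⟨116, 137703, [], []⟩,
  ⟨700, 154422, [], []⟩,
  ⟨373, 139011, [], []⟩]⟩


def L129 : Leaf :=
  ⟨[(18, -24), (-90, -27), (239, 385), (-1044, -108), (378, -486), (-671, -573), (1777, -643),
    (-570, 1200), (510, -993), (681, 1101), (-440, 674), (-895, -23), (99, -484)],
  [(-153, 211), (-63, 131), (-475, 445), (-675, -48), (-577, -341), (-76, -486), (-116, -27),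
    (-261, 110), (-677, -166), (-340, -598), (-76, -650), (394, -267)],
  [(-154, 190), (-171, 640), (295, 1991), (1840, -348), (-868, 640), (1661, 1279), (-1002, -441),
    (-166, 863), (710, -831), (1984, -312), (1199, -754), (376, 448), (-203, 82)],
  [⟨1, 545860, [], [(58, 57, 533)]⟩,
  ⟨1, 124595, [], [(6, 3, 803)]⟩,
  ⟨1, 112568, [], [(13, 7, 448)]⟩,
  ⟨1269, 136207, [], []⟩,
  ⟨1, 140397, [], [(45, 8, 312)]⟩,
  ⟨21798, 143072, [], []⟩,
  ⟨1, 108543, [], [(4, 0, 887)]⟩,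
  ⟨1, 128378, [], [(32, 1, 573)]⟩,
  ⟨1, 134822, [], [(29, 2, 103)]⟩,
  ⟨66, 138421, [], []⟩,
  ⟨804, 170704, [], []⟩,
  ⟨464, 141520, [], []⟩]⟩


def L130 : Leaf :=
  ⟨[(78, 101), (69, -163), (181, 894), (-1247, -312), (301, -385), (-558, -676), (1326, -161),
    (-722, 336), (918, -845), (570, 1109), (-565, 564), (-542, -290), (189, -167)],
  [(-303, 93), (-30, 133), (-655, 453), (-910, -106), (-805, -618), (-73, -790), (-90, -265),
    (-291, 84), (-796, -358), (-393, -851), (84, -985), (631, -273)],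
  [(57, -72), (115, 27), (-95, 162), (1828, 1991), (1361, -420), (-785, 1877), (917, -604), (-953,
    -642), (1105, -380), (931, -8), (1440, -390), (411, -734), (301, -664)],
  [⟨1, 540395, [], [(58, 57, 416)]⟩,
  ⟨1, 133711, [], [(6, 3, 801)]⟩,
  ⟨1, 133187, [], [(13, 7, 722)]⟩,
  ⟨111, 139288, [], []⟩,
  ⟨1, 138002, [], [(45, 8, 305)]⟩,
  ⟨25040, 146412, [], []⟩,
  ⟨1, 116267, [], [(38, 0, 326)]⟩,
  ⟨1, 172480, [], [(34, 1, 78), (32, 1, 699)]⟩,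
  ⟨1, 127347, [], [(29, 2, 128)]⟩,
  ⟨52, 143882, [], []⟩,
  ⟨1123, 163704, [], []⟩,
  ⟨511, 145064, [], []⟩]⟩


def L131 : Leaf :=
  ⟨[(-242, 255), (-227, -639), (323, 374), (-733, -841), (1329, -302), (51, 333), (586, 563),
    (-661, 229), (564, 81), (-680, 830), (-675, -584), (255, -405), (109, 106)],
  [(-463, 177), (-350, -247), (-376, 155), (-820, -45), (-949, -774), (58, -845), (-319, -327),
    (-110, -342), (-556, -218), (-589, -739), (70, -1198), (678, -298)],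
  [(60, -83), (448, -142), (460, 1197), (1316, 1143), (187, 745), (-49, -360), (-405, -11), (1170,
    -891), (30, 200), (2359, 507), (-108, -1164), (367, 533), (463, -901)],
  [⟨1, 510708, [], [(56, 55, 277)]⟩,
  ⟨1, 130274, [], [(4, 1, 882)]⟩,
  ⟨1, 142263, [], [(11, 5, 337)]⟩,
  ⟨93, 133335, [], []⟩,
  ⟨1, 158169, [], [(43, 6, 308)]⟩,
  ⟨27972, 136302, [], []⟩,
  ⟨1, 130457, [], [(36, 2, 811)]⟩,
  ⟨566, 134546, [], []⟩,
  ⟨1, 128874, [], [(28, 0, 184)]⟩,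
  ⟨7531, 136360, [], []⟩,
  ⟨3577, 155307, [], []⟩,
  ⟨846, 135828, [], []⟩]⟩


def L132 : Leaf :=
  ⟨[(125, 124), (89, 436), (-689, 395), (-632, -238), (19, -173), (-1421, -818), (1865, -815),
    (-1288, 66), (2188, -732), (-819, 915), (840, -13), (-558, 189), (188, -30)],
  [(-147, 36), (-87, -279), (368, -326), (510, 422), (-355, 626), (-672, -324), (291, -686), (680,
    236), (-104, 653), (-491, -2), (-119, -266), (134, -70)],
  [(-67, 19), (-73, -21), (271, -387), (279, -688), (518, 1242), (1073, 113), (-294, 1592), (2703,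
    -340), (716, -1338), (2439, -151), (419, -1205), (119, 163), (-1, -203)],
  [⟨1, 670975, [], [(55, 54, 897)]⟩,
  ⟨1, 134894, [(0, 903)], [(51, 0, 1145)]⟩,
  ⟨1, 195500, [(10, 518)], [(10, 4, 781)]⟩,
  ⟨53, 219982, [], []⟩,
  ⟨1, 191467, [], [(42, 5, 393)]⟩,
  ⟨224, 223818, [], [(37, 36, 551)]⟩,
  ⟨1, 168241, [], [(35, 1, 11), (33, 2, 182)]⟩,
  ⟨26, 221027, [], []⟩,
  ⟨397, 260599, [], []⟩,
  ⟨98, 222378, [], []⟩,
  ⟨21, 221880, [], []⟩,
  ⟨96, 222768, [], []⟩]⟩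


def L133 : Leaf :=
  ⟨[(82, 23), (23, 248), (-30, 487), (-1077, 188), (-744, -449), (-602, -2472), (3713, 75),
    (-1506, 2279), (89, -1366), (371, 725), (-260, 33), (13, -56), (11, 93)],
  [(2, -2), (-1, 7), (-3, -6), (1, 3), (1, -3), (-2, 2), (2, -1), (-3, -1), (3, 2), (-4, -5), (7,
    2), (-3, 1)],
  [(36, 262), (326, 35), (613, 481), (312, -629), (-715, 754), (630, -39), (-146, 538), (1120,
    -59), (-477, -82), (-18, 458), (-173, -45), (-38, -114), (35, 26)],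
  [⟨1, 515888, [(0, 1911)], [(53, 0, 213)]⟩,
  ⟨1, 139409, [(1, 96)], [(49, 1, 848), (48, 1, 1689)]⟩,
  ⟨1, 176761, [], [(8, 2, 306)]⟩,
  ⟨1, 109193, [], [(45, 3, 233), (44, 3, 242)]⟩,
  ⟨1, 139971, [], [(5, 4, 215)]⟩,
  ⟨2644, 145996, [], []⟩,
  ⟨158, 186513, [], []⟩,
  ⟨1679, 149376, [], []⟩,
  ⟨207, 172828, [], []⟩,
  ⟨116, 152126, [], []⟩,
  ⟨171, 157684, [], []⟩,
  ⟨91, 158313, [], []⟩]⟩


def L134 : Leaf :=
  ⟨[(-5, -106), (-100, -71), (73, -135), (-165, -217), (-15, -314), (700, -1539), (2678, 1810),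
    (-2077, 1541), (402, -486), (-1089, 673), (129, -700), (-369, 282), (-8, -422)],
  [(0, 0), (0, 0), (0, 0), (0, 0), (0, 0), (0, 0), (0, 0), (0, 0), (0, 0), (0, 0), (0, 0), (0,
    0)],
  [(212, 40), (-137, -339), (-376, 1342), (1760, -180), (320, -298), (1221, -983), (-1043, 256),
    (2177, 1139), (377, -1719), (-557, 230), (-578, 38), (-192, 195), (-161, -23)],
  [⟨1, 491328, [], [(56, 2, 772)]⟩,
  ⟨1, 154591, [], [(51, 3, 957)]⟩,
  ⟨1, 166605, [(4, 642)], [(10, 4, 380)]⟩,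
  ⟨1, 102297, [], [(47, 5, 607)]⟩,
  ⟨1, 137639, [], [(7, 6, 360)]⟩,
  ⟨1, 130068, [], [(38, 0, 1083)]⟩,
  ⟨4730, 136461, [], []⟩,
  ⟨3082, 145983, [], []⟩,
  ⟨169, 186719, [], []⟩,
  ⟨1485, 145272, [], []⟩,
  ⟨64, 162498, [], []⟩,
  ⟨313, 144675, [], []⟩]⟩


def L135 : Leaf :=
  ⟨[(242, 51), (-251, 243), (-226, -146), (208, -642), (397, 456), (593, -636), (715, 2636),
    (-3039, -497), (940, -1166), (-428, 1), (524, -316), (-43, 1), (201, 47)],
  [(0, 0), (0, 0), (0, 0), (0, 0), (0, 0), (0, 0), (0, 0), (0, 0), (0, 0), (0, 0), (0, 0), (0,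
    0)],
  [(141, 391), (-28, -162), (76, -159), (-1242, 212), (1835, 1977), (1532, -1925), (-196, 576),
    (1000, 9), (437, 1496), (1857, -43), (-133, 29), (356, -61), (-68, -84)],
  [⟨1, 487222, [], [(58, 4, 771)]⟩,
  ⟨1, 117718, [], [(53, 5, 1067)]⟩,
  ⟨1, 154013, [(6, 667)], [(12, 6, 256)]⟩,
  ⟨1, 104168, [], [(49, 7, 832)]⟩,
  ⟨1, 110435, [], [(9, 8, 919)]⟩,
  ⟨1, 106602, [], [(39, 2, 392)]⟩,
  ⟨1, 114501, [], [(37, 1, 97)]⟩,
  ⟨2521, 139007, [], []⟩,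
  ⟨1, 126377, [], [(29, 0, 80)]⟩,
  ⟨752, 143333, [], []⟩,
  ⟨1292, 176958, [], []⟩,
  ⟨469, 138595, [], []⟩]⟩


def L136 : Leaf :=
  ⟨[(-64, -105), (-142, -78), (16, -526), (763, -571), (990, 1006), (-341, 133), (609, 1712),
    (-2843, -170), (1163, -1650), (-4, 742), (-22, -38), (-417, -169), (275, -210)],
  [(-4, -1), (6, -3), (-4, 3), (7, -3), (-5, 4), (6, -2), (-6, 3), (6, -1), (-7, 3), (5, 0), (-7,
    1), (2, -3)],
  [(372, 327), (85, -48), (753, 436), (-560, -74), (1416, 1937), (1459, -1772), (-850, 191), (599,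
    148), (433, 858), (1505, -519), (-17, -472), (54, -100), (78, 53)],
  [⟨1, 481380, [], [(58, 4, 681)]⟩,
  ⟨1, 123144, [], [(53, 5, 708)]⟩,
  ⟨1, 159226, [], [(12, 6, 2458)]⟩,
  ⟨1, 103749, [], [(49, 7, 644)]⟩,
  ⟨1, 112115, [], [(9, 8, 711)]⟩,
  ⟨1, 111624, [], [(39, 2, 215)]⟩,
  ⟨1, 117438, [], [(37, 1, 92), (35, 1, 27)]⟩,
  ⟨4448, 135504, [], []⟩,
  ⟨1, 113970, [], [(30, 0, 101)]⟩,
  ⟨1466, 135415, [], []⟩,
  ⟨402, 175452, [], []⟩,
  ⟨402, 135109, [], []⟩]⟩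


def L137 : Leaf :=
  ⟨[(15, -17), (-98, 83), (-247, -93), (15, -655), (516, 178), (243, -829), (1832, 1750), (-2595,
    1038), (283, -1468), (-130, 355), (164, -375), (-45, 126), (50, -89)],
  [(-108, 58), (-25, -146), (-28, 31), (8, -95), (-37, 2), (24, -46), (-50, -12), (26, -27), (-78,
    -56), (41, -1), (-95, -114), (115, -44)],
  [(-19, 145), (-391, 282), (-1295, 2384), (706, 575), (-341, 275), (271, -882), (-1536, 1291),
    (2491, 1709), (125, -373), (439, 1580), (-220, -218), (56, -48), (3, 22)],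
  [⟨1, 446686, [], [(57, 3, 678)]⟩,
  ⟨1, 138277, [], [(52, 4, 1167)]⟩,
  ⟨1, 173755, [], [(11, 5, 1109)]⟩,
  ⟨1, 105756, [], [(48, 6, 675)]⟩,
  ⟨1, 125222, [], [(8, 7, 1031)]⟩,
  ⟨1, 133283, [], [(38, 1, 5)]⟩,
  ⟨1, 112447, [], [(2, 0, 812)]⟩,
  ⟨216, 135040, [], []⟩,
  ⟨524, 162143, [], []⟩,
  ⟨191, 133141, [], []⟩,
  ⟨153, 177349, [], []⟩,
  ⟨88, 136905, [], []⟩]⟩


def L138 : Leaf :=
  ⟨[(88, 60), (-142, 166), (-310, 25), (-307, -677), (762, -295), (297, -69), (1184, 1007),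
    (-1934, 1134), (79, -1748), (421, 915), (-645, -603), (574, -70), (-65, 155)],
  [(-225, 189), (-480, -31), (-403, -178), (-419, -319), (-311, -429), (-269, -498), (-170, -540),
    (-92, -522), (63, -523), (153, -413), (312, -366), (293, -30)],
  [(479, 877), (-412, -35), (-976, 2313), (633, 380), (67, 684), (1051, -1164), (-1243, 1009),
    (2072, 1772), (398, 145), (355, 490), (-30, -125), (129, -129), (-15, 58)],
  [⟨1, 487011, [], [(56, 2, 544)]⟩,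
  ⟨1, 153833, [], [(51, 3, 1152)]⟩,
  ⟨1, 196560, [], [(10, 4, 480)]⟩,
  ⟨1, 112659, [], [(47, 5, 1027)]⟩,
  ⟨1, 139202, [], [(7, 6, 1194)]⟩,
  ⟨133, 136531, [], []⟩,
  ⟨1, 127142, [], [(1, 0, 1002)]⟩,
  ⟨2858, 140570, [], []⟩,
  ⟨2333, 156731, [], []⟩,
  ⟨205, 139352, [], []⟩,
  ⟨1562, 182183, [], []⟩,
  ⟨467, 141945, [], []⟩]⟩


def L139 : Leaf :=
  ⟨[(-157, -269), (893, -111), (-265, 992), (-73, -43), (-1074, 915), (-986, -2092), (1945, -252),
    (-434, 719), (428, -421), (105, 570), (-132, 157), (-307, -14), (57, -150)],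
  [(-299, 326), (-747, -134), (-412, -270), (-592, -408), (-317, -543), (-425, -567), (-200,
    -680), (-245, -579), (28, -718), (30, -492), (339, -678), (440, -44)],
  [(241, 934), (-174, -47), (-629, 1733), (779, 294), (136, 1062), (1419, -1023), (-1517, 487),
    (1420, 1654), (691, 210), (595, 290), (28, -176), (87, -192), (-38, 106)],
  [⟨1, 506064, [], [(56, 2, 536)]⟩,
  ⟨1, 153141, [], [(51, 3, 1002)]⟩,
  ⟨1, 184253, [], [(10, 4, 592)]⟩,
  ⟨1, 122665, [], [(47, 5, 610), (46, 5, 451)]⟩,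
  ⟨1, 140721, [], [(7, 6, 1042)]⟩,
  ⟨4326, 141169, [], []⟩,
  ⟨1, 137717, [], [(36, 0, 475)]⟩,
  ⟨4910, 140516, [], []⟩,
  ⟨3366, 178511, [], []⟩,
  ⟨445, 139844, [], []⟩,
  ⟨1870, 156617, [], []⟩,
  ⟨829, 139697, [], []⟩]⟩


def L140 : Leaf :=
  ⟨[(-56, -83), (-316, -36), (12, -626), (184, -433), (985, -174), (161, 244), (1114, 655),
    (-1131, 815), (669, -227), (-1078, 802), (339, -796), (-355, 693), (-221, -470)],
  [(146, -124), (182, 411), (-511, 56), (55, -424), (418, 137), (-302, 470), (-368, -420), (393,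
    -197), (116, 411), (-514, 20), (119, -434), (163, 102)],
  [(30, 303), (992, 743), (1306, 1082), (1045, 639), (-730, 1880), (1018, 931), (-720, 71), (1394,
    24), (-480, -1121), (769, 1246), (248, -566), (-386, 503), (-23, -165)],
  [⟨1, 506499, [], [(55, 54, 239)]⟩,
  ⟨1, 129555, [], [(51, 2, 2637)]⟩,
  ⟨1, 143943, [(3, 501)], [(9, 3, 939)]⟩,
  ⟨1, 110859, [], [(46, 4, 540)]⟩,
  ⟨1, 118528, [], [(6, 5, 281)]⟩,
  ⟨144, 128971, [], []⟩,
  ⟨1, 146346, [], [(34, 0, 362), (32, 0, 66)]⟩,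
  ⟨7219, 136372, [], []⟩,
  ⟨1045, 159318, [], []⟩,
  ⟨4677, 135914, [], []⟩,
  ⟨149, 170449, [], []⟩,
  ⟨489, 135305, [], []⟩]⟩


def L141 : Leaf :=
  ⟨[(-25, -38), (-165, -65), (137, -211), (9, -37), (-2, 117), (-126, -680), (745, 387), (-280,
    -563), (1424, 796), (-1099, 534), (499, 91), (-947, 349), (34, -509)],
  [(118, 64), (-259, 218), (-139, -400), (379, -43), (16, 386), (-458, -80), (212, -414), (298,
    245), (-263, 277), (-235, -352), (330, -76), (-20, 132)],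
  [(22, 10), (119, 14), (32, 970), (-420, 1420), (-96, 2514), (-565, -185), (-1554, 1467), (526,
    -139), (-360, 951), (1967, 153), (-767, 144), (579, 847), (-194, -406)],
  [⟨1, 498714, [], [(55, 54, 294)]⟩,
  ⟨1, 131416, [], [(51, 2, 2235)]⟩,
  ⟨1, 160709, [], [(9, 3, 1314)]⟩,
  ⟨1, 110615, [], [(46, 4, 536)]⟩,
  ⟨1, 128512, [], [(6, 5, 642)]⟩,
  ⟨106, 131127, [], []⟩,
  ⟨1, 128195, [], [(1, 0, 1057)]⟩,
  ⟨2472, 137926, [], []⟩,
  ⟨2385, 157760, [], []⟩,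
  ⟨3191, 137757, [], []⟩,
  ⟨288, 175921, [], []⟩,
  ⟨252, 135540, [], []⟩]⟩


def L142 : Leaf :=
  ⟨[(165, -56), (402, 233), (-336, 872), (-575, -377), (-298, 560), (-999, -1284), (1019, -168),
    (-362, -541), (1283, 20), (-268, 619), (56, 8), (-112, 85), (25, 30)],
  [(-143, -43), (-30, -119), (-132, -162), (179, -243), (114, 138), (-314, 1), (-61, -615), (541,
    -84), (-36, 323), (-322, -209), (272, -385), (223, 136)],
  [(-2, -45), (182, -29), (259, 327), (151, 686), (-326, 2070), (736, 206), (-741, 690), (1524,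
    -61), (-247, 91), (2107, 1242), (307, -26), (753, 1245), (178, -688)],
  [⟨1, 510500, [], [(55, 54, 247)]⟩,
  ⟨1, 134441, [], [(51, 2, 2150)]⟩,
  ⟨1, 160784, [], [(9, 3, 751)]⟩,
  ⟨1, 113503, [], [(46, 4, 370), (45, 4, 263)]⟩,
  ⟨1, 125480, [], [(6, 5, 621)]⟩,
  ⟨11028, 143083, [], []⟩,
  ⟨1, 119187, [], [(1, 0, 1218)]⟩,
  ⟨2298, 141664, [], []⟩,
  ⟨1332, 156147, [], []⟩,
  ⟨607, 142029, [], []⟩,
  ⟨687, 183091, [], []⟩,
  ⟨262, 142231, [], []⟩]⟩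


def L143 : Leaf :=
  ⟨[(38, -252), (714, 502), (-916, 617), (52, -353), (-913, 444), (-183, -1458), (567, 157), (8,
    -758), (1156, 317), (-139, 568), (-40, 314), (-354, -10), (9, -82)],
  [(-400, 76), (-363, -510), (-29, -179), (-279, -407), (-4, -300), (-414, -485), (8, -928), (484,
    -612), (393, 87), (-377, -256), (495, -726), (465, 143)],
  [(419, 709), (-515, 460), (-97, 2065), (-133, -156), (-216, 1315), (1198, -1005), (-406, 801),
    (1439, 807), (122, 960), (806, 615), (104, -191), (-16, -269), (-3, 102)],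
  [⟨1, 515918, [], [(55, 54, 252)]⟩,
  ⟨1, 153041, [], [(51, 2, 1666)]⟩,
  ⟨1, 175126, [(3, 174)], [(9, 3, 627)]⟩,
  ⟨1, 123443, [], [(46, 4, 327), (45, 4, 521)]⟩,
  ⟨1, 138321, [], [(6, 5, 580)]⟩,
  ⟨15576, 143646, [], []⟩,
  ⟨1, 135515, [], [(35, 0, 599)]⟩,
  ⟨4722, 143520, [], []⟩,
  ⟨2045, 171955, [], []⟩,
  ⟨149, 142228, [], []⟩,
  ⟨1636, 172276, [], []⟩,
  ⟨632, 143988, [], []⟩]⟩


def L144 : Leaf :=
  ⟨[(25, -36), (44, 32), (-42, -71), (137, -119), (-66, 151), (577, -1090), (1797, 2543), (-3624,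
    739), (437, -2210), (318, 141), (332, -52), (-134, 33), (143, -13)],
  [(-62, 73), (-62, -146), (60, 14), (23, -27), (-46, 29), (51, -47), (-69, 8), (52, -17), (-35,
    0), (-28, 55), (-72, -142), (96, -1)],
  [(116, 125), (57, -235), (44, 863), (339, -216), (-786, 14), (25, -767), (-473, -81), (1022,
    31), (187, -136), (-99, -16), (-283, -35), (-29, -4), (36, 57)],
  [⟨4, 516218, [(0, 2082)], [(53, 0, 138)]⟩,
  ⟨1, 121730, [(1, 776)], [(49, 1, 380), (48, 1, 1445)]⟩,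
  ⟨1, 161968, [], [(9, 2, 1224)]⟩,
  ⟨1, 115789, [], [(45, 3, 147)]⟩,
  ⟨1, 137636, [], [(5, 4, 116)]⟩,
  ⟨717, 149077, [], []⟩,
  ⟨515, 184971, [], []⟩,
  ⟨1039, 150937, [], []⟩,
  ⟨205, 177724, [], []⟩,
  ⟨118, 143437, [], []⟩,
  ⟨167, 152689, [], []⟩,
  ⟨116, 143717, [], []⟩]⟩


def L145 : Leaf :=
  ⟨[(-45, -77), (-127, -75), (79, -92), (-157, -137), (-349, -56), (318, -2105), (3077, 1504),
    (-1865, 1672), (329, -453), (-920, 606), (84, -441), (-513, 105), (127, -408)],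
  [(-2, 0), (1, -3), (2, 3), (-3, 0), (1, -1), (0, 1), (1, 0), (-2, 1), (0, -3), (2, 2), (-3, 1),
    (0, -2)],
  [(25, -151), (-80, -138), (580, 1293), (2181, -287), (-284, -277), (1160, -582), (-1307, -436),
    (1645, 593), (-203, -2942), (-1132, -153), (-63, -363), (-119, 284), (-163, -58)],
  [⟨1, 498799, [], [(57, 3, 867)]⟩,
  ⟨1, 140870, [], [(52, 4, 1122)]⟩,
  ⟨1, 149557, [], [(12, 5, 758)]⟩,
  ⟨1, 113475, [], [(48, 6, 516)]⟩,
  ⟨1, 133122, [], [(8, 7, 421)]⟩,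
  ⟨1, 111306, [], [(39, 0, 900)]⟩,
  ⟨1, 181936, [], [(35, 34, 146)]⟩,
  ⟨1938, 154988, [], []⟩,
  ⟨114, 191577, [], []⟩,
  ⟨1231, 157747, [], []⟩,
  ⟨299, 179765, [], []⟩,
  ⟨231, 155361, [], []⟩]⟩


def L146 : Leaf :=
  ⟨[(219, -24), (-60, 773), (-1278, -559), (1025, -911), (-203, 450), (1110, -811), (289, 2164),
    (-1759, -388), (326, -694), (93, -73), (167, -16), (38, 33), (31, 51)],
  [(-129, 70), (-271, -79), (-228, -198), (-214, -320), (-89, -383), (0, -404), (128, -383), (205,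
    -336), (304, -236), (279, -116), (282, 11), (100, 107)],
  [(-67, -26), (-167, -22), (-412, 300), (-568, 1006), (142, 1713), (-141, -838), (-1107, 1273),
    (1365, 75), (294, 593), (2656, -236), (-503, -1046), (210, 1122), (-135, -244)],
  [⟨1, 493754, [], [(59, 5, 584)]⟩,
  ⟨1, 126107, [], [(54, 6, 1171)]⟩,
  ⟨1, 148335, [], [(14, 7, 748)]⟩,
  ⟨1, 106926, [(0, 628)], [(50, 0, 268), (49, 0, 552)]⟩,
  ⟨1, 125268, [], [(47, 9, 814), (10, 9, 7)]⟩,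
  ⟨1, 99103, [], [(40, 1, 1119)]⟩,
  ⟨1, 135186, [], [(38, 3, 202), (36, 3, 131)]⟩,
  ⟨102, 141572, [], []⟩,
  ⟨136, 165712, [], []⟩,
  ⟨200, 144143, [], []⟩,
  ⟨290, 181330, [], []⟩,
  ⟨169, 147041, [], []⟩]⟩


def L147 : Leaf :=
  ⟨[(-108, -55), (-120, -15), (26, -491), (403, -2), (524, 228), (-294, 647), (-269, 342), (-1577,
    -793), (2176, -1567), (36, 2293), (-662, -911), (331, 534), (-331, -154)],
  [(0, 0), (0, 0), (0, 0), (0, 0), (0, 0), (0, 0), (0, 0), (0, 0), (0, 0), (0, 0), (0, 0), (0,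
    0)],
  [(-183, 186), (99, -161), (62, -370), (-539, -828), (872, 1570), (2649, -1753), (-269, -540),
    (1385, -406), (-309, 199), (1913, -127), (-529, -1606), (-56, -270), (-346, -556)],
  [⟨1, 490720, [], [(60, 6, 727)]⟩,
  ⟨1, 134112, [], [(55, 7, 1372)]⟩,
  ⟨1, 115595, [], [(15, 8, 369)]⟩,
  ⟨1, 96126, [], [(9, 1, 703)]⟩,
  ⟨1, 100728, [], [(11, 10, 1062)]⟩,
  ⟨1, 97274, [], [(41, 2, 648)]⟩,
  ⟨1, 120652, [], [(39, 4, 284)]⟩,
  ⟨1375, 141410, [], []⟩,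
  ⟨1, 119892, [], [(31, 0, 61)]⟩,
  ⟨1471, 141495, [], []⟩,
  ⟨444, 177130, [], []⟩,
  ⟨1473, 141431, [], []⟩]⟩


def L148 : Leaf :=
  ⟨[(-46, -53), (-107, -12), (-114, -280), (478, -368), (95, 805), (-438, -856), (821, 876),
    (-1371, -865), (2249, -469), (-210, 1867), (-946, 323), (-721, -603), (334, -330)],
  [(1, 0), (0, 2), (0, -1), (-1, 1), (1, -2), (-1, 2), (1, -2), (-1, 2), (0, -2), (-1, 0), (1,
    -1), (0, 1)],
  [(32, -53), (235, 103), (46, 891), (624, 998), (927, 1446), (770, -1165), (-1453, 1036), (2041,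
    469), (482, -672), (1887, -435), (-581, -856), (715, 1069), (280, -418)],
  [⟨1, 495439, [], [(60, 6, 653)]⟩,
  ⟨1, 124460, [], [(55, 7, 1233)]⟩,
  ⟨1, 134428, [], [(15, 8, 391)]⟩,
  ⟨1, 96156, [], [(9, 1, 683)]⟩,
  ⟨1, 110972, [], [(11, 10, 1047)]⟩,
  ⟨1, 106729, [], [(41, 2, 594)]⟩,
  ⟨1, 131854, [], [(39, 4, 405)]⟩,
  ⟨7818, 137045, [], []⟩,
  ⟨1, 111668, [], [(32, 0, 88)]⟩,
  ⟨1287, 137764, [], []⟩,
  ⟨483, 172509, [], []⟩,
  ⟨298, 136606, [], []⟩]⟩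


def L149 : Leaf :=
  ⟨[(36, -112), (0, -136), (301, -71), (222, -246), (709, 686), (-136, 101), (212, 1893), (-2971,
    -823), (1660, -1592), (-193, 922), (-40, -367), (-71, -117), (206, -65)],
  [(18, 24), (-94, -16), (75, -58), (-34, 22), (32, -19), (-17, -4), (17, 5), (-18, -33), (18,
    36), (-34, -88), (89, 34), (-28, 11)],
  [(-119, 119), (185, -955), (209, 756), (2409, -723), (-177, -553), (1007, -477), (-1833, -800),
    (541, 948), (91, -2564), (-1131, -920), (-523, 130), (-23, 344), (-3, 58)],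
  [⟨1, 488908, [], [(58, 4, 742)]⟩,
  ⟨1, 131195, [], [(53, 5, 1184)]⟩,
  ⟨1, 137768, [], [(13, 6, 623)]⟩,
  ⟨1, 110046, [], [(49, 7, 466)]⟩,
  ⟨1, 122553, [], [(9, 8, 644)]⟩,
  ⟨1, 94811, [(0, 290)], [(1, 0, 1158)]⟩,
  ⟨1, 164664, [], [(35, 2, 8)]⟩,
  ⟨1962, 145755, [], []⟩,
  ⟨126, 154259, [], []⟩,
  ⟨1659, 144899, [], []⟩,
  ⟨272, 178291, [], []⟩,
  ⟨220, 141246, [], []⟩]⟩


def L150 : Leaf :=
  ⟨[(15, 44), (-377, -44), (-124, -873), (1714, -652), (585, 2503), (-1835, -368), (745, 264),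
    (-1537, -114), (811, -834), (-278, 335), (259, -319), (-61, 123), (86, -70)],
  [(-207, 66), (-68, -225), (-50, -27), (-1, -126), (-64, -32), (14, -80), (-69, -42), (19, -69),
    (-93, -84), (13, -55), (-123, -200), (187, -110)],
  [(296, 453), (-339, 225), (-70, 682), (-1522, -1036), (-828, 1393), (429, -1035), (-886, 1884),
    (2804, 1285), (557, -355), (41, 15), (-339, 0), (77, -77), (26, 28)],
  [⟨1, 483831, [], [(57, 3, 694)]⟩,
  ⟨1, 137927, [], [(52, 4, 1186)]⟩,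
  ⟨1, 148252, [], [(12, 5, 896)]⟩,
  ⟨1, 105952, [], [(47, 0, 1882)]⟩,
  ⟨1, 131939, [], [(8, 7, 489)]⟩,
  ⟨93, 135759, [], []⟩,
  ⟨1, 132202, [], [(37, 1, 187), (2, 1, 229)]⟩,
  ⟨84, 136422, [], []⟩,
  ⟨86, 153458, [], []⟩,
  ⟨1339, 145351, [], []⟩,
  ⟨562, 187081, [], []⟩,
  ⟨189, 140930, [], []⟩]⟩


def L151 : Leaf :=
  ⟨[(84, -31), (51, 105), (-120, 199), (-248, -27), (-758, -331), (1299, -1930), (1805, 2697),
    (-2617, 381), (479, -965), (-212, 96), (182, -134), (-94, -62), (146, -2)],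
  [(112, -179), (217, 15), (204, -27), (202, 110), (275, 56), (171, 211), (191, 194), (25, 279),
    (87, 213), (-50, 200), (-10, 217), (-190, 92)],
  [(-47, -70), (250, -123), (476, 75), (448, 263), (761, 1456), (878, -1778), (-2960, 268), (1298,
    1459), (812, -974), (1354, -341), (19, -781), (146, 331), (-186, -255)],
  [⟨1, 481115, [], [(58, 4, 1014)]⟩,
  ⟨1, 123694, [], [(53, 0, 3), (52, 0, 2142)]⟩,
  ⟨1, 143636, [], [(14, 6, 668), (13, 6, 3), (11, 10, 6)]⟩,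
  ⟨1, 98665, [], [(7, 1, 203)]⟩,
  ⟨1, 121413, [], [(9, 8, 382)]⟩,
  ⟨81, 147425, [], []⟩,
  ⟨1, 132269, [], [(38, 2, 130), (3, 2, 293)]⟩,
  ⟨58, 148014, [], []⟩,
  ⟨67, 171696, [], []⟩,
  ⟨480, 155529, [], []⟩,
  ⟨677, 201827, [], []⟩,
  ⟨194, 154214, [], []⟩]⟩


def L152 : Leaf :=
  ⟨[(45, -32), (-34, 32), (33, -33), (186, -179), (148, 658), (-327, -515), (539, 1320), (-2439,
    -714), (1613, -1683), (402, 891), (152, 163), (-336, 233), (16, -144)],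
  [(-118, 136), (-114, -143), (-58, 24), (-34, -122), (-69, 9), (3, -79), (-79, 0), (12, -68),
    (-120, -39), (27, -57), (-137, -121), (142, -112)],
  [(-5, -22), (142, -63), (315, 159), (573, 706), (1034, 2428), (1882, -963), (-1617, 213), (1349,
    520), (418, -132), (2590, 8), (155, -967), (630, 971), (-166, -445)],
  [⟨1, 485990, [], [(58, 4, 623)]⟩,
  ⟨1, 110930, [], [(5, 0, 756)]⟩,
  ⟨1, 145554, [], [(13, 6, 485)]⟩,
  ⟨1, 102258, [], [(7, 1, 750)]⟩,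
  ⟨1, 123031, [], [(9, 8, 1015)]⟩,
  ⟨54, 130477, [], []⟩,
  ⟨1, 132162, [], [(38, 2, 3), (3, 2, 1826)]⟩,
  ⟨919, 136347, [], []⟩,
  ⟨139, 150656, [], []⟩,
  ⟨819, 130652, [], []⟩,
  ⟨545, 176900, [], []⟩,
  ⟨132, 132576, [], []⟩]⟩


def L153 : Leaf :=
  ⟨[(-118, 144), (-350, -291), (265, -629), (1246, 114), (-413, 1822), (-1425, -1042), (955, -28),
    (-959, -114), (986, -635), (-150, 704), (81, -332), (38, 353), (-158, -66)],
  [(-215, 227), (-549, -13), (-438, -177), (-531, -329), (-371, -494), (-360, -579), (-166, -662),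
    (-97, -610), (133, -610), (178, -437), (373, -403), (313, 4)],
  [(-72, 252), (-18, -404), (-2, 1062), (873, -36), (-1019, 1887), (1227, 1181), (-385, 412),
    (1260, -270), (-1016, -442), (1514, 1965), (1666, -16), (395, 89), (-243, 125)],
  [⟨1, 492558, [], [(56, 2, 519)]⟩,
  ⟨1, 137651, [], [(51, 3, 1293)]⟩,
  ⟨1, 155857, [], [(11, 4, 448)]⟩,
  ⟨1, 114907, [], [(47, 5, 708)]⟩,
  ⟨1, 134952, [], [(7, 6, 1210)]⟩,
  ⟨134, 136885, [], []⟩,
  ⟨1, 123591, [], [(1, 0, 1093)]⟩,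
  ⟨3466, 141704, [], []⟩,
  ⟨2585, 158317, [], []⟩,
  ⟨292, 138891, [], []⟩,
  ⟨1661, 179168, [], []⟩,
  ⟨548, 141827, [], []⟩]⟩


def L154 : Leaf :=
  ⟨[(-50, -330), (825, 163), (-439, 728), (-18, 118), (-1344, 336), (87, -2082), (1579, 704),
    (-820, 285), (616, -316), (-67, 564), (-184, 121), (-302, -137), (118, -154)],
  [(-288, 362), (-785, -94), (-471, -231), (-681, -408), (-402, -563), (-506, -618), (-254, -757),
    (-262, -640), (17, -793), (55, -522), (338, -715), (460, -51)],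
  [(-83, 314), (-29, -259), (76, 1067), (647, 108), (-318, 1743), (1425, 282), (-414, 492), (1196,
    -328), (-1044, 69), (1518, 1549), (1493, -398), (339, -236), (-245, 254)],
  [⟨1, 498842, [], [(56, 2, 477)]⟩,
  ⟨1, 151699, [], [(51, 3, 1134)]⟩,
  ⟨1, 169975, [], [(11, 4, 411)]⟩,
  ⟨1, 121261, [], [(47, 5, 977)]⟩,
  ⟨1, 142170, [], [(7, 6, 889)]⟩,
  ⟨7282, 139651, [], []⟩,
  ⟨1, 139338, [], [(36, 0, 541)]⟩,
  ⟨5812, 139605, [], []⟩,
  ⟨3484, 176570, [], []⟩,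
  ⟨637, 139489, [], []⟩,
  ⟨1907, 159656, [], []⟩,
  ⟨873, 139953, [], []⟩]⟩


def L155 : Leaf :=
  ⟨[(-79, -43), (-185, 43), (-135, -278), (-529, -250), (422, -1325), (1416, -437), (1682, 1878),
    (-2446, 902), (1269, -1429), (-570, 1663), (-67, -963), (-73, 775), (-328, -340)],
  [(0, 0), (0, 0), (0, 0), (0, 0), (0, 0), (0, 0), (0, 0), (0, 0), (0, 0), (0, 0), (0, 0), (0,
    0)],
  [(-194, 78), (590, 185), (1269, 1121), (1778, 225), (79, 1920), (1632, 506), (-896, 33), (1507,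
    -201), (-544, -1370), (820, 897), (243, -286), (-102, 285), (-101, -27)],
  [⟨1, 512562, [(1, 1375)], [(56, 1, 185)]⟩,
  ⟨1, 116090, [], [(4, 0, 1070)]⟩,
  ⟨1, 158615, [], [(12, 5, 670)]⟩,
  ⟨1, 120010, [], [(48, 6, 336)]⟩,
  ⟨1, 135644, [], [(8, 7, 358)]⟩,
  ⟨71, 144092, [], []⟩,
  ⟨1, 193334, [], [(36, 2, 371), (34, 2, 14)]⟩,
  ⟨6120, 148951, [], []⟩,
  ⟨75, 161050, [], []⟩,
  ⟨2616, 148052, [], []⟩,
  ⟨384, 184640, [], []⟩,
  ⟨542, 147607, [], []⟩]⟩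


def L156 : Leaf :=
  ⟨[(-105, -5), (-255, -129), (54, -676), (218, -36), (460, -409), (117, -35), (1380, 196), (-964,
    945), (1209, -567), (-962, 1807), (-143, -1156), (-83, 853), (-363, -385)],
  [(290, 34), (19, 306), (-162, 134), (-32, -38), (-108, 172), (-284, -81), (54, -323), (371,
    111), (-167, 516), (-565, -71), (-125, -575), (382, -110)],
  [(-112, -84), (444, -125), (347, 1049), (-63, 1229), (-239, 3220), (500, 632), (-696, 1867),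
    (2458, -382), (-295, -149), (2104, 557), (-633, -501), (-13, 656), (52, -143)],
  [⟨1, 573850, [], [(56, 1, 491)]⟩,
  ⟨1, 119241, [(0, 1)], [(53, 0, 1965)]⟩,
  ⟨1, 177161, [], [(12, 5, 1251)]⟩,
  ⟨1, 137266, [], [(48, 6, 200)]⟩,
  ⟨1, 148475, [], [(8, 7, 422)]⟩,
  ⟨45, 188407, [], []⟩,
  ⟨1, 182575, [], [(36, 2, 490)]⟩,
  ⟨5226, 188202, [], []⟩,
  ⟨34, 198789, [], []⟩,
  ⟨1184, 186974, [], []⟩,
  ⟨1, 217805, [], [(21, 20, 14)]⟩,
  ⟨161, 188011, [], []⟩]⟩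


def L157 : Leaf :=
  ⟨[(311, 427), (-672, 699), (-1288, -156), (-162, -1616), (383, 23), (466, -1554), (1616, 1402),
    (-1221, -142), (1077, 46), (-501, 351), (269, 55), (-171, 103), (28, 82)],
  [(105, -3), (-69, 218), (-175, -141), (115, -88), (86, 115), (-194, 78), (-14, -209), (141, 28),
    (-29, 142), (-203, -96), (166, -157), (42, 96)],
  [(-3, 54), (434, -7), (319, 326), (163, 598), (121, 2057), (1073, 3), (-295, 949), (2893, -549),
    (-275, -1170), (1280, 927), (-193, -600), (-289, 620), (-88, -99)],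
  [⟨1, 494708, [], [(58, 2, 466)]⟩,
  ⟨1, 127851, [], [(54, 5, 1856)]⟩,
  ⟨1, 170085, [], [(12, 1, 307), (6, 1, 429)]⟩,
  ⟨1, 110072, [], [(49, 0, 69), (48, 0, 1474)]⟩,
  ⟨1, 148624, [], [(9, 8, 481)]⟩,
  ⟨258, 137473, [], []⟩,
  ⟨1, 179515, [], [(37, 3, 162), (35, 3, 107)]⟩,
  ⟨5768, 143160, [], []⟩,
  ⟨79, 170838, [], []⟩,
  ⟨2499, 143560, [], []⟩,
  ⟨263, 175544, [], []⟩,
  ⟨487, 144227, [], []⟩]⟩


def L158 : Leaf :=
  ⟨[(-59, -167), (-254, -66), (71, -543), (-85, -392), (1068, -666), (822, 353), (980, 1352),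
    (-1582, 639), (815, -355), (-1172, 814), (575, -867), (-486, 958), (-340, -611)],
  [(0, 0), (0, 0), (0, 0), (0, 0), (0, 0), (0, 0), (0, 0), (0, 0), (0, 0), (0, 0), (0, 0), (0,
    0)],
  [(265, 17), (52, -2), (1053, 993), (-237, -144), (305, 2646), (1209, -317), (-148, 1294), (2151,
    -539), (118, 254), (1848, 521), (382, -252), (126, -82), (-463, 202)],
  [⟨1, 489280, [], [(59, 3, 395)]⟩,
  ⟨1, 139028, [], [(55, 6, 2654)]⟩,
  ⟨1, 145640, [], [(7, 2, 707)]⟩,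
  ⟨1, 101660, [], [(8, 1, 382)]⟩,
  ⟨1, 128354, [], [(10, 9, 351)]⟩,
  ⟨729, 134632, [], []⟩,
  ⟨1, 174968, [], [(38, 4, 461)]⟩,
  ⟨7329, 139866, [], []⟩,
  ⟨1, 154810, [], [(30, 0, 68)]⟩,
  ⟨4532, 139140, [], []⟩,
  ⟨165, 165311, [], []⟩,
  ⟨1099, 138091, [], []⟩]⟩


def L159 : Leaf :=
  ⟨[(-28, 10), (-177, 33), (-148, 143), (-943, -423), (411, -1089), (602, -581), (1293, 611),
    (-569, 122), (1183, 513), (-1286, 370), (1146, -364), (-718, 1191), (-384, -507)],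
  [(97, -37), (26, 233), (-235, -53), (72, -137), (120, 72), (-154, 143), (-82, -194), (139, -17),
    (10, 154), (-236, -48), (119, -202), (74, 74)],
  [(-25, 275), (295, -494), (785, 79), (200, -664), (320, 2232), (1372, -51), (-437, 1279), (1805,
    -267), (-307, -214), (2530, 112), (947, -1014), (528, -4), (22, 35)],
  [⟨1, 512861, [], [(59, 3, 404)]⟩,
  ⟨1, 141408, [], [(55, 6, 2407)]⟩,
  ⟨1, 149796, [], [(7, 2, 604)]⟩,
  ⟨1, 101465, [], [(8, 1, 371)]⟩,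
  ⟨1, 135553, [], [(10, 9, 419)]⟩,
  ⟨68, 133357, [], []⟩,
  ⟨1, 160540, [], [(38, 4, 531), (36, 4, 86)]⟩,
  ⟨12602, 137962, [], []⟩,
  ⟨1, 146769, [], [(31, 0, 126)]⟩,
  ⟨1024, 137359, [], []⟩,
  ⟨1022, 176642, [], []⟩,
  ⟨190, 135187, [], []⟩]⟩


def L160 : Leaf :=
  ⟨[(-39, -56), (-153, -30), (53, -113), (-329, -289), (542, -303), (105, 45), (-58, 359), (-55,
    -1338), (2135, 999), (-1293, 1065), (356, 35), (-1096, 392), (33, -624)],
  [(0, 0), (0, 0), (0, 0), (0, 0), (0, 0), (0, 0), (0, 0), (0, 0), (0, 0), (0, 0), (0, 0), (0,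
    0)],
  [(-213, 0), (217, -317), (225, 340), (327, 44), (-196, 2637), (1596, 540), (-642, 1048), (2710,
    -179), (-45, -1080), (1776, 758), (431, -490), (7, 370), (0, 129)],
  [⟨1, 500424, [], [(58, 2, 435)]⟩,
  ⟨1, 123316, [], [(54, 5, 1), (5, 0, 1543)]⟩,
  ⟨1, 148680, [], [(13, 1, 2288)]⟩,
  ⟨1, 130938, [], [(49, 7, 255)]⟩,
  ⟨1, 134388, [], [(9, 8, 442)]⟩,
  ⟨124, 133082, [], []⟩,
  ⟨1, 202125, [], [(37, 3, 312), (35, 3, 8)]⟩,
  ⟨6604, 139909, [], []⟩,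
  ⟨100, 172244, [], []⟩,
  ⟨1997, 139365, [], []⟩,
  ⟨533, 172547, [], []⟩,
  ⟨333, 137336, [], []⟩]⟩


def L161 : Leaf :=
  ⟨[(-32, 48), (-81, -34), (11, -170), (162, 174), (-93, 13), (-291, -210), (955, 217), (-1521,
    81), (1766, -550), (-1490, 933), (909, -1003), (-280, 741), (-64, -247)],
  [(-16, -106), (36, 144), (-216, -207), (99, -162), (-86, 45), (-536, -589), (655, -1268), (1890,
    -68), (843, 1732), (-870, 1169), (-883, -295), (138, -260)],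
  [(-33, 4), (-24, 50), (181, 44), (-423, 209), (-599, 3083), (1272, 1197), (925, 1444), (2660,
    -979), (-48, -494), (1370, 535), (-283, 53), (141, 20), (-34, 30)],
  [⟨1, 636428, [], [(59, 2, 1584), (58, 2, 18)]⟩,
  ⟨1, 117134, [(0, 1126)], [(54, 0, 1002)]⟩,
  ⟨1, 201727, [], [(13, 1, 716)]⟩,
  ⟨1, 250849, [], [(49, 7, 1)]⟩,
  ⟨1, 181820, [], [(9, 8, 203)]⟩,
  ⟨301, 313863, [], []⟩,
  ⟨1, 212549, [], [(38, 37, 2), (37, 3, 59)]⟩,
  ⟨26, 315136, [], []⟩,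
  ⟨89, 331596, [], []⟩,
  ⟨17, 311075, [], []⟩,
  ⟨16, 311286, [], []⟩,
  ⟨13, 308427, [], []⟩]⟩


def L162 : Leaf :=
  ⟨[(-214, 35), (-128, -339), (334, -561), (750, 554), (-379, -78), (835, 783), (-1561, 229),
    (724, -759), (-429, 501), (210, -442), (-63, 261), (-42, -102), (-6, -30)],
  [(29, -94), (168, 191), (-299, 74), (6, -236), (209, -16), (-32, 262), (-231, -128), (136,
    -160), (195, 133), (-235, 199), (-56, -247), (94, 32)],
  [(-46, 278), (-158, 933), (674, 1974), (235, -712), (121, 1216), (1799, -798), (888, 1114),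
    (2862, -91), (-383, 608), (1100, 1080), (-612, -299), (129, -40), (-2, 12)],
  [⟨1, 481288, [], [(56, 55, 342)]⟩,
  ⟨1, 118977, [], [(52, 3, 2), (49, 3, 188), (3, 0, 1942)]⟩,
  ⟨1, 129916, [], [(11, 4, 767)]⟩,
  ⟨1, 113190, [], [(47, 5, 500)]⟩,
  ⟨1, 118635, [], [(7, 6, 932)]⟩,
  ⟨71, 130233, [], []⟩,
  ⟨1, 128228, [], [(36, 1, 34), (2, 1, 1720)]⟩,
  ⟨817, 139584, [], []⟩,
  ⟨602, 150930, [], []⟩,
  ⟨1025, 124052, [], []⟩,
  ⟨279, 182513, [], []⟩,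
  ⟨123, 132029, [], []⟩]⟩


def L163 : Leaf :=
  ⟨[(0, -18), (52, -82), (92, 37), (-19, 232), (-147, -218), (45, -63), (495, 474), (-1340, -571),
    (2019, 275), (-2146, 311), (1616, -713), (-799, 751), (112, -357)],
  [(8, -56), (-54, 147), (-152, -196), (77, 37), (-248, 98), (-534, -590), (591, -1044), (1464,
    18), (564, 1422), (-792, 893), (-837, -300), (101, -352)],
  [(177, 2), (115, 184), (532, 1068), (-697, -126), (-275, 1471), (222, 539), (300, 2608), (2390,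
    209), (1265, 29), (1546, -387), (-505, -280), (-128, -40), (32, 101)],
  [⟨1763, 624174, [], [(56, 55, 1361)]⟩,
  ⟨1, 117224, [(0, 1091)], [(52, 0, 1045)]⟩,
  ⟨1, 189312, [], [(11, 4, 1067)]⟩,
  ⟨1, 274852, [], [(47, 5, 2)]⟩,
  ⟨1, 177209, [], [(7, 6, 175)]⟩,
  ⟨19, 291582, [], []⟩,
  ⟨1, 193790, [], [(36, 1, 230), (35, 2, 141), (2, 1, 1)]⟩,
  ⟨17, 292618, [], []⟩,
  ⟨1, 301013, [], [(26, 25, 5)]⟩,
  ⟨65, 293884, [], []⟩,
  ⟨14, 311455, [], []⟩,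
  ⟨73, 295342, [], []⟩]⟩


def L164 : Leaf :=
  ⟨[(-73, 149), (-317, -72), (-175, -426), (394, -224), (-163, -222), (1042, -193), (-345, 696),
    (693, -245), (-529, 1108), (-134, -538), (-257, 558), (-338, -557), (200, -36)],
  [(-112, -283), (421, -78), (13, 141), (63, 121), (-173, -33), (-77, -123), (266, -458), (430,
    392), (-309, 291), (-421, -311), (431, -479), (224, 279)],
  [(269, 400), (-272, 754), (281, 2331), (-522, 72), (-395, 1593), (1053, -869), (169, 984),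
    (2293, 368), (-11, 877), (1136, 800), (-278, -385), (6, -156), (14, 88)],
  [⟨11, 523327, [], [(55, 54, 218)]⟩,
  ⟨1, 143818, [], [(51, 2, 2218)]⟩,
  ⟨1, 149101, [], [(10, 3, 804)]⟩,
  ⟨1, 114773, [], [(46, 4, 236)]⟩,
  ⟨1, 135862, [], [(6, 5, 558)]⟩,
  ⟨13919, 139927, [], []⟩,
  ⟨1, 126517, [], [(1, 0, 1255)]⟩,
  ⟨2497, 141075, [], []⟩,
  ⟨538, 153995, [], []⟩,
  ⟨1055, 139544, [], []⟩,
  ⟨624, 181704, [], []⟩,
  ⟨353, 135898, [], []⟩]⟩


def L165 : Leaf :=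
  ⟨[(103, -82), (116, 503), (-615, -129), (125, 30), (-679, -362), (628, -531), (-152, 119), (671,
    -474), (181, 749), (2, -129), (-28, 627), (-459, -239), (106, -80)],
  [(-330, 140), (-151, -344), (-90, 443), (-962, -16), (-660, -694), (-184, -704), (-57, -621),
    (183, -204), (-401, 50), (-769, -778), (558, -1188), (593, 108)],
  [(663, 430), (62, 344), (1175, 1958), (291, 167), (-106, 1549), (707, -1383), (159, 258), (2193,
    -321), (690, 479), (970, 308), (-99, -285), (-91, -304), (18, 140)],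
  [⟨1588, 554959, [], [(55, 54, 175)]⟩,
  ⟨1, 156488, [], [(51, 2, 1774)]⟩,
  ⟨1, 159755, [], [(10, 3, 652)]⟩,
  ⟨1, 119344, [], [(46, 4, 246)]⟩,
  ⟨1, 139308, [], [(6, 5, 394)]⟩,
  ⟨20800, 136990, [], []⟩,
  ⟨1, 137069, [], [(35, 0, 618)]⟩,
  ⟨4632, 137179, [], []⟩,
  ⟨2988, 175352, [], []⟩,
  ⟨113, 134847, [], []⟩,
  ⟨1860, 158618, [], []⟩,
  ⟨855, 137075, [], []⟩]⟩


def L166 : Leaf :=
  ⟨[(15, -29), (11, -10), (176, -165), (104, -45), (690, 325), (-204, 324), (417, 1667), (-3531,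
    -530), (1980, -2642), (510, 1586), (-436, -134), (-119, -216), (206, -41)],
  [(-94, -5), (97, -81), (-42, 43), (45, -32), (-19, -1), (25, 7), (3, -25), (-7, 18), (48, -27),
    (-57, 20), (114, -55), (-34, 88)],
  [(4, -34), (225, 70), (195, 412), (269, 56), (274, 273), (492, -1610), (-969, -87), (1808, 244),
    (746, -696), (602, -183), (-666, -22), (222, 385), (-31, -273)],
  [⟨1, 524544, [(0, 1542)], [(54, 0, 494)]⟩,
  ⟨1, 135017, [], [(50, 1, 487), (49, 1, 2156)]⟩,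
  ⟨2456, 240138, [], []⟩,
  ⟨1, 113298, [], [(47, 4, 223)]⟩,
  ⟨1, 130151, [], [(6, 5, 156)]⟩,
  ⟨2959, 141746, [], []⟩,
  ⟨1, 140083, [], [(34, 3, 59)]⟩,
  ⟨1703, 140956, [], []⟩,
  ⟨383, 170333, [], []⟩,
  ⟨388, 133310, [], []⟩,
  ⟨523, 170981, [], []⟩,
  ⟨104, 136076, [], []⟩]⟩


def L167 : Leaf :=
  ⟨[(56, 386), (-486, -587), (953, 1169), (-2978, -498), (1964, -2508), (957, 1311), (141, 499),
    (-735, 223), (317, -268), (-74, 157), (7, 124), (-88, -18), (-44, 15)],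
  [(0, 0), (0, 0), (0, 0), (0, 0), (0, 0), (0, 0), (0, 0), (0, 0), (0, 0), (0, 0), (0, 0), (0,
    0)],
  [(55, -8), (130, 247), (-241, 1053), (-495, 998), (1541, 1875), (610, -2223), (-1439, 929),
    (1881, 649), (817, -103), (1517, -745), (-944, -265), (132, 202), (25, -62)],
  [⟨1, 445286, [], [(57, 2, 985)]⟩,
  ⟨1, 143780, [], [(52, 3, 62), (51, 3, 2056)]⟩,
  ⟨1, 229454, [], [(12, 11, 13)]⟩,
  ⟨1, 104681, [], [(49, 6, 584)]⟩,
  ⟨1, 132306, [], [(8, 7, 444)]⟩,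
  ⟨1, 122720, [], [(39, 0, 458)]⟩,
  ⟨1, 141127, [], [(36, 1, 32)]⟩,
  ⟨1605, 146450, [], []⟩,
  ⟨149, 184575, [], []⟩,
  ⟨530, 144777, [], []⟩,
  ⟨80, 159704, [], []⟩,
  ⟨162, 144291, [], []⟩]⟩


def L168 : Leaf :=
  ⟨[(347, 374), (-932, 66), (671, -42), (-1714, -16), (1707, -1656), (35, 1960), (-968, -597),
    (-104, -699), (1054, -264), (-74, 577), (95, 31), (-108, 82), (3, 71)],
  [(116, 67), (-90, 235), (-255, 106), (-364, -124), (-169, -375), (118, -433), (387, -228), (407,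
    65), (215, 319), (-35, 273), (-203, 149), (-96, -94)],
  [(264, 228), (-452, 141), (-715, 106), (-1927, 1154), (2127, 1317), (-87, -1494), (-176, 2264),
    (391, 1372), (313, 2390), (149, -259), (-805, 347), (147, -205), (92, -53)],
  [⟨1, 509742, [], [(57, 2, 698)]⟩,
  ⟨1, 145335, [], [(52, 3, 1594), (51, 3, 151)]⟩,
  ⟨1, 220256, [], [(12, 11, 4)]⟩,
  ⟨1, 104151, [], [(49, 6, 837)]⟩,
  ⟨1, 135240, [], [(8, 7, 462)]⟩,
  ⟨1, 106159, [], [(38, 0, 120)]⟩,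
  ⟨1, 128682, [], [(36, 1, 106), (34, 1, 168)]⟩,
  ⟨6570, 136971, [], []⟩,
  ⟨299, 165514, [], []⟩,
  ⟨3572, 135763, [], []⟩,
  ⟨730, 177662, [], []⟩,
  ⟨350, 133117, [], []⟩]⟩


def L169 : Leaf :=
  ⟨[(98, -93), (64, 91), (213, 326), (-545, -17), (83, 409), (-1162, -1323), (2559, 45), (-1561,
    1684), (-149, -1161), (18, -94), (509, -2), (-228, 172), (54, -46)],
  [(130, 40), (-69, 270), (-223, 140), (-443, -5), (-315, -421), (38, -516), (343, -387), (521,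
    -69), (313, 313), (56, 257), (-145, 238), (-119, -65)],
  [(321, 381), (317, -78), (-774, 2031), (955, 405), (685, 108), (1423, -1953), (-853, 756),
    (3679, 1360), (1182, -716), (764, 979), (-283, -62), (79, -139), (12, -9)],
  [⟨1, 473679, [], [(56, 1, 723)]⟩,
  ⟨1, 149407, [], [(51, 2, 1819)]⟩,
  ⟨1, 244954, [], [(11, 10, 3)]⟩,
  ⟨1, 114991, [], [(48, 5, 869)]⟩,
  ⟨1, 140096, [], [(7, 6, 542)]⟩,
  ⟨108, 136205, [], []⟩,
  ⟨1, 126913, [], [(4, 0, 197)]⟩,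
  ⟨3149, 136112, [], []⟩,
  ⟨1775, 157874, [], []⟩,
  ⟨885, 132715, [], []⟩,
  ⟨598, 187747, [], []⟩,
  ⟨112, 138253, [], []⟩]⟩


def L170 : Leaf :=
  ⟨[(263, 508), (-979, -84), (587, 253), (-2033, -527), (2223, -1509), (-516, 1989), (-738,
    -1022), (140, -723), (1169, -91), (-90, 565), (156, 126), (-123, 109), (9, 92)],
  [(33, -5), (29, 69), (-57, 86), (-127, 19), (-108, -97), (-5, -150), (97, -114), (145, -9), (88,
    94), (-9, 103), (-66, 36), (-23, -24)],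
  [(57, -26), (45, -91), (499, 1125), (1464, -176), (-406, 334), (1035, -1077), (-364, -423),
    (3231, -486), (920, -1790), (1229, 911), (423, 314), (70, 508), (-445, -165)],
  [⟨1, 514701, [(0, 1161)], [(56, 0, 599)]⟩,
  ⟨1, 124402, [], [(4, 3, 1016)]⟩,
  ⟨1, 191888, [], [(12, 11, 232)]⟩,
  ⟨1, 113316, [], [(49, 6, 497)]⟩,
  ⟨1, 132737, [], [(7, 1, 347)]⟩,
  ⟨585, 143413, [], []⟩,
  ⟨1, 142622, [], [(36, 2, 185), (34, 2, 64)]⟩,
  ⟨7319, 146380, [], []⟩,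
  ⟨193, 171611, [], []⟩,
  ⟨4417, 146857, [], []⟩,
  ⟨194, 174544, [], []⟩,
  ⟨316, 144823, [], []⟩]⟩


def L171 : Leaf :=
  ⟨[(-11, -159), (-38, -67), (297, 62), (-734, -536), (2116, -355), (-1074, 1959), (-153, -1245),
    (166, 508), (507, -96), (-604, 898), (-238, -391), (-410, -37), (195, -350)],
  [(139, 4), (62, 387), (-467, 266), (-547, -164), (-341, -625), (261, -676), (636, -347), (664,
    256), (234, 521), (-203, 498), (-391, -11), (-22, -138)],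
  [(-20, -74), (95, -148), (215, 1224), (1784, 482), (75, 203), (667, -1239), (-1021, 5), (3768,
    -62), (1270, -2419), (1154, 864), (534, 236), (148, 557), (-317, -149)],
  [⟨1, 506714, [], [(57, 0, 632)]⟩,
  ⟨1, 122250, [], [(4, 3, 883)]⟩,
  ⟨1, 215872, [], [(12, 11, 5)]⟩,
  ⟨1, 110845, [], [(49, 6, 1168)]⟩,
  ⟨1, 148277, [], [(7, 1, 464)]⟩,
  ⟨98, 134339, [], []⟩,
  ⟨1, 149351, [], [(36, 2, 182), (34, 2, 110)]⟩,
  ⟨9318, 137815, [], []⟩,
  ⟨90, 164679, [], []⟩,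
  ⟨4229, 138245, [], []⟩,
  ⟨643, 171117, [], []⟩,
  ⟨559, 136517, [], []⟩]⟩


def L172 : Leaf :=
  ⟨[(137, 335), (-869, -408), (1122, -75), (-1298, 53), (1796, -776), (-821, 1790), (-606, -1044),
    (284, -474), (908, 353), (-594, 498), (-56, -183), (-33, -109), (37, 31)],
  [(187, 118), (-253, 324), (-338, 37), (-495, -260), (-123, -528), (182, -597), (562, -271),
    (541, 41), (332, 449), (15, 340), (-281, 300), (-145, -166)],
  [(34, -12), (12, 52), (-587, 109), (123, -576), (1751, 870), (3095, -2351), (-156, 496), (2748,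
    1315), (498, -21), (1129, -254), (-1465, -1346), (370, 158), (193, -394)],
  [⟨1, 551571, [], [(57, 56, 863)]⟩,
  ⟨1, 121771, [], [(4, 3, 978)]⟩,
  ⟨1, 236049, [], [(12, 11, 87)]⟩,
  ⟨1, 108194, [], [(49, 6, 621)]⟩,
  ⟨1, 117353, [], [(8, 1, 554)]⟩,
  ⟨1, 122201, [], [(38, 0, 658)]⟩,
  ⟨1, 132199, [], [(36, 2, 180), (34, 2, 63)]⟩,
  ⟨5169, 144301, [], []⟩,
  ⟨90, 172267, [], []⟩,
  ⟨1625, 138097, [], []⟩,
  ⟨103, 159266, [], []⟩,
  ⟨162, 141476, [], []⟩]⟩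


def L173 : Leaf :=
  ⟨[(180, 356), (-712, -545), (1340, 460), (-2004, 263), (1607, -1242), (-487, 1613), (-662,
    -679), (-290, -753), (1159, -286), (51, 551), (38, 198), (-157, 16), (-61, 35)],
  [(0, 0), (0, 0), (0, 0), (0, 0), (0, 0), (0, 0), (0, 0), (0, 0), (0, 0), (0, 0), (0, 0), (0,
    0)],
  [(23, -63), (-5, 42), (-490, 273), (448, -127), (2074, 803), (2668, -2476), (-245, 1115), (2683,
    1406), (-263, -482), (616, -571), (-1531, -1664), (153, -182), (191, -397)],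
  [⟨1, 543725, [], [(57, 56, 960)]⟩,
  ⟨1, 127709, [], [(4, 3, 820)]⟩,
  ⟨1, 165315, [], [(12, 11, 426)]⟩,
  ⟨1, 108492, [], [(49, 6, 252)]⟩,
  ⟨1, 102918, [], [(8, 1, 582)]⟩,
  ⟨1, 124632, [], [(39, 0, 1077)]⟩,
  ⟨1, 138326, [], [(36, 2, 121)]⟩,
  ⟨3277, 149952, [], []⟩,
  ⟨77, 184791, [], []⟩,
  ⟨998, 146092, [], []⟩,
  ⟨53, 150500, [], []⟩,
  ⟨258, 144827, [], []⟩]⟩


def L174 : Leaf :=
  ⟨[(137, -51), (3, 189), (-17, 268), (-371, -238), (-81, 427), (-350, -1598), (1985, 1535),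
    (-2539, 236), (895, -1246), (100, 84), (479, 313), (-352, 65), (66, -35)],
  [(140, 118), (-291, 244), (-258, -105), (-263, -241), (-8, -373), (222, -384), (438, -69), (345,
    140), (131, 332), (5, 278), (-332, 184), (-61, -173)],
  [(-31, -73), (239, -131), (265, 1071), (-1000, 455), (531, 1870), (1190, -2133), (-449, 235),
    (2534, -42), (1687, 821), (2742, 499), (-429, 616), (613, 465), (73, -208)],
  [⟨1, 530232, [(0, 881)], [(55, 0, 802)]⟩,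
  ⟨1, 112807, [], [(3, 2, 1129)]⟩,
  ⟨1, 190723, [], [(11, 10, 170)]⟩,
  ⟨1, 125133, [], [(48, 5, 542)]⟩,
  ⟨1, 127395, [], [(7, 6, 510)]⟩,
  ⟨94, 160446, [], []⟩,
  ⟨1, 119920, [], [(4, 1, 260)]⟩,
  ⟨2374, 148437, [], []⟩,
  ⟨1554, 167935, [], []⟩,
  ⟨1056, 146642, [], []⟩,
  ⟨125, 172247, [], []⟩,
  ⟨175, 167953, [], []⟩]⟩


def L175 : Leaf :=
  ⟨[(42, 84), (-419, -158), (509, -264), (120, -68), (450, 1212), (-1938, -887), (2090, -639),
    (-832, 1199), (236, -424), (-482, 240), (115, -308), (36, -72), (76, 78)],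
  [(134, 32), (-90, 326), (-363, 174), (-611, -154), (-345, -629), (106, -750), (557, -513), (714,
    -73), (473, 416), (63, 397), (-217, 259), (-102, -92)],
  [(444, 338), (480, -218), (-123, 2189), (1149, -251), (410, -375), (1105, -2575), (-413, 395),
    (4326, 17), (1058, -1448), (991, 768), (-310, 23), (19, -174), (4, -6)],
  [⟨1, 518935, [], [(56, 0, 696)]⟩,
  ⟨1, 109719, [], [(3, 2, 1131)]⟩,
  ⟨1, 203487, [], [(11, 10, 44)]⟩,
  ⟨1, 116491, [], [(48, 5, 918)]⟩,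
  ⟨1, 128851, [], [(7, 6, 616)]⟩,
  ⟨125, 134125, [], []⟩,
  ⟨1, 119733, [], [(4, 1, 267)]⟩,
  ⟨3318, 138705, [], []⟩,
  ⟨1469, 164364, [], []⟩,
  ⟨779, 135812, [], []⟩,
  ⟨733, 182413, [], []⟩,
  ⟨77, 136029, [], []⟩]⟩


def L176 : Leaf :=
  ⟨[(235, 388), (-985, -205), (1022, -30), (-1423, 129), (1257, -605), (-1094, 521), (763, -741),
    (-341, 343), (267, -267), (55, -123), (282, 203), (-17, 97), (-36, 23)],
  [(64, -44), (177, 175), (-276, 322), (-295, -187), (-73, -50), (-399, -248), (182, -920), (1225,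
    -51), (307, 1151), (-834, 397), (-255, -463), (152, -64)],
  [(-255, -136), (-296, 370), (588, 1957), (926, -179), (-113, 1421), (1793, -811), (837, 672),
    (3887, -304), (431, 31), (1369, 1088), (-460, 275), (13, 181), (-121, -65)],
  [⟨2552, 565174, [], [(53, 52, 751)]⟩,
  ⟨1, 109343, [(0, 241)], [(49, 0, 1758)]⟩,
  ⟨1, 161697, [], [(8, 7, 748)]⟩,
  ⟨1, 121394, [], [(45, 2, 585)]⟩,
  ⟨1, 118167, [], [(4, 3, 448)]⟩,
  ⟨87, 173103, [], []⟩,
  ⟨1, 131624, [], [(32, 1, 160)]⟩,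
  ⟨3570, 179530, [], []⟩,
  ⟨38, 236905, [], []⟩,
  ⟨325, 190019, [], []⟩,
  ⟨133, 203635, [], []⟩,
  ⟨240, 182049, [], []⟩]⟩


def L177 : Leaf :=
  ⟨[(82, -202), (294, 168), (123, 506), (-886, 230), (-310, -465), (59, -1505), (2335, 1367),
    (-2535, 694), (1124, -1280), (-270, 820), (-36, -210), (-124, -117), (148, -4)],
  [(-98, 233), (-324, -41), (-299, -24), (-294, -281), (-256, -296), (-72, -425), (-51, -428),
    (162, -356), (203, -352), (280, -107), (299, -130), (160, 196)],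
  [(-4, 209), (-376, 397), (-158, 639), (-897, 695), (1591, 318), (-32, -1704), (934, 1598),
    (1739, 451), (1108, 1727), (598, 250), (-243, 1101), (468, -166), (-117, -14)],
  [⟨1, 539267, [(0, 1218)], [(55, 0, 552)]⟩,
  ⟨1, 131890, [], [(51, 2, 1863)]⟩,
  ⟨20, 223917, [], [(11, 10, 5)]⟩,
  ⟨1, 133189, [], [(48, 5, 372)]⟩,
  ⟨1, 145524, [], [(7, 6, 317)]⟩,
  ⟨3646, 149616, [], []⟩,
  ⟨1, 131968, [], [(4, 3, 204)]⟩,
  ⟨5583, 142752, [], []⟩,
  ⟨4, 148396, [], [(27, 1, 102)]⟩,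
  ⟨48, 146099, [], []⟩,
  ⟨371, 179103, [], []⟩,
  ⟨210, 140176, [], []⟩]⟩


def L178 : Leaf :=
  ⟨[(-63, -182), (258, 44), (9, 152), (-254, -61), (447, -31), (-373, 107), (601, 469), (-1829,
    -374), (2063, -1209), (-368, 1887), (-598, -537), (-75, -165), (180, -103)],
  [(-40, 247), (-301, 172), (-479, 171), (-597, -161), (-600, -355), (-370, -665), (-194, -735),
    (187, -672), (319, -530), (463, -208), (336, -85), (200, 150)],
  [(-35, 46), (-112, 122), (-249, 634), (-1083, 621), (52, 1266), (-952, -949), (23, 2077), (2620,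
    -902), (-166, 363), (513, 1421), (-19, 2526), (1490, 769), (-460, -252)],
  [⟨1, 580683, [], [(57, 1, 682)]⟩,
  ⟨1, 138869, [], [(52, 3, 1727)]⟩,
  ⟨83, 227796, [], []⟩,
  ⟨1, 130442, [], [(49, 6, 515)]⟩,
  ⟨1, 130857, [], [(8, 7, 644)]⟩,
  ⟨6379, 139788, [], []⟩,
  ⟨1, 117448, [], [(5, 4, 277)]⟩,
  ⟨1, 171866, [], [(32, 0, 508)]⟩,
  ⟨1, 144364, [], [(28, 2, 165)]⟩,
  ⟨55, 136665, [], []⟩,
  ⟨128, 168684, [], []⟩,
  ⟨272, 139205, [], []⟩]⟩


def L179 : Leaf :=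
  ⟨[(214, -155), (-21, 275), (-32, 97), (-357, -330), (662, 31), (-252, 54), (636, 916), (-2089,
    -545), (1934, -1130), (-406, 1645), (-533, -575), (-20, -229), (264, -56)],
  [(-147, 350), (-358, 114), (-542, 187), (-571, -174), (-609, -190), (-458, -548), (-499, -511),
    (-126, -625), (-115, -586), (242, -520), (150, -345), (363, -111)],
  [(34, -73), (260, 68), (-28, 776), (-153, 601), (-110, 1661), (295, -749), (-881, 1092), (2933,
    -866), (-178, -1640), (1176, 845), (1099, 1066), (2344, 585), (169, -779)],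
  [⟨1, 539540, [], [(57, 1, 691)]⟩,
  ⟨1, 148067, [], [(52, 3, 1690)]⟩,
  ⟨1, 222228, [], [(12, 11, 7)]⟩,
  ⟨1, 129898, [], [(49, 6, 498)]⟩,
  ⟨1, 122222, [], [(8, 7, 455)]⟩,
  ⟨5858, 144321, [], []⟩,
  ⟨1, 109964, [], [(5, 4, 348)]⟩,
  ⟨1, 125254, [], [(33, 0, 60), (31, 0, 560)]⟩,
  ⟨1, 142668, [], [(28, 2, 155)]⟩,
  ⟨49, 141096, [], []⟩,
  ⟨296, 173682, [], []⟩,
  ⟨506, 143051, [], []⟩]⟩


def L180 : Leaf :=
  ⟨[(117, -366), (578, 570), (-957, 452), (-193, -1320), (1572, 548), (-1334, 763), (510, -696),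
    (-641, 282), (826, -476), (-550, 647), (261, -424), (-268, 275), (79, -257)],
  [(-319, 603), (-836, -105), (-729, 18), (-754, -640), (-600, -447), (-268, -810), (-355, -499),
    (10, -601), (-322, -508), (120, -482), (-181, -636), (523, -330)],
  [(96, -168), (489, 69), (912, 976), (1123, 80), (-245, 1024), (1173, -1085), (-1730, -1029),
    (1476, 479), (1741, -1599), (1537, -911), (-314, -744), (524, 960), (405, -661)],
  [⟨1, 533261, [], [(55, 54, 726)]⟩,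
  ⟨1, 141853, [], [(50, 1, 1521)]⟩,
  ⟨101, 210751, [], []⟩,
  ⟨1, 138537, [], [(47, 4, 450)]⟩,
  ⟨1, 130843, [], [(6, 5, 494)]⟩,
  ⟨11057, 139516, [], []⟩,
  ⟨1, 117929, [], [(3, 2, 230)]⟩,
  ⟨63, 135522, [], []⟩,
  ⟨1, 134030, [], [(27, 0, 104), (25, 0, 280)]⟩,
  ⟨5116, 139632, [], []⟩,
  ⟨1467, 171614, [], []⟩,
  ⟨1152, 138857, [], []⟩]⟩


def L181 : Leaf :=
  ⟨[(409, -124), (-432, 859), (-68, -945), (-51, 764), (217, -1022), (30, 1441), (-838, -1196),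
    (993, 109), (-286, 560), (-538, -380), (446, -300), (90, 123), (32, 112)],
  [(-2, 231), (-257, 193), (-355, 149), (-342, 48), (-542, 136), (-782, -121), (-940, -654),
    (-383, -1132), (297, -1144), (789, -498), (573, -3), (185, 229)],
  [(-9, 121), (255, 383), (1121, 1209), (378, -417), (-508, 2006), (1910, -1058), (-1011, -1504),
    (1277, -812), (1092, -112), (3253, -64), (710, -815), (477, 528), (-146, -44)],
  [⟨1, 541013, [], [(57, 56, 782)]⟩,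
  ⟨1, 109037, [], [(3, 2, 1584)]⟩,
  ⟨1, 203260, [], [(12, 11, 8)]⟩,
  ⟨1, 139432, [], [(49, 6, 492)]⟩,
  ⟨1, 103664, [], [(8, 7, 693)]⟩,
  ⟨5991, 141549, [], []⟩,
  ⟨1, 94127, [], [(5, 4, 317)]⟩,
  ⟨1, 139268, [], [(32, 0, 552)]⟩,
  ⟨1, 128580, [], [(28, 1, 100)]⟩,
  ⟨60, 131762, [], []⟩,
  ⟨197, 162663, [], []⟩,
  ⟨263, 136335, [], []⟩]⟩


def L182 : Leaf :=
  ⟨[(501, 90), (-820, 546), (445, -765), (-521, 660), (670, -1076), (-203, 1670), (-815, -1220),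
    (857, -80), (96, 510), (-720, 116), (188, -627), (195, 53), (130, 129)],
  [(-128, 296), (-316, 103), (-386, 66), (-256, -17), (-356, 201), (-612, 139), (-1073, -137),
    (-893, -685), (-466, -1128), (269, -969), (460, -539), (456, 14)],
  [(-143, 125), (50, 525), (1116, 1088), (-130, -486), (54, 2438), (1717, -1355), (-1029, -865),
    (992, -1017), (973, 40), (3289, -573), (864, -542), (901, 238), (-211, 236)],
  [⟨1, 535897, [], [(57, 56, 765)]⟩,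
  ⟨1, 116537, [], [(3, 2, 1417)]⟩,
  ⟨1, 185334, [], [(12, 11, 6)]⟩,
  ⟨1, 134332, [], [(49, 6, 538)]⟩,
  ⟨1, 104895, [], [(8, 7, 523)]⟩,
  ⟨5556, 140820, [], []⟩,
  ⟨1, 95711, [], [(5, 4, 391)]⟩,
  ⟨1, 130812, [], [(33, 0, 142), (31, 0, 503)]⟩,
  ⟨1, 155732, [], [(28, 1, 112)]⟩,
  ⟨66, 131457, [], []⟩,
  ⟨227, 187321, [], []⟩,
  ⟨525, 138927, [], []⟩]⟩


def L183 : Leaf :=
  ⟨[(59, 295), (-202, -270), (110, 622), (-655, -835), (786, 447), (-531, -400), (436, 667),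
    (-949, -784), (1240, -54), (-563, 786), (-421, -761), (796, -114), (-103, 409)],
  [(-158, 637), (-891, 262), (-1113, 170), (-1208, -812), (-688, -891), (-83, -1078), (-98, -474),
    (0, -493), (-389, -508), (120, -626), (-57, -578), (458, -288)],
  [(1212, 696), (-87, -482), (-653, 1982), (75, 750), (896, 511), (821, -2232), (-54, 537), (3041,
    -59), (667, 418), (1759, 1033), (416, -122), (86, -55), (80, 58)],
  [⟨1, 518147, [], [(56, 55, 707)]⟩,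
  ⟨1, 127075, [], [(2, 1, 909)]⟩,
  ⟨1, 257816, [], [(11, 10, 3)]⟩,
  ⟨1, 146623, [], [(48, 5, 445)]⟩,
  ⟨1, 134171, [], [(7, 6, 480)]⟩,
  ⟨14682, 143637, [], []⟩,
  ⟨1, 120699, [], [(4, 3, 304)]⟩,
  ⟨61, 141034, [], []⟩,
  ⟨1, 128108, [], [(28, 0, 31), (26, 0, 253)]⟩,
  ⟨5437, 143948, [], []⟩,
  ⟨839, 169029, [], []⟩,
  ⟨1058, 142682, [], []⟩]⟩


def L184 : Leaf :=
  ⟨[(227, 17), (-520, -186), (1086, 115), (-1211, 93), (1408, -95), (-1295, 448), (988, -361),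
    (-788, 424), (223, -252), (-108, 26), (-154, 2), (80, -200), (67, -33)],
  [(-66, 80), (46, -83), (-124, 383), (-411, -184), (-42, -145), (-227, -68), (-46, -657), (942,
    79), (-141, 1084), (-1210, 10), (-26, -994), (363, 24)],
  [(-4, -21), (152, 430), (-41, 1495), (816, -375), (26, 894), (2322, -798), (698, -116), (3125,
    -157), (680, -510), (2098, 776), (-268, -615), (7, 201), (15, -67)],
  [⟨3651, 545395, [], [(55, 54, 658)]⟩,
  ⟨1, 116968, [(0, 377)], [(51, 0, 1823)]⟩,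
  ⟨1, 203355, [], [(10, 9, 837)]⟩,
  ⟨1, 128933, [], [(47, 4, 617)]⟩,
  ⟨1, 141171, [], [(6, 5, 403)]⟩,
  ⟨2419, 187893, [], []⟩,
  ⟨1, 130919, [], [(3, 2, 297)]⟩,
  ⟨2261, 188764, [], []⟩,
  ⟨66, 222435, [], []⟩,
  ⟨48, 189141, [], []⟩,
  ⟨230, 198581, [], []⟩,
  ⟨34, 185774, [], []⟩]⟩


def L185 : Leaf :=
  ⟨[(332, -29), (-127, 1003), (-1498, -451), (602, -1915), (1707, 1327), (-1526, 38), (1173, -7),
    (-974, 145), (778, 86), (-916, 62), (334, -336), (16, -1), (99, 76)],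
  [(37, 271), (-411, 237), (-319, 126), (-472, 11), (-511, -94), (-520, -350), (-397, -486),
    (-141, -500), (-33, -471), (96, -329), (198, -431), (273, 12)],
  [(-61, 12), (-143, 151), (-128, 1007), (-20, 664), (454, 848), (-74, -1375), (-462, 1071),
    (2332, -265), (717, 598), (1509, 775), (168, 1121), (609, 537), (-231, -19)],
  [⟨1, 527980, [(0, 1040)], [(56, 0, 682)]⟩,
  ⟨1, 155039, [], [(52, 1, 1605)]⟩,
  ⟨88, 242174, [], []⟩,
  ⟨1, 163996, [], [(49, 6, 282)]⟩,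
  ⟨1, 150246, [], [(8, 7, 251)]⟩,
  ⟨8948, 142633, [], []⟩,
  ⟨1, 140517, [], [(37, 4, 223)]⟩,
  ⟨10921, 141043, [], []⟩,
  ⟨1, 147996, [], [(28, 2, 65)]⟩,
  ⟨91, 126441, [], []⟩,
  ⟨67, 142018, [], []⟩,
  ⟨196, 131584, [], []⟩]⟩


def L186 : Leaf :=
  ⟨[(402, -122), (-57, 888), (-1043, -259), (480, -1106), (719, 1082), (-1217, -454), (1104, -46),
    (-576, -59), (790, 485), (-1204, 146), (326, -648), (113, -6), (165, 103)],
  [(65, 341), (-355, 425), (-621, 346), (-784, -93), (-609, -259), (-458, -408), (-538, -294),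
    (-448, -486), (-352, -707), (117, -701), (281, -477), (343, -53)],
  [(81, 43), (-235, -149), (386, 570), (-841, 329), (116, 1789), (-691, -834), (-897, 1913),
    (1917, -613), (466, -580), (436, 298), (522, 1912), (1526, 1082), (454, 395)],
  [⟨1, 531696, [], [(57, 0, 571)]⟩,
  ⟨1, 153027, [], [(52, 1, 1352)]⟩,
  ⟨138, 234994, [], []⟩,
  ⟨1, 154530, [], [(49, 6, 332)]⟩,
  ⟨1, 156782, [], [(8, 7, 329)]⟩,
  ⟨14865, 135999, [], []⟩,
  ⟨1, 144492, [], [(37, 4, 319)]⟩,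
  ⟨15343, 135874, [], []⟩,
  ⟨1, 150700, [], [(28, 2, 96)]⟩,
  ⟨70, 133214, [], []⟩,
  ⟨67, 159734, [], []⟩,
  ⟨468, 135135, [], []⟩]⟩


def L187 : Leaf :=
  ⟨[(1, -145), (-22, -234), (602, -18), (-174, 572), (-339, -363), (721, -134), (-128, 902),
    (-285, -497), (-203, 679), (-164, -996), (559, 955), (-1049, -396), (482, -329)],
  [(-79, 132), (6, 442), (-815, 648), (-1087, 44), (-1192, -546), (-497, -941), (-429, -745),
    (-340, -645), (-196, -1063), (407, -799), (536, -541), (488, 90)],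
  [(-279, 191), (37, 981), (2017, 1839), (955, -444), (-789, 2401), (612, 1032), (-969, 1493),
    (767, -360), (-443, 32), (1348, -230), (330, -292), (667, 83), (-143, 182)],
  [⟨1, 526249, [], [(58, 57, 591)]⟩,
  ⟨1, 132166, [], [(2, 1, 1253)]⟩,
  ⟨1, 211870, [], [(13, 12, 8)]⟩,
  ⟨1, 128608, [], [(7, 0, 447)]⟩,
  ⟨1, 126753, [], [(9, 8, 665)]⟩,
  ⟨8542, 138197, [], []⟩,
  ⟨1, 127244, [], [(38, 5, 312)]⟩,
  ⟨16277, 138892, [], []⟩,
  ⟨1, 138090, [], [(29, 3, 106)]⟩,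
  ⟨74, 132742, [], []⟩,
  ⟨77, 156424, [], []⟩,
  ⟨622, 137344, [], []⟩]⟩


def L188 : Leaf :=
  ⟨[(-19, -119), (30, -168), (545, 147), (-326, 484), (-341, -312), (446, -300), (-47, 703), (-75,
    -472), (-418, 501), (613, -999), (-45, 1524), (-903, -986), (549, -7)],
  [(195, 128), (132, 582), (-474, 835), (-1036, 351), (-989, -295), (-494, -599), (-256, -322),
    (-332, -182), (-471, -439), (-131, -672), (258, -520), (284, -30)],
  [(-5, 226), (311, 454), (950, 1250), (610, 337), (-677, 2925), (1693, 945), (-1421, -130), (126,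
    83), (-189, 279), (1950, 433), (611, -363), (449, 199), (-193, 36)],
  [⟨1, 537081, [], [(58, 57, 565)]⟩,
  ⟨1, 138441, [], [(2, 1, 1244)]⟩,
  ⟨99, 239250, [], []⟩,
  ⟨1, 172813, [], [(50, 0, 886)]⟩,
  ⟨1, 151393, [], [(9, 8, 359)]⟩,
  ⟨13191, 141542, [], []⟩,
  ⟨1, 143578, [], [(38, 5, 309)]⟩,
  ⟨14695, 140925, [], []⟩,
  ⟨1, 149368, [], [(29, 3, 90)]⟩,
  ⟨89, 138947, [], []⟩,
  ⟨60, 169564, [], []⟩,
  ⟨371, 140381, [], []⟩]⟩


def L189 : Leaf :=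
  ⟨[(255, -102), (-385, 509), (311, -802), (-241, 1049), (20, -1192), (109, 1077), (-118, -888),
    (162, 553), (-41, -199), (-113, 50), (217, 68), (-336, -12), (166, -112)],
  [(-671, 397), (-1006, -1279), (748, -1193), (558, -46), (-230, -308), (456, -815), (271, -390),
    (557, -713), (1255, -222), (500, 921), (-268, -38), (259, 53)],
  [(3, -38), (7, 6), (-10, 27), (1231, 390), (925, 1074), (1837, 1094), (86, 516), (1623, 1254),
    (72, -309), (956, 1202), (278, -1008), (386, -18), (819, -1250)],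
  [⟨4088, 563049, [], [(57, 56, 542)]⟩,
  ⟨1, 126982, [(0, 294)], [(53, 0, 1298)]⟩,
  ⟨1, 209615, [], [(12, 11, 601)]⟩,
  ⟨1, 141119, [], [(49, 6, 587)]⟩,
  ⟨1, 151230, [], [(8, 7, 258)]⟩,
  ⟨7720, 187422, [], []⟩,
  ⟨1, 148163, [], [(37, 4, 334)]⟩,
  ⟨11852, 186956, [], []⟩,
  ⟨1, 149717, [], [(28, 2, 125)]⟩,
  ⟨49, 180475, [], []⟩,
  ⟨42, 174400, [], []⟩,
  ⟨350, 180861, [], []⟩]⟩


def L190 : Leaf :=
  ⟨[(-398, -254), (1145, -218), (-869, 916), (443, -578), (-766, 295), (964, -768), (-346, 1223),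
    (-690, -780), (934, -477), (48, 1022), (-476, -205), (-34, -131), (46, -46)],
  [(74, -11), (-222, 405), (-554, 178), (-788, -221), (-518, -518), (-238, -702), (-106, -570),
    (-67, -590), (16, -549), (376, -583), (420, -275), (414, 112)],
  [(-113, 241), (1345, 508), (1458, 1701), (1187, 280), (-1048, 147), (-98, 441), (-341, 376),
    (2710, -1074), (-386, -1403), (988, 1007), (1246, -1401), (268, 133), (-16, 48)],
  [⟨1, 525113, [], [(57, 56, 667)]⟩,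
  ⟨1, 140410, [], [(52, 1, 1413)]⟩,
  ⟨100, 226002, [], []⟩,
  ⟨1, 158073, [], [(49, 6, 359)]⟩,
  ⟨1, 139024, [], [(8, 7, 579)]⟩,
  ⟨15681, 137008, [], []⟩,
  ⟨1, 133422, [], [(37, 4, 338)]⟩,
  ⟨1, 163387, [], [(32, 0, 616)]⟩,
  ⟨1, 125005, [], [(3, 2, 241)]⟩,
  ⟨103, 130303, [], []⟩,
  ⟨132, 145567, [], []⟩,
  ⟨160, 131732, [], []⟩]⟩


def L191 : Leaf :=
  ⟨[(-166, -411), (878, 228), (-827, 482), (454, -372), (-802, 271), (1010, -939), (-186, 1411),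
    (-824, -782), (657, -407), (447, 576), (-550, 312), (-93, -279), (1, -93)],
  [(-123, 361), (-514, 352), (-803, 173), (-813, -301), (-603, -476), (-401, -556), (-460, -413),
    (-413, -499), (-352, -694), (49, -767), (279, -580), (369, -159)],
  [(363, -100), (2070, 1085), (1309, 393), (455, 444), (-812, -71), (399, 779), (493, -1003),
    (1292, -494), (-664, -1442), (876, 874), (1760, -2177), (-540, 13), (171, 52)],
  [⟨1, 552882, [], [(57, 56, 593)]⟩,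
  ⟨1, 139268, [], [(52, 1, 1261)]⟩,
  ⟨142, 229170, [], []⟩,
  ⟨1, 164700, [], [(49, 6, 614)]⟩,
  ⟨1, 131152, [], [(8, 7, 427)]⟩,
  ⟨12662, 148486, [], []⟩,
  ⟨1, 128171, [], [(37, 4, 261)]⟩,
  ⟨1, 163600, [], [(33, 0, 812)]⟩,
  ⟨1, 119508, [], [(3, 2, 504)]⟩,
  ⟨49, 143993, [], []⟩,
  ⟨1819, 169857, [], []⟩,
  ⟨502, 147090, [], []⟩]⟩


def L192 : Leaf :=
  ⟨[(5, -267), (604, 277), (-377, 611), (-664, -152), (285, -374), (-566, 42), (702, -516), (-670,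
    132), (1343, -655), (-386, 1242), (-59, -332), (-253, 176), (35, -184)],
  [(-163, 220), (-99, -268), (34, 587), (-944, 167), (-637, -701), (126, -382), (-348, -202),
    (-15, -345), (-204, -69), (-583, -467), (450, -1019), (478, 218)],
  [(-84, -46), (412, -298), (886, 2225), (1489, 262), (-1316, 905), (862, 1043), (-218, -241),
    (1503, -229), (495, -558), (927, 479), (823, -522), (1331, 146), (145, -262)],
  [⟨1, 537190, [], [(57, 56, 361)]⟩,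
  ⟨1, 148178, [], [(53, 1, 1582)]⟩,
  ⟨1, 219102, [], [(11, 0, 231)]⟩,
  ⟨1, 172219, [], [(49, 6, 388)]⟩,
  ⟨1, 140258, [], [(8, 7, 361)]⟩,
  ⟨16849, 138452, [], []⟩,
  ⟨1, 136069, [], [(37, 4, 304)]⟩,
  ⟨15720, 138399, [], []⟩,
  ⟨1, 127736, [], [(3, 2, 259)]⟩,
  ⟨159, 132480, [], []⟩,
  ⟨247, 152347, [], []⟩,
  ⟨270, 135373, [], []⟩]⟩


def L193 : Leaf :=
  ⟨[(118, -34), (3, 150), (91, 215), (-619, 168), (-288, -507), (478, -647), (120, 618), (184,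
    -805), (335, 913), (89, -479), (-101, 1237), (-780, -747), (368, -79)],
  [(-191, 230), (-136, -259), (-98, 601), (-1019, 37), (-663, -741), (88, -443), (-401, -259),
    (-49, -384), (-301, -180), (-550, -574), (454, -1092), (526, 186)],
  [(-17, -15), (46, -4), (20, 29), (1781, 653), (800, 823), (578, 621), (-319, 543), (1463, 204),
    (-152, -1445), (1235, 561), (838, -1253), (205, 183), (1379, -1207)],
  [⟨169, 532692, [], [(57, 56, 320)]⟩,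
  ⟨1, 179207, [], [(53, 1, 1728)]⟩,
  ⟨1, 181646, [], [(12, 0, 533)]⟩,
  ⟨1, 148825, [], [(49, 6, 352)]⟩,
  ⟨1, 145533, [], [(8, 7, 292)]⟩,
  ⟨16541, 142288, [], []⟩,
  ⟨1, 142310, [], [(37, 4, 300)]⟩,
  ⟨14290, 141650, [], []⟩,
  ⟨1, 132521, [], [(3, 2, 236)]⟩,
  ⟨200, 138267, [], []⟩,
  ⟨709, 154717, [], []⟩,
  ⟨369, 139268, [], []⟩]⟩


def L194 : Leaf :=
  ⟨[(-322, -327), (900, 100), (-1096, 627), (339, -1045), (-37, 341), (421, -351), (-262, 259),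
    (313, -490), (648, 467), (-453, 660), (-132, -341), (-70, 359), (-254, -263)],
  [(-565, 610), (-893, -197), (-1097, -3), (-837, -1049), (-560, -613), (-158, -847), (-767,
    -394), (-427, -712), (-766, -1102), (311, -1052), (67, -912), (746, -367)],
  [(212, -109), (330, 200), (1001, 1558), (1598, 109), (-1452, 677), (198, 1252), (69, -411),
    (1169, -307), (488, -948), (778, 134), (349, -388), (873, 477), (810, -738)],
  [⟨1, 521954, [], [(55, 54, 501)]⟩,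
  ⟨1, 165262, [], [(50, 0, 681)]⟩,
  ⟨1042, 236897, [], []⟩,
  ⟨1, 164408, [], [(47, 4, 234)]⟩,
  ⟨1, 147118, [], [(6, 5, 233)]⟩,
  ⟨18525, 140511, [], []⟩,
  ⟨1, 139934, [], [(35, 2, 317)]⟩,
  ⟨104, 143578, [], []⟩,
  ⟨1, 133236, [], [(27, 1, 453), (25, 1, 210)]⟩,
  ⟨14764, 140527, [], []⟩,
  ⟨2776, 156736, [], []⟩,
  ⟨1944, 140204, [], []⟩]⟩


def L195 : Leaf :=
  ⟨[(-144, -10), (354, -117), (-158, 217), (-42, 65), (161, -99), (-620, 293), (639, -618), (-748,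
    609), (837, -931), (-564, 882), (589, -700), (-317, 653), (13, -242)],
  [(-278, 299), (-394, -116), (-352, 424), (-1174, -21), (-825, -746), (-369, -582), (-538, -726),
    (164, -453), (-589, 192), (-1174, -941), (410, -1587), (735, -40)],
  [(-203, -154), (400, -9), (738, 571), (1655, 428), (539, 1353), (1390, 966), (-145, 908), (1907,
    463), (65, -821), (1090, 458), (131, -876), (485, 365), (278, -766)],
  [⟨3841, 551820, [], [(55, 54, 564)]⟩,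
  ⟨1, 129370, [], [(51, 0, 1780)]⟩,
  ⟨1, 219985, [], [(10, 9, 578)]⟩,
  ⟨1, 141488, [], [(47, 4, 596)]⟩,
  ⟨1, 155191, [], [(6, 5, 287)]⟩,
  ⟨9596, 187159, [], []⟩,
  ⟨1, 149686, [], [(35, 2, 250)]⟩,
  ⟨4187, 186322, [], []⟩,
  ⟨1, 145244, [], [(27, 1, 184)]⟩,
  ⟨2066, 186972, [], []⟩,
  ⟨1982, 205918, [], []⟩,
  ⟨1132, 187141, [], []⟩]⟩


def L196 : Leaf :=
  ⟨[(275, -41), (33, 601), (-863, 23), (293, -926), (175, 932), (-319, -1178), (949, 1217),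
    (-1398, -411), (543, -268), (16, -264), (282, 192), (9, -28), (4, 152)],
  [(-48, 218), (-335, 89), (-429, -11), (-410, -340), (-410, -413), (-137, -681), (126, -673),
    (483, -416), (346, -200), (313, 21), (194, -16), (113, 137)],
  [(-215, -9), (-265, 89), (-510, 983), (-897, 1297), (436, 1731), (-313, -1239), (-710, 813),
    (1775, 253), (1089, 789), (1527, -215), (-999, 280), (213, 391), (-76, -237)],
  [⟨1, 555965, [], [(53, 52, 596)]⟩,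
  ⟨31047, 136866, [], []⟩,
  ⟨1, 224011, [], [(7, 1, 388)]⟩,
  ⟨19515, 136513, [], []⟩,
  ⟨1, 143119, [], [(4, 3, 394)]⟩,
  ⟨1, 129027, [], [(34, 2, 265)]⟩,
  ⟨1, 156925, [], [(32, 0, 83)]⟩,
  ⟨122, 132928, [], []⟩,
  ⟨235, 175247, [], []⟩,
  ⟨95, 132781, [], []⟩,
  ⟨472, 141992, [], []⟩,
  ⟨428, 135815, [], []⟩]⟩


def L197 : Leaf :=
  ⟨[(-175, -95), (486, 52), (-393, 293), (150, -306), (-35, 578), (-836, -688), (1226, -133),
    (-733, 309), (842, -96), (-653, 519), (-85, -278), (-17, -324), (223, 170)],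
  [(-56, -184), (-220, 242), (-660, -104), (-650, -468), (-348, -602), (-571, -706), (-303,
    -1033), (190, -1105), (259, -631), (306, -659), (478, -533), (602, -21)],
  [(2, -6), (503, 28), (626, 586), (638, 575), (535, 1608), (928, -712), (-717, -551), (940,
    -341), (850, -389), (1597, -721), (-851, -703), (230, 618), (103, -373)],
  [⟨1, 543350, [], [(53, 52, 445)]⟩,
  ⟨24371, 147277, [], []⟩,
  ⟨1, 223543, [], [(7, 1, 411)]⟩,
  ⟨24399, 147337, [], []⟩,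
  ⟨1, 149289, [], [(4, 3, 561)]⟩,
  ⟨1, 135403, [], [(34, 2, 41)]⟩,
  ⟨1, 143541, [], [(33, 0, 167), (31, 0, 5)]⟩,
  ⟨3387, 147093, [], []⟩,
  ⟨3283, 176482, [], []⟩,
  ⟨158, 145302, [], []⟩,
  ⟨1688, 165619, [], []⟩,
  ⟨76, 146087, [], []⟩]⟩


def L198 : Leaf :=
  ⟨[(-83, 176), (-85, -215), (-72, -158), (665, 18), (-917, 615), (636, -1025), (-252, 1067),
    (-171, -1093), (663, 582), (-487, 211), (33, -369), (190, 147), (-118, 45)],
  [(115, 385), (-473, 471), (-757, 89), (-788, -538), (-393, -527), (-206, -705), (94, -727),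
    (571, -585), (382, 61), (137, 206), (-143, -54), (148, -141)],
  [(-251, -77), (-262, 178), (966, 267), (2090, -1166), (163, -200), (1176, 419), (-481, 137),
    (641, -871), (-1260, -2335), (-271, 21), (150, -1022), (-65, 296), (-60, -222)],
  [⟨1, 558003, [], [(53, 52, 560)]⟩,
  ⟨36319, 137462, [], []⟩,
  ⟨1, 181548, [], [(8, 1, 552)]⟩,
  ⟨13783, 137761, [], []⟩,
  ⟨1, 141963, [], [(4, 3, 403)]⟩,
  ⟨1, 124377, [], [(34, 2, 288)]⟩,
  ⟨1, 155092, [], [(32, 0, 91)]⟩,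
  ⟨91, 134756, [], []⟩,
  ⟨186, 167135, [], []⟩,
  ⟨136, 131509, [], []⟩,
  ⟨328, 140091, [], []⟩,
  ⟨470, 138517, [], []⟩]⟩


def L199 : Leaf :=
  ⟨[(-239, -228), (688, 273), (-895, -18), (946, -162), (-870, 488), (271, -705), (301, 377),
    (-397, -20), (398, -73), (-328, 250), (5, -209), (49, -136), (71, 162)],
  [(-114, -201), (-153, 161), (-672, -66), (-692, -542), (-357, -743), (-457, -793), (-258,
    -1132), (358, -1250), (589, -631), (455, -376), (377, -391), (535, -23)],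
  [(194, 125), (-364, -206), (433, 760), (434, -787), (85, 1274), (1070, 931), (507, 1130), (665,
    -601), (-751, -252), (1528, -190), (1043, -903), (629, -511), (6, 2)],
  [⟨3, 549670, [], [(53, 52, 466)]⟩,
  ⟨28473, 146028, [], []⟩,
  ⟨1, 198418, [], [(8, 1, 139)]⟩,
  ⟨22506, 146007, [], []⟩,
  ⟨1, 152209, [], [(4, 3, 576)]⟩,
  ⟨1, 136683, [], [(34, 2, 64)]⟩,
  ⟨1, 146781, [], [(33, 0, 168)]⟩,
  ⟨3806, 145875, [], []⟩,
  ⟨3407, 173744, [], []⟩,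
  ⟨247, 144422, [], []⟩,
  ⟨1668, 162262, [], []⟩,
  ⟨75, 144681, [], []⟩]⟩


def L200 : Leaf :=
  ⟨[(-230, -43), (-156, -229), (471, -416), (375, 371), (-149, 249), (-521, -149), (756, 43),
    (-1011, 176), (1225, -1102), (-246, 1610), (-381, -648), (113, 453), (-246, -315)],
  [(-254, 240), (-347, 24), (-437, -37), (-459, -281), (-762, -368), (-495, -798), (-62, -937),
    (406, -743), (209, -496), (334, -284), (296, -182), (346, 48)],
  [(125, -298), (97, -21), (63, 1171), (1194, 1410), (296, 736), (472, -292), (-1190, -104),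
    (2000, 493), (981, -1893), (775, 34), (259, -704), (-59, 229), (2, -278)],
  [⟨1, 573458, [], [(53, 52, 583)]⟩,
  ⟨31827, 137915, [], []⟩,
  ⟨1, 216097, [], [(7, 0, 305)]⟩,
  ⟨17383, 137890, [], []⟩,
  ⟨1, 142435, [], [(4, 3, 337)]⟩,
  ⟨1, 115142, [], [(35, 2, 347)]⟩,
  ⟨1, 166705, [], [(32, 1, 111)]⟩,
  ⟨61, 134216, [], []⟩,
  ⟨690, 180273, [], []⟩,
  ⟨728, 137059, [], []⟩,
  ⟨616, 142329, [], []⟩,
  ⟨735, 137027, [], []⟩]⟩


def L201 : Leaf :=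
  ⟨[(-204, 92), (172, -56), (-336, 12), (181, -226), (-385, -269), (1155, 146), (-1102, 687),
    (596, -1122), (-186, 1026), (-355, -776), (703, 35), (80, 415), (-321, 36)],
  [(-194, 514), (-692, 178), (-780, -185), (-667, -700), (-544, -554), (-321, -805), (-4, -890),
    (480, -849), (349, -224), (245, -2), (-50, -81), (246, -223)],
  [(-180, -272), (16, -118), (1015, 502), (1761, -325), (835, 275), (291, -678), (-969, 752),
    (1435, -1101), (-924, -2031), (247, -668), (-422, -608), (130, 159), (-249, -141)],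
  [⟨1, 549195, [], [(53, 52, 568)]⟩,
  ⟨35366, 138217, [], []⟩,
  ⟨1, 185821, [], [(8, 0, 328)]⟩,
  ⟨13869, 138326, [], []⟩,
  ⟨1, 144107, [], [(4, 3, 332)]⟩,
  ⟨1, 118979, [], [(35, 2, 389)]⟩,
  ⟨1, 166691, [], [(32, 1, 113)]⟩,
  ⟨60, 136968, [], []⟩,
  ⟨917, 181324, [], []⟩,
  ⟨755, 138357, [], []⟩,
  ⟨534, 147559, [], []⟩,
  ⟨750, 138270, [], []⟩]⟩


def L202 : Leaf :=
  ⟨[(114, -17), (-122, 208), (-97, -285), (317, 9), (-164, 512), (-398, -769), (931, 557), (-1071,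
    -119), (856, -181), (-598, 247), (368, -247), (-161, 188), (29, -102)],
  [(-363, -82), (-123, -187), (-550, 147), (-799, -258), (-1024, -771), (-442, -1241), (-134,
    -1208), (229, -826), (57, -768), (247, -604), (356, -701), (538, -104)],
  [(32, -18), (58, 96), (-65, 163), (-6, -194), (672, 392), (963, -275), (613, 1413), (1698, 61),
    (-338, -215), (62, -392), (-571, -345), (1474, -912), (32, -1822)],
  [⟨1, 562878, [], [(52, 51, 528)]⟩,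
  ⟨29408, 147748, [], []⟩,
  ⟨1, 211056, [], [(7, 6, 155)]⟩,
  ⟨14873, 147756, [], []⟩,
  ⟨1, 142657, [], [(3, 2, 312)]⟩,
  ⟨1, 112830, [], [(34, 1, 258)]⟩,
  ⟨1, 141278, [], [(32, 0, 278)]⟩,
  ⟨7151, 147583, [], []⟩,
  ⟨1241, 182823, [], []⟩,
  ⟨2271, 148367, [], []⟩,
  ⟨1318, 162095, [], []⟩,
  ⟨543, 147675, [], []⟩]⟩


def L203 : Leaf :=
  ⟨[(-435, -522), (1227, 284), (-903, 293), (988, -139), (-1031, 606), (-182, -701), (493, -122),
    (112, 196), (253, -48), (-171, 413), (-408, 98), (-32, -286), (91, -72)],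
  [(212, 90), (-510, 311), (-680, -427), (-435, -480), (-377, -222), (-655, -840), (-69, -1341),
    (544, -954), (250, -377), (329, -535), (723, -516), (547, 156)],
  [(-35, 27), (-9, -84), (302, 144), (569, 408), (361, 878), (-433, 808), (529, 636), (763, -987),
    (1215, -243), (571, -643), (287, 1260), (1303, -864), (-615, -964)],
  [⟨1, 565582, [], [(52, 51, 450)]⟩,
  ⟨18128, 139433, [], []⟩,
  ⟨1, 236298, [], [(6, 1, 186)]⟩,
  ⟨22331, 139718, [], []⟩,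
  ⟨1, 162235, [], [(40, 2, 487)]⟩,
  ⟨10969, 138622, [], []⟩,
  ⟨1649, 153607, [], []⟩,
  ⟨4499, 139497, [], []⟩,
  ⟨1, 176722, [], [(23, 0, 161)]⟩,
  ⟨2044, 137612, [], []⟩,
  ⟨573, 146302, [], []⟩,
  ⟨413, 138256, [], []⟩]⟩


def L204 : Leaf :=
  ⟨[(-202, -358), (616, -156), (47, 402), (184, 53), (-98, 425), (-890, -165), (795, -820), (75,
    928), (75, -460), (-191, 819), (-515, -403), (63, -91), (41, -185)],
  [(-401, -8), (-477, 382), (-1254, -383), (-622, -1228), (-316, -1012), (-466, -713), (-181,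
    -1227), (625, -1257), (466, -409), (-65, -140), (-78, -681), (742, -363)],
  [(129, -36), (65, 17), (219, 701), (1434, 682), (-668, -231), (334, 395), (592, -592), (1392,
    54), (1175, -915), (-385, 94), (109, -34), (9, -552), (166, -1347)],
  [⟨142, 581026, [], [(52, 51, 374)]⟩,
  ⟨13770, 153860, [], []⟩,
  ⟨1, 222874, [], [(6, 1, 240)]⟩,
  ⟨23329, 154041, [], []⟩,
  ⟨1, 158863, [], [(40, 2, 530)]⟩,
  ⟨10084, 153942, [], []⟩,
  ⟨57, 165740, [], []⟩,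
  ⟨71, 153977, [], []⟩,
  ⟨1, 157675, [], [(24, 0, 437)]⟩,
  ⟨6574, 153875, [], []⟩,
  ⟨1472, 163123, [], []⟩,
  ⟨1248, 154290, [], []⟩]⟩


def L205 : Leaf :=
  ⟨[(82, 102), (-159, -55), (-28, -100), (340, 46), (-533, 186), (492, -451), (-208, 510), (-132,
    -320), (369, -71), (-334, 441), (106, -614), (152, 491), (-147, -165)],
  [(-185, 708), (-1176, 320), (-1088, -476), (-599, -596), (-900, -414), (-895, -1149), (82,
    -1449), (570, -533), (131, -54), (-119, -332), (195, -172), (-107, -80)],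
  [(-471, 178), (-212, 482), (1136, 330), (767, 58), (679, 1316), (242, 183), (0, 551), (1456,
    -947), (317, -664), (799, 171), (93, -91), (150, 73), (8, 23)],
  [⟨1925, 571147, [], [(51, 50, 363)]⟩,
  ⟨21449, 137374, [], []⟩,
  ⟨1, 209350, [], [(6, 0, 983)]⟩,
  ⟨14879, 137528, [], []⟩,
  ⟨1, 167749, [], [(39, 1, 602)]⟩,
  ⟨12730, 137328, [], []⟩,
  ⟨1402, 162524, [], []⟩,
  ⟨2052, 137601, [], []⟩,
  ⟨2311, 173512, [], []⟩,
  ⟨429, 137867, [], []⟩,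
  ⟨1049, 131735, [], []⟩,
  ⟨213, 138276, [], []⟩]⟩


def L206 : Leaf :=
  ⟨[(-10, 16), (-71, -19), (39, -20), (-86, -150), (355, 61), (-207, 181), (9, 34), (-207, -146),
    (212, -52), (-31, 57), (16, 2), (15, 22), (-35, 16)],
  [(-73, 21), (-93, -15), (-124, -67), (-84, -68), (-151, -127), (-56, -205), (0, -141), (-33,
    -184), (104, -159), (58, -54), (53, -84), (74, -21)],
  [(-155, -59), (-385, 273), (146, 385), (-158, 113), (372, -187), (-29, -633), (341, 143), (-57,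
    37), (-87, 79), (-41, -150), (103, -17), (-11, 55), (-7, -12)],
  [⟨1, 524773, [], [(48, 47, 21)]⟩,
  ⟨75, 139352, [], []⟩,
  ⟨79791, 183382, [(0, 1481)], [(4, 0, 23), (3, 2, 35)]⟩,
  ⟨1176, 145744, [], []⟩,
  ⟨73, 200698, [], []⟩,
  ⟨608, 140023, [], []⟩,
  ⟨301, 173476, [], []⟩,
  ⟨85, 140591, [], []⟩,
  ⟨198, 104572, [], []⟩,
  ⟨100, 140092, [], []⟩,
  ⟨90, 140781, [], []⟩,
  ⟨68, 141058, [], []⟩]⟩


def L207 : Leaf :=
  ⟨[(101, 6), (-145, 165), (-121, -246), (454, -136), (-270, 841), (-504, -1162), (1209, 744),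
    (-1249, -1), (734, -373), (-294, 236), (201, -29), (-203, 14), (84, -58)],
  [(-143, 151), (-158, -42), (-228, 294), (-736, 121), (-1046, -421), (-517, -1217), (318, -1129),
    (831, -417), (362, 201), (-55, 188), (-208, -221), (161, -150)],
  [(6, -17), (57, 77), (162, 110), (355, 417), (368, 619), (963, 1544), (2269, 632), (-717, 813),
    (1266, 1338), (881, -626), (-896, 443), (-35, -423), (129, 37)],
  [⟨1, 539371, [], [(47, 46, 650)]⟩,
  ⟨37350, 177087, [], []⟩,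
  ⟨1, 181115, [(0, 645)], [(3, 0, 1370), (2, 1, 246)]⟩,
  ⟨91, 173939, [], []⟩,
  ⟨1, 176035, [], [(35, 32, 94), (33, 32, 7)]⟩,
  ⟨45, 176381, [], []⟩,
  ⟨4, 164611, [], [(25, 24, 1)]⟩,
  ⟨1452, 175354, [], []⟩,
  ⟨68, 184196, [], []⟩,
  ⟨304, 176801, [], []⟩,
  ⟨146, 192103, [], []⟩,
  ⟨145, 176690, [], []⟩]⟩


def L208 : Leaf :=
  ⟨[(4, -3), (77, 0), (-22, -68), (41, -141), (257, 258), (-315, -780), (1855, 969), (-1633, 649),
    (749, 386), (-2013, 90), (352, -1153), (206, -297), (366, 150)],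
  [(49, -8), (-10, 62), (-40, -10), (9, -36), (32, 36), (-39, 18), (-21, -38), (47, -10), (-14,
    35), (-38, -16), (28, -56), (34, 35)],
  [(38, -16), (-110, 151), (130, -446), (-230, 890), (554, -274), (-393, -1012), (-1936, -292),
    (124, 1049), (490, -542), (-364, -1085), (-304, -618), (-20, -329), (18, -114)],
  [⟨1, 561790, [], [(46, 45, 630)]⟩,
  ⟨19976, 200523, [], []⟩,
  ⟨9856, 340556, [(0, 2114)], []⟩,
  ⟨14276, 200617, [], []⟩,
  ⟨122, 254507, [], []⟩,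
  ⟨2443, 200049, [], []⟩,
  ⟨1, 196715, [], [(24, 23, 2)]⟩,
  ⟨566, 199904, [], []⟩,
  ⟨149, 203608, [], []⟩,
  ⟨46, 200322, [], []⟩,
  ⟨136, 191962, [], []⟩,
  ⟨42, 200590, [], []⟩]⟩


def L209 : Leaf :=
  ⟨[(-38, 2), (-17, -45), (76, -51), (26, 109), (-105, 0), (15, -148), (210, 126), (-312, 80),
    (200, -253), (-12, 217), (1, -102), (4, 110), (-47, -45)],
  [(8, 88), (-94, 84), (-152, 66), (-200, -63), (-132, -120), (-44, -177), (6, -102), (50, -72),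
    (-4, -18), (5, -32), (-38, -42), (38, -54)],
  [(146, -337), (378, -417), (300, 28), (-80, 1052), (-1024, 1600), (-643, 698), (2128, -4),
    (4337, 574), (-941, 658), (1501, -372), (-61, -2277), (-63, 2010), (453, -1214)],
  [⟨100, 578801, [], [(45, 44, 30)]⟩,
  ⟨2015, 135331, [], []⟩,
  ⟨100, 176354, [], [(1, 0, 4543)]⟩,
  ⟨100, 140328, [], []⟩,
  ⟨100, 195538, [], []⟩,
  ⟨1754, 134499, [], []⟩,
  ⟨100, 156617, [], []⟩,
  ⟨116, 140205, [], []⟩,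
  ⟨1552, 198906, [], []⟩,
  ⟨100, 141109, [], []⟩,
  ⟨112, 132815, [], []⟩,
  ⟨3395, 141259, [], []⟩]⟩


def L210 : Leaf :=
  ⟨[(-32, -185), (143, 118), (-44, 127), (-21, -70), (-479, -179), (791, -17), (-18, 198), (-1166,
    339), (1183, -979), (-141, 606), (-493, 514), (218, -880), (49, 406)],
  [(-478, -94), (223, -85), (-986, 188), (-854, -363), (-1629, -1086), (-275, -2118), (128,
    -1737), (1447, -1229), (636, 77), (558, 54), (-480, 271), (95, -453)],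
  [(-111, -39), (-348, -703), (-369, 822), (821, 627), (-17, 1068), (1453, 750), (1045, -255),
    (1084, -541), (713, -359), (390, 24), (137, -84), (130, -123), (184, 25)],
  [⟨2273, 640654, [], [(48, 47, 763)]⟩,
  ⟨22258, 234014, [], []⟩,
  ⟨1, 222878, [(3, 843)], [(3, 2, 512)]⟩,
  ⟨10003, 233818, [], []⟩,
  ⟨6732, 300333, [], []⟩,
  ⟨587, 232897, [], []⟩,
  ⟨1, 241724, [], [(26, 25, 4)]⟩,
  ⟨1376, 234414, [], []⟩,
  ⟨129, 259351, [], []⟩,
  ⟨107, 236639, [], []⟩,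
  ⟨1, 246569, [], [(10, 9, 21)]⟩,
  ⟨117, 237843, [], []⟩]⟩


def L211 : Leaf :=
  ⟨[(-23, -90), (78, -64), (184, 97), (-21, 422), (-695, -576), (809, 216), (56, -197), (-826,
    883), (635, -1151), (-246, 357), (446, 582), (-788, -525), (401, 31)],
  [(40, -147), (-52, 120), (-55, 393), (-1730, 104), (-615, -1255), (-1379, -1031), (370, -2774),
    (1230, -377), (142, -1049), (1321, 205), (-675, -94), (504, -371)],
  [(-69, -256), (-695, 273), (428, 1326), (452, 1058), (-201, 1267), (1089, 155), (1386, -1072),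
    (748, 237), (402, 412), (-417, -218), (63, -120), (118, -56), (38, 32)],
  [⟨3641, 672339, [], [(48, 47, 564)]⟩,
  ⟨6959, 253999, [], []⟩,
  ⟨1, 191284, [(3, 771), (0, 999)], [(3, 2, 578)]⟩,
  ⟨17949, 254916, [], []⟩,
  ⟨2, 297822, [], [(34, 33, 2)]⟩,
  ⟨29, 252711, [], []⟩,
  ⟨1, 238129, [], [(27, 25, 177), (26, 25, 4)]⟩,
  ⟨44, 253159, [], []⟩,
  ⟨1067, 283542, [], []⟩,
  ⟨62, 253060, [], []⟩,
  ⟨27, 264690, [], [(10, 9, 3)]⟩,
  ⟨74, 253858, [], []⟩]⟩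


def L212 : Leaf :=
  ⟨[(-149, -44), (238, -24), (-15, -144), (109, 444), (-420, 35), (168, -962), (645, 1176), (-996,
    -177), (358, -838), (451, 814), (-472, -84), (-54, -186), (121, -9)],
  [(-337, -39), (-69, -89), (-360, -52), (-980, -110), (-1107, -830), (-637, -1831), (275, -1802),
    (1186, -977), (987, -144), (217, 314), (-206, 147), (27, -315)],
  [(88, -463), (-472, -79), (-3, 507), (583, 522), (26, 1828), (2056, 434), (452, -1178), (2475,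
    134), (147, -470), (-25, 146), (-38, -600), (631, -8), (-26, 40)],
  [⟨318, 627754, [], [(47, 46, 678)]⟩,
  ⟨24418, 252927, [], []⟩,
  ⟨1, 189473, [(0, 783)], [(2, 1, 927)]⟩,
  ⟨6993, 252787, [], []⟩,
  ⟨1691, 322160, [], []⟩,
  ⟨2543, 251349, [], []⟩,
  ⟨1, 261272, [], [(26, 24, 29), (25, 24, 10)]⟩,
  ⟨65, 241420, [], [(23, 22, 122)]⟩,
  ⟨33, 283233, [], []⟩,
  ⟨39, 248775, [], []⟩,
  ⟨1, 218848, [], [(9, 8, 31)]⟩,
  ⟨116, 246074, [], []⟩]⟩


def L213 : Leaf :=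
  ⟨[(-11, 396), (-566, -529), (518, 357), (594, 163), (-1824, 51), (1543, -129), (73, -226),
    (-921, 722), (805, -472), (-235, -164), (171, 37), (-38, 185), (31, -311)],
  [(-575, -147), (307, -86), (-1126, 5), (-896, -574), (-1665, -1342), (-10, -2415), (231, -1900),
    (1675, -1176), (687, 218), (583, 84), (-665, 384), (141, -444)],
  [(149, -65), (-355, -398), (-621, 189), (-348, 1517), (1559, 535), (620, -514), (847, -1093),
    (1043, -668), (1260, -1162), (625, 197), (584, 92), (89, 213), (-45, 36)],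
  [⟨5881, 588010, [], [(46, 45, 887)]⟩,
  ⟨10231, 349174, [], []⟩,
  ⟨14, 440805, [(0, 1828)], []⟩,
  ⟨3693, 345461, [], []⟩,
  ⟨1, 392568, [(31, 33)], [(33, 31, 275), (32, 31, 256)]⟩,
  ⟨10, 340664, [], []⟩,
  ⟨1, 291556, [], [(24, 23, 2)]⟩,
  ⟨723, 348982, [], []⟩,
  ⟨1, 315347, [], [(16, 15, 25)]⟩,
  ⟨15, 339700, [], []⟩,
  ⟨1, 351378, [], [(8, 7, 1)]⟩,
  ⟨33, 343209, [], []⟩]⟩


def L214 : Leaf :=
  ⟨[(-114, 94), (-24, -221), (210, -229), (146, 647), (-516, -281), (322, -581), (333, 961),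
    (-593, -471), (227, -188), (203, 377), (-124, -216), (-64, 233), (-14, -130)],
  [(-324, 82), (-60, 151), (-508, 145), (-1067, 38), (-1021, -647), (-523, -1412), (177, -1259),
    (742, -531), (556, -107), (-47, 23), (-99, -23), (147, -336)],
  [(174, -237), (-35, -185), (-897, 169), (-744, 1245), (-865, 2275), (-646, 335), (1649, 1510),
    (3200, 388), (-1806, 1526), (914, -562), (-306, -1018), (534, 969), (-40, -196)],
  [⟨558, 686508, [], [(45, 44, 386)]⟩,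
  ⟨16710, 196473, [], []⟩,
  ⟨1, 186609, [], [(1, 0, 1981)]⟩,
  ⟨4786, 196626, [], []⟩,
  ⟨1755, 282676, [], []⟩,
  ⟨1, 203672, [], [(27, 26, 439)]⟩,
  ⟨1, 188594, [], [(23, 22, 4)]⟩,
  ⟨941, 197081, [], []⟩,
  ⟨1, 235222, [], [(17, 16, 67)]⟩,
  ⟨59, 193757, [], []⟩,
  ⟨1, 200334, [], [(7, 6, 37)]⟩,
  ⟨394, 195703, [], []⟩]⟩


def L215 : Leaf :=
  ⟨[(5, 24), (-24, -18), (16, 6), (-17, -13), (19, 10), (-25, -12), (29, 3), (-28, 5), (20, -16),
    (-8, 15), (-3, -19), (22, -4), (-5, 20)],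
  [(-56, 41), (-27, -11), (-73, 20), (-63, -49), (-61, -54), (-14, -84), (-3, -79), (70, -51),
    (18, 15), (-9, 5), (-42, -55), (68, -46)],
  [(-202, -2878), (-9, -20), (-11, -27), (-5, -33), (9, -32), (21, -21), (28, -3), (24, 17), (13,
    30), (1, 33), (-7, 28), (-6, 20), (-201, -2862)],
  [⟨67, 538153, [], [(43, 42, 5)]⟩,
  ⟨142, 142417, [], []⟩,
  ⟨55, 211055, [], []⟩,
  ⟨77, 143916, [], []⟩,
  ⟨52, 174337, [], []⟩,
  ⟨58, 143906, [], []⟩,
  ⟨52, 158607, [], []⟩,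
  ⟨53, 143990, [], []⟩,
  ⟨56, 146517, [], []⟩,
  ⟨54, 144482, [], []⟩,
  ⟨75, 142855, [], []⟩,
  ⟨57450, 146152, [(0, 2513)], []⟩]⟩


def L216 : Leaf :=
  ⟨[(-9, 2), (10, -18), (3, 21), (-8, -19), (9, 16), (-13, -24), (29, 14), (-19, -1), (20, 1),
    (-8, 13), (-6, 6), (-13, -9), (7, -4)],
  [(0, 23), (-33, 19), (-37, 22), (-80, -7), (-52, -42), (-57, -64), (11, -90), (41, -35), (23,
    10), (-39, -7), (11, -61), (30, 1)],
  [(520, -2843), (18, -17), (26, -5), (25, 5), (19, 10), (13, 9), (12, 3), (15, -2), (21, -2),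
    (25, 4), (22, 14), (11, 21), (516, -2820)],
  [⟨58, 545256, [], [(42, 41, 5)]⟩,
  ⟨124, 143135, [], []⟩,
  ⟨54, 215026, [], []⟩,
  ⟨70, 144062, [], []⟩,
  ⟨52, 172902, [], []⟩,
  ⟨57, 143949, [], []⟩,
  ⟨52, 157405, [], []⟩,
  ⟨52, 144088, [], []⟩,
  ⟨53, 148542, [], []⟩,
  ⟨57, 144532, [], []⟩,
  ⟨61, 146074, [], []⟩,
  ⟨57494, 146158, [(0, 2515)], []⟩]⟩


def L217 : Leaf :=
  ⟨[(-5, 16), (-16, -19), (13, -3), (-6, -6), (10, 5), (-9, -12), (20, 12), (-25, -9), (34, -3),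
    (-23, 14), (23, -19), (0, 33), (-16, -10)],
  [(-11, 72), (-68, -7), (-35, 16), (-71, -7), (-90, -41), (-24, -112), (30, -57), (35, -15),
    (-18, -10), (8, -19), (-27, -40), (56, -26)],
  [(2883, 13), (6, 16), (-9, 24), (-23, 18), (-28, 9), (-27, 2), (-25, 0), (-27, -3), (-28, -9),
    (-22, -19), (-9, -23), (5, -17), (-2871, -13)],
  [⟨64, 547829, [], [(41, 40, 5)]⟩,
  ⟨136, 142489, [], []⟩,
  ⟨55, 212792, [], []⟩,
  ⟨76, 143957, [], []⟩,
  ⟨52, 174468, [], []⟩,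
  ⟨60, 143877, [], []⟩,
  ⟨51, 168755, [], []⟩,
  ⟨54, 143779, [], []⟩,
  ⟨53, 165161, [], []⟩,
  ⟨60, 144326, [], []⟩,
  ⟨80, 158158, [], []⟩,
  ⟨57455, 146165, [(0, 2513)], []⟩]⟩


def L218 : Leaf :=
  ⟨[(27, -6), (-5, 14), (-3, 6), (-1, -5), (-1, 16), (-11, -16), (11, 18), (-22, -13), (20, 11),
    (-31, -7), (25, -3), (-32, 7), (24, -24)],
  [(-62, 15), (-24, -8), (-75, 8), (-61, -49), (-56, -55), (-25, -79), (-7, -87), (65, -64), (31,
    13), (-7, 5), (-44, -35), (37, -65)],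
  [(2832, -615), (38, 6), (26, 16), (13, 15), (5, 10), (2, 3), (2, 0), (1, -4), (1, -10), (5,
    -19), (17, -23), (30, -21), (-2792, 607)],
  [⟨68, 536155, [], [(40, 39, 5)]⟩,
  ⟨137, 142812, [], []⟩,
  ⟨55, 211638, [], []⟩,
  ⟨76, 144182, [], []⟩,
  ⟨51, 173491, [], []⟩,
  ⟨59, 143915, [], []⟩,
  ⟨49, 169845, [], []⟩,
  ⟨53, 143700, [], []⟩,
  ⟨50, 165685, [], []⟩,
  ⟨58, 144420, [], []⟩,
  ⟨68, 162465, [], []⟩,
  ⟨57463, 146159, [(0, 2514)], []⟩]⟩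


def L219 : Leaf :=
  ⟨[(-1, -29), (21, 12), (-4, 3), (-1, -14), (29, 13), (-22, 10), (25, -2), (-24, 21), (18, -13),
    (-21, 30), (3, -27), (-15, 30), (-8, -33)],
  [(-28, -27), (15, 0), (-44, -12), (-18, -24), (-49, -35), (-38, -69), (-4, -117), (83, -79),
    (74, -14), (32, 27), (-9, -33), (50, -1)],
  [(2, 2), (1633, 593), (-8, 5), (-18, 7), (-26, -4), (-27, -15), (-20, -28), (-8, -33), (6, -31),
    (14, -21), (15, -11), (11, -5), (593, -1635)],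
  [⟨64, 550451, [], [(39, 38, 5)]⟩,
  ⟨162, 135457, [], []⟩,
  ⟨61, 206699, [], []⟩,
  ⟨85, 136368, [], []⟩,
  ⟨58, 167955, [], []⟩,
  ⟨65, 136779, [], []⟩,
  ⟨56, 159913, [], []⟩,
  ⟨60, 137001, [], []⟩,
  ⟨69, 159767, [], []⟩,
  ⟨71, 136414, [], []⟩,
  ⟨80975, 90077, [(0, 1204)], []⟩,
  ⟨67, 136551, [], []⟩]⟩


def L220 : Leaf :=
  ⟨[(-27, 29), (-21, -57), (31, 5), (-7, -7), (14, -3), (4, -7), (14, 15), (-14, -16), (43, 10),
    (-34, 15), (48, -24), (-22, 74), (-30, -32)],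
  [(-11, 99), (-123, -10), (-43, 10), (-99, -18), (-97, -60), (-31, -120), (21, -70), (32, -28),
    (-14, -21), (-5, -6), (-55, -95), (84, -37)],
  [(1672, -567), (56, -4), (45, 13), (24, 18), (7, 15), (-2, 5), (2, -3), (13, -3), (28, 8), (33,
    26), (33, 44), (-545, -1616), (-1, -1)],
  [⟨78, 543929, [], [(38, 37, 6)]⟩,
  ⟨202, 134744, [], []⟩,
  ⟨65, 204610, [], []⟩,
  ⟨102, 136072, [], []⟩,
  ⟨59, 170578, [], []⟩,
  ⟨74, 136320, [], []⟩,
  ⟨56, 160034, [], []⟩,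
  ⟨81, 136691, [], []⟩,
  ⟨66, 154768, [], []⟩,
  ⟨122, 135763, [], []⟩,
  ⟨80760, 90060, [(0, 1202)], []⟩,
  ⟨100, 136026, [], []⟩]⟩


def L221 : Leaf :=
  ⟨[(38, 52), (-107, -15), (27, -48), (19, -5), (-6, 10), (-1, -34), (34, 7), (-3, 0), (21, 13),
    (-17, -10), (80, 9), (-88, 92), (-1, -70)],
  [(84, 61), (-107, 100), (-74, 7), (-96, -32), (-24, -62), (-33, -28), (-22, -69), (22, -47),
    (21, -17), (-32, -5), (34, -121), (73, 56)],
  [(1, -1), (-2628, -2312), (3, -35), (31, -30), (43, -11), (38, 2), (28, 3), (27, -5), (36, -6),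
    (43, 6), (34, 25), (11, 36), (2293, -2603)],
  [⟨54, 567600, [], [(37, 36, 6)]⟩,
  ⟨182, 139611, [], []⟩,
  ⟨61, 201245, [], []⟩,
  ⟨86, 142357, [], []⟩,
  ⟨53, 172306, [], []⟩,
  ⟨69, 142328, [], []⟩,
  ⟨53, 153850, [], []⟩,
  ⟨76, 142699, [], []⟩,
  ⟨58, 142829, [], []⟩,
  ⟨171, 139974, [], []⟩,
  ⟨50597, 193273, [(0, 2395)], []⟩,
  ⟨98, 142007, [], []⟩]⟩


def L222 : Leaf :=
  ⟨[(-208, 84), (53, -262), (87, -19), (42, 58), (-4, -26), (37, -6), (44, 7), (-10, 24), (60,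
    -20), (-13, 51), (107, -87), (-2, 361), (-197, -167)],
  [(-132, 261), (-237, -131), (-183, -42), (-91, -160), (-112, -80), (-35, -167), (-53, -94), (40,
    -122), (-54, -24), (-7, -97), (-168, -144), (214, -155)],
  [(14, -19), (-3057, -1645), (-10, -68), (58, -55), (112, -11), (127, 13), (115, -2), (98, -51),
    (95, -73), (96, -47), (75, 13), (41, 79), (1607, -2995)],
  [⟨32, 548440, [], [(36, 35, 18)]⟩,
  ⟨547, 134384, [], []⟩,
  ⟨132, 178202, [], []⟩,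
  ⟨158, 141097, [], []⟩,
  ⟨64, 180631, [], []⟩,
  ⟨76, 140943, [], []⟩,
  ⟨102, 144567, [], []⟩,
  ⟨72, 141140, [], []⟩,
  ⟨59, 152417, [], []⟩,
  ⟨669, 133008, [], []⟩,
  ⟨49222, 193265, [(0, 2350)], []⟩,
  ⟨679, 132777, [], []⟩]⟩


def L223 : Leaf :=
  ⟨[(-22, -34), (56, 22), (-33, 6), (1, -11), (26, 9), (-28, 14), (15, -17), (-8, 10), (22, -3),
    (-35, 25), (41, -50), (-25, 75), (-11, -45)],
  [(21, 42), (-31, 67), (-101, 46), (-94, -45), (-28, -52), (-37, -29), (-22, -65), (19, -33),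
    (-12, -13), (-10, -46), (10, -40), (35, -13)],
  [(38, -30), (-382, -2878), (55, -32), (24, -31), (18, -10), (8, 0), (1, 0), (7, -1), (20, 6),
    (28, 25), (63, 16), (-375, -2821), (43, 18)],
  [⟨59, 548139, [], [(35, 34, 6)]⟩,
  ⟨172, 141722, [], []⟩,
  ⟨56, 208538, [], []⟩,
  ⟨80, 143566, [], []⟩,
  ⟨53, 168601, [], []⟩,
  ⟨61, 143654, [], []⟩,
  ⟨60, 150268, [], []⟩,
  ⟨55, 144003, [], []⟩,
  ⟨108, 147204, [], []⟩,
  ⟨57362, 146168, [(0, 2512)], []⟩,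
  ⟨90, 158265, [], []⟩,
  ⟨55, 143946, [], []⟩]⟩


def L224 : Leaf :=
  ⟨[(28, 41), (-101, -25), (58, -37), (-2, 12), (-3, -1), (-2, -11), (12, -3), (2, -1), (13, 5),
    (-25, 4), (60, -53), (-7, 112), (-33, -41)],
  [(-24, 95), (-168, 33), (-92, -78), (-77, -43), (-66, -66), (-39, -70), (-23, -61), (-16, -51),
    (-6, -38), (-66, 1), (-62, -124), (65, -66)],
  [(55, -64), (-316, -2882), (80, -8), (24, -34), (18, -11), (4, 0), (-3, 1), (3, -1), (18, 9),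
    (29, 29), (74, -10), (-321, -2817), (60, 48)],
  [⟨66, 552404, [], [(34, 33, 6)]⟩,
  ⟨211, 140544, [], []⟩,
  ⟨61, 199743, [], []⟩,
  ⟨93, 143454, [], []⟩,
  ⟨53, 172648, [], []⟩,
  ⟨72, 143944, [], []⟩,
  ⟨55, 145716, [], []⟩,
  ⟨72, 143990, [], []⟩,
  ⟨136, 149860, [], []⟩,
  ⟨57118, 146177, [(0, 2504)], []⟩,
  ⟨248, 151276, [], []⟩,
  ⟨85, 143740, [], []⟩]⟩


def L225 : Leaf :=
  ⟨[(-31, 11), (22, -47), (4, 29), (-9, -14), (23, -10), (-6, 23), (2, -16), (-1, 7), (23, -9),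
    (-20, 34), (27, -35), (-20, 63), (-16, -35)],
  [(29, 6), (4, 73), (-68, 46), (-70, -1), (-57, -26), (-50, -47), (1, -61), (10, -17), (-11,
    -12), (-16, -44), (38, -34), (18, 12)],
  [(12, 48), (-2794, -667), (-34, 50), (-11, 16), (-22, 14), (-31, 4), (-32, -6), (-27, -16),
    (-15, -22), (-4, -20), (-7, -58), (2799, 670), (33, -38)],
  [⟨53, 556361, [], [(33, 32, 5)]⟩,
  ⟨145, 142432, [], []⟩,
  ⟨54, 213126, [], []⟩,
  ⟨73, 144049, [], []⟩,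
  ⟨52, 180915, [], []⟩,
  ⟨56, 143949, [], []⟩,
  ⟨57, 174701, [], []⟩,
  ⟨61, 144294, [], []⟩,
  ⟨112, 159239, [], []⟩,
  ⟨57421, 146154, [(0, 2513)], []⟩,
  ⟨72, 148878, [], []⟩,
  ⟨55, 144074, [], []⟩]⟩


def L226 : Leaf :=
  ⟨[(71, 3), (-112, 55), (43, -82), (16, 7), (10, 25), (-10, 4), (2, 15), (-30, -8), (8, -9),
    (-29, -13), (109, -27), (-94, 102), (18, -74)],
  [(-67, 91), (-114, -9), (-91, -54), (-42, -16), (-61, -24), (-52, -25), (-71, -18), (-78, -46),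
    (-61, -48), (-93, -99), (-36, -132), (84, -90)],
  [(-5, -50), (-2167, -1810), (68, 76), (-12, 67), (-10, 49), (11, 32), (29, 22), (37, 2), (50,
    -20), (69, -21), (82, 64), (2220, 1868), (-52, -1)],
  [⟨76, 532004, [], [(32, 31, 8)]⟩,
  ⟨269, 139187, [], []⟩,
  ⟨77, 206511, [], []⟩,
  ⟨109, 142314, [], []⟩,
  ⟨54, 179369, [], []⟩,
  ⟨70, 143389, [], []⟩,
  ⟨83, 175028, [], []⟩,
  ⟨58, 143641, [], []⟩,
  ⟨328, 162205, [], []⟩,
  ⟨56925, 146118, [(0, 2499)], []⟩,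
  ⟨199, 138243, [], []⟩,
  ⟨57, 143649, [], []⟩]⟩


def L227 : Leaf :=
  ⟨[(18, -25), (4, 36), (-8, -17), (6, 4), (9, 16), (-22, -13), (25, 10), (-27, -2), (33, 0),
    (-48, 14), (45, -25), (-39, 38), (7, -36)],
  [(-26, 62), (-75, 11), (-79, 6), (-74, -35), (-82, -47), (-47, -85), (-4, -76), (28, -43), (-11,
    15), (-37, -24), (-43, -53), (33, -55)],
  [(-6, 4), (57, -94), (238, 1318), (83, 111), (-19, 30), (-20, 15), (-12, 8), (-2, 10), (-2, 21),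
    (-9, 37), (-124, -31), (1274, -232), (68, -91)],
  [⟨59, 550357, [], [(31, 30, 6)]⟩,
  ⟨187, 138257, [], []⟩,
  ⟨57, 209522, [], []⟩,
  ⟨87, 139356, [], []⟩,
  ⟨55, 172145, [], []⟩,
  ⟨65, 139683, [], []⟩,
  ⟨63, 171595, [], []⟩,
  ⟨62, 139399, [], []⟩,
  ⟨84318, 83547, [(0, 1114)], []⟩,
  ⟨117, 139005, [], []⟩,
  ⟨67, 157255, [], []⟩,
  ⟨58, 139315, [], []⟩]⟩


def L228 : Leaf :=
  ⟨[(-26, 30), (-24, -63), (38, 17), (-17, -22), (26, 8), (-10, -3), (21, -3), (-8, 7), (22, -13),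
    (-12, 24), (33, -21), (-15, 64), (-29, -26)],
  [(19, 63), (-86, 61), (-74, 28), (-129, -7), (-87, -64), (-65, -76), (-18, -106), (53, -29),
    (-56, 6), (-42, -74), (13, -88), (53, -16)],
  [(-2, 0), (2, -1), (3, 1), (1168, 695), (34, 48), (6, 54), (-8, 37), (-5, 22), (9, 15), (22,
    30), (16, 44), (0, 60), (671, -1109)],
  [⟨78, 547071, [], [(30, 29, 6)]⟩,
  ⟨224, 140624, [], []⟩,
  ⟨58, 219163, [], []⟩,
  ⟨111, 139703, [], []⟩,
  ⟨55, 177678, [], []⟩,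
  ⟨98, 139802, [], []⟩,
  ⟨59, 164334, [], []⟩,
  ⟨149, 139836, [], []⟩,
  ⟨84106, 83570, [(0, 1112)], []⟩,
  ⟨92, 139735, [], []⟩,
  ⟨72, 150799, [], []⟩,
  ⟨60, 139580, [], []⟩]⟩


def L229 : Leaf :=
  ⟨[(43, 0), (-88, 54), (35, -85), (9, 17), (14, 17), (-17, -5), (21, 2), (-15, 14), (12, -9),
    (-51, 56), (10, -128), (44, 82), (-19, -17)],
  [(-4, 61), (-79, -35), (-32, -30), (10, -70), (15, -28), (20, -40), (41, -20), (28, -15), (70,
    -8), (29, 33), (34, 79), (-61, 3)],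
  [(9, 8), (75, -196), (-3552, -303), (-50, -234), (19, -43), (36, -34), (39, -25), (38, -24),
    (43, -21), (39, 4), (229, 93), (303, -3527), (202, -40)],
  [⟨38, 574465, [], [(29, 28, 7)]⟩,
  ⟨200, 141453, [], []⟩,
  ⟨58, 203255, [], []⟩,
  ⟨83, 144447, [], []⟩,
  ⟨53, 171034, [], []⟩,
  ⟨84, 144620, [], []⟩,
  ⟨58, 147108, [], []⟩,
  ⟨220, 140782, [], []⟩,
  ⟨48216, 205746, [(0, 2511)], []⟩,
  ⟨146, 143243, [], []⟩,
  ⟨56, 141610, [], []⟩,
  ⟨57, 144969, [], []⟩]⟩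


def L230 : Leaf :=
  ⟨[(-490, 571), (90, -1643), (590, 755), (86, -79), (36, 179), (30, -9), (72, 190), (21, -22),
    (41, 235), (-104, 800), (-1080, -1088), (735, 145), (-35, -48)],
  [(-235, 596), (-887, 210), (-660, -303), (-396, -406), (-457, -206), (-344, -344), (-407, -267),
    (-294, -406), (-478, -306), (-430, -585), (27, -911), (536, -351)],
  [(-395, 246), (236, -1496), (-967, -256), (813, 32), (939, -30), (472, 82), (167, 156), (421,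
    224), (841, 348), (306, -97), (1359, 267), (-256, -1499), (-402, -240)],
  [⟨1, 516798, [], [(28, 27, 365)]⟩,
  ⟨10730, 153008, [], []⟩,
  ⟨1248, 230976, [], []⟩,
  ⟨631, 153486, [], []⟩,
  ⟨123, 185541, [], [(15, 14, 63)]⟩,
  ⟨60, 154061, [], []⟩,
  ⟨54, 186994, [], []⟩,
  ⟨15800, 152954, [], []⟩,
  ⟨12362, 208480, [(0, 1338)], []⟩,
  ⟨15792, 152963, [], []⟩,
  ⟨67, 169707, [], []⟩,
  ⟨1464, 153717, [], []⟩]⟩


def L231 : Leaf :=
  ⟨[(-13, -2), (25, 0), (-38, 7), (22, -23), (7, 2), (-3, 18), (2, -15), (-9, 15), (21, -37), (-4,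
    71), (-29, -70), (44, 39), (-24, -4)],
  [(-21, 43), (-50, -20), (-32, -2), (-21, -16), (-72, -5), (-45, -73), (-20, -77), (45, -90),
    (54, -30), (63, 20), (-28, 7), (26, -15)],
  [(-79, 272), (882, -2725), (112, -297), (38, -50), (31, -12), (29, 5), (22, 20), (12, 32), (-77,
    312), (873, -2685), (93, -261), (11, -26), (1, -2)],
  [⟨57, 548223, [], [(27, 26, 6)]⟩,
  ⟨176, 141899, [], []⟩,
  ⟨55, 208065, [], []⟩,
  ⟨82, 143789, [], []⟩,
  ⟨60, 162586, [], []⟩,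
  ⟨57, 144261, [], []⟩,
  ⟨105, 153327, [], []⟩,
  ⟨57381, 146142, [(0, 2512)], []⟩,
  ⟨82, 163875, [], []⟩,
  ⟨59, 144196, [], []⟩,
  ⟨51, 161738, [], []⟩,
  ⟨49, 143686, [], []⟩]⟩


def L232 : Leaf :=
  ⟨[(15, 19), (-136, -81), (267, -61), (-93, 169), (0, -25), (-27, 4), (9, 3), (-35, 21), (3,
    -37), (-90, 68), (67, -242), (99, 202), (-78, -40)],
  [(-93, 20), (-92, 150), (-325, -60), (-256, -105), (-81, -304), (-52, -39), (-222, -175), (-24,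
    -203), (-184, -47), (-73, -348), (17, -247), (224, -120)],
  [(-6, -16), (64, -95), (526, -130), (2559, 1079), (-87, -476), (104, 27), (24, 77), (-27, 81),
    (-72, 17), (-31, -130), (382, -224), (2413, 993), (-242, -502)],
  [⟨147, 517859, [], [(26, 25, 23)]⟩,
  ⟨1075, 139016, [], []⟩,
  ⟨251, 190616, [], []⟩,
  ⟨402, 141284, [], []⟩,
  ⟨19, 151438, [], [(12, 11, 2)]⟩,
  ⟨477, 138882, [], []⟩,
  ⟨1025, 134064, [], []⟩,
  ⟨53824, 146112, [(0, 2396)], []⟩,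
  ⟨1514, 174308, [], []⟩,
  ⟨63, 144086, [], []⟩,
  ⟨252, 163447, [], []⟩,
  ⟨117, 144642, [], []⟩]⟩


def L233 : Leaf :=
  ⟨[(-18, 6), (17, -33), (1, 37), (-15, -29), (23, 1), (-7, 15), (1, -16), (-3, 11), (24, -22),
    (-15, 46), (3, -41), (5, 37), (-14, -13)],
  [(-1, 46), (-68, 5), (-34, -3), (-49, -26), (-55, -24), (-24, -85), (4, -57), (58, -47), (23,
    16), (-1, 20), (-36, -33), (30, -20)],
  [(-14, -4), (244, -144), (-608, 2801), (145, 262), (-9, 18), (-16, 3), (-2, -3), (13, 3), (32,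
    21), (-231, 175), (608, -2764), (-160, -231), (-13, -2)],
  [⟨51, 562062, [], [(25, 24, 5)]⟩,
  ⟨140, 142818, [], []⟩,
  ⟨53, 221795, [], []⟩,
  ⟨68, 144427, [], []⟩,
  ⟨55, 189227, [], []⟩,
  ⟨66, 144490, [], []⟩,
  ⟨104, 165373, [], []⟩,
  ⟨57440, 146160, [(0, 2514)], []⟩,
  ⟨72, 154787, [], []⟩,
  ⟨53, 144434, [], []⟩,
  ⟨53, 148261, [], []⟩,
  ⟨49, 143658, [], []⟩]⟩


def L234 : Leaf :=
  ⟨[(279, 76), (-489, 302), (60, -447), (23, 65), (93, -51), (47, -37), (53, 49), (-59, 39), (325,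
    -52), (-337, 477), (-120, -384), (14, -3), (113, -36)],
  [(-221, 112), (-35, 27), (-469, 226), (-508, -280), (-195, -386), (-195, -175), (-100, -169),
    (-269, -245), (-198, -245), (-209, -300), (-87, -578), (416, -181)],
  [(-47, -37), (39, -193), (686, -133), (934, 2440), (854, -25), (129, 231), (60, 30), (1, -101),
    (76, 7), (117, 270), (-281, 219), (-410, -2234), (-539, 353)],
  [⟨138, 501474, [], [(24, 23, 70)]⟩,
  ⟨3044, 144681, [], []⟩,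
  ⟨479, 214110, [], []⟩,
  ⟨345, 144211, [], []⟩,
  ⟨1233, 194120, [], []⟩,
  ⟨60, 146743, [], []⟩,
  ⟨5513, 195508, [], []⟩,
  ⟨46019, 146218, [(0, 2187)], []⟩,
  ⟨2872, 131356, [], []⟩,
  ⟨144, 143936, [], []⟩,
  ⟨147, 143903, [], []⟩,
  ⟨321, 146380, [], []⟩]⟩


def L235 : Leaf :=
  ⟨[(6, -17), (-4, 11), (17, -20), (0, 31), (-9, -12), (1, -5), (25, 16), (-47, -5), (56, -6),
    (-57, 28), (43, -39), (-24, 50), (-8, -33)],
  [(-48, 25), (-25, -10), (-77, 37), (-105, -43), (-90, -88), (-7, -114), (-3, -70), (30, -46),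
    (-11, -26), (-7, -27), (-27, -71), (57, -42)],
  [(29, 43), (-25, -68), (-42, 63), (54, 57), (37, 94), (20, 88), (-22, 44), (14, 5), (-90, 57),
    (39, 43), (15, -65), (39, -56), (43, -33)],
  [⟨58, 549242, [], [(23, 22, 6)]⟩,
  ⟨207, 141975, [], []⟩,
  ⟨55, 218896, [], []⟩,
  ⟨98, 142127, [], []⟩,
  ⟨62, 185858, [], []⟩,
  ⟨59, 141762, [], []⟩,
  ⟨88780, 79473, [(0, 1009)], []⟩,
  ⟨131, 142289, [], []⟩,
  ⟨60, 166477, [], []⟩,
  ⟨68, 141883, [], []⟩,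
  ⟨55, 144798, [], []⟩,
  ⟨59, 141777, [], []⟩]⟩


def L236 : Leaf :=
  ⟨[(-23, 11), (7, -57), (29, 44), (-22, -29), (22, 22), (-16, -21), (38, 18), (-47, 11), (44,
    -34), (-15, 47), (7, -17), (-21, 23), (-4, -18)],
  [(-16, 38), (-49, 9), (-25, 36), (-112, 43), (-137, -42), (-105, -116), (-7, -133), (26, -70),
    (20, -37), (-22, -30), (15, -82), (49, -12)],
  [(14, 2), (-14, 18), (20, -41), (75, 22), (184, -62), (34, -6), (66, 30), (31, 32), (50, 66),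
    (-24, 28), (76, -8), (3, -126), (0, 9)],
  [⟨73, 546024, [], [(22, 21, 6)]⟩,
  ⟨276, 141938, [], []⟩,
  ⟨59, 218886, [], []⟩,
  ⟨163, 142197, [], []⟩,
  ⟨57, 184279, [], []⟩,
  ⟨182, 142131, [], []⟩,
  ⟨88520, 79434, [(0, 1007)], []⟩,
  ⟨78, 142031, [], []⟩,
  ⟨85, 157382, [], []⟩,
  ⟨55, 141802, [], []⟩,
  ⟨62, 154487, [], []⟩,
  ⟨53, 141746, [], []⟩]⟩


def L237 : Leaf :=
  ⟨[(31, 68), (-144, -84), (123, -21), (16, -6), (-4, 81), (-30, -27), (23, 26), (-140, -37),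
    (194, -89), (-69, 114), (6, -19), (0, -18), (-4, 17)],
  [(43, 17), (-34, 53), (-62, 27), (-47, -69), (-11, -39), (24, -47), (34, -40), (40, -5), (82,
    16), (-1, 69), (-36, 51), (-32, -32)],
  [(-181, -118), (-994, -894), (-1958, -2428), (694, 1086), (-31, -334), (98, 62), (75, 22), (153,
    -140), (901, -981), (2394, -1958), (-1114, 642), (297, -112), (-47, 9)],
  [⟨3, 579375, [], [(21, 20, 13)]⟩,
  ⟨350, 132346, [], []⟩,
  ⟨76, 180388, [], []⟩,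
  ⟨141, 136873, [], []⟩,
  ⟨55, 146916, [], []⟩,
  ⟨444, 131113, [], []⟩,
  ⟨45643, 217866, [(0, 2588)], []⟩,
  ⟨301, 133593, [], []⟩,
  ⟨66, 132558, [], []⟩,
  ⟨62, 138447, [], []⟩,
  ⟨76, 129077, [], []⟩,
  ⟨101, 139282, [], []⟩]⟩


def L238 : Leaf :=
  ⟨[(-416, -515), (1402, 172), (-869, 740), (35, -108), (-247, -135), (-51, -43), (39, -82),
    (-656, -125), (1187, -838), (-134, 1078), (-60, -106), (-235, -27), (7, -10)],
  [(-74, -62), (-370, 341), (-376, -22), (-1140, 396), (-1069, -1235), (-23, -593), (-395, -833),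
    (-403, -233), (-447, -953), (-243, -589), (78, -1477), (1043, -131)],
  [(319, 402), (275, -1769), (-637, 182), (966, 485), (1288, 385), (1024, 192), (1121, 111),
    (-110, -46), (840, 144), (-658, -775), (-12, -336), (89, -330), (79, -65)],
  [⟨145, 517756, [], [(20, 19, 417)]⟩,
  ⟨14879, 169247, [], []⟩,
  ⟨2796, 234205, [], []⟩,
  ⟨112, 166512, [], []⟩,
  ⟨146, 231486, [], [(7, 6, 56)]⟩,
  ⟨14444, 169235, [], []⟩,
  ⟨4336, 229880, [(0, 1117)], []⟩,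
  ⟨14405, 169294, [], []⟩,
  ⟨49, 197958, [], []⟩,
  ⟨2435, 169574, [], []⟩,
  ⟨353, 155054, [], []⟩,
  ⟨357, 167105, [], []⟩]⟩


def L239 : Leaf :=
  ⟨[(-14, 22), (-25, -10), (-19, -42), (51, -13), (-9, 7), (34, -1), (-5, 14), (-19, 26), (17,
    -50), (-1, 62), (-9, -61), (36, 56), (-38, -9)],
  [(37, 52), (-62, 86), (-103, 34), (-116, -63), (-9, -62), (-42, -45), (-10, -53), (20, -43), (2,
    -5), (1, -24), (-7, -14), (13, -25)],
  [(-65, 84), (155, 117), (-55, 68), (954, 746), (1433, -1812), (830, 627), (-379, 546), (156,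
    162), (-78, 107), (920, 769), (1391, -1810), (791, 607), (-337, 424)],
  [⟨55, 557394, [], [(19, 18, 6)]⟩,
  ⟨191, 141214, [], []⟩,
  ⟨57, 204051, [], []⟩,
  ⟨70, 143862, [], []⟩,
  ⟨97, 172637, [], []⟩,
  ⟨57214, 146168, [(0, 2505)], []⟩,
  ⟨70, 169641, [], []⟩,
  ⟨60, 144111, [], []⟩,
  ⟨50, 168890, [], []⟩,
  ⟨53, 144126, [], []⟩,
  ⟨59, 155414, [], []⟩,
  ⟨445, 137140, [], []⟩]⟩


def L240 : Leaf :=
  ⟨[(139, 180), (-293, -241), (464, 385), (-836, -41), (338, -470), (206, 32), (145, 89), (-240,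
    213), (441, -283), (-349, 774), (-323, -614), (181, -60), (125, 37)],
  [(-337, -94), (-74, 92), (-390, -71), (-549, 181), (-1175, -500), (-715, -1251), (133, -612),
    (-276, -779), (-212, -700), (-162, -876), (431, -1098), (887, 72)],
  [(-87, 465), (158, -162), (-4, 978), (1255, 418), (563, 12), (566, 394), (12, 1217), (-48, 1),
    (-3, 520), (790, -759), (-200, -883), (263, -186), (212, 327)],
  [⟨1143, 520287, [], [(18, 17, 279)]⟩,
  ⟨11304, 165681, [], []⟩,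
  ⟨998, 199074, [], []⟩,
  ⟨3333, 165211, [], []⟩,
  ⟨8150, 184443, [], [(4, 3, 116)]⟩,
  ⟨15110, 165473, [(0, 1219)], [(2, 0, 416)]⟩,
  ⟨14061, 213207, [], []⟩,
  ⟨44, 167024, [], []⟩,
  ⟨3376, 185068, [], []⟩,
  ⟨199, 165353, [], []⟩,
  ⟨830, 177556, [], []⟩,
  ⟨1134, 166163, [], []⟩]⟩


def L241 : Leaf :=
  ⟨[(-31, -45), (93, -11), (-7, 78), (-59, 7), (-5, -76), (88, 12), (-29, 111), (-80, -77), (76,
    1), (-41, 34), (-14, -27), (16, -2), (-7, -6)],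
  [(-28, 17), (-12, -19), (-44, 72), (-114, -85), (19, -37), (-68, -8), (-72, -127), (117, -107),
    (57, 49), (-60, 42), (-38, -113), (73, -17)],
  [(29, 136), (218, 68), (-83, 69), (260, 1239), (2093, 686), (-783, 689), (-163, -760), (-230,
    -80), (82, -83), (-265, -1246), (-2099, -690), (772, -693), (124, 613)],
  [⟨48, 580846, [], [(17, 16, 5)]⟩,
  ⟨128, 142883, [], []⟩,
  ⟨53, 232266, [], []⟩,
  ⟨77, 143912, [], []⟩,
  ⟨88, 172259, [], []⟩,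
  ⟨57173, 145902, [(0, 2498)], []⟩,
  ⟨77, 170077, [], []⟩,
  ⟨55, 144543, [], []⟩,
  ⟨51, 155612, [], []⟩,
  ⟨54, 144477, [], []⟩,
  ⟨56, 147866, [], []⟩,
  ⟨649, 139289, [], []⟩]⟩


def L242 : Leaf :=
  ⟨[(143, 468), (-767, -307), (539, -321), (-180, 168), (243, -94), (-145, -121), (573, 558),
    (-889, 30), (293, -452), (-32, 134), (74, -77), (-41, -117), (190, 135)],
  [(-589, 609), (-1156, -521), (-363, -718), (-494, -735), (-52, -657), (-591, -717), (-214,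
    -1525), (921, -732), (295, -200), (336, -173), (-48, -95), (249, -320)],
  [(-242, 287), (246, -47), (-564, 536), (1207, 557), (778, 601), (294, 800), (183, 328), (-541,
    838), (951, 240), (-122, -787), (97, -742), (330, 37), (219, 175)],
  [⟨1765, 502889, [], [(16, 15, 243)]⟩,
  ⟨11261, 163321, [], []⟩,
  ⟨2915, 242736, [], []⟩,
  ⟨52, 163529, [], []⟩,
  ⟨16195, 231215, [], [(3, 2, 44)]⟩,
  ⟨16803, 163407, [(0, 1353)], []⟩,
  ⟨9254, 160818, [], []⟩,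
  ⟨1928, 163301, [], []⟩,
  ⟨771, 165589, [], []⟩,
  ⟨1205, 163993, [], []⟩,
  ⟨414, 188751, [], []⟩,
  ⟨730, 163986, [], []⟩]⟩


def L243 : Leaf :=
  ⟨[(31, 11), (-41, 25), (17, -28), (-9, 17), (9, 13), (-43, -35), (70, 25), (-85, 3), (57, -31),
    (-27, 27), (-1, -18), (2, -19), (22, 9)],
  [(-47, 35), (-56, -25), (-58, -1), (-70, -35), (-108, -51), (-53, -137), (9, -126), (73, -58),
    (1, -22), (2, -34), (0, -70), (57, -21)],
  [(34, 9), (-22, -50), (-63, 56), (41, 36), (12, 45), (37, 51), (-19, 136), (81, 112), (-31,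
    -19), (-25, -1), (-14, -62), (13, -42), (16, -46)],
  [⟨60, 543784, [], [(15, 14, 7)]⟩,
  ⟨237, 140239, [], []⟩,
  ⟨60, 216414, [], []⟩,
  ⟨54, 139410, [], []⟩,
  ⟨87204, 110565, [(0, 1154)], []⟩,
  ⟨193, 140396, [], []⟩,
  ⟨59, 176811, [], []⟩,
  ⟨90, 139981, [], []⟩,
  ⟨57, 150770, [], []⟩,
  ⟨70, 139752, [], []⟩,
  ⟨66, 144068, [], []⟩,
  ⟨58, 139588, [], []⟩]⟩


def L244 : Leaf :=
  ⟨[(-18, -8), (51, -26), (-37, 69), (16, -89), (24, 98), (-61, -73), (84, 39), (-84, 3), (61,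
    -24), (-34, 30), (6, -8), (-16, -7), (9, -6)],
  [(-31, 45), (-49, 22), (-115, 51), (-177, -47), (-111, -145), (-84, -138), (-10, -199), (98,
    -164), (133, 3), (-9, 39), (-32, -70), (58, -29)],
  [(-37, -69), (-14, -32), (54, 112), (234, 130), (51, 84), (0, 179), (-87, 51), (78, 203), (126,
    -49), (-6, 68), (68, 5), (-38, 4), (42, -9)],
  [⟨120, 522918, [], [(14, 13, 11)]⟩,
  ⟨675, 140346, [], []⟩,
  ⟨58, 214559, [], []⟩,
  ⟨497, 139985, [], []⟩,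
  ⟨85967, 110921, [(0, 1146)], []⟩,
  ⟨100, 139698, [], []⟩,
  ⟨142, 157823, [], []⟩,
  ⟨84, 139354, [], []⟩,
  ⟨88, 159318, [], []⟩,
  ⟨58, 139071, [], []⟩,
  ⟨70, 145332, [], []⟩,
  ⟨64, 139387, [], []⟩]⟩


def L245 : Leaf :=
  ⟨[(-65, 33), (-23, -156), (231, 99), (-248, 33), (107, -52), (-9, -62), (113, 41), (-127, 107),
    (92, -109), (-44, 38), (33, 55), (-33, -17), (-20, -8)],
  [(41, -39), (6, 95), (-51, 25), (-38, -41), (-59, -38), (63, -42), (60, -46), (18, 68), (27,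
    49), (-40, 41), (-88, -35), (50, -27)],
  [(150, -459), (-1509, 164), (716, 2942), (-1373, 688), (-82, -246), (511, 333), (-259, -1452),
    (-2982, 708), (-674, -1422), (310, -135), (-85, 25), (14, -73), (22, -7)],
  [⟨1, 593322, [], [(13, 12, 17)]⟩,
  ⟨487, 144539, [], []⟩,
  ⟨112, 148320, [], []⟩,
  ⟨681, 143446, [], []⟩,
  ⟨39299, 258973, [(0, 2908)], []⟩,
  ⟨375, 146455, [], []⟩,
  ⟨74, 126102, [], []⟩,
  ⟨85, 151481, [], []⟩,
  ⟨54, 169860, [], []⟩,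
  ⟨450, 149516, [], []⟩,
  ⟨52, 151858, [], []⟩,
  ⟨100, 152568, [], []⟩]⟩


def L246 : Leaf :=
  ⟨[(-323, -376), (1092, 101), (-668, 423), (389, 42), (-387, 222), (-758, -221), (1193, -843),
    (-371, 977), (247, -142), (-409, 214), (-274, 43), (-4, -730), (306, 256)],
  [(-128, 1360), (-1642, -186), (-569, 251), (-1507, -555), (-1139, 153), (-1669, -1706), (337,
    -1030), (-467, -897), (279, 81), (-604, -951), (881, 137), (-535, -27)],
  [(-377, -185), (-597, -263), (-71, 277), (802, 1166), (1437, 1564), (835, -235), (-360, 1262),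
    (451, 204), (382, -357), (-65, -20), (1017, 495), (-462, -373), (296, 223)],
  [⟨1585, 544673, [], [(12, 11, 467)]⟩,
  ⟨8400, 222912, [], []⟩,
  ⟨6326, 313492, [], []⟩,
  ⟨12705, 222896, [], []⟩,
  ⟨67, 298188, [(0, 1255)], []⟩,
  ⟨12424, 222895, [], []⟩,
  ⟨57, 260202, [], []⟩,
  ⟨109, 223549, [], []⟩,
  ⟨1535, 209505, [], []⟩,
  ⟨290, 221133, [], []⟩,
  ⟨50, 226224, [], []⟩,
  ⟨712, 223905, [], []⟩]⟩


def L247 : Leaf :=
  ⟨[(7, 3), (-18, 10), (0, -18), (20, -3), (-16, 29), (5, -37), (-7, 38), (6, -33), (-15, 18),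
    (32, -18), (-37, 26), (18, -35), (7, 18)],
  [(-14, 39), (-48, 4), (-42, 22), (-81, -10), (-105, -47), (-29, -127), (23, -86), (63, -41),
    (25, -1), (-10, 26), (-24, -65), (44, -9)],
  [(1024, 1033), (-453, 31), (336, -348), (-29, 602), (2172, 2206), (-351, 54), (234, -244), (-46,
    462), (794, 806), (108, -14), (-73, 76), (13, -141), (-319, -326)],
  [⟨69, 569077, [], [(11, 10, 6)]⟩,
  ⟨189, 142633, [], []⟩,
  ⟨87, 230888, [], []⟩,
  ⟨55484, 145990, [(0, 2420)], []⟩,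
  ⟨55, 180571, [], []⟩,
  ⟨70, 144646, [], []⟩,
  ⟨52, 165648, [], []⟩,
  ⟨368, 139413, [], []⟩,
  ⟨49, 157848, [], []⟩,
  ⟨64, 144835, [], []⟩,
  ⟨60, 152046, [], []⟩,
  ⟨4632, 144115, [], []⟩]⟩


def L248 : Leaf :=
  ⟨[(216, 58), (57, 107), (-551, 318), (196, -593), (216, 0), (-67, -26), (501, 788), (-1058,
    -685), (533, -23), (60, 42), (403, -154), (-550, 695), (49, -531)],
  [(-448, 610), (-1051, -126), (-947, -542), (-1042, -528), (-1018, -1443), (78, -1688), (419,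
    -813), (127, -691), (568, -647), (288, 25), (-289, -9), (124, -441)],
  [(55, -119), (379, -161), (78, 169), (557, 997), (396, 1263), (898, 468), (-316, 135), (993,
    172), (753, -607), (409, -808), (-548, 136), (274, -92), (-393, -229)],
  [⟨1607, 517512, [], [(10, 9, 455)]⟩,
  ⟨10351, 210953, [], []⟩,
  ⟨11253, 278928, [], []⟩,
  ⟨3522, 210703, [(0, 1036)], [(2, 0, 1088)]⟩,
  ⟨15968, 253687, [], []⟩,
  ⟨896, 211920, [], []⟩,
  ⟨1477, 223709, [], []⟩,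
  ⟨40, 213021, [], []⟩,
  ⟨2450, 227480, [], []⟩,
  ⟨29, 213776, [], []⟩,
  ⟨940, 207053, [], []⟩,
  ⟨296, 212357, [], []⟩]⟩


def L249 : Leaf :=
  ⟨[(21, -27), (34, 46), (-47, 4), (49, -4), (-61, 56), (-3, -57), (0, 33), (-25, -29), (4, 2),
    (-4, -31), (27, 15), (-17, -8), (19, -3)],
  [(-48, 33), (-53, -11), (-94, 17), (-125, -68), (-66, -105), (-58, -123), (14, -161), (107,
    -112), (109, 27), (-48, 41), (-28, -109), (76, -28)],
  [(-930, -739), (531, -595), (110, 1735), (1185, 386), (985, 992), (-249, 1225), (144, -1814),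
    (-1235, -222), (154, -66), (-254, -580), (-240, 115), (91, -124), (-180, -141)],
  [⟨75, 593046, [], [(9, 8, 7)]⟩,
  ⟨360, 141284, [], []⟩,
  ⟨77, 208244, [], []⟩,
  ⟨56388, 145757, [(0, 2458)], []⟩,
  ⟨126, 192318, [], []⟩,
  ⟨87, 144159, [], []⟩,
  ⟨71, 148921, [], []⟩,
  ⟨253, 140132, [], []⟩,
  ⟨76, 161713, [], []⟩,
  ⟨66, 145742, [], []⟩,
  ⟨74, 143317, [], []⟩,
  ⟨1915, 143775, [], []⟩]⟩


def L250 : Leaf :=
  ⟨[(-3, 65), (83, 193), (-345, -16), (-124, -413), (675, 60), (-275, 326), (154, 286), (-932,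
    -562), (1101, -31), (-357, 50), (380, 510), (-820, -344), (471, -118)],
  [(-68, 663), (-1127, 404), (-899, -332), (-1170, -131), (-1434, -1237), (49, -1456), (-11,
    -601), (15, -931), (630, -200), (-157, 224), (-127, -290), (-21, -97)],
  [(-253, -64), (20, 277), (-234, -188), (-222, 549), (1297, 805), (809, -15), (250, 1160), (795,
    450), (512, -455), (382, -312), (370, -87), (192, 309), (-1, -8)],
  [⟨2092, 548483, [], [(8, 7, 373)]⟩,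
  ⟨7714, 201309, [], []⟩,
  ⟨18990, 300312, [], []⟩,
  ⟨13319, 201451, [(0, 1639)], []⟩,
  ⟨8452, 241475, [], []⟩,
  ⟨3204, 202099, [], []⟩,
  ⟨118, 226309, [], []⟩,
  ⟨754, 201785, [], []⟩,
  ⟨986, 228593, [], []⟩,
  ⟨34, 205384, [], []⟩,
  ⟨570, 212794, [], []⟩,
  ⟨32, 205395, [], []⟩]⟩


def L251 : Leaf :=
  ⟨[(7, 36), (-33, -27), (16, 11), (-12, -13), (9, 4), (-7, -9), (2, 7), (3, -11), (-6, 7), (5,
    -17), (-9, 17), (17, -40), (10, 35)],
  [(-61, 12), (-46, 22), (-122, -20), (-132, -68), (-124, -104), (-72, -268), (60, -148), (139,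
    -296), (351, 194), (-236, 132), (-36, -220), (132, -18)],
  [(45, 525), (158, 570), (931, 442), (1724, 664), (469, 718), (2280, -29), (-1448, 1007), (674,
    22), (-778, -66), (-48, 29), (204, -136), (1, -161), (3, 144)],
  [⟨305, 672046, [], [(7, 6, 7)]⟩,
  ⟨55756, 146114, [(0, 2431)], []⟩,
  ⟨156, 126096, [], []⟩,
  ⟨580, 143591, [], []⟩,
  ⟨167, 236161, [], []⟩,
  ⟨660, 145666, [], []⟩,
  ⟨112, 123041, [], []⟩,
  ⟨541, 146540, [], []⟩,
  ⟨149, 184493, [], []⟩,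
  ⟨617, 147269, [], []⟩,
  ⟨120, 135793, [], []⟩,
  ⟨542, 147786, [], []⟩]⟩


def L252 : Leaf :=
  ⟨[(-100, 60), (-88, -221), (-10, 154), (224, -303), (-340, 965), (-300, -1483), (1224, 1342),
    (-1603, -313), (1081, -530), (-104, 682), (-279, -156), (199, -212), (93, 78)],
  [(-207, 97), (-251, -152), (-305, 112), (-883, 21), (-1381, -691), (-822, -1753), (383, -1788),
    (1163, -754), (645, 249), (-82, 345), (-312, -176), (87, -166)],
  [(51, -65), (-2, 197), (156, -243), (-370, 119), (565, -446), (-143, -1242), (-1048, -1425),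
    (-2077, 131), (-663, 870), (-115, 246), (-27, -75), (-56, -59), (-51, -5)],
  [⟨1, 285572, [], [(6, 5, 1165)]⟩,
  ⟨9, 380009, [(0, 1912)], [(2, 0, 2208)]⟩,
  ⟨8976, 433691, [], []⟩,
  ⟨8, 383265, [], []⟩,
  ⟨1651, 430363, [], []⟩,
  ⟨61, 390829, [], []⟩,
  ⟨237, 421768, [], []⟩,
  ⟨112, 394510, [], []⟩,
  ⟨42, 390432, [], []⟩,
  ⟨50, 390367, [], []⟩,
  ⟨12, 385600, [], []⟩,
  ⟨18, 385603, [], []⟩]⟩


def L253 : Leaf :=
  ⟨[(-24, 5), (1, 29), (-7, 15), (-82, 115), (-18, -97), (23, 115), (-154, 620), (-1914, -781),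
    (1816, -2285), (1176, 1754), (-491, 145), (-33, 341), (-225, -76)],
  [(0, -1), (1, 1), (0, 0), (0, 1), (0, 0), (0, 0), (1, 0), (0, 0), (0, 1), (0, 0), (0, 1), (-1,
    -1)],
  [(-18, -122), (67, -159), (229, -249), (358, -30), (956, -239), (-1407, -1075), (-597, 2496),
    (1393, -317), (-61, -136), (0, -274), (-44, 147), (-61, -54), (-11, 50)],
  [⟨1, 578203, [], [(5, 4, 1084)]⟩,
  ⟨24363, 204280, [(0, 2634)], []⟩,
  ⟨2540, 315174, [], []⟩,
  ⟨2697, 204338, [], []⟩,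
  ⟨777, 283325, [], []⟩,
  ⟨570, 204286, [], []⟩,
  ⟨44, 249853, [], []⟩,
  ⟨239, 204667, [], []⟩,
  ⟨33, 235217, [], []⟩,
  ⟨165, 204250, [], []⟩,
  ⟨46, 225022, [], []⟩,
  ⟨54, 204449, [], []⟩]⟩


def L254 : Leaf :=
  ⟨[(32, -20), (95, 95), (-31, 105), (33, -186), (74, 158), (-113, -4), (345, -357), (-675, 550),
    (948, -675), (-1152, 522), (954, -303), (-708, 167), (215, -89)],
  [(-75, 85), (-86, -125), (-360, 107), (-752, -358), (-751, -642), (-1328, -1251), (-133, -2756),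
    (2162, -1367), (921, 1153), (-851, 312), (-41, -608), (117, 88)],
  [(-67, 33), (82, -14), (79, 231), (258, 100), (1389, -6), (1922, 43), (1830, -258), (731, -181),
    (-529, -140), (-221, 49), (129, 40), (43, -99), (-36, 25)],
  [⟨11407, 679728, [], [(4, 3, 354)]⟩,
  ⟨12545, 298403, [(0, 2491)], []⟩,
  ⟨4504, 422904, [], []⟩,
  ⟨2866, 297906, [], []⟩,
  ⟨1081, 353070, [], []⟩,
  ⟨44, 297401, [], []⟩,
  ⟨412, 307147, [], []⟩,
  ⟨75, 297387, [], []⟩,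
  ⟨13, 299210, [], []⟩,
  ⟨23, 297449, [], []⟩,
  ⟨44, 300673, [], []⟩,
  ⟨19, 297604, [], []⟩]⟩


def L255 : Leaf :=
  ⟨[(1, 69), (-104, -101), (99, 67), (35, -220), (21, 615), (-451, -882), (954, 669), (-1057,
    -79), (629, -390), (-48, 384), (-212, -57), (97, -154), (36, 80)],
  [(-138, 126), (-213, 0), (-226, 153), (-608, 137), (-933, -344), (-568, -1042), (230, -1062),
    (665, -405), (302, 131), (-103, 65), (-104, -253), (143, -139)],
  [(-11, -217), (-171, 118), (174, -173), (262, 737), (249, -2029), (-1026, 1897), (1164, -780),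
    (-173, 78), (-175, 304), (7, -107), (-165, 173), (-135, 12), (-45, -61)],
  [⟨1, 590617, [(0, 1598)], [(5, 0, 1742), (3, 2, 513)]⟩,
  ⟨27066, 181110, [], []⟩,
  ⟨9758, 286578, [], []⟩,
  ⟨74, 180744, [], []⟩,
  ⟨141, 200225, [], []⟩,
  ⟨1278, 182174, [], []⟩,
  ⟨455, 194677, [], []⟩,
  ⟨489, 181988, [], []⟩,
  ⟨182, 193223, [], []⟩,
  ⟨280, 182591, [], []⟩,
  ⟨136, 192288, [], []⟩,
  ⟨117, 182926, [], []⟩]⟩


def L256 : Leaf :=
  ⟨[(-87, 17), (180, -344), (306, 725), (-939, -294), (671, -428), (-27, 354), (-11, 39), (-123,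
    -13), (12, -26), (1, -44), (16, 11), (10, 1), (-7, 1)],
  [(-18, 101), (-165, 66), (-179, 26), (-239, -90), (-184, -138), (-122, -233), (-39, -192), (49,
    -184), (42, -80), (63, -39), (-41, -11), (13, -60)],
  [(4, 81), (-62, -19), (412, -274), (953, 799), (1542, 3028), (2014, 2063), (751, -395), (-178,
    -290), (-40, 61), (-66, -42), (8, 30), (-4, 7), (4, -8)],
  [⟨1, 522332, [(0, 1371)], [(3, 0, 3531), (2, 1, 464)]⟩,
  ⟨15949, 158021, [], []⟩,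
  ⟨3948, 163554, [], []⟩,
  ⟨50, 158518, [], []⟩,
  ⟨220, 179333, [], []⟩,
  ⟨243, 158395, [], []⟩,
  ⟨73, 190439, [], []⟩,
  ⟨144, 158495, [], []⟩,
  ⟨121, 173215, [], []⟩,
  ⟨85, 158489, [], []⟩,
  ⟨60, 163302, [], []⟩,
  ⟨54, 158381, [], []⟩]⟩


def L257 : Leaf :=
  ⟨[(68, 25), (178, 54), (-22, 257), (-412, 667), (-821, -402), (-677, -2026), (3381, 1040),
    (-2525, 672), (1069, -593), (-282, 300), (53, -61), (-39, 46), (29, 6)],
  [(39, 16), (-67, 15), (16, -18), (6, -25), (0, 8), (18, -1), (5, 5), (-2, 4), (-1, 27), (-36,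
    -24), (33, -27), (3, 23)],
  [(-314, 320), (-662, 515), (-453, 1201), (-1321, 1010), (-54, -40), (-184, 991), (182, -1357),
    (-91, 736), (435, -294), (-584, 62), (283, 141), (24, -166), (-51, 53)],
  [⟨277, 692821, [(0, 2885)], []⟩,
  ⟨29169, 158411, [], []⟩,
  ⟨221, 98329, [], []⟩,
  ⟨2625, 157823, [], []⟩,
  ⟨186, 253725, [], []⟩,
  ⟨277, 158738, [], []⟩,
  ⟨156, 129731, [], []⟩,
  ⟨401, 159577, [], []⟩,
  ⟨337, 203430, [], []⟩,
  ⟨381, 160404, [], []⟩,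
  ⟨218, 151688, [], []⟩,
  ⟨237, 160505, [], []⟩]⟩


def L258 : Leaf :=
  ⟨[(0, 0), (0, 0), (0, 0), (0, 0), (0, 0), (0, 0), (0, 0), (0, 0), (0, 0), (0, 0), (0, 0), (0,
    0), (0, 0)],
  [(-9, -71), (-166, -96), (-76, -190), (-305, -420), (40, -515), (-1, -852), (740, -593), (662,
    -622), (1590, 630), (-954, 1107), (-97, -1068), (508, 194)],
  [(-9, -58), (-124, -53), (137, -217), (68, -229), (244, -63), (-1040, -259), (-1846, 3214),
    (2038, 1878), (-292, -238), (165, 226), (-174, 103), (161, -10), (-121, 127)],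
  [⟨1, 444040, [(0, 1691)], [(2, 0, 1126), (1, 0, 1659)]⟩,
  ⟨15668, 168275, [], []⟩,
  ⟨62, 282266, [], []⟩,
  ⟨3239, 168287, [], []⟩,
  ⟨1156, 206503, [], []⟩,
  ⟨977, 169308, [], []⟩,
  ⟨124, 180939, [], []⟩,
  ⟨550, 168662, [], []⟩,
  ⟨112, 170766, [], []⟩,
  ⟨437, 168832, [], []⟩,
  ⟨138, 176895, [], []⟩,
  ⟨121, 168763, [], []⟩]⟩


def L259 : Leaf :=
  ⟨[(0, 0), (0, 0), (0, 0), (0, 0), (0, 0), (0, 0), (0, 0), (0, 0), (0, 0), (0, 0), (0, 0), (0,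
    0), (0, 0)],
  [(-10, 4), (-8, -3), (-23, 2), (-18, -20), (-30, -11), (-17, -56), (5, -36), (37, -71), (85,
    40), (-47, 32), (10, -42), (21, 7)],
  [(-21, 13), (47, -70), (-62, 212), (-271, -358), (841, 195), (-1965, 150), (1551, 124), (-2691,
    -2539), (-3166, 718), (-587, 1029), (276, 319), (256, -65), (42, -68)],
  [⟨41, 388494, [(0, 1)], [(1, 0, 6658)]⟩,
  ⟨30, 395231, [], []⟩,
  ⟨30, 540038, [], []⟩,
  ⟨30, 391397, [], []⟩,
  ⟨30, 330940, [], []⟩,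
  ⟨30, 391990, [], []⟩,
  ⟨30, 447415, [], []⟩,
  ⟨30, 389994, [], []⟩,
  ⟨30, 367265, [], []⟩,
  ⟨30, 387695, [], []⟩,
  ⟨30, 394132, [], []⟩,
  ⟨30, 387308, [], []⟩]⟩


def tree : Tree :=
  (.node 1 100 0 0 (.node 1 100 100 (-90) (.node 1 (-100) (-100) 118 (.node 1 100 (-100) 14 (.node
    1 (-100) 100 14 (.node 2 100 0 38 (.node 2 (-100) 0 38 (.node 2 0 100 38 (.node 2 0 (-100) 38
    (.node 4 100 0 38 (.node 4 (-100) 0 38 (.node 4 0 100 38 (.node 4 0 (-100) 38 (.node 5 100 100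
    72 (.node 5 (-100) (-100) 72 (.node 5 100 (-100) 30 (.node 5 (-100) 100 30 (.node 6 100 0 38
    (.node 6 (-100) 0 38 (.node 6 0 100 38 (.node 6 0 (-100) 38 (.node 7 100 100 66 (.node 7
    (-100) (-100) 66 (.node 7 100 (-100) 36 (.node 7 (-100) 100 36 (.node 8 100 0 38 (.node 8
    (-100) 0 38 (.node 8 0 100 38 (.node 8 0 (-100) 38 (.node 9 100 100 64 (.node 9 (-100) (-100)
    64 (.node 9 100 (-100) 40 (.node 9 (-100) 100 40 (.node 10 100 0 38 (.node 10 (-100) 0 38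
    (.node 10 0 100 38 (.node 10 0 (-100) 38 (.node 11 100 100 62 (.node 11 (-100) (-100) 62
    (.node 11 100 (-100) 42 (.node 11 (-100) 100 42 (.node 12 100 0 38 (.node 12 (-100) 0 38
    (.node 12 0 100 38 (.node 12 0 (-100) 38 (.node 3 100 100 0 (.node 3 100 100 (-30) (.node 3
    (-100) (-100) 82 (.node 3 100 (-100) 24 (.node 3 (-100) 100 24 (.node 5 200 100 0 (.node 5 200
    100 (-55) (.node 3 200 100 (-85) (.node 7 200 (-100) 0 (.node 2 100 (-100) 0 (.node 1 100 200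
    (-155) (.leaf L0) (.node 4 100 (-100) 0 (.node 2 200 (-100) (-30) (.leaf L1) (.node 7 100 0
    (-10) (.leaf L2) (.leaf L3))) (.node 7 100 0 (-10) (.node 4 200 (-100) 0 (.node 6 200 (-100) 0
    (.node 9 200 100 0 (.node 6 100 (-200) 0 (.leaf L4) (.node 8 100 (-100) 0 (.leaf L5) (.leaf
    L6))) (.node 9 200 100 50 (.leaf L7) (.leaf L8))) (.node 9 100 100 0 (.node 7 200 100 (-50)
    (.leaf L9) (.leaf L10)) (.node 9 100 100 30 (.node 8 100 0 0 (.leaf L11) (.leaf L12)) (.node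
    11 200 100 0 (.node 8 100 0 0 (.leaf L13) (.leaf L14)) (.leaf L15))))) (.node 6 200 (-100) 0
    (.leaf L16) (.node 9 100 200 0 (.leaf L17) (.leaf L18)))) (.node 6 100 0 0 (.node 6 200 (-100)
    0 (.leaf L19) (.leaf L20)) (.node 2 200 (-100) (-30) (.leaf L21) (.leaf L22)))))) (.node 4 200
    (-100) 0 (.node 4 100 (-100) 0 (.leaf L23) (.node 7 100 0 (-10) (.node 6 200 (-100) 0 (.leaf
    L24) (.leaf L25)) (.node 6 100 0 0 (.leaf L26) (.leaf L27)))) (.node 7 100 0 (-10) (.node 9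
    200 100 0 (.leaf L28) (.leaf L29)) (.node 6 100 0 0 (.leaf L30) (.leaf L31))))) (.node 2 100
    (-100) 0 (.node 7 100 0 10 (.node 6 100 0 0 (.node 6 200 (-100) 0 (.leaf L32) (.leaf L33))
    (.node 6 200 100 0 (.leaf L34) (.leaf L35))) (.node 7 200 100 50 (.node 6 100 0 0 (.leaf L36)
    (.node 6 200 100 0 (.node 2 200 (-100) (-30) (.leaf L37) (.leaf L38)) (.leaf L39))) (.node 9
    100 200 0 (.node 1 100 200 (-155) (.leaf L40) (.node 4 200 (-100) 0 (.leaf L41) (.node 2 200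
    (-100) (-30) (.leaf L42) (.node 7 100 200 60 (.leaf L43) (.leaf L44))))) (.node 10 100 100 0
    (.leaf L45) (.leaf L46))))) (.node 7 100 0 10 (.node 6 100 0 0 (.leaf L47) (.leaf L48)) (.node
    7 200 100 50 (.leaf L49) (.leaf L50))))) (.node 2 100 (-100) 0 (.node 7 100 0 0 (.node 4 100
    (-100) 0 (.node 1 100 200 (-155) (.leaf L51) (.node 5 100 (-200) 0 (.node 6 100 (-100) 0
    (.leaf L52) (.node 7 200 100 (-35) (.leaf L53) (.leaf L54))) (.node 7 100 0 (-20) (.node 2 200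
    (-100) (-30) (.leaf L55) (.node 3 100 200 (-75) (.leaf L56) (.leaf L57))) (.node 2 100 (-200)
    (-30) (.leaf L58) (.node 3 100 200 (-75) (.leaf L59) (.leaf L60)))))) (.node 1 100 200 (-155)
    (.leaf L61) (.node 4 100 (-200) 30 (.node 7 200 100 (-35) (.node 9 200 100 0 (.node 6 100
    (-100) 0 (.leaf L62) (.node 9 100 0 (-15) (.node 2 200 (-100) (-30) (.leaf L63) (.node 7 200
    100 (-70) (.leaf L64) (.node 5 100 200 (-70) (.leaf L65) (.leaf L66)))) (.node 2 200 (-100)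
    (-30) (.leaf L67) (.node 7 100 200 (-50) (.leaf L68) (.leaf L69))))) (.node 9 200 100 50
    (.node 8 100 0 0 (.leaf L70) (.leaf L71)) (.node 11 100 100 0 (.node 8 100 0 0 (.leaf L72)
    (.leaf L73)) (.node 2 200 (-100) (-30) (.leaf L74) (.node 8 200 100 0 (.leaf L75) (.leaf
    L76)))))) (.node 6 200 (-100) 0 (.node 8 100 200 0 (.leaf L77) (.leaf L78)) (.node 6 200 100 0
    (.node 2 200 (-100) (-30) (.leaf L79) (.leaf L80)) (.leaf L81)))) (.node 7 200 100 (-35)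
    (.node 6 200 (-100) 0 (.leaf L82) (.node 2 200 (-100) (-30) (.leaf L83) (.node 6 100 (-100) 20
    (.leaf L84) (.leaf L85)))) (.node 6 100 0 0 (.leaf L86) (.leaf L87)))))) (.node 7 200 100 35
    (.node 6 100 0 0 (.leaf L88) (.node 6 200 100 0 (.leaf L89) (.leaf L90))) (.node 9 100 200 0
    (.node 8 100 200 0 (.leaf L91) (.node 8 100 100 0 (.leaf L92) (.leaf L93))) (.node 10 100 100
    0 (.leaf L94) (.leaf L95))))) (.node 7 200 (-100) 0 (.node 4 100 (-100) 0 (.node 2 200 (-100)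
    0 (.node 1 100 200 (-155) (.node 7 100 0 (-10) (.node 6 200 (-100) 0 (.leaf L96) (.leaf L97))
    (.node 6 100 0 0 (.leaf L98) (.leaf L99))) (.node 3 100 200 (-75) (.node 5 100 (-200) 20
    (.leaf L100) (.leaf L101)) (.node 7 100 0 (-10) (.node 9 200 100 0 (.leaf L102) (.leaf L103))
    (.leaf L104)))) (.leaf L105)) (.node 2 200 (-100) 30 (.node 7 100 0 (-10) (.node 4 100 (-200)
    30 (.node 1 100 200 (-155) (.node 2 200 (-100) 0 (.leaf L106) (.leaf L107)) (.node 9 200 100 0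
    (.node 6 100 (-100) 0 (.leaf L108) (.node 7 200 100 (-50) (.leaf L109) (.node 9 200 100 (-50)
    (.leaf L110) (.leaf L111)))) (.node 9 200 100 50 (.node 8 100 0 0 (.leaf L112) (.leaf L113))
    (.node 11 200 100 0 (.leaf L114) (.leaf L115))))) (.node 9 200 100 0 (.leaf L116) (.leaf
    L117))) (.node 6 100 0 0 (.node 6 200 (-100) 0 (.leaf L118) (.leaf L119)) (.leaf L120)))
    (.leaf L121))) (.node 7 100 0 10 (.node 2 200 (-100) 30 (.node 6 100 0 0 (.node 6 200 (-100) 0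
    (.leaf L122) (.leaf L123)) (.node 6 200 100 0 (.leaf L124) (.leaf L125))) (.leaf L126)) (.node
    2 200 (-100) 30 (.node 9 100 200 0 (.node 8 100 100 0 (.node 7 200 100 50 (.leaf L127) (.leaf
    L128)) (.node 7 200 100 50 (.leaf L129) (.leaf L130))) (.leaf L131)) (.leaf L132)))))) (.node
    4 200 (-100) 0 (.node 3 100 100 (-55) (.node 2 100 (-100) 0 (.node 1 100 200 (-155) (.leaf
    L133) (.node 7 100 0 0 (.node 6 100 (-100) 0 (.leaf L134) (.node 7 200 100 (-35) (.node 9 100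
    100 0 (.leaf L135) (.leaf L136)) (.leaf L137))) (.node 7 100 0 20 (.leaf L138) (.leaf L139))))
    (.node 7 100 0 0 (.node 7 100 0 (-20) (.leaf L140) (.leaf L141)) (.node 7 100 0 20 (.leaf
    L142) (.leaf L143)))) (.node 2 100 (-100) 0 (.node 1 100 200 (-155) (.leaf L144) (.node 7 100
    0 0 (.node 7 100 0 (-20) (.node 6 100 (-200) 0 (.leaf L145) (.node 6 0 100 (-10) (.node 4 100
    (-100) 0 (.leaf L146) (.node 9 200 100 0 (.leaf L147) (.leaf L148))) (.leaf L149))) (.node 4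
    100 (-100) 0 (.leaf L150) (.node 2 200 (-100) (-30) (.leaf L151) (.leaf L152)))) (.node 7 100
    0 20 (.leaf L153) (.leaf L154)))) (.node 7 100 0 0 (.node 7 100 0 (-20) (.node 1 100 200
    (-155) (.node 2 200 (-100) 0 (.leaf L155) (.leaf L156)) (.node 3 100 200 (-70) (.node 4 100
    (-100) 0 (.leaf L157) (.node 9 200 (-100) 0 (.leaf L158) (.leaf L159))) (.node 2 200 100 0
    (.leaf L160) (.leaf L161)))) (.node 2 200 100 0 (.leaf L162) (.leaf L163))) (.node 7 100 0 20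
    (.leaf L164) (.leaf L165))))) (.node 7 200 100 0 (.node 2 200 (-100) 0 (.node 2 100 (-100) 0
    (.node 1 100 200 (-155) (.leaf L166) (.node 7 200 100 (-50) (.node 6 100 (-200) 0 (.leaf L167)
    (.leaf L168)) (.leaf L169))) (.node 7 200 100 (-50) (.node 5 100 200 (-30) (.node 1 100 200
    (-155) (.leaf L170) (.leaf L171)) (.node 6 0 100 0 (.leaf L172) (.leaf L173))) (.node 1 100
    200 (-155) (.leaf L174) (.leaf L175)))) (.leaf L176)) (.node 7 200 100 50 (.node 2 100 (-100)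
    0 (.node 9 100 100 0 (.node 1 100 200 (-155) (.leaf L177) (.node 8 100 100 0 (.leaf L178)
    (.leaf L179))) (.leaf L180)) (.node 2 200 (-100) 0 (.node 9 200 100 0 (.node 8 100 100 0
    (.leaf L181) (.leaf L182)) (.leaf L183)) (.leaf L184))) (.node 9 100 100 0 (.node 9 200 100
    (-40) (.node 2 100 (-100) 0 (.node 1 100 200 (-155) (.leaf L185) (.leaf L186)) (.node 2 200
    (-100) 0 (.node 4 100 (-100) 20 (.leaf L187) (.leaf L188)) (.leaf L189))) (.node 2 100 (-100)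
    0 (.node 8 100 100 0 (.leaf L190) (.leaf L191)) (.node 3 200 100 (-85) (.leaf L192) (.leaf
    L193)))) (.node 2 200 (-100) 0 (.leaf L194) (.leaf L195))))))) (.node 5 100 200 45 (.node 6
    100 200 0 (.node 3 200 100 (-85) (.node 7 200 100 0 (.leaf L196) (.leaf L197)) (.node 7 200
    100 0 (.leaf L198) (.leaf L199))) (.node 7 100 200 0 (.node 3 200 100 (-85) (.leaf L200)
    (.leaf L201)) (.leaf L202))) (.node 3 200 100 (-85) (.node 9 0 100 0 (.leaf L203) (.leaf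
    L204)) (.leaf L205)))) (.leaf L206)) (.leaf L207)) (.leaf L208)) (.leaf L209)) (.node 3 (-100)
    (-100) (-30) (.node 3 100 100 82 (.node 3 100 (-100) 24 (.node 3 (-100) 100 24 (.leaf L210)
    (.leaf L211)) (.leaf L212)) (.leaf L213)) (.leaf L214))) (.leaf L215)) (.leaf L216)) (.leaf
    L217)) (.leaf L218)) (.leaf L219)) (.leaf L220)) (.leaf L221)) (.leaf L222)) (.leaf L223))
    (.leaf L224)) (.leaf L225)) (.leaf L226)) (.leaf L227)) (.leaf L228)) (.leaf L229)) (.leaf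
    L230)) (.leaf L231)) (.leaf L232)) (.leaf L233)) (.leaf L234)) (.leaf L235)) (.leaf L236))
    (.leaf L237)) (.leaf L238)) (.leaf L239)) (.leaf L240)) (.leaf L241)) (.leaf L242)) (.leaf
    L243)) (.leaf L244)) (.leaf L245)) (.leaf L246)) (.leaf L247)) (.leaf L248)) (.leaf L249))
    (.leaf L250)) (.leaf L251)) (.leaf L252)) (.leaf L253)) (.leaf L254)) (.leaf L255)) (.leaf
    L256)) (.leaf L257)) (.leaf L258)) (.leaf L259))

theorem tree_ok : tcheck par [(1, (0, 100, 0))] tree = true := by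
  decide +kernel

end Run7.h409.Dig.D12
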