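import Pool.Agent.Run7.h409.Dig.Ineq
import Pool.Agent.Run7.h409.Dig.Data12

/-!
# The main inequality for digits
-/

set_option autoImplicit false
set_option linter.unusedSectionVars false

open Finset

namespace Run7.h409.Dig

open Pool.Agent.H394R2.Ones

/-- the threshold `2 / 1.52^2` -/
noncomputable def t0 : ℝ := 625 / 722

lemma tp_sum_lower {n : ℕ} (J : ℕ) (hn : 8 * J ≤ n) (c : ℝ) (hc : 0 ≤ c) (α β : ℕ → ℝ)
    (hα : ∀ k, |α k| ≤ 2 * c) (hβ : ∀ k, |β k| ≤ 2 * c) :
    n * (c + ∑ k ∈ range J, β k * lam (k + 1)) - 16 * J * c ≤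
      ∑ m ∈ range n, tp n J c α β m := by
  have h1 : ∑ m ∈ range n, tp n J c α β m = n * c + ∑ k ∈ range J,
      (α k * (∑ m ∈ range n, (om n ^ m) ^ (k + 1)).re +
        β k * (∑ m ∈ range n, (om n ^ m) ^ (k + 1)).im) := by
    unfold tp
    rw [sum_add_distrib, sum_const, card_range, nsmul_eq_mul, sum_comm]
    congr 1
    refine sum_congr rfl fun k _ => ?_
    rw [sum_add_distrib, ← mul_sum, ← mul_sum, Complex.re_sum, Complex.im_sum]
  rw [h1, mul_add, mul_sum]
  have h2 : ∀ k ∈ range J, (n : ℝ) * (β k * lam (k + 1)) - 16 * c ≤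
      α k * (∑ m ∈ range n, (om n ^ m) ^ (k + 1)).re +
        β k * (∑ m ∈ range n, (om n ^ m) ^ (k + 1)).im := by
    intro k hk
    have hk' := mem_range.mp hk
    have hg := geom (n := n) (k := k + 1) (by omega) (by omega)
    set G := ∑ m ∈ range n, (om n ^ m) ^ (k + 1) with hG
    have e0 : (n : ℂ) * (((lam (k + 1) : ℝ) : ℂ) * Complex.I) =
        (((n : ℝ) * lam (k + 1) : ℝ) : ℂ) * Complex.I := by push_cast; ring
    have e1 : |G.re| ≤ 4 := by
      have := (Complex.abs_re_le_norm _).trans hg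
      rw [e0, Complex.sub_re, Complex.re_ofReal_mul, Complex.I_re, mul_zero, sub_zero] at this
      exact this
    have e2 : |G.im - n * lam (k + 1)| ≤ 4 := by
      have := (Complex.abs_im_le_norm _).trans hg
      rw [e0, Complex.sub_im, Complex.im_ofReal_mul, Complex.I_im, mul_one] at this
      exact this
    have e3 : |α k * G.re| ≤ 2 * c * 4 := by
      rw [abs_mul]
      exact mul_le_mul (hα k) e1 (abs_nonneg _) (by linarith)
    have e4 : |β k * (G.im - n * lam (k + 1))| ≤ 2 * c * 4 := by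
      rw [abs_mul]
      exact mul_le_mul (hβ k) e2 (abs_nonneg _) (by linarith)
    have e5 := (abs_le.mp e3).1
    have e6 := (abs_le.mp e4).1
    linarith
  have h3 := sum_le_sum h2
  rw [sum_sub_distrib, sum_const, card_range, nsmul_eq_mul] at h3
  linarith

/-- real part of the `k`-th moment -/
noncomputable def mA (b : ℕ) (y : ℝ) (n k : ℕ) : ℝ := (F b y n (om n ^ k)).re / K b y n
/-- imaginary part of the `k`-th moment -/
noncomputable def mB (b : ℕ) (y : ℝ) (n k : ℕ) : ℝ := (F b y n (om n ^ k)).im / K b y n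

section
variable {b : ℕ} {y : ℝ} (hb : 2 ≤ b) (hy0 : 0 < y) (hy1 : y < 1) (hirr : Irrational y)
  {τ D' : ℝ} {n : ℕ} {d : ℕ → ℝ} (hd0 : ∀ m, 0 ≤ d m) (hd : ∀ m, τ - d m ≤ T b y m)
  (hD : ∑ m ∈ range n, d m ≤ D')

include hb hy0 hy1 hirr hd0 hd hD in
lemma main_lower (hn : 0 < n) (J : ℕ) (c : ℝ) (hc : 0 ≤ c) (α β : ℕ → ℝ)
    (hα : ∀ k, |α k| ≤ 2 * c) (hβ : ∀ k, |β k| ≤ 2 * c) (hg : ∀ m, 0 ≤ tp n J c α β m) :
    ((b : ℝ) - 1) * τ * ∑ m ∈ range n, tp n J c α β m -
      c * (((b : ℝ) - 1) * (1 + 4 * J) * D' +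
        (b * (4 * J ^ 2 * Real.pi) + (1 + 4 * J)) * (K b y n + 1)) ≤
      c * (K b y n : ℝ) ^ 2 + ∑ k ∈ range J, (α k * ((F b y n (om n ^ (k + 1))) ^ 2).re +
        β k * ((F b y n (om n ^ (k + 1))) ^ 2).im) := by
  have hbR : (2 : ℝ) ≤ b := by exact_mod_cast hb
  have hn0 : (0 : ℝ) < n := by exact_mod_cast hn
  have hJ : (0 : ℝ) ≤ J := Nat.cast_nonneg _
  have hpi := Real.pi_pos
  have h1 := pair_lower (b := b) (y := y) n J c α β hg
  rw [abel hb hy0 hy1] at h1
  have hT := T_pos hb hy0 hy1 hirr (b := b)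
  have hM : 0 ≤ c * (1 + 4 * J) := by positivity
  have h2 : τ * ∑ m ∈ range n, tp n J c α β m - c * (1 + 4 * J) * D' ≤
      ∑ m ∈ range n, T b y m * tp n J c α β m := by
    have e1 : ∀ m ∈ range n, τ * tp n J c α β m - c * (1 + 4 * J) * d m ≤
        T b y m * tp n J c α β m := by
      intro m _
      have e2 := mul_le_mul_of_nonneg_right (hd m) (hg m)
      have e3 := mul_le_mul_of_nonneg_left (tp_le n J c α β hα hβ m) (hd0 m)
      linarith
    have e4 := sum_le_sum e1
    rw [sum_sub_distrib, ← mul_sum, ← mul_sum] at e4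
    have e5 := mul_le_mul_of_nonneg_left hD hM
    linarith
  have h3 : -(c * (4 * J ^ 2 * Real.pi) * (K b y n + 1)) ≤
      ∑ m ∈ range n, T b y m * (tp n J c α β (m + 1) - tp n J c α β m) := by
    have e1 : ∀ m ∈ range n, -(c * (4 * J ^ 2 * Real.pi) / n) * T b y m ≤
        T b y m * (tp n J c α β (m + 1) - tp n J c α β m) := by
      intro m _
      have e2 := (abs_le.mp (tp_diff hn J c hc α β hα hβ m)).1
      have := mul_le_mul_of_nonneg_left e2 (hT m).le
      linarith
    have e4 := sum_le_sum e1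
    rw [← mul_sum] at e4
    have e5 := T_sum_le hb hy0 hy1 hirr (b := b) n
    have e6 : 0 ≤ c * (4 * J ^ 2 * Real.pi) / n := by positivity
    have e7 := mul_le_mul_of_nonneg_left e5 e6
    have e8 : c * (4 * J ^ 2 * Real.pi) / n * (n * (K b y n + 1)) =
        c * (4 * J ^ 2 * Real.pi) * (K b y n + 1) := by field_simp
    linarith
  have h4 : 0 ≤ T b y 0 * tp n J c α β 0 := mul_nonneg (hT 0).le (hg 0)
  have h5 : T b y n * tp n J c α β n ≤ (K b y n + 1) * (c * (1 + 4 * J)) :=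
    mul_le_mul (T_le hb hy0 hy1 n) (tp_le n J c α β hα hβ n) (hg n) (by positivity)
  have h6 := mul_le_mul_of_nonneg_left h2 (by linarith : (0 : ℝ) ≤ (b : ℝ) - 1)
  have h7 := mul_le_mul_of_nonneg_left h3 (by linarith : (0 : ℝ) ≤ (b : ℝ))
  linarith

/-- the error term -/
noncomputable def Err (b : ℕ) (y D' : ℝ) (n J : ℕ) : ℝ :=
  16 * J * t0 * (K b y n : ℝ) ^ 2 / n + (((b : ℝ) - 1) * (1 + 4 * J) * D' +
    (b * (4 * J ^ 2 * Real.pi) + (1 + 4 * J)) * (K b y n + 1))

include hb hy0 hy1 hirr hd0 hd hD in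
lemma main_ineq (J : ℕ) (hn : 8 * J ≤ n) (hn' : 0 < n) (hK : 0 < K b y n)
    (hX : t0 * (K b y n : ℝ) ^ 2 ≤ ((b : ℝ) - 1) * τ * n) (ρ : ℝ)
    (hErr : Err b y D' n J ≤ ρ * (K b y n : ℝ) ^ 2) (c : ℝ) (hc : 0 ≤ c) (α β : ℕ → ℝ)
    (hα : ∀ k, |α k| ≤ 2 * c) (hβ : ∀ k, |β k| ≤ 2 * c) (hg : ∀ m, 0 ≤ tp n J c α β m) :
    0 ≤ c * (1 - t0 + ρ) + ∑ k ∈ range J,
      (α k * (mA b y n (k + 1) ^ 2 - mB b y n (k + 1) ^ 2) +
        β k * (2 * mA b y n (k + 1) * mB b y n (k + 1) - t0 * lam (k + 1))) := by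
  have hn0 : (0 : ℝ) < n := by exact_mod_cast hn'
  have hK0 : (0 : ℝ) < K b y n := by exact_mod_cast hK
  have h1 := main_lower hb hy0 hy1 hirr hd0 hd hD hn' J c hc α β hα hβ hg
  have h2 := tp_sum_lower J hn c hc α β hα hβ
  set S := ∑ m ∈ range n, tp n J c α β m with hS
  have hS0 : 0 ≤ S := sum_nonneg fun m _ => hg m
  set L := ∑ k ∈ range J, β k * lam (k + 1) with hL
  set Kn : ℝ := (K b y n : ℝ) with hKn
  have ht0 : (0 : ℝ) < t0 := by norm_num [t0]
  have h3 : t0 * Kn ^ 2 * (c + L) - c * (16 * J * t0 * Kn ^ 2 / n) ≤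
      ((b : ℝ) - 1) * τ * S := by
    have e1 : t0 * Kn ^ 2 / n * S ≤ ((b : ℝ) - 1) * τ * S := by
      apply mul_le_mul_of_nonneg_right _ hS0
      rw [div_le_iff₀ hn0]
      exact hX
    have e2 := mul_le_mul_of_nonneg_left h2 (by positivity : 0 ≤ t0 * Kn ^ 2 / n)
    have e3 : t0 * Kn ^ 2 / n * (n * (c + L) - 16 * J * c) =
        t0 * Kn ^ 2 * (c + L) - c * (16 * J * t0 * Kn ^ 2 / n) := by
      field_simp
    linarith
  have h4 : ∑ k ∈ range J, (α k * ((F b y n (om n ^ (k + 1))) ^ 2).re +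
        β k * ((F b y n (om n ^ (k + 1))) ^ 2).im) = Kn ^ 2 * ∑ k ∈ range J,
        (α k * (mA b y n (k + 1) ^ 2 - mB b y n (k + 1) ^ 2) +
        β k * (2 * mA b y n (k + 1) * mB b y n (k + 1))) := by
    rw [mul_sum]
    refine sum_congr rfl fun k _ => ?_
    unfold mA mB
    rw [← hKn]
    generalize F b y n (om n ^ (k + 1)) = z
    rw [sq, Complex.mul_re, Complex.mul_im]
    field_simp
    ring
  have h5 : ∑ k ∈ range J, (α k * (mA b y n (k + 1) ^ 2 - mB b y n (k + 1) ^ 2) +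
        β k * (2 * mA b y n (k + 1) * mB b y n (k + 1) - t0 * lam (k + 1))) =
        ∑ k ∈ range J, (α k * (mA b y n (k + 1) ^ 2 - mB b y n (k + 1) ^ 2) +
        β k * (2 * mA b y n (k + 1) * mB b y n (k + 1))) - t0 * L := by
    rw [hL, mul_sum, ← sum_sub_distrib]
    refine sum_congr rfl fun k _ => ?_
    ring
  rw [h5]
  rw [h4] at h1
  set Z := ∑ k ∈ range J, (α k * (mA b y n (k + 1) ^ 2 - mB b y n (k + 1) ^ 2) +
        β k * (2 * mA b y n (k + 1) * mB b y n (k + 1))) with hZ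
  have h6 := mul_le_mul_of_nonneg_left hErr hc
  unfold Err at h6
  have h7 : 0 ≤ Kn ^ 2 * (c * (1 - t0 + ρ) + (Z - t0 * L)) := by linarith
  exact nonneg_of_mul_nonneg_right h7 (by positivity)

/-! ### the conditions -/

lemma num (k : ℕ) (h1 : 1 ≤ k) (h2 : k ≤ 12) :
    |(D12.par.t k : ℝ) - 1000000 * (t0 * lam k)| ≤ 52 / 100 := by
  have p1 := Real.pi_gt_d20
  have p2 := Real.pi_lt_d20
  have hpi := Real.pi_pos
  have key : ∀ (j t : ℝ), 0 < j → (t - 1 / 2) * (722 * j) * 3.14159265358979323847 ≤ 1250000000 →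
      1250000000 ≤ (t + 1 / 2) * (722 * j) * 3.14159265358979323846 → 1 ≤ t →
      |t - 1000000 * (625 / 722 * (2 / (Real.pi * j)))| ≤ 52 / 100 := by
    intro j t hj e1 e2 ht
    have e3 : (1000000 : ℝ) * (625 / 722 * (2 / (Real.pi * j))) =
        1250000000 / (722 * j * Real.pi) := by field_simp; norm_num
    rw [e3]
    have hden : 0 < 722 * j * Real.pi := by positivity
    have e4 : t - 1 / 2 ≤ 1250000000 / (722 * j * Real.pi) := by
      rw [le_div_iff₀ hden]
      have : (t - 1 / 2) * (722 * j) * Real.pi ≤ (t - 1 / 2) * (722 * j) *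
          3.14159265358979323847 := by
        apply mul_le_mul_of_nonneg_left p2.le
        apply mul_nonneg (by linarith) (by positivity)
      linarith
    have e5 : 1250000000 / (722 * j * Real.pi) ≤ t + 1 / 2 := by
      rw [div_le_iff₀ hden]
      have : (t + 1 / 2) * (722 * j) * 3.14159265358979323846 ≤ (t + 1 / 2) * (722 * j) *
          Real.pi := by
        apply mul_le_mul_of_nonneg_left p1.le
        positivity
      linarith
    rw [abs_le]
    constructor <;> linarith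
  unfold Par.t D12.par lam t0
  interval_cases k
  · norm_num
    have := key 1 551091 (by norm_num) (by norm_num) (by norm_num) (by norm_num)
    norm_num at this
    exact this
  · norm_num
  · norm_num
    have := key 3 183697 (by norm_num) (by norm_num) (by norm_num) (by norm_num)
    norm_num at this
    exact this
  · norm_num
  · norm_num
    have := key 5 110218 (by norm_num) (by norm_num) (by norm_num) (by norm_num)
    norm_num at this
    exact this
  · norm_num
  · norm_num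
    have := key 7 78727 (by norm_num) (by norm_num) (by norm_num) (by norm_num)
    norm_num at this
    exact this
  · norm_num
  · norm_num
    have := key 9 61232 (by norm_num) (by norm_num) (by norm_num) (by norm_num)
    norm_num at this
    exact this
  · norm_num
  · norm_num
    have := key 11 50099 (by norm_num) (by norm_num) (by norm_num) (by norm_num)
    norm_num at this
    exact this
  · norm_num

end

end Run7.h409.Dig
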