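import Mathlib

/-!
# Certificates for the non-existence of moments

`a k + i b k` (`1 ≤ k ≤ J`) are the moments `∫ e^{π i k x} dμ` of a probability measure on `[0, 1]`
and `(a k + i b k)^2 - i T k / D` are the moments of a positive measure of mass `S / D` on
`[0, 2]`.  A certificate is a binary tree; the inner nodes cut by half planes, the leaves contain
two nonnegative trigonometric polynomials and multipliers.
-/

set_option autoImplicit false

open Finset

namespace Run7.h409.Dig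

/-- the scale -/
def D : ℤ := 1000000

/-- real part of the sum of `a_i conj b_i` -/
def dr : List (ℤ × ℤ) → List (ℤ × ℤ) → ℤ
  | a :: s, c :: t => a.1 * c.1 + a.2 * c.2 + dr s t
  | _, _ => 0

/-- imaginary part of the sum of `a_i conj b_i` -/
def di : List (ℤ × ℤ) → List (ℤ × ℤ) → ℤ
  | a :: s, c :: t => a.2 * c.1 - a.1 * c.2 + di s t
  | _, _ => 0

/-- autocorrelation, real part -/
def cr (l : List (ℤ × ℤ)) (k : ℕ) : ℤ := dr (l.drop k) l
/-- autocorrelation, imaginary part -/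
def ci (l : List (ℤ × ℤ)) (k : ℕ) : ℤ := di (l.drop k) l

/-- the parameters: number of frequencies, mass, shifts -/
structure Par where
  J : ℕ
  S : ℤ
  T : List ℤ

/-- the shift of the frequency `k` -/
def Par.t (P : Par) (k : ℕ) : ℤ := P.T.getD k 0

/-- the conditions on the moments -/
structure Feas (P : Par) (a b : ℕ → ℝ) : Prop where
  f0 : 0 ≤ b 1
  f1 : ∀ h g : List (ℤ × ℤ), h.length ≤ P.J + 1 → g.length ≤ P.J →
    0 ≤ ((cr h 0 - ci g 1 : ℤ) : ℝ) + ∑ i ∈ range P.J,
      (((2 * cr h (i + 1) + ci g i - ci g (i + 2) : ℤ) : ℝ) * a (i + 1) +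
        ((-2 * ci h (i + 1) + cr g i - cr g (i + 2) : ℤ) : ℝ) * b (i + 1))
  f2 : ∀ q : List (ℤ × ℤ), q.length ≤ P.J + 1 →
    0 ≤ ((cr q 0 * P.S : ℤ) : ℝ) + ∑ i ∈ range P.J,
      (2 * (cr q (i + 1) : ℝ) * (D * (a (i + 1) ^ 2 - b (i + 1) ^ 2)) -
        2 * (ci q (i + 1) : ℝ) * (D * (2 * a (i + 1) * b (i + 1)) - P.t (i + 1)))
  f3 : ∀ k, 1 ≤ k → k ≤ P.J →
    (D : ℝ) ^ 2 * (a k ^ 2 + b k ^ 2) ^ 2 ≤
      (P.S : ℝ) ^ 2 - (P.t k : ℝ) ^ 2 + 4 * D * P.t k * (a k * b k)

/-- quadratic polynomial in two variables -/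
structure Q6 where
  c : ℤ
  a : ℤ
  b : ℤ
  aa : ℤ
  ab : ℤ
  bb : ℤ

/-- evaluation -/
def Q6.ev (q : Q6) (x y : ℝ) : ℝ :=
  q.c + q.a * x + q.b * y + q.aa * x ^ 2 + q.ab * (x * y) + q.bb * y ^ 2

/-- sum -/
def Q6.add (p q : Q6) : Q6 := ⟨p.c + q.c, p.a + q.a, p.b + q.b, p.aa + q.aa, p.ab + q.ab, p.bb + q.bb⟩

lemma Q6.ev_add (p q : Q6) (x y : ℝ) : (p.add q).ev x y = p.ev x y + q.ev x y := by
  unfold Q6.ev Q6.add
  push_cast
  ring

/-- multiple -/
def Q6.smul (w : ℤ) (q : Q6) : Q6 := ⟨w * q.c, w * q.a, w * q.b, w * q.aa, w * q.ab, w * q.bb⟩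

lemma Q6.ev_smul (w : ℤ) (q : Q6) (x y : ℝ) : (q.smul w).ev x y = w * q.ev x y := by
  unfold Q6.ev Q6.smul
  push_cast
  ring

/-- a line `p x + q y + r` -/
abbrev Ln := ℤ × ℤ × ℤ

/-- evaluation of a line -/
def lev (l : Ln) (x y : ℝ) : ℝ := l.1 * x + l.2.1 * y + l.2.2

/-- the line as a polynomial -/
def lq (l : Ln) : Q6 := ⟨l.2.2, l.1, l.2.1, 0, 0, 0⟩

lemma lq_ev (l : Ln) (x y : ℝ) : (lq l).ev x y = lev l x y := by
  unfold Q6.ev lq lev
  push_cast
  ring

/-- the product of two lines -/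
def lp (l m : Ln) : Q6 :=
  ⟨l.2.2 * m.2.2, l.1 * m.2.2 + l.2.2 * m.1, l.2.1 * m.2.2 + l.2.2 * m.2.1, l.1 * m.1,
    l.1 * m.2.1 + l.2.1 * m.1, l.2.1 * m.2.1⟩

lemma lp_ev (l m : Ln) (x y : ℝ) : (lp l m).ev x y = lev l x y * lev m x y := by
  unfold Q6.ev lp lev
  push_cast
  ring

/-- multipliers for one frequency -/
structure K1 where
  de : ℕ
  ka : ℤ
  lins : List (ℕ × ℕ)
  prods : List (ℕ × ℕ × ℕ)

/-- a leaf -/
structure Leaf where
  h : List (ℤ × ℤ)
  g : List (ℤ × ℤ)
  q : List (ℤ × ℤ)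
  ks : List K1

/-- a certificate -/
inductive Tree where
  | leaf (L : Leaf) : Tree
  | node (k : ℕ) (p q r : ℤ) (A B : Tree) : Tree

/-- the `i`-th line of the environment, if it belongs to the frequency `k` -/
def getL (env : List (ℕ × Ln)) (k i : ℕ) : Ln :=
  match env[i]? with
  | some e => if e.1 = k then e.2 else (0, 0, 0)
  | none => (0, 0, 0)

/-- the multipliers -/
def W1 : ℤ := 1000000000
/-- the multipliers -/
def W2 : ℤ := 1000
/-- the multipliers -/
def WL : ℤ := 100000000000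
/-- the multipliers -/
def WP : ℤ := 1000000000

/-- the contributions of the trigonometric polynomials -/
def base (P : Par) (L : Leaf) (i : ℕ) : Q6 :=
  ⟨W2 * (2 * ci L.q (i + 1) * P.t (i + 1)),
    W1 * (2 * cr L.h (i + 1) + ci L.g i - ci L.g (i + 2)),
    W1 * (-2 * ci L.h (i + 1) + cr L.g i - cr L.g (i + 2)),
    W2 * (2 * cr L.q (i + 1) * D), W2 * (-4 * ci L.q (i + 1) * D),
    W2 * (-2 * cr L.q (i + 1) * D)⟩

/-- the contribution of the bound for the modulus -/
def modq (P : Par) (k : ℕ) (de : ℕ) (ka : ℤ) : Q6 :=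
  ⟨de * (P.S * P.S - P.t k * P.t k + ka * ka), 0, 0, de * (-2 * ka * D), de * (4 * D * P.t k),
    de * (-2 * ka * D)⟩

/-- the contribution of the lines -/
def linq (env : List (ℕ × Ln)) (k : ℕ) : List (ℕ × ℕ) → Q6 → Q6
  | [], s => s
  | e :: l, s => linq env k l (s.add ((lq (getL env k e.1)).smul (WL * e.2)))

/-- the contribution of the products of lines -/
def prodq (env : List (ℕ × Ln)) (k : ℕ) : List (ℕ × ℕ × ℕ) → Q6 → Q6
  | [], s => s
  | e :: l, s => prodq env k l
      (s.add ((lp (getL env k e.1) (getL env k e.2.1)).smul (WP * e.2.2)))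

/-- upper bound for a quadratic polynomial -/
def bd (q : Q6) : Option ℤ :=
  if 0 < -q.aa ∧ 0 < 4 * q.aa * q.bb - q.ab * q.ab then
    some (q.c + ((-q.bb * q.a * q.a + q.ab * q.a * q.b - q.aa * q.b * q.b) /
      (4 * q.aa * q.bb - q.ab * q.ab) + 1))
  else none

/-- the sum over the frequencies -/
def go (P : Par) (env : List (ℕ × Ln)) (L : Leaf) : ℕ → List K1 → ℤ → Option ℤ
  | _, [], s => some s
  | i, d :: l, s =>
    match bd (prodq env (i + 1) d.prods (linq env (i + 1) d.lins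
        ((base P L i).add (modq P (i + 1) d.de d.ka)))) with
    | some v => go P env L (i + 1) l (s + v)
    | none => none

/-- the check of a leaf -/
def lcheck (P : Par) (env : List (ℕ × Ln)) (L : Leaf) : Bool :=
  decide (L.h.length ≤ P.J + 1) && decide (L.g.length ≤ P.J) && decide (L.q.length ≤ P.J + 1) &&
    decide (L.ks.length = P.J) &&
    match go P env L 0 L.ks (W1 * (cr L.h 0 - ci L.g 1) + W2 * (cr L.q 0 * P.S)) with
    | some v => decide (v < 0)
    | none => false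

/-- the check of a tree -/
def tcheck (P : Par) : List (ℕ × Ln) → Tree → Bool
  | env, .leaf L => lcheck P env L
  | env, .node k p q r A B => tcheck P ((k, (p, q, r)) :: env) A &&
      tcheck P ((k, (-p, -q, -r)) :: env) B

/-! ### soundness -/

lemma bd_sound {q : Q6} {v : ℤ} (h : bd q = some v) (x y : ℝ) : q.ev x y ≤ v := by
  unfold bd at h
  split_ifs at h with hc
  obtain ⟨h1, h2⟩ := hc
  have hv := Option.some.inj h
  set De : ℤ := 4 * q.aa * q.bb - q.ab * q.ab with hDe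
  set N : ℤ := -q.bb * q.a * q.a + q.ab * q.a * q.b - q.aa * q.b * q.b with hN
  set ψ : ℤ := N / De + 1 with hψ
  have h3 : N ≤ De * ψ := by
    have := Int.emod_add_mul_ediv N De
    have h4 := Int.emod_lt_of_pos N h2
    rw [hψ]
    nlinarith
  have h3R : (N : ℝ) ≤ De * ψ := by exact_mod_cast h3
  have h1R : (0 : ℝ) < -q.aa := by exact_mod_cast h1
  have h2R : (0 : ℝ) < De := by exact_mod_cast h2
  have hDeR : (De : ℝ) = 4 * q.aa * q.bb - q.ab * q.ab := by rw [hDe]; push_cast; ring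
  have hNR : (N : ℝ) = -q.bb * q.a * q.a + q.ab * q.a * q.b - q.aa * q.b * q.b := by
    rw [hN]; push_cast; ring
  have hvR : (v : ℝ) = q.c + ψ := by rw [← hv]; push_cast; ring
  unfold Q6.ev
  rw [hvR]
  have key : 0 ≤ 4 * (-(q.aa : ℝ)) * De * (ψ - (q.a * x + q.b * y + q.aa * x ^ 2 + q.ab * (x * y) +
      q.bb * y ^ 2)) := by
    have e : 4 * (-(q.aa : ℝ)) * De * (ψ - (q.a * x + q.b * y + q.aa * x ^ 2 + q.ab * (x * y) +
        q.bb * y ^ 2)) = De * (-2 * q.aa * x - q.ab * y - q.a) ^ 2 +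
        (De * y - (-2 * q.aa * q.b + q.ab * q.a)) ^ 2 + 4 * (-(q.aa : ℝ)) * (De * ψ - N) := by
      rw [hNR, hDeR]
      ring
    rw [e]
    have e1 : 0 ≤ (De : ℝ) * (-2 * q.aa * x - q.ab * y - q.a) ^ 2 :=
      mul_nonneg h2R.le (sq_nonneg _)
    have e2 : 0 ≤ 4 * (-(q.aa : ℝ)) * (De * ψ - N) := mul_nonneg (by linarith) (by linarith)
    have e3 := sq_nonneg ((De : ℝ) * y - (-2 * q.aa * q.b + q.ab * q.a))
    linarith
  have hpos : 0 < 4 * (-(q.aa : ℝ)) * De := by positivity
  have := nonneg_of_mul_nonneg_right key hpos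
  linarith

/-- the environment holds -/
def Env (a b : ℕ → ℝ) (env : List (ℕ × Ln)) : Prop :=
  ∀ e ∈ env, 0 ≤ lev e.2 (a e.1) (b e.1)

lemma getL_nonneg {a b : ℕ → ℝ} {env : List (ℕ × Ln)} (h : Env a b env) (k i : ℕ) :
    0 ≤ lev (getL env k i) (a k) (b k) := by
  unfold getL
  split
  · rename_i e he
    split_ifs with hk
    · have := h e (List.mem_of_getElem? he)
      rwa [hk] at this
    · simp [lev]
  · simp [lev]

lemma linq_le {a b : ℕ → ℝ} {env : List (ℕ × Ln)} (h : Env a b env) (k : ℕ)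
    (l : List (ℕ × ℕ)) : ∀ s : Q6, s.ev (a k) (b k) ≤ (linq env k l s).ev (a k) (b k) := by
  induction l with
  | nil => intro s; exact le_rfl
  | cons e l ih =>
    intro s
    refine le_trans ?_ (ih _)
    rw [Q6.ev_add, Q6.ev_smul, lq_ev]
    have h1 := getL_nonneg h k e.1
    have h2 : (0 : ℝ) ≤ ((WL * e.2 : ℤ) : ℝ) := by
      unfold WL
      push_cast
      positivity
    have := mul_nonneg h2 h1
    linarith

lemma prodq_le {a b : ℕ → ℝ} {env : List (ℕ × Ln)} (h : Env a b env) (k : ℕ)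
    (l : List (ℕ × ℕ × ℕ)) : ∀ s : Q6, s.ev (a k) (b k) ≤ (prodq env k l s).ev (a k) (b k) := by
  induction l with
  | nil => intro s; exact le_rfl
  | cons e l ih =>
    intro s
    refine le_trans ?_ (ih _)
    rw [Q6.ev_add, Q6.ev_smul, lp_ev]
    have h1 := mul_nonneg (getL_nonneg h k e.1) (getL_nonneg h k e.2.1)
    have h2 : (0 : ℝ) ≤ ((WP * e.2.2 : ℤ) : ℝ) := by
      unfold WP
      push_cast
      positivity
    have := mul_nonneg h2 h1
    linarith

lemma modq_nonneg {P : Par} {a b : ℕ → ℝ} (h : Feas P a b) {k : ℕ} (hk : 1 ≤ k) (hk' : k ≤ P.J)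
    (de : ℕ) (ka : ℤ) : 0 ≤ (modq P k de ka).ev (a k) (b k) := by
  have h1 := h.f3 k hk hk'
  have h2 := sq_nonneg ((D : ℝ) * (a k ^ 2 + b k ^ 2) - ka)
  unfold modq Q6.ev
  push_cast
  have h3 : (0 : ℝ) ≤ de := Nat.cast_nonneg _
  have h4 : (0 : ℝ) ≤ de * ((P.S : ℝ) ^ 2 - (P.t k : ℝ) ^ 2 + 4 * D * P.t k * (a k * b k) +
      (ka : ℝ) ^ 2 - 2 * ka * D * (a k ^ 2 + b k ^ 2)) := by
    apply mul_nonneg h3
    nlinarith
  linarith

lemma go_sound {P : Par} {a b : ℕ → ℝ} (h : Feas P a b) {env : List (ℕ × Ln)}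
    (he : Env a b env) (L : Leaf) (ks : List K1) : ∀ (i : ℕ) (s v : ℤ), i + ks.length ≤ P.J →
    go P env L i ks s = some v →
    (s : ℝ) + ∑ j ∈ range ks.length, (base P L (i + j)).ev (a (i + j + 1)) (b (i + j + 1)) ≤ v := by
  induction ks with
  | nil =>
    intro i s v _ h1
    unfold go at h1
    have := Option.some.inj h1
    simp [this]
  | cons d l ih =>
    intro i s v hi h1
    unfold go at h1
    rw [List.length_cons] at hi
    split at h1
    · rename_i w hw
      have h2 := ih (i + 1) (s + w) v (by omega) h1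
      have h3 := bd_sound hw (a (i + 1)) (b (i + 1))
      have h4 := (linq_le he (i + 1) d.lins
        ((base P L i).add (modq P (i + 1) d.de d.ka))).trans (prodq_le he (i + 1) d.prods _)
      rw [Q6.ev_add] at h4
      have h5 := modq_nonneg h (k := i + 1) (by omega) (by omega) d.de d.ka
      rw [List.length_cons, sum_range_succ']
      push_cast at h2
      have e : ∑ j ∈ range l.length, (base P L (i + (j + 1))).ev (a (i + (j + 1) + 1))
          (b (i + (j + 1) + 1)) = ∑ j ∈ range l.length, (base P L (i + 1 + j)).ev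
          (a (i + 1 + j + 1)) (b (i + 1 + j + 1)) := by
        refine sum_congr rfl fun j _ => ?_
        rw [show i + (j + 1) = i + 1 + j by ring]
      rw [e, add_zero]
      linarith
    · exact absurd h1 (by simp)

lemma lcheck_sound {P : Par} {a b : ℕ → ℝ} (h : Feas P a b) {env : List (ℕ × Ln)}
    (he : Env a b env) (L : Leaf) (hL : lcheck P env L = true) : False := by
  unfold lcheck at hL
  simp only [Bool.and_eq_true, decide_eq_true_eq] at hL
  obtain ⟨⟨⟨⟨h1, h2⟩, h3⟩, h4⟩, h5⟩ := hL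
  split at h5
  · rename_i v hv
    have h6 : v < 0 := by simpa using h5
    have h7 := go_sound h he L L.ks 0 _ v (by omega) hv
    have h6R : (v : ℝ) < 0 := by exact_mod_cast h6
    have g1 := h.f1 L.h L.g h1 h2
    have g2 := h.f2 L.q h3
    have hW1 : (0 : ℝ) < (W1 : ℝ) := by norm_num [W1]
    have hW2 : (0 : ℝ) < (W2 : ℝ) := by norm_num [W2]
    have g3 := mul_nonneg hW1.le g1
    have g4 := mul_nonneg hW2.le g2
    rw [h4] at h7
    have e : ∑ j ∈ range P.J, (base P L (0 + j)).ev (a (0 + j + 1)) (b (0 + j + 1)) =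
        W1 * ∑ i ∈ range P.J,
          (((2 * cr L.h (i + 1) + ci L.g i - ci L.g (i + 2) : ℤ) : ℝ) * a (i + 1) +
          ((-2 * ci L.h (i + 1) + cr L.g i - cr L.g (i + 2) : ℤ) : ℝ) * b (i + 1)) +
        W2 * ∑ i ∈ range P.J,
          (2 * (cr L.q (i + 1) : ℝ) * (D * (a (i + 1) ^ 2 - b (i + 1) ^ 2)) -
          2 * (ci L.q (i + 1) : ℝ) * (D * (2 * a (i + 1) * b (i + 1)) - P.t (i + 1))) := by
      rw [mul_sum, mul_sum, ← sum_add_distrib]
      refine sum_congr rfl fun i _ => ?_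
      rw [zero_add]
      unfold base Q6.ev
      push_cast
      ring
    rw [e] at h7
    push_cast at h7 g3 g4
    linarith
  · exact absurd h5 (by simp)

lemma tcheck_sound {P : Par} {a b : ℕ → ℝ} (h : Feas P a b) (t : Tree) :
    ∀ env : List (ℕ × Ln), Env a b env → tcheck P env t = true → False := by
  induction t with
  | leaf L => intro env he ht; exact lcheck_sound h he L ht
  | node k p q r A B ihA ihB =>
    intro env he ht
    unfold tcheck at ht
    rw [Bool.and_eq_true] at ht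
    rcases le_total 0 (lev (p, q, r) (a k) (b k)) with h1 | h1
    · refine ihA _ ?_ ht.1
      intro e hmem
      rcases List.mem_cons.mp hmem with rfl | h2
      · exact h1
      · exact he e h2
    · refine ihB _ ?_ ht.2
      intro e hmem
      rcases List.mem_cons.mp hmem with rfl | h2
      · unfold lev at h1 ⊢
        push_cast at h1 ⊢
        linarith
      · exact he e h2

/-- **Soundness.** -/
theorem sound {P : Par} {a b : ℕ → ℝ} (h : Feas P a b) (t : Tree)
    (ht : tcheck P [(1, (0, 100, 0))] t = true) : False := by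
  refine tcheck_sound h t _ ?_ ht
  intro e he
  rw [List.mem_singleton] at he
  subst he
  unfold lev
  have := h.f0
  push_cast
  linarith

end Run7.h409.Dig
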