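import Pool.Agent.Run7.h409.Dig.Core
import Pool.Agent.H820R3.DG.Quad

/-!
# Digit sums of quadratic irrationals
-/

set_option autoImplicit false
set_option linter.unusedSectionVars false

open Finset

namespace Run7.h409.Dig

open Pool.Agent.H394R2.Ones Pool.Agent.H820R3.DG

lemma t0_pos : (0 : ℝ) < t0 := by norm_num [t0]

section
variable {b : ℕ} {y : ℝ}

lemma f0_aux (n : ℕ) : 0 ≤ mB b y n 1 := by
  unfold mB
  apply div_nonneg _ (Nat.cast_nonneg _)
  have h := lin_eval (b := b) (y := y) n 1 0 (fun _ => 0) (fun _ => 1)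
  simp only [zero_mul, zero_add, sum_range_one, one_mul] at h
  rw [← h]
  refine sum_nonneg fun i hi => mul_nonneg (Nat.cast_nonneg _) ?_
  unfold tp
  simp only [zero_mul, zero_add, sum_range_one, one_mul, pow_one]
  exact om_im_nonneg (by have := mem_range.mp hi; omega)

lemma f1_aux (n J : ℕ) (hK : 0 < K b y n) (h g : List (ℤ × ℤ)) (hh : h.length ≤ J + 1)
    (hg : g.length ≤ J) :
    0 ≤ ((cr h 0 - ci g 1 : ℤ) : ℝ) + ∑ i ∈ range J,
      (((2 * cr h (i + 1) + ci g i - ci g (i + 2) : ℤ) : ℝ) * mA b y n (i + 1) +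
        ((-2 * ci h (i + 1) + cr g i - cr g (i + 2) : ℤ) : ℝ) * mB b y n (i + 1)) := by
  have hK0 : (0 : ℝ) < K b y n := by exact_mod_cast hK
  set c : ℝ := ((cr h 0 - ci g 1 : ℤ) : ℝ) with hc
  set α : ℕ → ℝ := fun i => ((2 * cr h (i + 1) + ci g i - ci g (i + 2) : ℤ) : ℝ) with hα
  set β : ℕ → ℝ := fun i => ((-2 * ci h (i + 1) + cr g i - cr g (i + 2) : ℤ) : ℝ) with hβ
  have e1 : ∀ i, tp n J c α β i = Complex.normSq (hv (om n ^ i) h) +
      (om n ^ i).im * Complex.normSq (hv (om n ^ i) g) := by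
    intro i
    rw [ac _ (normSq_om_pow n i) h J hh, ac_sin _ (normSq_om_pow n i) g J hg]
    unfold tp
    have e2 : ∑ k ∈ range J, (α k * ((om n ^ i) ^ (k + 1)).re + β k * ((om n ^ i) ^ (k + 1)).im) =
        ∑ k ∈ range J, (2 * (cr h (k + 1) : ℝ) * ((om n ^ i) ^ (k + 1)).re -
          2 * (ci h (k + 1) : ℝ) * ((om n ^ i) ^ (k + 1)).im) +
        ∑ k ∈ range J, (((ci g k - ci g (k + 2) : ℤ) : ℝ) * ((om n ^ i) ^ (k + 1)).re +
          ((cr g k - cr g (k + 2) : ℤ) : ℝ) * ((om n ^ i) ^ (k + 1)).im) := by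
      rw [← sum_add_distrib]
      refine sum_congr rfl fun k _ => ?_
      rw [hα, hβ]
      push_cast
      ring
    rw [e2, hc]
    push_cast
    ring
  have e3 := lin_eval (b := b) (y := y) n J c α β
  have e4 : 0 ≤ ∑ i ∈ range (n + 1), (x b y i : ℝ) * tp n J c α β i := by
    refine sum_nonneg fun i hi => mul_nonneg (Nat.cast_nonneg _) ?_
    rw [e1]
    have h1 := Complex.normSq_nonneg (hv (om n ^ i) h)
    have h2 := mul_nonneg (om_im_nonneg (n := n) (m := i) (by have := mem_range.mp hi; omega))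
      (Complex.normSq_nonneg (hv (om n ^ i) g))
    linarith
  rw [e3] at e4
  have e5 : c * (K b y n : ℝ) + ∑ k ∈ range J, (α k * (F b y n (om n ^ (k + 1))).re +
        β k * (F b y n (om n ^ (k + 1))).im) = K b y n * (c + ∑ i ∈ range J,
      (α i * mA b y n (i + 1) + β i * mB b y n (i + 1))) := by
    rw [mul_add, mul_sum, mul_comm c]
    congr 1
    refine sum_congr rfl fun k _ => ?_
    unfold mA mB
    field_simp
  rw [e5] at e4
  exact nonneg_of_mul_nonneg_right e4 hK0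

variable (hb : 2 ≤ b) (hy0 : 0 < y) (hy1 : y < 1) (hirr : Irrational y)
  {τ D' : ℝ} {n : ℕ} {d : ℕ → ℝ} (hd0 : ∀ m, 0 ≤ d m) (hd : ∀ m, τ - d m ≤ T b y m)
  (hD : ∑ m ∈ range n, d m ≤ D')

include hb hy0 hy1 hirr hd0 hd hD in
lemma feas (hn : 96 ≤ n) (hK : 0 < K b y n)
    (hX : t0 * (K b y n : ℝ) ^ 2 ≤ ((b : ℝ) - 1) * τ * n)
    (hErr : Err b y D' n 12 ≤ 7 / 100000 * (K b y n : ℝ) ^ 2) :
    Feas D12.par (mA b y n) (mB b y n) := by
  have hD6 : ((D : ℤ) : ℝ) = 1000000 := by norm_num [D]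
  have hS : (D12.par.S : ℝ) = 134438 := by norm_num [D12.par]
  have hJ : D12.par.J = 12 := rfl
  have main := main_ineq hb hy0 hy1 hirr hd0 hd hD 12 (by omega) (by omega) hK hX (7 / 100000)
    hErr
  refine ⟨f0_aux n, ?_, ?_, ?_⟩
  · intro h g hh hg
    rw [hJ] at hh hg ⊢
    exact f1_aux n 12 hK h g hh hg
  · intro q hq
    rw [hJ] at hq ⊢
    set c : ℝ := (cr q 0 : ℝ) with hc
    have hc0 : 0 ≤ c := by
      have := (abs_nonneg _).trans (cr_abs q 0)
      rw [hc]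
      exact_mod_cast this
    have hα : ∀ k, |2 * (cr q (k + 1) : ℝ)| ≤ 2 * c := by
      intro k
      rw [abs_mul, abs_two]
      have : |(cr q (k + 1) : ℝ)| ≤ c := by rw [hc]; exact_mod_cast cr_abs q (k + 1)
      linarith
    have hβ : ∀ k, |-(2 * (ci q (k + 1) : ℝ))| ≤ 2 * c := by
      intro k
      rw [abs_neg, abs_mul, abs_two]
      have : |(ci q (k + 1) : ℝ)| ≤ c := by rw [hc]; exact_mod_cast ci_abs q (k + 1)
      linarith
    have h1 := main c hc0 (fun k => 2 * (cr q (k + 1) : ℝ)) (fun k => -(2 * (ci q (k + 1) : ℝ)))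
      hα hβ (by
        intro m
        have e : tp n 12 c (fun k => 2 * (cr q (k + 1) : ℝ)) (fun k => -(2 * (ci q (k + 1) : ℝ))) m
            = Complex.normSq (hv (om n ^ m) q) := by
          rw [ac _ (normSq_om_pow n m) q 12 hq]
          unfold tp
          rw [hc]
          congr 1
          refine sum_congr rfl fun k _ => ?_
          ring
        rw [e]
        exact Complex.normSq_nonneg _)
    have h2 : ∀ k ∈ range 12, 1000000 * (2 * (cr q (k + 1) : ℝ) *
          (mA b y n (k + 1) ^ 2 - mB b y n (k + 1) ^ 2) + -(2 * (ci q (k + 1) : ℝ)) *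
          (2 * mA b y n (k + 1) * mB b y n (k + 1) - t0 * lam (k + 1))) - 104 / 100 * c ≤
        2 * (cr q (k + 1) : ℝ) * (D * (mA b y n (k + 1) ^ 2 - mB b y n (k + 1) ^ 2)) -
        2 * (ci q (k + 1) : ℝ) * (D * (2 * mA b y n (k + 1) * mB b y n (k + 1)) -
          D12.par.t (k + 1)) := by
      intro k hk
      have hk' := mem_range.mp hk
      have e1 := num (k + 1) (by omega) (by omega)
      have e2 : |(ci q (k + 1) : ℝ)| ≤ c := by rw [hc]; exact_mod_cast ci_abs q (k + 1)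
      have e3 : |(ci q (k + 1) : ℝ) * ((D12.par.t (k + 1) : ℝ) - 1000000 * (t0 * lam (k + 1)))| ≤
          c * (52 / 100) := by
        rw [abs_mul]
        exact mul_le_mul e2 e1 (abs_nonneg _) hc0
      have e4 := (abs_le.mp e3).1
      rw [hD6]
      linarith
    have h3 := sum_le_sum h2
    rw [sum_sub_distrib, ← mul_sum, sum_const, card_range, nsmul_eq_mul] at h3
    push_cast at h3 ⊢
    rw [hS]
    have h4 : 1000000 * (c * (1 - t0 + 7 / 100000)) + 12 * (104 / 100 * c) ≤ c * 134438 := by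
      unfold t0
      nlinarith
    linarith
  · intro k hk1 hk2
    rw [hJ] at hk2
    rw [hD6, hS]
    set A := mA b y n k with hA
    set B := mB b y n k with hB
    set X : ℝ := 1000000 * (A ^ 2 - B ^ 2) with hXd
    set Y : ℝ := 1000000 * (2 * A * B) - D12.par.t k with hYd
    have hunit : ∀ u v : ℝ, u ^ 2 + v ^ 2 = 1 → u * X + v * Y ≤ 134438 := by
      intro u v huv
      have hu : |u| ≤ 1 := by
        apply abs_le_of_sq_le_sq' _ (by norm_num) |> abs_le.mpr
        nlinarith [sq_nonneg v]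
      have hv' : |v| ≤ 1 := by
        apply abs_le_of_sq_le_sq' _ (by norm_num) |> abs_le.mpr
        nlinarith [sq_nonneg u]
      obtain ⟨j, hj⟩ : ∃ j, k = j + 1 := ⟨k - 1, by omega⟩
      have hjJ : j ∈ range 12 := mem_range.mpr (by omega)
      have h1 := main 1 zero_le_one (fun i => if i = j then -u else 0)
        (fun i => if i = j then -v else 0)
        (by intro i; split_ifs
            · rw [abs_neg]; linarith
            · simp)
        (by intro i; split_ifs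
            · rw [abs_neg]; linarith
            · simp)
        (by
          intro m
          unfold tp
          have e1 : ∑ i ∈ range 12, ((if i = j then -u else 0) * ((om n ^ m) ^ (i + 1)).re +
              (if i = j then -v else 0) * ((om n ^ m) ^ (i + 1)).im) =
              -u * ((om n ^ m) ^ (j + 1)).re + -v * ((om n ^ m) ^ (j + 1)).im := by
            rw [sum_eq_single_of_mem j hjJ]
            · simp
            · intro i _ hij
              simp [hij]
          rw [e1]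
          have e2 : Complex.normSq ((om n ^ m) ^ (j + 1)) = 1 := by
            rw [← pow_mul]; exact normSq_om_pow n _
          rw [Complex.normSq_apply] at e2
          nlinarith [sq_nonneg (u - ((om n ^ m) ^ (j + 1)).re),
            sq_nonneg (v - ((om n ^ m) ^ (j + 1)).im)])
      have e1 : ∑ i ∈ range 12, ((if i = j then -u else 0) *
          (mA b y n (i + 1) ^ 2 - mB b y n (i + 1) ^ 2) + (if i = j then -v else 0) *
          (2 * mA b y n (i + 1) * mB b y n (i + 1) - t0 * lam (i + 1))) =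
          -u * (A ^ 2 - B ^ 2) + -v * (2 * A * B - t0 * lam k) := by
        rw [sum_eq_single_of_mem j hjJ]
        · rw [hA, hB, hj]
          simp
        · intro i _ hij
          simp [hij]
      rw [e1] at h1
      have e2 := num k hk1 hk2
      have e3 : |v * ((D12.par.t k : ℝ) - 1000000 * (t0 * lam k))| ≤ 1 * (52 / 100) := by
        rw [abs_mul]
        exact mul_le_mul hv' e2 (abs_nonneg _) zero_le_one
      have e4 := (abs_le.mp e3).1
      rw [hXd, hYd]
      unfold t0 at h1 e4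
      linarith
    have hr : X ^ 2 + Y ^ 2 ≤ 134438 ^ 2 := by
      rcases eq_or_ne (X ^ 2 + Y ^ 2) 0 with h0 | h0
      · rw [h0]; norm_num
      · have hpos : 0 < X ^ 2 + Y ^ 2 := lt_of_le_of_ne (by positivity) (Ne.symm h0)
        set r := Real.sqrt (X ^ 2 + Y ^ 2) with hr
        have hr0 : 0 < r := Real.sqrt_pos.mpr hpos
        have hr2 : r ^ 2 = X ^ 2 + Y ^ 2 := Real.sq_sqrt hpos.le
        have h1 := hunit (X / r) (Y / r) (by
          rw [div_pow, div_pow, ← add_div, ← hr2, div_self (by positivity)])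
        have h2 : X / r * X + Y / r * Y = r := by
          field_simp
          linarith
        rw [h2] at h1
        rw [← hr2]
        exact pow_le_pow_left₀ hr0.le h1 2
    rw [hXd, hYd] at hr
    nlinarith

lemma small (X : ℝ) (hX : 0 < X) (C ε : ℝ) (hC : 0 ≤ C) (hε : 0 < ε) :
    ∃ n0 : ℕ, ∀ n : ℕ, n0 ≤ n → t0 * (K b y n : ℝ) ^ 2 ≤ X * n →
      C * (K b y n + 1) ≤ ε * n := by
  obtain ⟨n0, hn0⟩ := exists_nat_ge (C ^ 2 * (2 * (X / t0) + 2) / ε ^ 2)
  refine ⟨n0 + 1, fun n hn h => ?_⟩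
  have ht := t0_pos
  have hn1 : (1 : ℝ) ≤ n := by exact_mod_cast (by omega : 1 ≤ n)
  have hn2 : C ^ 2 * (2 * (X / t0) + 2) ≤ ε ^ 2 * n := by
    rw [div_le_iff₀ (by positivity)] at hn0
    have : (n0 : ℝ) ≤ n := by exact_mod_cast (by omega : n0 ≤ n)
    nlinarith [sq_nonneg ε, mul_le_mul_of_nonneg_left this (sq_nonneg ε)]
  have hK : (K b y n : ℝ) ^ 2 ≤ X / t0 * n := by
    rw [div_mul_eq_mul_div, le_div_iff₀ ht]
    linarith
  have h1 : ((K b y n : ℝ) + 1) ^ 2 ≤ (2 * (X / t0) + 2) * n := by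
    nlinarith [sq_nonneg ((K b y n : ℝ) - 1)]
  apply le_of_sq_le_sq _ (by positivity)
  calc (C * ((K b y n : ℝ) + 1)) ^ 2 = C ^ 2 * ((K b y n : ℝ) + 1) ^ 2 := by ring
    _ ≤ C ^ 2 * ((2 * (X / t0) + 2) * n) := mul_le_mul_of_nonneg_left h1 (sq_nonneg _)
    _ = C ^ 2 * (2 * (X / t0) + 2) * n := by ring
    _ ≤ ε ^ 2 * n * n := mul_le_mul_of_nonneg_right hn2 (by positivity)
    _ = (ε * n) ^ 2 := by ring

/-- **The main inequality.** -/
theorem core (hb : 2 ≤ b) (hy0 : 0 < y) (hy1 : y < 1) (hirr : Irrational y)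
    {τ : ℝ} (hτ : 0 < τ) {d : ℕ → ℝ} (hd0 : ∀ m, 0 ≤ d m) (hd : ∀ m, τ - d m ≤ T b y m)
    (hD : ∀ δ : ℝ, 0 < δ → ∃ C : ℝ, 0 ≤ C ∧ ∀ n : ℕ,
      ∑ m ∈ range n, d m ≤ C * (K b y n + 1) + δ * n) :
    ∃ n0 : ℕ, ∀ n : ℕ, n0 ≤ n → ((b : ℝ) - 1) * τ * n < t0 * (K b y n : ℝ) ^ 2 := by
  have hbR : (2 : ℝ) ≤ b := by exact_mod_cast hb
  set X : ℝ := ((b : ℝ) - 1) * τ with hXd
  have hX : 0 < X := mul_pos (by linarith) hτ
  have hpi := Real.pi_pos
  set δ : ℝ := 7 / 100000 * X / (400 * b) with hδ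
  have hδ0 : 0 < δ := by positivity
  have hδb : (b : ℝ) * δ = 7 / 100000 * X / 400 := by
    rw [hδ]; field_simp
  obtain ⟨C, hC0, hC⟩ := hD δ hδ0
  obtain ⟨n1, h1⟩ := small (b := b) (y := y) X hX (((b : ℝ) - 1) * C + 1) (X / 8)
    (by have : 0 ≤ ((b : ℝ) - 1) * C := mul_nonneg (by linarith) hC0
        linarith) (by positivity)
  obtain ⟨n2, h2⟩ := small (b := b) (y := y) X hX
    (((b : ℝ) - 1) * 49 * C + (b * (4 * 12 ^ 2 * Real.pi) + 49)) (7 / 100000 * X / 8)
    (by have : 0 ≤ ((b : ℝ) - 1) * 49 * C := mul_nonneg (by linarith) hC0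
        have : 0 ≤ (b : ℝ) * (4 * 12 ^ 2 * Real.pi) := by positivity
        linarith) (by positivity)
  refine ⟨n1 + n2 + 20000000, fun n hn => ?_⟩
  by_contra hcon
  push Not at hcon
  have hn0 : (20000000 : ℝ) ≤ n := by exact_mod_cast (by omega : 20000000 ≤ n)
  have hnpos : (0 : ℝ) < n := by linarith
  have g1 := h1 n (by omega) hcon
  have g2 := h2 n (by omega) hcon
  have g3 := hC n
  set D' : ℝ := C * (K b y n + 1) + δ * n with hD'
  have hK0 : (0 : ℝ) ≤ K b y n := Nat.cast_nonneg _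
  have hlow := main_lower hb hy0 hy1 hirr hd0 hd g3 (by omega : 0 < n) 0 1 zero_le_one
    (fun _ => 0) (fun _ => 0) (by intro k; simp) (by intro k; simp)
    (by intro m; unfold tp; simp)
  have e1 : ∑ m ∈ range n, tp n 0 1 (fun _ => 0) (fun _ => 0) m = n := by
    unfold tp
    simp
  rw [e1] at hlow
  simp only [range_zero, sum_empty, Nat.cast_zero, mul_zero, add_zero, one_mul, mul_one,
    zero_mul, ne_eq, OfNat.ofNat_ne_zero, not_false_eq_true, zero_pow, zero_add] at hlow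
  have hbδ : ((b : ℝ) - 1) * (δ * n) ≤ 7 / 100000 * X / 400 * n := by
    rw [← mul_assoc]
    apply mul_le_mul_of_nonneg_right _ hnpos.le
    nlinarith
  have hXn : 0 < X * n := by positivity
  have hK2 : X * n / 2 ≤ (K b y n : ℝ) ^ 2 := by
    have e2 : ((b : ℝ) - 1) * D' = ((b : ℝ) - 1) * C * (K b y n + 1) +
        ((b : ℝ) - 1) * (δ * n) := by rw [hD']; ring
    rw [e2] at hlow
    have e3 : (((b : ℝ) - 1) * C + 1) * (K b y n + 1) = ((b : ℝ) - 1) * C * (K b y n + 1) +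
        (K b y n + 1) := by ring
    rw [e3] at g1
    nlinarith
  have hKpos : 0 < K b y n := by
    rcases Nat.eq_zero_or_pos (K b y n) with h | h
    · rw [h] at hK2
      norm_num at hK2
      linarith
    · exact h
  have hErr : Err b y D' n 12 ≤ 7 / 100000 * (K b y n : ℝ) ^ 2 := by
    unfold Err
    have e2 : ((b : ℝ) - 1) * (1 + 4 * (12 : ℕ)) * D' = ((b : ℝ) - 1) * 49 * C * (K b y n + 1) +
        49 * (((b : ℝ) - 1) * (δ * n)) := by rw [hD']; push_cast; ring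
    have e3 : 16 * ((12 : ℕ) : ℝ) * t0 * (K b y n : ℝ) ^ 2 / n ≤
        7 / 100000 / 4 * (K b y n : ℝ) ^ 2 := by
      rw [div_le_iff₀ hnpos]
      unfold t0
      push_cast
      have : (K b y n : ℝ) ^ 2 * 20000000 ≤ (K b y n : ℝ) ^ 2 * n :=
        mul_le_mul_of_nonneg_left hn0 (sq_nonneg _)
      nlinarith [sq_nonneg (K b y n : ℝ)]
    have e4 : (((b : ℝ) - 1) * 49 * C + (b * (4 * 12 ^ 2 * Real.pi) + 49)) * (K b y n + 1) =
        ((b : ℝ) - 1) * 49 * C * (K b y n + 1) +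
        (b * (4 * 12 ^ 2 * Real.pi) + 49) * (K b y n + 1) := by ring
    rw [e4] at g2
    rw [e2]
    push_cast at e3 ⊢
    nlinarith
  exact sound (feas hb hy0 hy1 hirr hd0 hd g3 (by omega) hKpos hcon hErr) D12.tree D12.tree_ok

/-- digit sums of quadratic irrationals in `(0, 1)` -/
theorem quad_main152 (hb : 2 ≤ b) (hy0 : 0 < y) (hy1 : y < 1) (hirr : Irrational y) {A B C : ℤ}
    (hA : 0 < A) (hq : (A : ℝ) * y ^ 2 + B * y + C = 0) :
    ∃ n0 : ℕ, ∀ n : ℕ, n0 ≤ n →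
      38 / 25 * Real.sqrt (((b : ℝ) - 1) * (Int.gcd b (2 * A) : ℕ) / (2 * A)) * Real.sqrt n <
        K b y n := by
  have hbR : (2 : ℝ) ≤ b := by exact_mod_cast hb
  have hAR : (1 : ℝ) ≤ A := by exact_mod_cast hA
  have halg : IsAlgebraic ℚ y := by
    refine ⟨Polynomial.C (A : ℚ) * Polynomial.X ^ 2 + Polynomial.C (B : ℚ) * Polynomial.X +
      Polynomial.C (C : ℚ), ?_, ?_⟩
    · intro h
      have h1 := congrArg (fun p => Polynomial.coeff p 2) h
      simp only [Polynomial.coeff_add, Polynomial.coeff_C_mul, Polynomial.coeff_X_pow,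
        Polynomial.coeff_X, Polynomial.coeff_C, Polynomial.coeff_zero] at h1
      norm_num at h1
      omega
    · simp only [map_add, map_mul, map_pow, Polynomial.aeval_X, Polynomial.aeval_C]
      simpa using hq
  set g : ℕ := Int.gcd b (2 * A) with hg
  have hgpos : 0 < g := Int.gcd_pos_of_ne_zero_left _ (by exact_mod_cast (by omega : b ≠ 0))
  have hgR : (0 : ℝ) < g := by exact_mod_cast hgpos
  set τ : ℝ := (g : ℝ) / A with hτ
  have hτ0 : 0 < τ := by positivity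
  have hB0 : 0 ≤ |(B : ℝ)| := abs_nonneg _
  obtain ⟨n0, hn0⟩ := core hb hy0 hy1 hirr hτ0 (d := dd b y τ |(B : ℝ)|)
    (fun m => dd_nonneg hy0 hτ0.le hB0 m) (fun m => T_lower' hb hy0 hy1 hirr hA hq m) (by
      intro δ0 hδ0
      set δ : ℝ := min (1 / 4) (δ0 / τ) with hδ
      have hδp : 0 < δ := by positivity
      have hδ1 : δ ≤ 1 / 4 := min_le_left _ _
      have hδ2 : τ * δ ≤ δ0 := by
        have : δ ≤ δ0 / τ := min_le_right _ _
        rw [le_div_iff₀ hτ0] at this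
        linarith
      obtain ⟨C1, hC10, hC1⟩ := bad_count hb hy0 hy1 halg hirr |(B : ℝ)| δ hδp hδ1
      refine ⟨|(B : ℝ)| + 2 * τ + τ * C1 + τ, by positivity, fun n => ?_⟩
      have hK : (0 : ℝ) ≤ K b y n := Nat.cast_nonneg _
      have hnn : (0 : ℝ) ≤ n := Nat.cast_nonneg _
      unfold dd
      rw [sum_add_distrib, sum_add_distrib, sum_add_distrib, ← mul_sum, ← mul_sum, ← mul_sum,
        sum_add_distrib]
      have h1 := ep_sum (b := b) hb hy0 hy1 n
      have h2 : (∑ m ∈ range n, (x b y m : ℝ)) ≤ K b y n := by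
        unfold K
        exact_mod_cast sum_le_sum_of_subset (range_mono (Nat.le_succ n))
      have h3 : (∑ m ∈ range n, (exc b y m : ℝ)) ≤ K b y n := by
        exact_mod_cast exc_sum b y n
      have h4 : (∑ m ∈ range n, (if T b y m ≤ |(B : ℝ)| * ep b y m then (1 : ℝ) else 0)) ≤
          C1 * (K b y n + 1) + δ * n := by
        have h5 := hC1 n
        rw [card_filter] at h5
        push_cast at h5
        exact h5
      have h5 := few_sum 0 n τ hτ0.le
      rw [Nat.cast_zero, zero_add, mul_one] at h5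
      have h6 := mul_le_mul_of_nonneg_left h1 hB0
      have h7 := mul_le_mul_of_nonneg_left (add_le_add h2 h3) hτ0.le
      have h8 := mul_le_mul_of_nonneg_left h4 hτ0.le
      have h9 : 0 ≤ τ * K b y n := mul_nonneg hτ0.le hK
      have h10 : τ * (δ * n) ≤ δ0 * n := by
        rw [← mul_assoc]
        exact mul_le_mul_of_nonneg_right hδ2 hnn
      have e : (|(B : ℝ)| + 2 * τ + τ * C1 + τ) * ((K b y n : ℝ) + 1) =
          |(B : ℝ)| * (K b y n + 1) + 2 * (τ * K b y n) + 2 * τ +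
          τ * (C1 * (K b y n + 1)) + τ * K b y n + τ := by ring
      rw [e]
      linarith)
  refine ⟨max 1 n0, fun n hn => ?_⟩
  have hn1 : 1 ≤ n := (le_max_left _ _).trans hn
  have h1 := hn0 n ((le_max_right _ _).trans hn)
  have hK : (0 : ℝ) ≤ K b y n := Nat.cast_nonneg _
  have hnn : (0 : ℝ) ≤ n := Nat.cast_nonneg _
  have hin : 0 ≤ ((b : ℝ) - 1) * g / (2 * A) := by
    apply div_nonneg _ (by linarith)
    exact mul_nonneg (by linarith) hgR.le
  apply lt_of_pow_lt_pow_left₀ 2 hK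
  rw [mul_pow, mul_pow, Real.sq_sqrt hin, Real.sq_sqrt hnn]
  unfold t0 at h1
  have e1 : ((b : ℝ) - 1) * τ * n = ((b : ℝ) - 1) * g / (2 * A) * n * 2 := by
    rw [hτ]
    field_simp
  rw [e1] at h1
  nlinarith

end

/-- digit sums of real quadratic irrationals -/
theorem quad_real152 {b : ℕ} (hb : 2 ≤ b) {A B C : ℤ} (hA : 0 < A) {ξ : ℝ} (hirr : Irrational ξ)
    (hq : (A : ℝ) * ξ ^ 2 + B * ξ + C = 0) :
    ∃ n0 : ℕ, ∀ n : ℕ, n0 ≤ n →
      38 / 25 * Real.sqrt (((b : ℝ) - 1) * (Int.gcd b (2 * A) : ℕ) / (2 * A)) * Real.sqrt n <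
        ((∑ k ∈ range n, ⌊ξ * (b : ℝ) ^ (k + 1)⌋ % (b : ℤ) : ℤ) : ℝ) := by
  set y : ℝ := Int.fract ξ with hy
  have hξ : ξ = ⌊ξ⌋ + y := (Int.floor_add_fract ξ).symm
  have hyirr : Irrational y := by
    have : y = ξ - (⌊ξ⌋ : ℤ) := rfl
    rw [this]
    exact hirr.sub_intCast _
  have hy0 : 0 < y := lt_of_le_of_ne (Int.fract_nonneg ξ) (Ne.symm hyirr.ne_zero)
  have hy1 : y < 1 := Int.fract_lt_one ξ
  have hq' : (A : ℝ) * y ^ 2 + ((B + 2 * A * ⌊ξ⌋ : ℤ) : ℝ) * y +
      ((C + B * ⌊ξ⌋ + A * ⌊ξ⌋ ^ 2 : ℤ) : ℝ) = 0 := by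
    have h1 : (A : ℝ) * (⌊ξ⌋ + y) ^ 2 + B * (⌊ξ⌋ + y) + C = 0 := by rw [← hξ]; exact hq
    push_cast
    linarith
  obtain ⟨n0, hn0⟩ := quad_main152 hb hy0 hy1 hyirr hA hq'
  refine ⟨n0, fun n hn => (hn0 n hn).trans_le (le_of_eq ?_)⟩
  have hdig : ∀ k : ℕ, ⌊ξ * (b : ℝ) ^ (k + 1)⌋ % (b : ℤ) = (x b y (k + 1) : ℤ) := by
    intro k
    have h1 : ξ * (b : ℝ) ^ (k + 1) = ((⌊ξ⌋ * (b : ℤ) ^ (k + 1) : ℤ) : ℝ) +
        y * (b : ℝ) ^ (k + 1) := by
      nth_rewrite 1 [hξ]
      push_cast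
      ring
    rw [h1, Int.floor_intCast_add]
    unfold x Pool.Agent.H394R2.Ones.B
    push_cast
    rw [Int.natCast_floor_eq_floor (by positivity)]
    rw [show ⌊ξ⌋ * (b : ℤ) ^ (k + 1) + ⌊y * (b : ℝ) ^ (k + 1)⌋ =
      ⌊y * (b : ℝ) ^ (k + 1)⌋ + (b : ℤ) * (⌊ξ⌋ * (b : ℤ) ^ k) by ring, Int.add_mul_emod_self_left]
  simp only [hdig]
  unfold K
  rw [sum_range_succ']
  rw [x_zero hy0 hy1, add_zero]
  push_cast
  rfl

end Run7.h409.Dig
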