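import Pool.Agent.Run7.h409.Dig.Trig
import Pool.Agent.H820R3.DG.Four

/-!
# The inequality between the moments
-/

set_option autoImplicit false
set_option linter.unusedSectionVars false

open Finset

namespace Run7.h409.Dig

open Pool.Agent.H394R2.Ones

/-- the root of unity of order `2 n` -/
noncomputable def om (n : ℕ) : ℂ := Complex.exp (((Real.pi / n : ℝ) : ℂ) * Complex.I)

lemma norm_om (n : ℕ) : ‖om n‖ = 1 := Complex.norm_exp_ofReal_mul_I _

lemma norm_om_pow (n m : ℕ) : ‖om n ^ m‖ = 1 := by rw [norm_pow, norm_om, one_pow]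

lemma normSq_om_pow (n m : ℕ) : Complex.normSq (om n ^ m) = 1 := by
  rw [Complex.normSq_eq_norm_sq, norm_om_pow, one_pow]

lemma om_pow (n m : ℕ) : om n ^ m = Complex.exp (((m * (Real.pi / n) : ℝ) : ℂ) * Complex.I) := by
  unfold om
  rw [← Complex.exp_nat_mul]
  congr 1
  push_cast
  ring

lemma om_pow_im (n m : ℕ) : (om n ^ m).im = Real.sin (m * (Real.pi / n)) := by
  rw [om_pow]
  generalize (m : ℝ) * (Real.pi / n) = t
  rw [Complex.exp_mul_I]
  have e1 := Complex.cos_ofReal_re t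
  have e2 := Complex.sin_ofReal_re t
  simp [e2]

lemma om_im_nonneg {n m : ℕ} (h : m ≤ n) : 0 ≤ (om n ^ m).im := by
  rw [om_pow_im]
  rcases Nat.eq_zero_or_pos n with hn | hn
  · subst hn
    simp
  · apply Real.sin_nonneg_of_nonneg_of_le_pi
    · have := Real.pi_pos; positivity
    · have hn0 : (0 : ℝ) < n := by exact_mod_cast hn
      have h1 : (m : ℝ) * (Real.pi / n) = Real.pi * (m / n) := by ring
      rw [h1]
      have h2 : (m : ℝ) / n ≤ 1 := by rw [div_le_one hn0]; exact_mod_cast h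
      have := Real.pi_pos
      nlinarith

/-- a trigonometric polynomial -/
noncomputable def tp (n J : ℕ) (c : ℝ) (α β : ℕ → ℝ) (m : ℕ) : ℝ :=
  c + ∑ k ∈ range J, (α k * ((om n ^ m) ^ (k + 1)).re + β k * ((om n ^ m) ^ (k + 1)).im)

section
variable {b : ℕ} {y : ℝ}

lemma lin_eval (n J : ℕ) (c : ℝ) (α β : ℕ → ℝ) :
    ∑ i ∈ range (n + 1), (x b y i : ℝ) * tp n J c α β i =
      c * K b y n + ∑ k ∈ range J, (α k * (F b y n (om n ^ (k + 1))).re +
        β k * (F b y n (om n ^ (k + 1))).im) := by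
  unfold tp
  have h1 : ∀ i, (x b y i : ℝ) * (c + ∑ k ∈ range J, (α k * ((om n ^ i) ^ (k + 1)).re +
      β k * ((om n ^ i) ^ (k + 1)).im)) = c * x b y i + ∑ k ∈ range J,
        (α k * ((x b y i : ℂ) * (om n ^ (k + 1)) ^ i).re +
        β k * ((x b y i : ℂ) * (om n ^ (k + 1)) ^ i).im) := by
    intro i
    rw [mul_add, mul_sum]
    congr 1
    · ring
    · refine sum_congr rfl fun k _ => ?_
      rw [← pow_mul, ← pow_mul, mul_comm i (k + 1)]
      generalize om n ^ ((k + 1) * i) = z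
      simp only [Complex.mul_re, Complex.mul_im, Complex.natCast_re, Complex.natCast_im]
      ring
  simp only [h1]
  rw [sum_add_distrib, ← mul_sum, sum_comm]
  congr 1
  · unfold K
    push_cast
    rfl
  · refine sum_congr rfl fun k _ => ?_
    rw [sum_add_distrib, ← mul_sum, ← mul_sum]
    unfold F
    rw [Complex.re_sum, Complex.im_sum]

lemma pair_eval (n J : ℕ) (c : ℝ) (α β : ℕ → ℝ) :
    ∑ p ∈ range (n + 1) ×ˢ range (n + 1), ((x b y p.1 : ℝ) * x b y p.2) *
        tp n J c α β (p.1 + p.2) =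
      c * (K b y n : ℝ) ^ 2 + ∑ k ∈ range J, (α k * ((F b y n (om n ^ (k + 1))) ^ 2).re +
        β k * ((F b y n (om n ^ (k + 1))) ^ 2).im) := by
  unfold tp
  have h1 : ∀ p : ℕ × ℕ, ((x b y p.1 : ℝ) * x b y p.2) * (c + ∑ k ∈ range J,
      (α k * ((om n ^ (p.1 + p.2)) ^ (k + 1)).re + β k * ((om n ^ (p.1 + p.2)) ^ (k + 1)).im)) =
      c * (x b y p.1 * x b y p.2) + ∑ k ∈ range J,
        (α k * (((x b y p.1 : ℂ) * (om n ^ (k + 1)) ^ p.1) *
          ((x b y p.2 : ℂ) * (om n ^ (k + 1)) ^ p.2)).re +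
        β k * (((x b y p.1 : ℂ) * (om n ^ (k + 1)) ^ p.1) *
          ((x b y p.2 : ℂ) * (om n ^ (k + 1)) ^ p.2)).im) := by
    intro p
    rw [mul_add, mul_sum]
    congr 1
    · ring
    · refine sum_congr rfl fun k _ => ?_
      have e : ((x b y p.1 : ℂ) * (om n ^ (k + 1)) ^ p.1) *
          ((x b y p.2 : ℂ) * (om n ^ (k + 1)) ^ p.2) =
          (((x b y p.1 * x b y p.2 : ℝ)) : ℂ) * (om n ^ (p.1 + p.2)) ^ (k + 1) := by
        rw [← pow_mul, ← pow_mul, ← pow_mul,
          show (p.1 + p.2) * (k + 1) = (k + 1) * p.1 + (k + 1) * p.2 by ring, pow_add]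
        push_cast
        ring
      rw [e]
      generalize (om n ^ (p.1 + p.2)) ^ (k + 1) = z
      rw [Complex.re_ofReal_mul, Complex.im_ofReal_mul]
      ring
  simp only [h1]
  rw [sum_add_distrib, ← mul_sum, sum_comm]
  congr 1
  · unfold K
    push_cast
    rw [sq, sum_mul_sum, sum_product]
  · refine sum_congr rfl fun k _ => ?_
    rw [sum_add_distrib, ← mul_sum, ← mul_sum]
    have h2 : F b y n (om n ^ (k + 1)) ^ 2 = ∑ p ∈ range (n + 1) ×ˢ range (n + 1),
        ((x b y p.1 : ℂ) * (om n ^ (k + 1)) ^ p.1) * ((x b y p.2 : ℂ) * (om n ^ (k + 1)) ^ p.2) := by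
      unfold F
      rw [sq, sum_mul_sum, sum_product]
    rw [h2, Complex.re_sum, Complex.im_sum]

/-- dropping the pairs with large sum -/
lemma pair_lower (n J : ℕ) (c : ℝ) (α β : ℕ → ℝ) (hg : ∀ m, 0 ≤ tp n J c α β m) :
    ∑ m ∈ range (n + 1), (r b y m : ℝ) * tp n J c α β m ≤
      c * (K b y n : ℝ) ^ 2 + ∑ k ∈ range J, (α k * ((F b y n (om n ^ (k + 1))) ^ 2).re +
        β k * ((F b y n (om n ^ (k + 1))) ^ 2).im) := by
  rw [← pair_eval, pair_sum n (fun i j => ((x b y i : ℝ) * x b y j) * tp n J c α β (i + j))]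
  have h1 : 0 ≤ ∑ p ∈ (range (n + 1) ×ˢ range (n + 1)).filter (fun p => ¬ p.1 + p.2 ≤ n),
      ((x b y p.1 : ℝ) * x b y p.2) * tp n J c α β (p.1 + p.2) :=
    sum_nonneg fun p _ => mul_nonneg (by positivity) (hg _)
  have h2 : ∑ m ∈ range (n + 1), (r b y m : ℝ) * tp n J c α β m =
      ∑ m ∈ range (n + 1), ∑ p ∈ antidiagonal m,
        ((x b y p.1 : ℝ) * x b y p.2) * tp n J c α β (p.1 + p.2) := by
    refine sum_congr rfl fun m _ => ?_
    unfold r
    push_cast
    rw [sum_mul]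
    refine sum_congr rfl fun p hp => ?_
    rw [HasAntidiagonal.mem_antidiagonal] at hp
    rw [hp]
  rw [h2]
  linarith

/-- summation by parts -/
lemma abel (hb : 2 ≤ b) (hy0 : 0 < y) (hy1 : y < 1) (g : ℕ → ℝ) (n : ℕ) :
    ∑ m ∈ range (n + 1), (r b y m : ℝ) * g m =
      ((b : ℝ) - 1) * ∑ m ∈ range n, T b y m * g m +
        b * ∑ m ∈ range n, T b y m * (g (m + 1) - g m) + T b y 0 * g 0 - T b y n * g n := by
  induction n with
  | zero => simp [r_zero hy0 hy1]
  | succ n ih =>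
    rw [sum_range_succ, ih, sum_range_succ _ n, sum_range_succ _ n]
    have h1 := T_succ hb hy0 hy1 (b := b) n
    have h2 : (r b y (n + 1) : ℝ) = b * T b y n - T b y (n + 1) := by linarith
    rw [h2]
    ring

lemma tp_le (n J : ℕ) (c : ℝ) (α β : ℕ → ℝ) (hα : ∀ k, |α k| ≤ 2 * c)
    (hβ : ∀ k, |β k| ≤ 2 * c) (m : ℕ) : tp n J c α β m ≤ c * (1 + 4 * J) := by
  unfold tp
  have h1 : ∑ k ∈ range J, (α k * ((om n ^ m) ^ (k + 1)).re + β k * ((om n ^ m) ^ (k + 1)).im) ≤
      ∑ _k ∈ range J, (4 * c) := by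
    refine sum_le_sum fun k _ => ?_
    rw [← pow_mul]
    have e1 : |(om n ^ (m * (k + 1))).re| ≤ 1 := by
      rw [← norm_om_pow n (m * (k + 1))]; exact Complex.abs_re_le_norm _
    have e2 : |(om n ^ (m * (k + 1))).im| ≤ 1 := by
      rw [← norm_om_pow n (m * (k + 1))]; exact Complex.abs_im_le_norm _
    have e3 : α k * (om n ^ (m * (k + 1))).re ≤ 2 * c := by
      calc α k * (om n ^ (m * (k + 1))).re ≤ |α k * (om n ^ (m * (k + 1))).re| := le_abs_self _
        _ = |α k| * |(om n ^ (m * (k + 1))).re| := abs_mul _ _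
        _ ≤ |α k| * 1 := mul_le_mul_of_nonneg_left e1 (abs_nonneg _)
        _ ≤ 2 * c := by rw [mul_one]; exact hα k
    have e4 : β k * (om n ^ (m * (k + 1))).im ≤ 2 * c := by
      calc β k * (om n ^ (m * (k + 1))).im ≤ |β k * (om n ^ (m * (k + 1))).im| := le_abs_self _
        _ = |β k| * |(om n ^ (m * (k + 1))).im| := abs_mul _ _
        _ ≤ |β k| * 1 := mul_le_mul_of_nonneg_left e2 (abs_nonneg _)
        _ ≤ 2 * c := by rw [mul_one]; exact hβ k
    linarith
  rw [sum_const, card_range, nsmul_eq_mul] at h1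
  linarith

lemma norm_om_sub_one_le {n : ℕ} (hn : 0 < n) (k : ℕ) : ‖om n ^ k - 1‖ ≤ k * (Real.pi / n) := by
  rw [om_pow]
  have h := Real.norm_exp_I_mul_ofReal_sub_one_le (x := k * (Real.pi / n))
  rw [mul_comm]
  refine h.trans (le_of_eq ?_)
  rw [Real.norm_eq_abs, abs_of_nonneg]
  have := Real.pi_pos
  positivity

lemma tp_diff {n : ℕ} (hn : 0 < n) (J : ℕ) (c : ℝ) (hc : 0 ≤ c) (α β : ℕ → ℝ)
    (hα : ∀ k, |α k| ≤ 2 * c) (hβ : ∀ k, |β k| ≤ 2 * c) (m : ℕ) :
    |tp n J c α β (m + 1) - tp n J c α β m| ≤ c * (4 * J ^ 2 * Real.pi) / n := by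
  unfold tp
  have hn0 : (0 : ℝ) < n := by exact_mod_cast hn
  have hpi := Real.pi_pos
  have e : (c + ∑ k ∈ range J, (α k * ((om n ^ (m + 1)) ^ (k + 1)).re +
      β k * ((om n ^ (m + 1)) ^ (k + 1)).im)) - (c + ∑ k ∈ range J,
      (α k * ((om n ^ m) ^ (k + 1)).re + β k * ((om n ^ m) ^ (k + 1)).im)) =
      ∑ k ∈ range J, (α k * ((om n ^ m) ^ (k + 1) * (om n ^ (k + 1) - 1)).re +
        β k * ((om n ^ m) ^ (k + 1) * (om n ^ (k + 1) - 1)).im) := by
    rw [add_sub_add_left_eq_sub, ← sum_sub_distrib]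
    refine sum_congr rfl fun k _ => ?_
    have e1 : (om n ^ m) ^ (k + 1) * (om n ^ (k + 1) - 1) =
        (om n ^ (m + 1)) ^ (k + 1) - (om n ^ m) ^ (k + 1) := by
      rw [pow_succ (om n) m, mul_pow]
      ring
    rw [e1, Complex.sub_re, Complex.sub_im]
    ring
  rw [e]
  refine (abs_sum_le_sum_abs _ _).trans ?_
  have h1 : ∀ k ∈ range J, |α k * ((om n ^ m) ^ (k + 1) * (om n ^ (k + 1) - 1)).re +
      β k * ((om n ^ m) ^ (k + 1) * (om n ^ (k + 1) - 1)).im| ≤ 4 * c * (J * (Real.pi / n)) := by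
    intro k hk
    have hkJ : ((k + 1 : ℕ) : ℝ) ≤ J := by exact_mod_cast mem_range.mp hk
    have hz : ‖(om n ^ m) ^ (k + 1) * (om n ^ (k + 1) - 1)‖ ≤ J * (Real.pi / n) := by
      rw [norm_mul, ← pow_mul, norm_om_pow, one_mul]
      refine (norm_om_sub_one_le hn (k + 1)).trans ?_
      exact mul_le_mul_of_nonneg_right hkJ (by positivity)
    have e1 := (Complex.abs_re_le_norm ((om n ^ m) ^ (k + 1) * (om n ^ (k + 1) - 1))).trans hz
    have e2 := (Complex.abs_im_le_norm ((om n ^ m) ^ (k + 1) * (om n ^ (k + 1) - 1))).trans hz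
    refine (abs_add_le _ _).trans ?_
    rw [abs_mul, abs_mul]
    have e3 := mul_le_mul (hα k) e1 (abs_nonneg _) (by linarith)
    have e4 := mul_le_mul (hβ k) e2 (abs_nonneg _) (by linarith)
    linarith
  refine (sum_le_sum h1).trans (le_of_eq ?_)
  rw [sum_const, card_range, nsmul_eq_mul]
  field_simp

/-- the geometric sums -/
noncomputable def lam (k : ℕ) : ℝ := if k % 2 = 1 then 2 / (Real.pi * k) else 0

lemma geom {n k : ℕ} (hk : 1 ≤ k) (hn : 8 * k ≤ n) :
    ‖∑ m ∈ range n, (om n ^ m) ^ k - n * (((lam k : ℝ) : ℂ) * Complex.I)‖ ≤ 4 := by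
  have hpi := Real.pi_pos
  have hpi4 := Real.pi_lt_d2
  have hk0 : (0 : ℝ) < k := by exact_mod_cast hk
  have hn0 : (0 : ℝ) < n := by exact_mod_cast (by omega : 0 < n)
  have hnk : (8 : ℝ) * k ≤ n := by exact_mod_cast hn
  set θ : ℝ := k * (Real.pi / n) with hθ
  have hθ0 : 0 < θ := by positivity
  have hθ1 : θ ≤ 1 / 2 := by
    rw [hθ]
    have : (k : ℝ) * (Real.pi / n) = k * Real.pi / n := by ring
    rw [this, div_le_iff₀ hn0]
    nlinarith
  set z : ℂ := om n ^ k with hz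
  have hz1 : z = Complex.exp ((θ : ℂ) * Complex.I) := by rw [hz, om_pow]
  have hsum : ∑ m ∈ range n, (om n ^ m) ^ k = ∑ m ∈ range n, z ^ m := by
    refine sum_congr rfl fun m _ => ?_
    rw [hz, ← pow_mul, ← pow_mul, mul_comm]
  have hexp : ‖z - 1 - (θ : ℂ) * Complex.I‖ ≤ θ ^ 2 := by
    have h1 := Complex.norm_exp_sub_one_sub_id_le (x := (θ : ℂ) * Complex.I) (by
      rw [norm_mul, Complex.norm_I, mul_one, Complex.norm_real, Real.norm_eq_abs,
        abs_of_pos hθ0]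
      linarith)
    rw [norm_mul, Complex.norm_I, mul_one, Complex.norm_real, Real.norm_eq_abs,
        abs_of_pos hθ0] at h1
    rw [hz1]
    exact h1
  have hlow : θ / 2 ≤ ‖1 - z‖ := by
    have h1 : ‖(θ : ℂ) * Complex.I‖ = θ := by
      rw [norm_mul, Complex.norm_I, mul_one, Complex.norm_real, Real.norm_eq_abs,
        abs_of_pos hθ0]
    have h2 : ‖(θ : ℂ) * Complex.I‖ ≤ ‖z - 1‖ + ‖z - 1 - (θ : ℂ) * Complex.I‖ := by
      have : (θ : ℂ) * Complex.I = (z - 1) - (z - 1 - (θ : ℂ) * Complex.I) := by ring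
      nth_rewrite 1 [this]
      exact norm_sub_le _ _
    rw [h1] at h2
    rw [← norm_neg, neg_sub]
    nlinarith
  have hzne : (1 : ℂ) - z ≠ 0 := by
    intro h
    rw [h, norm_zero] at hlow
    linarith
  have hzn : z ^ n = Complex.exp ((k : ℂ) * ((Real.pi : ℂ) * Complex.I)) := by
    rw [hz1, ← Complex.exp_nat_mul]
    congr 1
    rw [hθ]
    push_cast
    have : (n : ℂ) ≠ 0 := by exact_mod_cast hn0.ne'
    field_simp
  have hg := mul_neg_geom_sum z n
  rw [hsum]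
  rcases Nat.even_or_odd k with he | ho
  · have h1 : z ^ n = 1 := by
      rw [hzn, Complex.exp_eq_one_iff]
      obtain ⟨j, hj⟩ := he
      refine ⟨j, ?_⟩
      rw [hj]
      push_cast
      ring
    rw [h1, sub_self] at hg
    have h2 : ∑ m ∈ range n, z ^ m = 0 := by
      rcases mul_eq_zero.mp hg with h | h
      · exact absurd h hzne
      · exact h
    rw [h2]
    have h3 : lam k = 0 := by
      unfold lam
      rw [if_neg]
      have := Nat.even_iff.mp he
      omega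
    rw [h3]
    norm_num
  · have h1 : z ^ n = -1 := by
      rw [hzn]
      obtain ⟨j, hj⟩ := ho
      rw [hj]
      have : (((2 * j + 1 : ℕ) : ℂ)) * ((Real.pi : ℂ) * Complex.I) =
          j * (2 * Real.pi * Complex.I) + Real.pi * Complex.I := by push_cast; ring
      rw [this, Complex.exp_add, Complex.exp_pi_mul_I, Complex.exp_nat_mul_two_pi_mul_I]
      norm_num
    rw [h1] at hg
    have h2 : ∑ m ∈ range n, z ^ m = 2 / (1 - z) := by
      rw [eq_div_iff hzne, mul_comm, hg]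
      norm_num
    have h3 : lam k = 2 / (Real.pi * k) := by
      unfold lam
      rw [if_pos (Nat.odd_iff.mp ho)]
    have h4 : (n : ℂ) * (((lam k : ℝ) : ℂ) * Complex.I) = 2 * Complex.I / (θ : ℂ) := by
      rw [h3, hθ]
      push_cast
      have e1 : (n : ℂ) ≠ 0 := by exact_mod_cast hn0.ne'
      have e2 : (k : ℂ) ≠ 0 := by exact_mod_cast hk0.ne'
      have e3 : (Real.pi : ℂ) ≠ 0 := by exact_mod_cast hpi.ne'
      field_simp
    rw [h2, h4]
    have hθc : (θ : ℂ) ≠ 0 := by exact_mod_cast hθ0.ne'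
    have h5 : 2 / (1 - z) - 2 * Complex.I / (θ : ℂ) =
        2 * Complex.I * (z - 1 - (θ : ℂ) * Complex.I) / ((1 - z) * θ) := by
      field_simp
      linear_combination (θ : ℂ) * Complex.I_sq
    rw [h5, norm_div, norm_mul, norm_mul, norm_mul, Complex.norm_I, Complex.norm_real,
      Real.norm_eq_abs, abs_of_pos hθ0]
    have h6 : (0 : ℝ) < ‖1 - z‖ * θ := mul_pos (by linarith) hθ0
    rw [div_le_iff₀ h6]
    have h7 : ‖(2 : ℂ)‖ = 2 := by norm_num
    rw [h7]
    nlinarith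

end

end Run7.h409.Dig
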