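import Pool.Agent.Run7.h409.Dig.Cert

/-!
# Autocorrelations and nonnegative trigonometric polynomials
-/

set_option autoImplicit false

open Finset

namespace Run7.h409.Dig

/-- the value of a polynomial -/
noncomputable def hv (w : ℂ) : List (ℤ × ℤ) → ℂ
  | [] => 0
  | a :: l => ((a.1 : ℂ) + (a.2 : ℂ) * Complex.I) + w * hv w l

lemma dr_nil_left (t : List (ℤ × ℤ)) : dr [] t = 0 := by
  cases t <;> rfl

lemma di_nil_left (t : List (ℤ × ℤ)) : di [] t = 0 := by
  cases t <;> rfl

/-- coefficient -/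
def cf (l : List (ℤ × ℤ)) (i : ℕ) : ℤ × ℤ := l.getD i (0, 0)

lemma dr_drop_cons (a : ℤ × ℤ) (l : List (ℤ × ℤ)) (i : ℕ) :
    dr (l.drop i) (a :: l) = (cf l i).1 * a.1 + (cf l i).2 * a.2 + dr (l.drop (i + 1)) l := by
  rcases Nat.lt_or_ge i l.length with h | h
  · rw [List.drop_eq_getElem_cons h]
    have : cf l i = l[i] := by
      unfold cf
      rw [List.getD_eq_getElem _ _ h]
    rw [this]
    rfl
  · rw [List.drop_eq_nil_of_le h, List.drop_eq_nil_of_le (by omega), dr_nil_left, dr_nil_left]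
    have : cf l i = (0, 0) := by
      unfold cf
      rw [List.getD_eq_default _ _ h]
    rw [this]
    simp

lemma di_drop_cons (a : ℤ × ℤ) (l : List (ℤ × ℤ)) (i : ℕ) :
    di (l.drop i) (a :: l) = (cf l i).2 * a.1 - (cf l i).1 * a.2 + di (l.drop (i + 1)) l := by
  rcases Nat.lt_or_ge i l.length with h | h
  · rw [List.drop_eq_getElem_cons h]
    have : cf l i = l[i] := by
      unfold cf
      rw [List.getD_eq_getElem _ _ h]
    rw [this]
    rfl
  · rw [List.drop_eq_nil_of_le h, List.drop_eq_nil_of_le (by omega), di_nil_left, di_nil_left]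
    have : cf l i = (0, 0) := by
      unfold cf
      rw [List.getD_eq_default _ _ h]
    rw [this]
    simp

lemma hv_eq (w : ℂ) (l : List (ℤ × ℤ)) : ∀ n, l.length ≤ n →
    hv w l = ∑ i ∈ range n, (((cf l i).1 : ℂ) + ((cf l i).2 : ℂ) * Complex.I) * w ^ i := by
  induction l with
  | nil =>
    intro n _
    simp [hv, cf]
  | cons a l ih =>
    intro n hn
    rw [List.length_cons] at hn
    obtain ⟨m, rfl⟩ : ∃ m, n = m + 1 := ⟨n - 1, by omega⟩
    rw [sum_range_succ', hv, ih m (by omega), mul_sum, add_comm]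
    congr 1
    · refine sum_congr rfl fun i _ => ?_
      have : cf (a :: l) (i + 1) = cf l i := by unfold cf; simp
      rw [this, pow_succ]
      ring
    · have : cf (a :: l) 0 = a := by unfold cf; simp
      rw [this]
      simp

lemma ac (w : ℂ) (hw : Complex.normSq w = 1) (l : List (ℤ × ℤ)) : ∀ n, l.length ≤ n + 1 →
    Complex.normSq (hv w l) = (cr l 0 : ℝ) + ∑ i ∈ range n,
      (2 * (cr l (i + 1) : ℝ) * (w ^ (i + 1)).re - 2 * (ci l (i + 1) : ℝ) * (w ^ (i + 1)).im) := by
  induction l with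
  | nil =>
    intro n _
    simp [hv, cr, ci, dr_nil_left, di_nil_left, dr]
  | cons a l ih =>
    intro n hn
    rw [List.length_cons] at hn
    have hl : l.length ≤ n := by omega
    have e1 : Complex.normSq (hv w (a :: l)) = ((a.1 : ℝ) ^ 2 + (a.2 : ℝ) ^ 2) +
        Complex.normSq (hv w l) +
        2 * ((((a.1 : ℂ) - (a.2 : ℂ) * Complex.I)) * (w * hv w l)).re := by
      rw [hv]
      have h2 : Complex.normSq (w * hv w l) = Complex.normSq (hv w l) := by
        rw [Complex.normSq_mul, hw, one_mul]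
      rw [← h2]
      generalize w * hv w l = z
      simp only [Complex.normSq_apply, Complex.add_re, Complex.add_im, Complex.mul_re,
        Complex.mul_im, Complex.sub_re, Complex.sub_im, Complex.intCast_re, Complex.intCast_im,
        Complex.I_re, Complex.I_im]
      ring
    rw [e1, ih n (by omega)]
    have e2 : ((((a.1 : ℂ) - (a.2 : ℂ) * Complex.I)) * (w * hv w l)).re =
        ∑ i ∈ range n, ((((cf l i).1 * a.1 + (cf l i).2 * a.2 : ℤ) : ℝ) * (w ^ (i + 1)).re -
          (((cf l i).2 * a.1 - (cf l i).1 * a.2 : ℤ) : ℝ) * (w ^ (i + 1)).im) := by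
      rw [hv_eq w l n hl, mul_sum, mul_sum, Complex.re_sum]
      refine sum_congr rfl fun i _ => ?_
      have e3 : (((a.1 : ℂ) - (a.2 : ℂ) * Complex.I)) *
          (w * ((((cf l i).1 : ℂ) + ((cf l i).2 : ℂ) * Complex.I) * w ^ i)) =
          ((a.1 : ℂ) - (a.2 : ℂ) * Complex.I) * (((cf l i).1 : ℂ) + ((cf l i).2 : ℂ) * Complex.I) *
            w ^ (i + 1) := by
        rw [pow_succ]; ring
      rw [e3]
      generalize w ^ (i + 1) = z
      simp only [Complex.add_re, Complex.add_im, Complex.mul_re,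
        Complex.mul_im, Complex.sub_re, Complex.sub_im, Complex.intCast_re, Complex.intCast_im,
        Complex.I_re, Complex.I_im]
      push_cast
      ring
    rw [e2]
    have e4 : (cr (a :: l) 0 : ℝ) = (a.1 : ℝ) ^ 2 + (a.2 : ℝ) ^ 2 + cr l 0 := by
      unfold cr
      simp only [List.drop_zero, dr]
      push_cast
      ring
    rw [e4, mul_sum]
    have e5 : ∑ i ∈ range n, (2 * (cr (a :: l) (i + 1) : ℝ) * (w ^ (i + 1)).re -
        2 * (ci (a :: l) (i + 1) : ℝ) * (w ^ (i + 1)).im) =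
        ∑ i ∈ range n, (2 * (cr l (i + 1) : ℝ) * (w ^ (i + 1)).re -
          2 * (ci l (i + 1) : ℝ) * (w ^ (i + 1)).im) +
        ∑ i ∈ range n, 2 * ((((cf l i).1 * a.1 + (cf l i).2 * a.2 : ℤ) : ℝ) * (w ^ (i + 1)).re -
          (((cf l i).2 * a.1 - (cf l i).1 * a.2 : ℤ) : ℝ) * (w ^ (i + 1)).im) := by
      rw [← sum_add_distrib]
      refine sum_congr rfl fun i _ => ?_
      have h1 : cr (a :: l) (i + 1) = (cf l i).1 * a.1 + (cf l i).2 * a.2 + cr l (i + 1) := by
        unfold cr
        rw [List.drop_succ_cons, dr_drop_cons]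
      have h2 : ci (a :: l) (i + 1) = (cf l i).2 * a.1 - (cf l i).1 * a.2 + ci l (i + 1) := by
        unfold ci
        rw [List.drop_succ_cons, di_drop_cons]
      rw [h1, h2]
      push_cast
      ring
    rw [e5]
    ring

/-! ### size of the autocorrelations -/

lemma dr_self_nonneg (l : List (ℤ × ℤ)) : 0 ≤ dr l l := by
  induction l with
  | nil => simp [dr]
  | cons a l ih => rw [dr]; nlinarith [sq_nonneg a.1, sq_nonneg a.2]

lemma dr_abs (s : List (ℤ × ℤ)) : ∀ t, 2 * |dr s t| ≤ dr s s + dr t t := by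
  induction s with
  | nil => intro t; rw [dr_nil_left]; simp [dr, dr_self_nonneg]
  | cons a s ih =>
    intro t
    cases t with
    | nil =>
      have := dr_self_nonneg (a :: s)
      simp only [dr] at this ⊢
      simp
      linarith
    | cons c t =>
      simp only [dr]
      have h1 := ih t
      have h2 : |a.1 * c.1 + a.2 * c.2 + dr s t| ≤ |a.1 * c.1 + a.2 * c.2| + |dr s t| :=
        abs_add_le _ _
      have h3 : 2 * |a.1 * c.1 + a.2 * c.2| ≤ a.1 * a.1 + a.2 * a.2 + (c.1 * c.1 + c.2 * c.2) := by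
        rcases abs_cases (a.1 * c.1 + a.2 * c.2) with h | h
        · rw [h.1]
          nlinarith [sq_nonneg (a.1 - c.1), sq_nonneg (a.2 - c.2)]
        · rw [h.1]
          nlinarith [sq_nonneg (a.1 + c.1), sq_nonneg (a.2 + c.2)]
      linarith

lemma di_abs (s : List (ℤ × ℤ)) : ∀ t, 2 * |di s t| ≤ dr s s + dr t t := by
  induction s with
  | nil => intro t; rw [di_nil_left]; simp [dr, dr_self_nonneg]
  | cons a s ih =>
    intro t
    cases t with
    | nil =>
      have := dr_self_nonneg (a :: s)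
      simp only [dr, di] at this ⊢
      simp
      linarith
    | cons c t =>
      simp only [dr, di]
      have h1 := ih t
      have h2 : |a.2 * c.1 - a.1 * c.2 + di s t| ≤ |a.2 * c.1 - a.1 * c.2| + |di s t| :=
        abs_add_le _ _
      have h3 : 2 * |a.2 * c.1 - a.1 * c.2| ≤ a.1 * a.1 + a.2 * a.2 + (c.1 * c.1 + c.2 * c.2) := by
        rcases abs_cases (a.2 * c.1 - a.1 * c.2) with h | h
        · rw [h.1]
          nlinarith [sq_nonneg (a.2 - c.1), sq_nonneg (a.1 + c.2)]
        · rw [h.1]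
          nlinarith [sq_nonneg (a.2 + c.1), sq_nonneg (a.1 - c.2)]
      linarith

lemma dr_drop_le (l : List (ℤ × ℤ)) : ∀ k, dr (l.drop k) (l.drop k) ≤ dr l l := by
  induction l with
  | nil => intro k; simp
  | cons a l ih =>
    intro k
    cases k with
    | zero => simp
    | succ k =>
      rw [List.drop_succ_cons]
      refine (ih k).trans ?_
      rw [dr]
      nlinarith [sq_nonneg a.1, sq_nonneg a.2]

lemma cr_abs (l : List (ℤ × ℤ)) (k : ℕ) : |cr l k| ≤ cr l 0 := by
  have h1 := dr_abs (l.drop k) l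
  have h2 := dr_drop_le l k
  unfold cr
  rw [List.drop_zero]
  linarith

lemma ci_abs (l : List (ℤ × ℤ)) (k : ℕ) : |ci l k| ≤ cr l 0 := by
  have h1 := di_abs (l.drop k) l
  have h2 := dr_drop_le l k
  unfold ci cr
  rw [List.drop_zero]
  linarith

lemma ci_zero (l : List (ℤ × ℤ)) : ci l 0 = 0 := by
  unfold ci
  rw [List.drop_zero]
  induction l with
  | nil => rfl
  | cons a l ih => rw [di, ih]; ring

/-! ### multiplication by the sine -/

lemma tele (u s : ℕ → ℝ) (h0 : s 0 = 0) (n : ℕ) :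
    u 0 * s 1 + ∑ i ∈ range n, u (i + 1) * (s (i + 2) - s i) =
      ∑ i ∈ range (n + 1), (u i - u (i + 2)) * s (i + 1) + u (n + 1) * s n +
        u (n + 2) * s (n + 1) := by
  induction n with
  | zero => simp [h0]; ring
  | succ n ih =>
    rw [sum_range_succ, sum_range_succ _ (n + 1), ← add_assoc, ih]
    ring

lemma tele' (v c : ℕ → ℝ) (h0 : v 0 = 0) (hc : c 0 = 1) (n : ℕ) :
    ∑ i ∈ range n, v (i + 1) * (c i - c (i + 2)) =
      v 1 - ∑ i ∈ range (n + 1), (v i - v (i + 2)) * c (i + 1) - v (n + 1) * c n -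
        v (n + 2) * c (n + 1) := by
  induction n with
  | zero => simp [h0, hc]
  | succ n ih =>
    rw [sum_range_succ, sum_range_succ _ (n + 1), ih]
    ring

lemma ac_sin (w : ℂ) (hw : Complex.normSq w = 1) (l : List (ℤ × ℤ)) (J : ℕ)
    (hl : l.length ≤ J) :
    w.im * Complex.normSq (hv w l) = -(ci l 1 : ℝ) + ∑ i ∈ range J,
      (((ci l i - ci l (i + 2) : ℤ) : ℝ) * (w ^ (i + 1)).re +
        ((cr l i - cr l (i + 2) : ℤ) : ℝ) * (w ^ (i + 1)).im) := by
  cases J with
  | zero =>
    have : l = [] := List.length_eq_zero_iff.mp (by omega)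
    subst this
    simp [hv, ci, di_nil_left]
  | succ n =>
    rw [ac w hw l n hl]
    have hw' : w.re * w.re + w.im * w.im = 1 := by rw [← hw, Complex.normSq_apply]
    have hC : ∀ k, 2 * w.im * (w ^ (k + 1)).re = (w ^ (k + 2)).im - (w ^ k).im := by
      intro k
      have h1 : w ^ (k + 2) = w ^ (k + 1) * w := pow_succ _ _
      have h2 : w ^ (k + 1) = w ^ k * w := pow_succ _ _
      rw [h1, Complex.mul_im, h2, Complex.mul_re, Complex.mul_im]
      linear_combination (-(w ^ k).im) * hw'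
    have hS : ∀ k, 2 * w.im * (w ^ (k + 1)).im = (w ^ k).re - (w ^ (k + 2)).re := by
      intro k
      have h1 : w ^ (k + 2) = w ^ (k + 1) * w := pow_succ _ _
      have h2 : w ^ (k + 1) = w ^ k * w := pow_succ _ _
      rw [h1, Complex.mul_re, h2, Complex.mul_re, Complex.mul_im]
      linear_combination ((w ^ k).re) * hw'
    have z1 : ∀ k, l.length ≤ k → cr l k = 0 := by
      intro k hk
      unfold cr
      rw [List.drop_eq_nil_of_le hk, dr_nil_left]
    have z2 : ∀ k, l.length ≤ k → ci l k = 0 := by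
      intro k hk
      unfold ci
      rw [List.drop_eq_nil_of_le hk, di_nil_left]
    have t1 := tele (fun k => (cr l k : ℝ)) (fun k => (w ^ k).im) (by simp) n
    have t2 := tele' (fun k => (ci l k : ℝ)) (fun k => (w ^ k).re) (by simp [ci_zero])
      (by simp) n
    simp only [z1 (n + 1) hl, z1 (n + 2) (by omega), z2 (n + 1) hl, z2 (n + 2) (by omega),
      Int.cast_zero, zero_mul, add_zero, sub_zero, pow_one] at t1 t2
    have e1 : w.im * ((cr l 0 : ℝ) + ∑ i ∈ range n,
        (2 * (cr l (i + 1) : ℝ) * (w ^ (i + 1)).re - 2 * (ci l (i + 1) : ℝ) * (w ^ (i + 1)).im)) =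
        ((cr l 0 : ℝ) * w.im + ∑ i ∈ range n, (cr l (i + 1) : ℝ) * ((w ^ (i + 2)).im - (w ^ i).im))
        - ∑ i ∈ range n, (ci l (i + 1) : ℝ) * ((w ^ i).re - (w ^ (i + 2)).re) := by
      rw [mul_add, mul_sum, add_sub_assoc, ← sum_sub_distrib]
      congr 1
      · ring
      · refine sum_congr rfl fun i _ => ?_
        rw [← hC, ← hS]
        ring
    rw [e1, t1, t2]
    have e2 : ∑ i ∈ range (n + 1), (((ci l i - ci l (i + 2) : ℤ) : ℝ) * (w ^ (i + 1)).re +
        ((cr l i - cr l (i + 2) : ℤ) : ℝ) * (w ^ (i + 1)).im) =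
        ∑ i ∈ range (n + 1), ((cr l i : ℝ) - (cr l (i + 2) : ℝ)) * (w ^ (i + 1)).im +
        ∑ i ∈ range (n + 1), ((ci l i : ℝ) - (ci l (i + 2) : ℝ)) * (w ^ (i + 1)).re := by
      rw [← sum_add_distrib]
      refine sum_congr rfl fun i _ => ?_
      push_cast
      ring
    rw [e2]
    ring

end Run7.h409.Dig
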